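import Pool.Agent.Run7.h874.Prm

/-!
# Composition of one-step checks
-/

set_option autoImplicit false

namespace Run7.h874

theorem chkS {p : Prm} {d d' : SD} {l : List SD} (h : (one p d && link p d d') = true)
    (h' : chkL p (d' :: l) = true) : chkL p (d :: d' :: l) = true := by
  show (one p d && link p d d' && chkL p (d' :: l)) = true
  rw [h, h']
  rfl

theorem chk1 {p : Prm} {d : SD} (h : one p d = true) : chkL p [d] = true := h

end Run7.h874
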