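import Pool.Agent.Run7.h874.Tone

/-!
# One certified step, and chains of certified steps
-/

set_option autoImplicit false

namespace Run7.h874

open Complex Set

theorem nsub_bound : ∀ (x y : List ℤ) {t : ℝ}, 0 ≤ t → t ≤ 1 → |ev x t - ev y t| ≤ nsub x y
  | [], l, t, h0, h1 => by
    simp only [ev, zero_sub, abs_neg, nsub]; exact ev_bound l h0 h1
  | a :: l, [], t, h0, h1 => by
    have := ev_bound (a :: l) h0 h1
    simpa [ev, nsub] using this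
  | a :: l, b :: m, t, h0, h1 => by
    have ih := nsub_bound l m h0 h1
    simp only [ev, nsub]
    have e : (a:ℝ) + t * ev l t - (b + t * ev m t) = ((a - b : ℤ) : ℝ) + t * (ev l t - ev m t) := by
      push_cast; ring
    rw [e]
    refine (abs_add_le _ _).trans ?_
    have h2 : |((a - b : ℤ) : ℝ)| = (((a - b).natAbs : ℕ) : ℝ) := by
      rw [Nat.cast_natAbs]; push_cast; rfl
    rw [abs_mul, abs_of_nonneg h0, h2, Nat.cast_add]
    nlinarith [abs_nonneg (ev l t - ev m t)]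

/-- hypotheses bundle -/
structure Hyp : Prop where
  B1 : StmtB1
  B2 : StmtB2
  B3 : StmtB3
  C1 : StmtC1
  C2 : StmtC2
  C5 : StmtC5

theorem Nb_small (hH : Hyp) {kind : ℕ} {w e : ℝ} (hw : kind = 1 → 1/2 ≤ w) {d v : ℂ}
    (h : Nb kind w e d v) : ‖d‖ ≤ 3 * e ∧ ‖v‖ ≤ 3 * e := by
  unfold Nb at h
  split at h
  · rename_i hk
    have := hw hk
    have h1 : ‖d‖ ≤ 2 * e := by nlinarith [h.1, norm_nonneg d]
    refine ⟨by linarith [norm_nonneg d], ?_⟩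
    have e1 : v = (v + I * d) - I * d := by ring
    rw [e1]
    refine (norm_sub_le _ _).trans ?_
    rw [norm_mul, norm_I, one_mul]
    linarith [h.2]
  · have h1 := hH.C2 d v
    have h2 := h1.2.2.2.2.1
    have h3 := h1.2.2.2.2.2.1
    have h4 := norm_nonneg (uc d v)
    constructor <;> linarith [h.1, h.2]

theorem uc_neg (ζ v : ℂ) : uc (-ζ) (-v) = -uc ζ v := by
  unfold uc; simp only [neg_re, neg_im]; push_cast; ring
theorem sc_neg (ζ v : ℂ) : sc (-ζ) (-v) = -sc ζ v := by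
  unfold sc; simp only [neg_re, neg_im]; push_cast; ring

theorem f0_odd (ϱ : ℝ) (x : P2) : f0 ϱ (-x) = -f0 ϱ x := by
  unfold f0
  have e1 : (-x).1 + 1/2 = -(x.1 - 1/2) := by simp; ring
  have e2 : (-x).1 - 1/2 = -(x.1 + 1/2) := by simp; ring
  rw [e1, e2, gc_odd, gc_odd]
  apply Prod.ext
  · simp
  · simp; ring

theorem acc0_odd (z v : ℂ) : acc0 (-z) (-v) = -acc0 z v := by
  unfold acc0
  have e1 : -z + 1/2 = -(z - 1/2) := by ring
  have e2 : -z - 1/2 = -(z + 1/2) := by ring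
  rw [e1, e2, gc_odd, gc_odd]; ring

theorem Ref.neg {h δ g1 g2 : ℝ} {z v : ℝ → ℂ} (H : Ref h δ g1 g2 z v) :
    Ref h δ g2 g1 (fun s => -z s) (fun s => -v s) where
  hz := fun s hs => (H.hz s hs).neg
  hv := fun s hs => by
    obtain ⟨a, h1, h2⟩ := H.hv s hs
    refine ⟨-a, h1.neg, ?_⟩
    rw [acc0_odd, ← neg_sub', norm_neg]
    exact h2
  h1 := fun s hs => by
    have := H.h2 s hs
    have e : -z s + 1/2 = -(z s - 1/2) := by ring
    rw [e, norm_neg]; exact this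
  h2 := fun s hs => by
    have := H.h1 s hs
    have e : -z s - 1/2 = -(z s + 1/2) := by ring
    rw [e, norm_neg]; exact this

theorem Orb.neg {h : ℝ} {Z V : ℝ → ℂ} (H : Orb h Z V) :
    Orb h (fun s => -Z s) (fun s => -V s) := by
  intro s hs
  obtain ⟨h1, h2⟩ := H s hs
  refine ⟨h1.neg, ?_⟩
  have e : (f0 rho0 (-Z s, -V s)).2 = -(f0 rho0 (Z s, V s)).2 := by
    have := f0_odd rho0 (Z s, V s)
    rw [Prod.neg_mk] at this
    rw [this]; rfl
  rw [e]; exact h2.neg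

theorem StepData.neg {h δ g1 g2 B : ℝ} {Z V zp vp zn vn : ℝ → ℂ} {q : ℝ}
    (H : StepData h δ g1 g2 B Z V zp vp zn vn q) :
    StepData h δ g2 g1 B (fun s => -Z s) (fun s => -V s) (fun s => -zp s) (fun s => -vp s)
      (fun s => -zn s) (fun s => -vn s) q where
  orb := H.orb.neg
  rp := H.rp.neg
  rn := H.rn.neg
  hq := H.hq
  hB := fun s hs => by
    have e : -zp s - -zn s = -(zp s - zn s) := by ring
    rw [e, norm_neg]; exact H.hB s hs
  hg1 := H.hg2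
  hg2 := H.hg1
  hg1' := H.hg2'
  hg2' := H.hg1'
  hh := H.hh
  hδ := H.hδ
  hB0 := H.hB0

theorem dz_neg (Z zp zn : ℝ → ℂ) (q s : ℝ) :
    dz (fun s => -Z s) (fun s => -zp s) (fun s => -zn s) q s = -dz Z zp zn q s := by
  unfold dz; ring

/-- conclusion of a certified step for the orbit of `y` -/
structure StepC (p : Prm) (d : SD) (φ : ℝ → P2 → P2) (q : ℝ) (y : P2) : Prop where
  flag : ∀ s ∈ Icc 0 d.h, flagP p.c d.fl (φ s y)
  nb : ∀ s ∈ Icc 0 d.h, Nb d.kind d.W (d.Eout p) ((φ s y).1 - d.z p q s) ((φ s y).2 - d.v p q s)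

theorem orb_of_flow {φ : ℝ → P2 → P2} (hφ : IsFlow (f0 rho0) φ) (y : P2) (h : ℝ) :
    Orb h (fun s => (φ s y).1) (fun s => (φ s y).2) := by
  intro s _
  have h1 := hφ.deriv s y
  have h2 := h1.fst
  have h3 := h1.snd
  exact ⟨h2, h3⟩

theorem tone_pos {p : Prm} {d : SD} {x y g h : List ℤ} (ht : tone p d x y g h = true) :
    0 < d.g1 ∧ 0 < d.g2 := by
  unfold tone at ht
  simp only [Bool.and_eq_true, Nat.ble_eq] at ht
  obtain ⟨⟨⟨⟨⟨⟨⟨⟨⟨hc, ha⟩, q1⟩, q2⟩, q3⟩, q4⟩, q5⟩, q6⟩, q7⟩, q8⟩ := ht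
  have q3' : nl1 (tl0 g) < (hd0 g).toNat := by simpa using q3
  have q4' : nl1 (tl0 h) < (hd0 h).toNat := by simpa using q4
  have key : ∀ (l : List ℤ) (k : ℕ), nl1 (tl0 l) < (hd0 l).toNat →
      2 ^ 20 * 1025 * nl1 l ≤ 2 ^ p.P * 1024 * k → 0 < k := by
    intro l k h1 h2
    rcases Nat.eq_zero_or_pos k with h | h
    · subst h
      have h3 : nl1 l = 0 := by omega
      cases l with
      | nil => simp [hd0] at h1
      | cons a l =>
        simp only [nl1] at h3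
        have : a = 0 := by omega
        simp [hd0, this] at h1
    · exact h
  exact ⟨key g _ q3' q1, key h _ q4' q2⟩

theorem dfc_le (p : Prm) (d : SD) :
    dfc p.P (4 * p.N + 1) d.b d.g1 d.g2 ≤ (dacc p d : ℝ) / 2 ^ p.E := by
  have h1 := Nat.lt_div_mul_add (a := (4 * p.N + 1) * 2 ^ d.b *
    (2 ^ 40 + 3 * (d.g1 ^ 2 + d.g2 ^ 2)) * 2 ^ p.E) (b := 2 ^ (4 * p.P + 40)) (by positivity)
  have h2 : (((4 * p.N + 1) * 2 ^ d.b *
    (2 ^ 40 + 3 * (d.g1 ^ 2 + d.g2 ^ 2)) * 2 ^ p.E : ℕ) : ℝ)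
      ≤ (((4 * p.N + 1) * 2 ^ d.b * (2 ^ 40 + 3 * (d.g1 ^ 2 + d.g2 ^ 2)) * 2 ^ p.E
        / 2 ^ (4 * p.P + 40) : ℕ) : ℝ) * 2 ^ (4 * p.P + 40) + 2 ^ (4 * p.P + 40) := by
    exact_mod_cast h1.le
  unfold dacc dfc
  rw [Nat.cast_add, Nat.cast_one]
  generalize (4 * p.N + 1) * 2 ^ d.b * (2 ^ 40 + 3 * (d.g1 ^ 2 + d.g2 ^ 2)) * 2 ^ p.E
        / 2 ^ (4 * p.P + 40) = k at h2 ⊢
  rw [le_div_iff₀ (by positivity)]
  push_cast at h2 ⊢
  have e : (4 * (p.N:ℝ) + 1) * 2 ^ d.b / 2 ^ (4 * p.P) *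
      (1 + 3 * (((d.g1 : ℝ) / 2 ^ 20) ^ 2 + ((d.g2 : ℝ) / 2 ^ 20) ^ 2)) * 2 ^ p.E
      = ((4 * (p.N:ℝ) + 1) * 2 ^ d.b * (2 ^ 40 + 3 * ((d.g1:ℝ) ^ 2 + (d.g2:ℝ) ^ 2)) * 2 ^ p.E)
        / 2 ^ (4 * p.P + 40) := by
    rw [pow_add]; field_simp
  rw [e, div_le_iff₀ (by positivity)]
  linarith

theorem dconv_le (p : Prm) (d : SD) :
    3/8 * (((d.g1 : ℝ) / 2 ^ 20) ^ 4 + ((d.g2 : ℝ) / 2 ^ 20) ^ 4) * ((d.B : ℝ) / 2 ^ p.E) ^ 2
      ≤ (dconv p d : ℝ) / 2 ^ p.E := by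
  have h1 := Nat.lt_div_mul_add (a := 3 * (d.g1 ^ 4 + d.g2 ^ 4) * d.B ^ 2)
    (b := 8 * 2 ^ (80 + p.E)) (by positivity)
  have h2 : ((3 * (d.g1 ^ 4 + d.g2 ^ 4) * d.B ^ 2 : ℕ) : ℝ)
      ≤ ((3 * (d.g1 ^ 4 + d.g2 ^ 4) * d.B ^ 2 / (8 * 2 ^ (80 + p.E)) : ℕ) : ℝ)
        * (8 * 2 ^ (80 + p.E)) + (8 * 2 ^ (80 + p.E)) := by
    exact_mod_cast h1.le
  unfold dconv
  rw [Nat.cast_add, Nat.cast_one]
  generalize 3 * (d.g1 ^ 4 + d.g2 ^ 4) * d.B ^ 2 / (8 * 2 ^ (80 + p.E)) = k at h2 ⊢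
  rw [le_div_iff₀ (by positivity)]
  push_cast at h2 ⊢
  have e : 3/8 * (((d.g1 : ℝ) / 2 ^ 20) ^ 4 + ((d.g2 : ℝ) / 2 ^ 20) ^ 4) * ((d.B : ℝ) / 2 ^ p.E) ^ 2
      * 2 ^ p.E = (3 * ((d.g1:ℝ) ^ 4 + (d.g2:ℝ) ^ 4) * (d.B:ℝ) ^ 2) / (8 * 2 ^ (80 + p.E)) := by
    rw [pow_add]; field_simp
  rw [e, div_le_iff₀ (by positivity)]
  linarith

theorem sep_bound {p : Prm} {m : ℕ} {xp yp xn yn : List ℤ} {E B : ℕ}
    (h : (nsub xp xn + nsub yp yn) * 2 ^ E ≤ B * 2 ^ p.P) {s : ℝ} (h0 : 0 ≤ 2 ^ m * s)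
    (h1 : 2 ^ m * s ≤ 1) : ‖zt p.P m xp yp s - zt p.P m xn yn s‖ ≤ (B:ℝ) / 2 ^ E := by
  have hP0 : (0:ℝ) < 2 ^ p.P := by positivity
  have e : zt p.P m xp yp s - zt p.P m xn yn s
      = ⟨(ev xp (2 ^ m * s) - ev xn (2 ^ m * s)) / 2 ^ p.P,
        (ev yp (2 ^ m * s) - ev yn (2 ^ m * s)) / 2 ^ p.P⟩ := by
    apply Complex.ext <;> simp [zt] <;> ring
  rw [e]
  refine (norm_mk_le _ _).trans ?_
  rw [abs_div, abs_div, abs_of_pos hP0, ← add_div, div_le_div_iff₀ hP0 (by positivity)]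
  have h2 := nsub_bound xp xn h0 h1
  have h3 := nsub_bound yp yn h0 h1
  have h4 : (((nsub xp xn + nsub yp yn) * 2 ^ E : ℕ) : ℝ) ≤ ((B * 2 ^ p.P : ℕ) : ℝ) := by
    exact_mod_cast h
  push_cast at h4
  refine le_trans ?_ h4
  exact mul_le_mul_of_nonneg_right (by linarith) (by positivity)

/-- flags from closeness to the reference trajectories -/
theorem flag_of {p : Prm} {d : SD} {xp yp xn yn : List ℤ} (T1 : TF p d xp yp) (T2 : TF p d xn yn)
    {q : ℝ} (hq : q ∈ Icc (0:ℝ) 1) {s : ℝ} (hs : s ∈ Icc 0 d.h) {Z V : ℂ}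
    (hz : ‖Z - (zt p.P d.m xn yn s + (q:ℂ) * (zt p.P d.m xp yp s - zt p.P d.m xn yn s))‖ ≤ 1/10^6)
    (hv : ‖V - (vt p.P d.m xn yn s + (q:ℂ) * (vt p.P d.m xp yp s - vt p.P d.m xn yn s))‖ ≤ 1/10^6)
    (f1 : 1/2000 ≤ ‖Z + 1/2‖) (f2 : 1/2000 ≤ ‖Z - 1/2‖) : flagP p.c d.fl (Z, V) := by
  set zq := zt p.P d.m xn yn s + (q:ℂ) * (zt p.P d.m xp yp s - zt p.P d.m xn yn s) with hzq
  set vq := vt p.P d.m xn yn s + (q:ℂ) * (vt p.P d.m xp yp s - vt p.P d.m xn yn s) with hvq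
  have ez : zq = ((1 - q : ℝ) : ℂ) * zt p.P d.m xn yn s + (q:ℂ) * zt p.P d.m xp yp s := by
    rw [hzq]; push_cast; ring
  have evq : vq = ((1 - q : ℝ) : ℂ) * vt p.P d.m xn yn s + (q:ℂ) * vt p.P d.m xp yp s := by
    rw [hvq]; push_cast; ring
  have nz : ‖zq‖ ≤ 9 := by rw [ez]; exact convex_defect hq (T2.nz s hs) (T1.nz s hs)
  have nv : ‖vq‖ ≤ 900 := by rw [evq]; exact convex_defect hq (T2.nv s hs) (T1.nv s hs)
  have him : zq.im = (1 - q) * (zt p.P d.m xn yn s).im + q * (zt p.P d.m xp yp s).im := by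
    rw [ez]; simp [-ofReal_sub, sub_mul]
  have hre : zq.re = (1 - q) * (zt p.P d.m xn yn s).re + q * (zt p.P d.m xp yp s).re := by
    rw [ez]; simp [-ofReal_sub, sub_mul]
  have hvim : vq.im = (1 - q) * (vt p.P d.m xn yn s).im + q * (vt p.P d.m xp yp s).im := by
    rw [evq]; simp [-ofReal_sub, sub_mul]
  have a1 := abs_le.mp ((Complex.abs_im_le_norm (Z - zq)).trans hz)
  have a2 := abs_le.mp ((Complex.abs_re_le_norm (Z - zq)).trans hz)
  have a3 := abs_le.mp ((Complex.abs_im_le_norm (V - vq)).trans hv)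
  rw [sub_im] at a1 a3
  rw [sub_re] at a2
  obtain ⟨q0, q1⟩ := hq
  have r0 : rho0 = 1/10000 := rfl
  refine ⟨⟨?_, ?_, ?_, ?_⟩, ?_⟩
  · rw [r0]; refine le_trans ?_ f1; norm_num
  · rw [r0]; refine le_trans ?_ f2; norm_num
  · have e : Z = (Z - zq) + zq := by ring
    change ‖Z‖ ≤ 10
    rw [e]; exact (norm_add_le _ _).trans (by linarith)
  · have e : V = (V - vq) + vq := by ring
    change ‖V‖ ≤ 1000
    rw [e]; exact (norm_add_le _ _).trans (by linarith)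
  · by_cases h0 : d.fl = 0
    · rw [if_pos h0]
      have b1 := T1.f0 h0 s hs
      have b2 := T2.f0 h0 s hs
      change 1/10^5 ≤ Z.im
      nlinarith
    · rw [if_neg h0]
      by_cases h1 : d.fl = 1
      · rw [if_pos h1]
        obtain ⟨b1, b2, b3, b4⟩ := T1.f1 h1 s hs
        obtain ⟨c1, c2, c3, c4⟩ := T2.f1 h1 s hs
        refine ⟨?_, ?_⟩
        · change V.im ≤ -(1/10^5)
          nlinarith
        · by_cases g0 : p.c = 0
          · rw [if_pos g0]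
            have := b2 g0
            have := c2 g0
            change Z.re ≤ -1/2 - 1/10^5
            nlinarith
          · rw [if_neg g0]
            by_cases g1 : p.c = 1
            · rw [if_pos g1]
              have := b3 g1
              have := c3 g1
              change 1/2 + 1/10^5 ≤ Z.re
              nlinarith
            · rw [if_neg g1]
              have g2 : 2 ≤ p.c := by omega
              obtain ⟨d1, d2⟩ := b4 g2
              obtain ⟨d3, d4⟩ := c4 g2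
              change -1/2 + 1/10^5 ≤ Z.re ∧ Z.re ≤ 1/2 - 1/10^5
              constructor <;> nlinarith
      · rw [if_neg h1]
        have h2 : 2 ≤ d.fl := by omega
        have b1 := T1.f2 h2 s hs
        have b2 := T2.f2 h2 s hs
        change Z.im ≤ -(1/10^5)
        nlinarith

theorem one_sound (hH : Hyp) {p : Prm} {d : SD} (ho : one p d = true) (hs : p.sok)
    {φ : ℝ → P2 → P2} (hφ : IsFlow (f0 rho0) φ) {q : ℝ} (hq : q ∈ Icc (0:ℝ) 1) {y : P2}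
    (hi : Nb d.kind d.W (d.Ein p) (y.1 - d.z p q 0) (y.2 - d.v p q 0)) :
    StepC p d φ q y := by
  unfold one at ho
  simp only [Bool.and_eq_true, Nat.ble_eq] at ho
  obtain ⟨⟨⟨⟨⟨⟨⟨⟨⟨⟨⟨t1, t2⟩, k1⟩, k2⟩, k3⟩, k4⟩, k5⟩, k6⟩, k7⟩, k8⟩, k9⟩, k10⟩ := ho
  have T1 := tone_sound t1 k5 hs
  have T2 := tone_sound t2 k5 hs
  obtain ⟨gp1, gp2⟩ := tone_pos t1
  have hE0 : (0:ℝ) < 2 ^ p.E := by positivity
  have hτ : ∀ s ∈ Icc 0 d.h, 0 ≤ 2 ^ d.m * s ∧ 2 ^ d.m * s ≤ 1 := fun s hs =>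
    ⟨mul_nonneg (by positivity) hs.1, scaled_le rfl hs⟩
  have g1p : (0:ℝ) < (d.g1:ℝ) / 2 ^ 20 := by
    have : (0:ℝ) < d.g1 := by exact_mod_cast gp1
    positivity
  have g2p : (0:ℝ) < (d.g2:ℝ) / 2 ^ 20 := by
    have : (0:ℝ) < d.g2 := by exact_mod_cast gp2
    positivity
  have g1b : (d.g1:ℝ) / 2 ^ 20 ≤ 2000 := by
    rw [div_le_iff₀ (by positivity)]
    exact_mod_cast (le_max_left d.g1 d.g2).trans k6
  have g2b : (d.g2:ℝ) / 2 ^ 20 ≤ 2000 := by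
    rw [div_le_iff₀ (by positivity)]
    exact_mod_cast (le_max_right d.g1 d.g2).trans k6
  have hdf0 : 0 ≤ dfc p.P (4 * p.N + 1) d.b d.g1 d.g2 := by unfold dfc; positivity
  -- the step data
  have SDt : StepData d.h (dfc p.P (4 * p.N + 1) d.b d.g1 d.g2) ((d.g1:ℝ) / 2 ^ 20)
      ((d.g2:ℝ) / 2 ^ 20) ((d.B:ℝ) / 2 ^ p.E) (fun s => (φ s y).1) (fun s => (φ s y).2)
      (zt p.P d.m (p.u d.xp) (p.u d.yp)) (vt p.P d.m (p.u d.xp) (p.u d.yp))
      (zt p.P d.m (p.u d.xn) (p.u d.yn)) (vt p.P d.m (p.u d.xn) (p.u d.yn)) q :=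
    { orb := orb_of_flow hφ y d.h
      rp := T1.ref
      rn := T2.ref
      hq := hq
      hB := fun s hs => sep_bound k1 (hτ s hs).1 (hτ s hs).2
      hg1 := g1p
      hg2 := g2p
      hg1' := g1b
      hg2' := g2b
      hh := d.h_pos.le
      hδ := hdf0
      hB0 := by positivity }
  have hEo0 : 0 ≤ d.Eout p := by unfold SD.Eout; positivity
  have hEi0 : 0 ≤ d.Ein p := by unfold SD.Ein; positivity
  have hEo : d.Eout p ≤ 1 / 2 ^ 22 := by
    unfold SD.Eout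
    rw [div_le_div_iff₀ hE0 (by positivity)]
    have h1 : ((d.eout : ℕ) : ℝ) ≤ ((2 ^ (p.E - 22) : ℕ) : ℝ) := by exact_mod_cast k3
    have h2 : (2:ℝ) ^ p.E = 2 ^ (p.E - 22) * 2 ^ 22 := by rw [← pow_add]; congr 1; omega
    rw [h2]
    push_cast at h1
    nlinarith
  have hBg : ∀ g : ℕ, g ≤ max d.g1 d.g2 →
      ((d.B:ℝ) / 2 ^ p.E + 3 * d.Eout p) * ((g:ℝ) / 2 ^ 20) ≤ 1/4096 := by
    intro g hg
    have h1 : (d.B + 3 * d.eout) * g ≤ 2 ^ (p.E + 8) := (Nat.mul_le_mul_left _ hg).trans k2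
    have h2 : (((d.B + 3 * d.eout) * g : ℕ) : ℝ) ≤ ((2 ^ (p.E + 8) : ℕ) : ℝ) := by
      exact_mod_cast h1
    push_cast at h2
    unfold SD.Eout
    have e : ((d.B:ℝ) / 2 ^ p.E + 3 * ((d.eout:ℝ) / 2 ^ p.E)) * ((g:ℝ) / 2 ^ 20)
        = ((d.B + 3 * d.eout) * g : ℝ) / (2 ^ p.E * 2 ^ 20) := by field_simp
    rw [e, div_le_div_iff₀ (by positivity) (by norm_num)]
    rw [pow_add] at h2
    norm_num at h2 ⊢
    nlinarith
  have hexp : Real.exp ((d.L:ℝ) / 2 ^ 20 * d.h) ≤ (d.F:ℝ) / 2 ^ 30 := exp_le_of_expUp k8 k9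
  have hL0 : (0:ℝ) ≤ (d.L:ℝ) / 2 ^ 20 := by positivity
  have hF1 : (1:ℝ) ≤ (d.F:ℝ) / 2 ^ 30 :=
    le_trans (Real.one_le_exp (mul_nonneg hL0 d.h_pos.le)) hexp
  have hdc := dconv_le p d
  have hda := dfc_le p d
  have hz0 : ∀ s, (φ s y).1 - d.z p q s = dz (fun s => (φ s y).1)
      (zt p.P d.m (p.u d.xp) (p.u d.yp)) (zt p.P d.m (p.u d.xn) (p.u d.yn)) q s := by
    intro s; rfl
  have hv0 : ∀ s, (φ s y).2 - d.v p q s = dz (fun s => (φ s y).2)
      (vt p.P d.m (p.u d.xp) (p.u d.yp)) (vt p.P d.m (p.u d.xn) (p.u d.yn)) q s := by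
    intro s; rfl
  have hy0 : φ 0 y = y := hφ.zero y
  rw [← hy0] at hi
  rw [hz0, hv0] at hi
  -- the norm bound
  have key : (∀ s ∈ Icc 0 d.h, Nb d.kind d.W (d.Eout p) ((φ s y).1 - d.z p q s)
      ((φ s y).2 - d.v p q s)) ∧ (d.kind = 1 → 1/2 ≤ d.W) := by
    by_cases hk : d.kind = 1
    · rw [hk] at k10
      simp only [Bool.and_eq_true, Nat.ble_eq] at k10
      obtain ⟨⟨⟨w1, w2⟩, w3⟩, w4⟩ := k10
      have hw : (1:ℝ)/2 ≤ d.W := by
        unfold SD.W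
        rw [le_div_iff₀ (by positivity)]
        have : ((2 ^ 19 : ℕ) : ℝ) ≤ d.w := by exact_mod_cast w1
        norm_num at this ⊢
        linarith
      refine ⟨?_, fun _ => hw⟩
      have hi' := hi
      unfold Nb at hi'
      rw [if_pos hk] at hi'
      have P1 := plain_step hH.B1 hH.B3 SDt (w := d.W) (L := (d.L:ℝ) / 2 ^ 20) (e0 := d.Ein p)
        (eo := d.Eout p) (δ' := ((dacc p d : ℝ) + dconv p d + 1) / 2 ^ p.E) hw
        (by unfold SD.W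
            apply div_le_div_of_nonneg_right _ (by positivity)
            exact_mod_cast w2)
        (by unfold SD.W
            have h1 : ((d.g1 ^ 3 + d.g2 ^ 3 : ℕ) : ℝ) ≤ ((d.L * d.w * 2 ^ 20 : ℕ) : ℝ) := by
              exact_mod_cast w3
            push_cast at h1
            have e1 : ((d.g1:ℝ) / 2 ^ 20) ^ 3 + ((d.g2:ℝ) / 2 ^ 20) ^ 3
              = ((d.g1:ℝ) ^ 3 + (d.g2:ℝ) ^ 3) / 2 ^ 60 := by ring
            have e2 : (d.L:ℝ) / 2 ^ 20 * ((d.w:ℝ) / 2 ^ 20) = (d.L * d.w * 2 ^ 20 : ℝ) / 2 ^ 60 := by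
              ring
            rw [e1, e2]
            exact div_le_div_of_nonneg_right (by exact_mod_cast h1) (by positivity))
        (by have e1 : ((dacc p d : ℝ) + dconv p d + 1) / 2 ^ p.E
              = (dacc p d : ℝ) / 2 ^ p.E + (dconv p d : ℝ) / 2 ^ p.E + 1 / 2 ^ p.E := by ring
            rw [e1]
            have : (0:ℝ) < 1 / 2 ^ p.E := by positivity
            linarith) hEi0
        (by refine le_trans (mul_le_mul_of_nonneg_left hexp ?_) ?_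
            · have := d.h_pos.le
              positivity
            · have h1 : (((d.ein * 2 ^ d.m + (dacc p d + dconv p d) + 1) * d.F : ℕ) : ℝ)
                ≤ ((d.eout * 2 ^ (30 + d.m) : ℕ) : ℝ) := by exact_mod_cast w4
              unfold SD.Ein SD.Eout SD.h
              push_cast at h1
              have e1 : ((d.ein:ℝ) / 2 ^ p.E + ((dacc p d : ℝ) + dconv p d + 1) / 2 ^ p.E * (2 ^ d.m)⁻¹)
                * ((d.F:ℝ) / 2 ^ 30) = ((d.ein * 2 ^ d.m + (dacc p d + dconv p d) + 1) * d.F : ℝ)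
                  / (2 ^ p.E * 2 ^ (30 + d.m)) := by
                rw [pow_add]; field_simp
                ring
              have e2 : (d.eout:ℝ) / 2 ^ p.E = (d.eout * 2 ^ (30 + d.m) : ℝ)
                  / (2 ^ p.E * 2 ^ (30 + d.m)) := by field_simp
              rw [e1, e2]
              exact div_le_div_of_nonneg_right (by exact_mod_cast h1) (by positivity))
        (hBg _ (le_max_left _ _)) (hBg _ (le_max_right _ _)) hi'.1 hi'.2
      intro s hs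
      unfold Nb
      rw [if_pos hk, hz0, hv0]
      exact P1 s hs
    · refine ⟨?_, fun h => absurd h hk⟩
      have kk : (d.D + 2 ≤ 2 ^ 16) ∧ ((6321 * 2 ^ 20) * (2 ^ 20 - (d.D + 1)) ^ 4
          + 154300 * (d.D + 1) * 2 ^ 80 ≤ 10000 * d.L * (2 ^ 20 - (d.D + 1)) ^ 4) ∧
          ((1000 * d.ein * 2 ^ d.m + 1276 * (dacc p d + dconv p d) + 1) * d.F
            ≤ 1000 * d.eout * 2 ^ (30 + d.m)) := by
        split at k10
        · rename_i h; exact absurd h hk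
        · simp only [Bool.and_eq_true, Nat.ble_eq] at k10
          exact ⟨k10.1.1, k10.1.2, k10.2⟩
      obtain ⟨w1, w2, w3⟩ := kk
      have hDle : ((d.D:ℕ):ℝ) + 2 ≤ 2 ^ 16 := by exact_mod_cast w1
      have hρ1 : ((d.D:ℝ) + 1) / 2 ^ 20 < 1 := by
        rw [div_lt_one (by positivity)]
        norm_num at hDle ⊢
        linarith
      have hρD : (d.D:ℝ) / 2 ^ 20 + 3 * d.Eout p ≤ ((d.D:ℝ) + 1) / 2 ^ 20 := by
        rw [add_div]
        norm_num at hEo ⊢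
        linarith
      have hLρ : 0.6321 + 15.43 * (((d.D:ℝ) + 1) / 2 ^ 20) / (1 - ((d.D:ℝ) + 1) / 2 ^ 20) ^ 4
          ≤ (d.L:ℝ) / 2 ^ 20 := by
        have h1 : (((6321 * 2 ^ 20) * (2 ^ 20 - (d.D + 1)) ^ 4
          + 154300 * (d.D + 1) * 2 ^ 80 : ℕ) : ℝ) ≤ ((10000 * d.L * (2 ^ 20 - (d.D + 1)) ^ 4 : ℕ) : ℝ) := by
          exact_mod_cast w2
        have hsub : (((2 ^ 20 - (d.D + 1) : ℕ)) : ℝ) = 2 ^ 20 - ((d.D:ℝ) + 1) := by
          rw [Nat.cast_sub (by omega)]; push_cast; ring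
        rw [Nat.cast_add, Nat.cast_mul, Nat.cast_mul, Nat.cast_mul, Nat.cast_mul, Nat.cast_mul,
          Nat.cast_mul, Nat.cast_pow (2 ^ 20 - (d.D + 1)), hsub] at h1
        push_cast at h1
        set D1 : ℝ := (d.D:ℝ) + 1 with hD1
        have hD1' : D1 / 2 ^ 20 < 1 := hρ1
        have hpos : 0 < (2:ℝ) ^ 20 - D1 := by
          rw [div_lt_one (by positivity)] at hD1'
          linarith
        have e1 : (1 - D1 / 2 ^ 20) ^ 4 = ((2:ℝ) ^ 20 - D1) ^ 4 / 2 ^ 80 := by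
          have : (1 - D1 / 2 ^ 20) = ((2:ℝ) ^ 20 - D1) / 2 ^ 20 := by ring
          rw [this, div_pow, ← pow_mul]
        rw [e1, ← sub_nonneg]
        have hp4 : 0 < ((2:ℝ) ^ 20 - D1) ^ 4 := by positivity
        have e2 : (d.L:ℝ) / 2 ^ 20 - (0.6321 + 15.43 * (D1 / 2 ^ 20) / (((2:ℝ) ^ 20 - D1) ^ 4 / 2 ^ 80))
            = (10000 * d.L * (2 ^ 20 - D1) ^ 4 - (6321 * 2 ^ 20 * (2 ^ 20 - D1) ^ 4
              + 154300 * D1 * 2 ^ 80)) / (10000 * 2 ^ 20 * (2 ^ 20 - D1) ^ 4) := by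
          rw [eq_div_iff (by positivity)]
          field_simp
          ring
        rw [e2]
        apply div_nonneg _ (by positivity)
        linarith
      have hδ' : 1.276 * (dfc p.P (4 * p.N + 1) d.b d.g1 d.g2 + 3/8 * (((d.g1 : ℝ) / 2 ^ 20) ^ 4
          + ((d.g2 : ℝ) / 2 ^ 20) ^ 4) * ((d.B : ℝ) / 2 ^ p.E) ^ 2)
          < (1.276 * ((dacc p d : ℝ) + dconv p d) + 1/1000) / 2 ^ p.E := by
        have e1 : (1.276 * ((dacc p d : ℝ) + dconv p d) + 1/1000) / 2 ^ p.E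
              = 1.276 * ((dacc p d : ℝ) / 2 ^ p.E + (dconv p d : ℝ) / 2 ^ p.E)
                + 1/1000 / 2 ^ p.E := by ring
        rw [e1]
        have : (0:ℝ) < 1/1000 / 2 ^ p.E := by positivity
        linarith
      have heo : (d.Ein p + (1.276 * ((dacc p d : ℝ) + dconv p d) + 1/1000) / 2 ^ p.E * d.h)
          * Real.exp ((d.L:ℝ) / 2 ^ 20 * d.h) ≤ d.Eout p := by
        refine le_trans (mul_le_mul_of_nonneg_left hexp ?_) ?_
        · have := d.h_pos.le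
          positivity
        · have h1 : (((1000 * d.ein * 2 ^ d.m + 1276 * (dacc p d + dconv p d) + 1) * d.F : ℕ) : ℝ)
            ≤ ((1000 * d.eout * 2 ^ (30 + d.m) : ℕ) : ℝ) := by exact_mod_cast w3
          unfold SD.Ein SD.Eout SD.h
          push_cast at h1
          have e1 : ((d.ein:ℝ) / 2 ^ p.E + (1.276 * ((dacc p d : ℝ) + dconv p d) + 1/1000) / 2 ^ p.E
            * (2 ^ d.m)⁻¹) * ((d.F:ℝ) / 2 ^ 30)
              = ((1000 * d.ein * 2 ^ d.m + 1276 * (dacc p d + dconv p d) + 1) * d.F : ℝ)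
              / (1000 * (2 ^ p.E * 2 ^ (30 + d.m))) := by
            rw [pow_add]; field_simp
            ring
          have e2 : (d.eout:ℝ) / 2 ^ p.E = (1000 * d.eout * 2 ^ (30 + d.m) : ℝ)
              / (1000 * (2 ^ p.E * 2 ^ (30 + d.m))) := by field_simp
          rw [e1, e2]
          exact div_le_div_of_nonneg_right (by exact_mod_cast h1) (by positivity)
      have hi' := hi
      unfold Nb at hi'
      rw [if_neg hk] at hi'
      by_cases hk0 : d.kind = 0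
      · have P1 := hub_step hH.B2 hH.B3 hH.C1 hH.C2 hH.C5 SDt (T1.k0 hk0) (T2.k0 hk0) hρD hρ1 hEo0
          hLρ hδ' hEi0 heo (hBg _ (le_max_left _ _)) (hBg _ (le_max_right _ _)) hi'.1 hi'.2
        intro s hs
        unfold Nb
        rw [if_neg hk, hz0, hv0]
        exact P1 s hs
      · have hk2 : 2 ≤ d.kind := by omega
        have hδ'' : 1.276 * (dfc p.P (4 * p.N + 1) d.b d.g1 d.g2 + 3/8 * (((d.g2 : ℝ) / 2 ^ 20) ^ 4
          + ((d.g1 : ℝ) / 2 ^ 20) ^ 4) * ((d.B : ℝ) / 2 ^ p.E) ^ 2)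
          < (1.276 * ((dacc p d : ℝ) + dconv p d) + 1/1000) / 2 ^ p.E := by
          rw [add_comm (((d.g2 : ℝ) / 2 ^ 20) ^ 4)]; exact hδ'
        have P1 := hub_step hH.B2 hH.B3 hH.C1 hH.C2 hH.C5 SDt.neg (T1.k2 hk2) (T2.k2 hk2) hρD hρ1 hEo0
          hLρ hδ'' hEi0 heo (hBg _ (le_max_right _ _)) (hBg _ (le_max_left _ _))
          (by rw [dz_neg, dz_neg, uc_neg, norm_neg]; exact hi'.1)
          (by rw [dz_neg, dz_neg, sc_neg, norm_neg]; exact hi'.2)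
        intro s hs
        unfold Nb
        rw [if_neg hk, hz0, hv0]
        have P2 := P1 s hs
        rw [dz_neg, dz_neg, uc_neg, sc_neg, norm_neg, norm_neg] at P2
        exact P2
  refine ⟨?_, key.1⟩
  intro s hs
  obtain ⟨n1, n2⟩ := Nb_small hH key.2 (key.1 s hs)
  have n3 : 3 * d.Eout p ≤ 1/10^6 := by
    norm_num at hEo ⊢
    linarith
  -- distance to the primaries
  obtain ⟨-, a, -, hr⟩ := step_deriv hH.B3 SDt hs
  rw [hz0] at n1
  obtain ⟨r, -, -, s1, s2⟩ := hr (3 * d.Eout p) n1 (hBg _ (le_max_left _ _)) (hBg _ (le_max_right _ _))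
  have s1' := s1 1 ⟨by norm_num, le_refl _⟩
  have s2' := s2 1 ⟨by norm_num, le_refl _⟩
  have e1 : ∀ a b : ℂ, a + ((1:ℝ):ℂ) * (b - a) = b := by intro a b; push_cast; ring
  rw [e1] at s1' s2'
  have m1 : (1:ℝ)/2000 ≤ 1 / ((d.g1:ℝ) / 2 ^ 20) := one_div_le_one_div_of_le g1p g1b
  have m2 : (1:ℝ)/2000 ≤ 1 / ((d.g2:ℝ) / 2 ^ 20) := one_div_le_one_div_of_le g2p g2b
  rw [← hz0] at n1
  exact flag_of T1 T2 hq hs (n1.trans n3) (n2.trans n3) (m1.trans s1') (m2.trans s2')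

end Run7.h874
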