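import Mathlib

/-!
# Integer checker for piecewise polynomial trajectories
-/

set_option autoImplicit false

namespace Run7.h874

/-- unpack `n` signed digits of width `W` (offset `2^(W-1)`) -/
def unp (W : ℕ) : ℕ → ℕ → List ℤ
  | 0, _ => []
  | n + 1, N => (((N % 2 ^ W : ℕ) : ℤ) - (2 ^ (W - 1) : ℕ)) :: unp W n (N / 2 ^ W)

def evI (B : ℤ) : List ℤ → ℤ
  | [] => 0
  | a :: l => a + B * evI B l

/-- sum of absolute values -/
def nl1 : List ℤ → ℕ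
  | [] => 0
  | a :: l => a.natAbs + nl1 l

def sumI : List ℤ → ℤ
  | [] => 0
  | a :: l => a + sumI l

/-- multiply the `i`-th entry by `k + i` -/
def mulIdx : ℕ → List ℤ → List ℤ
  | _, [] => []
  | k, a :: l => ((k : ℤ) * a) :: mulIdx (k + 1) l

/-- derivative of a coefficient list -/
def derL : List ℤ → List ℤ
  | [] => []
  | _ :: l => mulIdx 1 l

/-- `l¹` norm of the difference -/
def nsub : List ℤ → List ℤ → ℕ
  | [], l => nl1 l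
  | a :: l, [] => nl1 (a :: l)
  | a :: l, b :: m => (a - b).natAbs + nsub l m

def hd0 : List ℤ → ℤ
  | [] => 0
  | a :: _ => a

def tl0 : List ℤ → List ℤ
  | [] => []
  | _ :: l => l

/-- geometric sum `1 + 2^K + ... + 2^(K(D-1))` -/
def rep (K D : ℕ) : ℕ := (2 ^ (K * D) - 1) / (2 ^ K - 1)

/-- packed integer `c` represents a polynomial with `D` coefficients, all of absolute value at most
`2^b` : digit test in base `2^K` -/
def small (K D b : ℕ) (c : ℤ) : Bool :=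
  match c + ((2 ^ b * rep K D : ℕ) : ℤ) with
  | Int.ofNat n => Nat.blt n (2 ^ (K * D)) &&
      Nat.beq (Nat.land n (2 ^ (b + 1) * (2 ^ (K - (b + 1)) - 1) * rep K D)) 0
  | Int.negSucc _ => false

/-- polynomial identities checked for one trajectory on one step. `P` precision, `K` Kronecker
exponent, `D` number of digits, `b` bound exponent, `m` : step length `2^(-m)` -/
def tchk (P K D b m : ℕ) (x y g h : List ℤ) : Bool :=
  small K D b (evI (2 ^ K) g ^ 2 * ((evI (2 ^ K) x + 2 ^ (P - 1)) ^ 2 + evI (2 ^ K) y ^ 2)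
    - 2 ^ (4 * P)) &&
  small K D b (evI (2 ^ K) h ^ 2 * ((evI (2 ^ K) x - 2 ^ (P - 1)) ^ 2 + evI (2 ^ K) y ^ 2)
    - 2 ^ (4 * P)) &&
  small K D b (2 * 2 ^ (3 * P) * (4 ^ m * evI (2 ^ K) (derL (derL x))
      - 2 ^ (m + 1) * evI (2 ^ K) (derL y) - evI (2 ^ K) x)
    + (evI (2 ^ K) x + 2 ^ (P - 1)) * evI (2 ^ K) g ^ 3
    + (evI (2 ^ K) x - 2 ^ (P - 1)) * evI (2 ^ K) h ^ 3) &&
  small K D b (2 * 2 ^ (3 * P) * (4 ^ m * evI (2 ^ K) (derL (derL y))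
      + 2 ^ (m + 1) * evI (2 ^ K) (derL x) - evI (2 ^ K) y)
    + evI (2 ^ K) y * (evI (2 ^ K) g ^ 3 + evI (2 ^ K) h ^ 3))

/-- a priori size of the coefficients: Kronecker substitution at `2^K` loses nothing -/
def apri (P K D b m : ℕ) (x y g h : List ℤ) : Bool :=
  Nat.ble (x.length + 1) D && Nat.ble (4 * x.length) (D + 3) && Nat.ble (4 * y.length) (D + 3) &&
  Nat.ble (4 * g.length) (D + 3) && Nat.ble (4 * h.length) (D + 3) && Nat.ble 2 x.length &&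
  Nat.ble 2 y.length && Nat.ble (b + 2) K && Nat.ble 1 P &&
  Nat.ble (D * 2 ^ (b + 12)) (2 ^ (4 * P)) &&
  Nat.ble (nl1 g ^ 2 * ((nl1 x + 2 ^ (P - 1)) ^ 2 + nl1 y ^ 2) + 2 ^ (4 * P)) (2 ^ (K - 2)) &&
  Nat.ble (nl1 h ^ 2 * ((nl1 x + 2 ^ (P - 1)) ^ 2 + nl1 y ^ 2) + 2 ^ (4 * P)) (2 ^ (K - 2)) &&
  Nat.ble (2 * 2 ^ (3 * P) * (4 ^ m * nl1 (derL (derL x)) + 2 ^ (m + 1) * nl1 (derL y) + nl1 x)
    + (nl1 x + 2 ^ (P - 1)) * (nl1 g ^ 3 + nl1 h ^ 3)) (2 ^ (K - 2)) &&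
  Nat.ble (2 * 2 ^ (3 * P) * (4 ^ m * nl1 (derL (derL y)) + 2 ^ (m + 1) * nl1 (derL x) + nl1 y)
    + nl1 y * (nl1 g ^ 3 + nl1 h ^ 3)) (2 ^ (K - 2))

/-- upper bound check `exp (L / 2^20 / 2^m) ≤ F / 2^30` by Horner with rounding up, `n` terms left,
`x = L`, `sh = 20 + m`, `acc` scaled `2^60` -/
def expUp (L sh : ℕ) : ℕ → ℕ → ℕ
  | 0, acc => acc
  | n + 1, acc => expUp L sh n (2 ^ 60 + L * acc / (2 ^ sh * (n + 1)) + 1)

/-- global parameters -/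
structure Prm where
  P : ℕ
  W : ℕ
  K : ℕ
  N : ℕ
  /-- scale exponent of error quantities -/
  E : ℕ
  /-- `⌊2^P √3/2⌋` -/
  s32 : ℤ
  /-- letter region of the crossing: `0` left, `1` right, `2` between -/
  c : ℕ

/-- data of one step; two trajectories `p`, `n` -/
structure SD where
  m : ℕ
  b : ℕ
  /-- `0` hub step at `L4`, `1` plain step, `2` hub step at `L5` -/
  kind : ℕ
  /-- `0` above the axis, `1` crossing, `2` below -/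
  fl : ℕ
  w : ℕ
  L : ℕ
  F : ℕ
  g1 : ℕ
  g2 : ℕ
  D : ℕ
  B : ℕ
  ein : ℕ
  eout : ℕ
  xp : ℕ
  yp : ℕ
  gp : ℕ
  hp : ℕ
  xn : ℕ
  yn : ℕ
  gn : ℕ
  hn : ℕ

/-- unpacking -/
def Prm.u (p : Prm) (n : ℕ) : List ℤ := unp p.W (p.N + 1) n

/-- checks on one trajectory of one step -/
def tone (p : Prm) (d : SD) (x y g h : List ℤ) : Bool :=
  tchk p.P p.K (4 * p.N + 1) d.b d.m x y g h && apri p.P p.K (4 * p.N + 1) d.b d.m x y g h &&
  -- bounds of `g`, `h`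
  Nat.ble (2 ^ 20 * 1025 * nl1 g) (2 ^ p.P * 1024 * d.g1) &&
  Nat.ble (2 ^ 20 * 1025 * nl1 h) (2 ^ p.P * 1024 * d.g2) &&
  Nat.blt (nl1 (tl0 g)) (hd0 g).toNat && Nat.blt (nl1 (tl0 h)) (hd0 h).toNat &&
  -- size of position and velocity
  Nat.ble (nl1 x + nl1 y) (9 * 2 ^ p.P) &&
  Nat.ble (2 ^ d.m * (nl1 (derL x) + nl1 (derL y))) (900 * 2 ^ p.P) &&
  -- distance to the hub
  (match d.kind with
    | 0 => Nat.ble (nl1 x ^ 2 + (nl1 (tl0 y) + (hd0 y - p.s32).natAbs + 1) ^ 2)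
        ((2 ^ (p.P - 20) * d.D) ^ 2)
    | 1 => true
    | _ => Nat.ble (nl1 x ^ 2 + (nl1 (tl0 y) + (hd0 y + p.s32).natAbs + 1) ^ 2)
        ((2 ^ (p.P - 20) * d.D) ^ 2)) &&
  -- position relative to the axis
  (match d.fl with
    | 0 => decide (((2 ^ p.P / 83000 : ℕ) : ℤ) + nl1 (tl0 y) ≤ hd0 y)
    | 1 => decide ((2 ^ d.m : ℤ) * (hd0 (derL y) + nl1 (tl0 (derL y))) ≤ -((2 ^ p.P / 50 : ℕ) : ℤ))
      && (match p.c with
        | 0 => decide (hd0 x + nl1 (tl0 x) ≤ -((2 ^ (p.P - 1) + 2 ^ p.P / 50000 : ℕ) : ℤ))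
        | 1 => decide (((2 ^ (p.P - 1) + 2 ^ p.P / 50000 : ℕ) : ℤ) ≤ hd0 x - nl1 (tl0 x))
        | _ => decide (hd0 x + nl1 (tl0 x) ≤ ((2 ^ (p.P - 1) - 2 ^ p.P / 50000 : ℕ) : ℤ)) &&
            decide (-((2 ^ (p.P - 1) - 2 ^ p.P / 50000 : ℕ) : ℤ) ≤ hd0 x - nl1 (tl0 x)))
    | _ => decide (hd0 y + nl1 (tl0 y) ≤ -((2 ^ p.P / 50000 : ℕ) : ℤ)))

/-- acceleration defect of one trajectory, scaled `2^E`, rounded up -/
def dacc (p : Prm) (d : SD) : ℕ :=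
  (4 * p.N + 1) * 2 ^ d.b * (2 ^ 40 + 3 * (d.g1 ^ 2 + d.g2 ^ 2)) * 2 ^ p.E / 2 ^ (4 * p.P + 40) + 1

/-- convexity defect, scaled `2^E`, rounded up -/
def dconv (p : Prm) (d : SD) : ℕ :=
  3 * (d.g1 ^ 4 + d.g2 ^ 4) * d.B ^ 2 / (8 * 2 ^ (80 + p.E)) + 1

/-- checks on one step -/
def one (p : Prm) (d : SD) : Bool :=
  tone p d (p.u d.xp) (p.u d.yp) (p.u d.gp) (p.u d.hp) &&
  tone p d (p.u d.xn) (p.u d.yn) (p.u d.gn) (p.u d.hn) &&
  -- separation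
  Nat.ble ((nsub (p.u d.xp) (p.u d.xn) + nsub (p.u d.yp) (p.u d.yn)) * 2 ^ p.E) (d.B * 2 ^ p.P) &&
  Nat.ble ((d.B + 3 * d.eout) * max d.g1 d.g2) (2 ^ (p.E + 8)) &&
  Nat.ble d.eout (2 ^ (p.E - 22)) && Nat.ble 22 p.E && Nat.ble 20 p.P &&
  Nat.ble (max d.g1 d.g2) (2000 * 2 ^ 20) && Nat.ble d.ein d.eout &&
  -- exponential
  Nat.ble d.L (2 ^ (20 + d.m)) && Nat.ble (expUp d.L (20 + d.m) 12 (2 ^ 61)) (2 ^ 30 * d.F) &&
  (match d.kind with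
    | 1 => Nat.ble (2 ^ 19) d.w && Nat.ble d.w d.L && Nat.ble (d.g1 ^ 3 + d.g2 ^ 3) (d.L * d.w * 2 ^ 20)
        && Nat.ble ((d.ein * 2 ^ d.m + (dacc p d + dconv p d) + 1) * d.F) (d.eout * 2 ^ (30 + d.m))
    | _ => Nat.ble (d.D + 2) (2 ^ 16) &&
        Nat.ble ((6321 * 2 ^ 20) * (2 ^ 20 - (d.D + 1)) ^ 4 + 154300 * (d.D + 1) * 2 ^ 80)
          (10000 * d.L * (2 ^ 20 - (d.D + 1)) ^ 4)
        && Nat.ble ((1000 * d.ein * 2 ^ d.m + 1276 * (dacc p d + dconv p d) + 1) * d.F)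
          (1000 * d.eout * 2 ^ (30 + d.m)))

/-- compatibility of consecutive steps -/
def link (p : Prm) (d d' : SD) : Bool :=
  let q := fun (x x' : List ℤ) => decide (sumI x = hd0 x') &&
    decide (2 ^ d.m * sumI (derL x) = 2 ^ d'.m * hd0 (derL x'))
  q (p.u d.xp) (p.u d'.xp) && q (p.u d.yp) (p.u d'.yp) &&
  q (p.u d.xn) (p.u d'.xn) && q (p.u d.yn) (p.u d'.yn) &&
  Nat.ble d.fl d'.fl && Nat.ble d'.fl (d.fl + 1) &&
  (match d.kind, d'.kind with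
    | 0, 0 => Nat.ble d.eout d'.ein
    | 0, 1 => Nat.ble (2014 * d'.w * d.eout) (1000 * 2 ^ 20 * d'.ein) &&
        Nat.ble (1676 * d.eout) (1000 * d'.ein)
    | 1, 1 => Nat.ble d.eout d'.ein && Nat.ble (d.eout * d'.w) (d'.ein * d.w)
    | 1, 2 => Nat.ble ((1061 * 2 ^ 20 + 1276 * d.w) * d.eout) (1000 * d.w * d'.ein) 
    | 2, 2 => Nat.ble d.eout d'.ein
    | _, _ => false)

/-- checks of a list of steps -/
def chkL (p : Prm) : List SD → Bool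
  | [] => true
  | [d] => one p d
  | d :: d' :: l => one p d && link p d d' && chkL p (d' :: l)

end Run7.h874
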