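import Pool.Agent.Run7.h874.Ini

/-!
# A certified chain gives a connection
-/

set_option autoImplicit false

namespace Run7.h874

open Complex Set

theorem zt_zero {P m : ℕ} {x y : List ℤ} {a b : ℤ} (h1 : hd0 x = a) (h2 : hd0 y = b) :
    zt P m x y 0 = ⟨(a:ℝ) / 2 ^ P, (b:ℝ) / 2 ^ P⟩ := by
  unfold zt; rw [mul_zero, ev_zero, ev_zero, h1, h2]

theorem vt_zero {P m : ℕ} {x y : List ℤ} {a b : ℤ} (h1 : hd0 (derL x) = a) (h2 : hd0 (derL y) = b) :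
    vt P m x y 0 = ⟨2 ^ m * (a:ℝ) / 2 ^ P, 2 ^ m * (b:ℝ) / 2 ^ P⟩ := by
  unfold vt; rw [mul_zero, ev_zero, ev_zero, h1, h2]

theorem zt_end {P : ℕ} {d : SD} {x y : List ℤ} {a b : ℤ} (h1 : sumI x = a) (h2 : sumI y = b) :
    zt P d.m x y d.h = ⟨(a:ℝ) / 2 ^ P, (b:ℝ) / 2 ^ P⟩ := by
  unfold zt; rw [d.two_h, ev_one, ev_one, h1, h2]

theorem vt_end {P : ℕ} {d : SD} {x y : List ℤ} {a b : ℤ} (h1 : sumI (derL x) = a)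
    (h2 : sumI (derL y) = b) :
    vt P d.m x y d.h = ⟨2 ^ d.m * (a:ℝ) / 2 ^ P, 2 ^ d.m * (b:ℝ) / 2 ^ P⟩ := by
  unfold vt; rw [d.two_h, ev_one, ev_one, h1, h2]

/-- splitting of a chain according to the flags -/
theorem split3 {l : List SD} {a b c : ℕ}
    (h : l.map SD.fl = List.replicate (a + 1) 0 ++ (List.replicate (b + 1) 1 ++ List.replicate (c + 1) 2)) :
    ∃ l0 l1 l2 : List SD, l = l0 ++ (l1 ++ l2) ∧ l0 ≠ [] ∧ l1 ≠ [] ∧ l2 ≠ [] ∧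
      (∀ d ∈ l0, d.fl = 0) ∧ (∀ d ∈ l1, d.fl = 1) ∧ (∀ d ∈ l2, d.fl = 2) := by
  rw [List.map_eq_append_iff] at h
  obtain ⟨l0, l12, e, h0, h12⟩ := h
  rw [List.map_eq_append_iff] at h12
  obtain ⟨l1, l2, e', h1, h2⟩ := h12
  have ne : ∀ (l : List SD) (n k : ℕ), l.map SD.fl = List.replicate (n + 1) k → l ≠ [] := by
    rintro l n k h rfl
    simp [List.replicate_succ] at h
  have al : ∀ (l : List SD) (n k : ℕ), l.map SD.fl = List.replicate (n + 1) k → ∀ d ∈ l, d.fl = k := by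
    intro l n k h d hd
    have : d.fl ∈ l.map SD.fl := List.mem_map_of_mem hd
    rw [h] at this
    exact List.eq_of_mem_replicate this
  exact ⟨l0, l1, l2, by rw [e, e'], ne _ _ _ h0, ne _ _ _ h1, ne _ _ _ h2, al _ _ _ h0, al _ _ _ h1,
    al _ _ _ h2⟩

theorem conn_of (hH : Hyp) {p : Prm} (hs : p.sok) {h0 last : SD} {t0 : List SD} {cf : Fin 3}
    (hc : p.c = cf.val) (hchk : chkL p (h0 :: t0) = true) (hk : h0.kind = 0)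
    (hlast : (h0 :: t0).getLast? = some last) (hlk : last.kind = 2) {a b c : ℕ}
    (hfl : (h0 :: t0).map SD.fl = List.replicate (a + 1) 0
      ++ (List.replicate (b + 1) 1 ++ List.replicate (c + 1) 2))
    {r ϵ Δ θ τ τp τs : ℝ} {ê : ℂ}
    (hr : 0 < r) (hΔ : 0 < Δ) (hΔ1 : Δ ≤ 1)
    (he : ‖exp ((θ:ℂ) * I) - ê‖ ≤ τ)
    (hUp : ‖uc (zt p.P h0.m (p.u h0.xp) (p.u h0.yp) 0 - hubZ) (vt p.P h0.m (p.u h0.xp) (p.u h0.yp) 0)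
      - (r:ℂ) * (ê * (1 + (Δ:ℂ) * I))‖ ≤ τp)
    (hUn : ‖uc (zt p.P h0.m (p.u h0.xn) (p.u h0.yn) 0 - hubZ) (vt p.P h0.m (p.u h0.xn) (p.u h0.yn) 0)
      - (r:ℂ) * (ê * (1 - (Δ:ℂ) * I))‖ ≤ τp)
    (hSp : ‖sc (zt p.P h0.m (p.u h0.xp) (p.u h0.yp) 0 - hubZ) (vt p.P h0.m (p.u h0.xp) (p.u h0.yp) 0)‖ ≤ τs)
    (hSn : ‖sc (zt p.P h0.m (p.u h0.xn) (p.u h0.yn) 0 - hubZ) (vt p.P h0.m (p.u h0.xn) (p.u h0.yn) 0)‖ ≤ τs)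
    (h1 : r * (Δ ^ 2 / 2 + Δ ^ 3 + 2 * τ) + τp ≤ h0.Ein p) (h2 : ϵ * r + τs ≤ h0.Ein p)
    {Up Un Sp Sn S : ℂ} {τ' e' nU nS nl δ s1 : ℝ}
    (gUp : ‖uc (-zt p.P last.m (p.u last.xp) (p.u last.yp) last.h - hubZ)
      (-vt p.P last.m (p.u last.xp) (p.u last.yp) last.h) - Up‖ ≤ τ')
    (gUn : ‖uc (-zt p.P last.m (p.u last.xn) (p.u last.yn) last.h - hubZ)
      (-vt p.P last.m (p.u last.xn) (p.u last.yn) last.h) - Un‖ ≤ τ')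
    (gSp : ‖sc (-zt p.P last.m (p.u last.xp) (p.u last.yp) last.h - hubZ)
      (-vt p.P last.m (p.u last.xp) (p.u last.yp) last.h) - Sp‖ ≤ τ')
    (gSn : ‖sc (-zt p.P last.m (p.u last.xn) (p.u last.yn) last.h - hubZ)
      (-vt p.P last.m (p.u last.xn) (p.u last.yn) last.h) - Sn‖ ≤ τ')
    (he' : last.Eout p + τ' ≤ e') (nUp : ‖Up‖ ≤ nU) (nUn : ‖Un‖ ≤ nU) (nSp : ‖Sp‖ ≤ nS)
    (nSn : ‖Sn‖ ≤ nS) (hnl : nl ≤ ‖S‖) (hnl0 : 0 < nl) (hδ : 0 ≤ δ)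
    (dSp : ‖Sp - S‖ ≤ s1) (dSn : ‖Sn - S‖ ≤ s1) (c1 : e' + s1 ≤ nl / 100) (c2 : e' + nU ≤ nl / 10)
    (c3 : (δ + e') * (nS + e') + nU * e' ≤ (Up * (starRingEnd ℂ) Sp).re)
    (c4 : (δ + e') * (nS + e') + nU * e' ≤ -(Un * (starRingEnd ℂ) Sn).re) :
    ∀ φ : ℝ → P2 → P2, IsFlow (f0 rho0) φ →
      ∀ (x : P2) (ψ : ℝ), OutC r ϵ ψ x → |ψ - θ| ≤ Δ →
        Seg φ cf (1/10^5) x (tot (h0 :: t0)) ∧ EntryC S (-(φ (tot (h0 :: t0)) x)) ∧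
        (ψ = θ - 1 * Δ → ups (-(φ (tot (h0 :: t0)) x)) ≤ -δ) ∧
        (ψ = θ + 1 * Δ → δ ≤ ups (-(φ (tot (h0 :: t0)) x))) := by
  intro φ hφ x ψ hx hψ
  obtain ⟨q, hq, q1, q0, hN⟩ := init_sound hk hr hΔ hΔ1 he hUp hUn hSp hSn h1 h2 hx hψ
  obtain ⟨hF, e, hel, hN'⟩ := chain_sound hH hs hφ hq t0 h0 x hchk hN
  rw [hlast] at hel
  have hel' : last = e := by simpa using hel
  subst hel'
  rw [hlk] at hN'
  obtain ⟨hU, hS⟩ := final_dev hq hN' gUp gUn gSp gSn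
  set y := φ (tot (h0 :: t0)) x with hy
  have hU' := hU.trans he'
  have hS' := hS.trans he'
  have hSS : ‖Sg (-y) - S‖ ≤ ‖S‖ / 100 := by
    have n1 : ‖((1 - q : ℝ) : ℂ) * (Sn - S) + (q:ℂ) * (Sp - S)‖ ≤ s1 := convex_defect hq dSn dSp
    have e1 : Sg (-y) - S = (Sg (-y) - (((1 - q : ℝ) : ℂ) * Sn + (q:ℂ) * Sp))
        + (((1 - q : ℝ) : ℂ) * (Sn - S) + (q:ℂ) * (Sp - S)) := by push_cast; ring
    rw [e1]
    refine (norm_add_le _ _).trans ?_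
    linarith
  have hpos : 0 < ‖Sg (-y)‖ := by
    have n1 : ‖S‖ ≤ ‖Sg (-y)‖ + ‖Sg (-y) - S‖ := by
      have e1 : S = Sg (-y) - (Sg (-y) - S) := by ring
      calc ‖S‖ = ‖Sg (-y) - (Sg (-y) - S)‖ := by rw [← e1]
        _ ≤ _ := norm_sub_le _ _
    linarith
  refine ⟨?_, ⟨hSS, ?_⟩, ?_, ?_⟩
  · obtain ⟨l0, l1, l2, e0, n0, n1, n2, k0, k1, k2⟩ := split3 hfl
    rw [e0] at hF ⊢
    exact seg_of hφ hc n0 n1 n2 k0 k1 k2 hF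
  · have n1 : ‖((1 - q : ℝ) : ℂ) * Un + (q:ℂ) * Up‖ ≤ nU := convex_defect hq nUn nUp
    have e1 : U (-y) = (U (-y) - (((1 - q : ℝ) : ℂ) * Un + (q:ℂ) * Up))
        + (((1 - q : ℝ) : ℂ) * Un + (q:ℂ) * Up) := by ring
    rw [e1]
    refine (norm_add_le _ _).trans ?_
    linarith
  · intro h
    have hq0 := q0 (by rw [h]; ring)
    subst hq0
    have e1 : ((1 - (0:ℝ) : ℝ) : ℂ) * Un + ((0:ℝ):ℂ) * Up = Un := by push_cast; ring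
    have e2 : ((1 - (0:ℝ) : ℝ) : ℂ) * Sn + ((0:ℝ):ℂ) * Sp = Sn := by push_cast; ring
    rw [e1] at hU'
    rw [e2] at hS'
    have hU'' : ‖-U (-y) - -Un‖ ≤ e' := by rw [← neg_sub', norm_neg]; exact hU'
    have := ups_bound (nU := nU) hU'' hS' hpos (by rw [norm_neg]; exact nUn) nSn hδ
      (by rw [neg_mul, neg_re]; exact c4)
    rw [neg_mul, neg_re, neg_div] at this
    unfold ups
    linarith
  · intro h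
    have hq1 := q1 (by rw [h]; ring)
    subst hq1
    have e1 : ((1 - (1:ℝ) : ℝ) : ℂ) * Un + ((1:ℝ):ℂ) * Up = Up := by push_cast; ring
    have e2 : ((1 - (1:ℝ) : ℝ) : ℂ) * Sn + ((1:ℝ):ℂ) * Sp = Sp := by push_cast; ring
    rw [e1] at hU'
    rw [e2] at hS'
    exact ups_bound hU' hS' hpos nUp nSp hδ c3

theorem tot_pos {h0 : SD} {t0 : List SD} : 0 < tot (h0 :: t0) := by
  have := tot_nonneg t0
  have := h0.h_pos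
  simp only [tot]; linarith

/-- two-step comparison with a numerical value -/
theorem uc_close {X Y p q M a b e : ℝ} (hM : |X| + |Y| + |p| + |q| + 1 ≤ M)
    (h1 : |aK1 * X + aK2 * Y + aK0 + aK3 * p + aK4 * q - a| ≤ e)
    (h2 : |-(aB1 * X + p / 2 + aB4 * q) - b| ≤ e) :
    ‖uc ((⟨X, Y⟩ : ℂ) - hubZ) ⟨p, q⟩ - ⟨a, b⟩‖ ≤ 2000 * M * tau + 2 * e := by
  have n1 := uc_approx hM
  have e1 : uc ((⟨X, Y⟩ : ℂ) - hubZ) ⟨p, q⟩ - ⟨a, b⟩ = (uc ((⟨X, Y⟩ : ℂ) - hubZ) ⟨p, q⟩ - ucA X Y p q)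
      + ⟨aK1 * X + aK2 * Y + aK0 + aK3 * p + aK4 * q - a, -(aB1 * X + p / 2 + aB4 * q) - b⟩ := by
    unfold ucA
    rw [sub_add]
    congr 1
    apply Complex.ext <;> simp
  rw [e1]
  refine (norm_add_le _ _).trans (add_le_add n1 ?_)
  exact (norm_mk_le _ _).trans (by linarith)

theorem sc_close {X Y p q M a b e : ℝ} (hM : |X| + |Y| + |p| + |q| + 1 ≤ M)
    (h1 : |-(aC1 * X) - 11/8 * Y + aC0 + p - aC4 * q - a| ≤ e)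
    (h2 : |-(aC2 * X) + aC3 * Y - aD0 - aC5 * q - b| ≤ e) :
    ‖sc ((⟨X, Y⟩ : ℂ) - hubZ) ⟨p, q⟩ - ⟨a, b⟩‖ ≤ 2000 * M * tau + 2 * e := by
  have n1 := sc_approx hM
  have e1 : sc ((⟨X, Y⟩ : ℂ) - hubZ) ⟨p, q⟩ - ⟨a, b⟩ = (sc ((⟨X, Y⟩ : ℂ) - hubZ) ⟨p, q⟩ - scA X Y p q)
      + ⟨-(aC1 * X) - 11/8 * Y + aC0 + p - aC4 * q - a, -(aC2 * X) + aC3 * Y - aD0 - aC5 * q - b⟩ := by
    unfold scA
    rw [sub_add]
    congr 1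
    apply Complex.ext <;> simp
  rw [e1]
  refine (norm_add_le _ _).trans (add_le_add n1 ?_)
  exact (norm_mk_le _ _).trans (by linarith)

theorem uc_close1 {X Y p q a b e : ℝ} (hX : |X| ≤ 1) (hY : |Y| ≤ 1) (hp : |p| ≤ 1) (hq : |q| ≤ 1)
    (h1 : |aK1 * X + aK2 * Y + aK0 + aK3 * p + aK4 * q - a| ≤ e)
    (h2 : |-(aB1 * X + p / 2 + aB4 * q) - b| ≤ e) :
    ‖uc ((⟨X, Y⟩ : ℂ) - hubZ) ⟨p, q⟩ - ⟨a, b⟩‖ ≤ 10000 * tau + 2 * e := by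
  have := uc_close (M := 5) (by linarith) h1 h2
  linarith

theorem sc_close1 {X Y p q a b e : ℝ} (hX : |X| ≤ 1) (hY : |Y| ≤ 1) (hp : |p| ≤ 1) (hq : |q| ≤ 1)
    (h1 : |-(aC1 * X) - 11/8 * Y + aC0 + p - aC4 * q - a| ≤ e)
    (h2 : |-(aC2 * X) + aC3 * Y - aD0 - aC5 * q - b| ≤ e) :
    ‖sc ((⟨X, Y⟩ : ℂ) - hubZ) ⟨p, q⟩ - ⟨a, b⟩‖ ≤ 10000 * tau + 2 * e := by
  have := sc_close (M := 5) (by linarith) h1 h2
  linarith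

theorem init_close {X Y p q r D C S' e n : ℝ} (hX : |X| ≤ 1) (hY : |Y| ≤ 1) (hp : |p| ≤ 1)
    (hq : |q| ≤ 1) (hr : 0 < r) (hn : ‖(⟨C, S'⟩ : ℂ)‖ ≤ n)
    (h1 : |aK1 * X + aK2 * Y + aK0 + aK3 * p + aK4 * q - r * (C * (1 - D ^ 2 / 2) - D * S')| ≤ e)
    (h2 : |-(aB1 * X + p / 2 + aB4 * q) - r * (S' * (1 - D ^ 2 / 2) + D * C)| ≤ e) :
    ‖uc ((⟨X, Y⟩ : ℂ) - hubZ) ⟨p, q⟩ - (r:ℂ) * ((⟨C, S'⟩ : ℂ) * (1 + (D:ℂ) * I))‖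
      ≤ 10000 * tau + 2 * e + r * (D ^ 2 / 2 * n) := by
  have n1 := uc_close1 hX hY hp hq h1 h2
  have e1 : (⟨r * (C * (1 - D ^ 2 / 2) - D * S'), r * (S' * (1 - D ^ 2 / 2) + D * C)⟩ : ℂ)
      = (r:ℂ) * ((⟨C, S'⟩ : ℂ) * (1 + (D:ℂ) * I)) - ((r * (D ^ 2 / 2) : ℝ) : ℂ) * ⟨C, S'⟩ := by
    apply Complex.ext
    · simp [-ofReal_mul, -ofReal_pow, -ofReal_div]; ring
    · simp [-ofReal_mul, -ofReal_pow, -ofReal_div]; ring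
  rw [e1] at n1
  set A := uc ((⟨X, Y⟩ : ℂ) - hubZ) ⟨p, q⟩
  set B := (r:ℂ) * ((⟨C, S'⟩ : ℂ) * (1 + (D:ℂ) * I))
  set G := ((r * (D ^ 2 / 2) : ℝ) : ℂ) * (⟨C, S'⟩ : ℂ) with hG
  have e2 : A - B = (A - (B - G)) - G := by ring
  rw [e2]
  refine (norm_sub_le _ _).trans ?_
  have e3 : ‖G‖ ≤ r * (D ^ 2 / 2) * n := by
    rw [hG, norm_mul, Complex.norm_real, Real.norm_eq_abs, abs_of_nonneg (by positivity)]
    exact mul_le_mul_of_nonneg_left hn (by positivity)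
  linarith

theorem norm_le_of_sq {a b n : ℝ} (hn : 0 ≤ n) (h : a ^ 2 + b ^ 2 ≤ n ^ 2) : ‖(⟨a, b⟩ : ℂ)‖ ≤ n := by
  have := norm_sq_mk a b
  exact (sq_le_sq₀ (norm_nonneg _) hn).mp (by rw [this]; exact h)

theorem le_norm_of_sq {a b n : ℝ} (hn : 0 ≤ n) (h : n ^ 2 ≤ a ^ 2 + b ^ 2) : n ≤ ‖(⟨a, b⟩ : ℂ)‖ := by
  have := norm_sq_mk a b
  exact (sq_le_sq₀ hn (norm_nonneg _)).mp (by rw [this]; exact h)

/-- verification of `s32` -/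
theorem sok_of {p : Prm} (h : |(p.s32 : ℝ) - 2 ^ p.P * (n_s3 / 2)| ≤ 999/1000) (h2 : 2 ^ p.P * (tau / 2) ≤ 1/1000) :
    p.sok := by
  unfold Prm.sok
  have h3 := abs_le.mp h
  have h4 := abs_le.mp e_s3
  have hp : (0:ℝ) < 2 ^ p.P := by positivity
  rw [abs_le]
  constructor <;> nlinarith [mul_le_mul_of_nonneg_left h4.1 hp.le, mul_le_mul_of_nonneg_left h4.2 hp.le]

end Run7.h874
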