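import Pool.Agent.Run7.h874.Conn

/-!
# A certified chain gives the collision connection
-/

set_option autoImplicit false

namespace Run7.h874

open Complex Set

theorem ell_close {z v ζ w : ℂ} {a e nV nZ : ℝ} (h1 : ‖ζ‖ ≤ a) (h2 : ‖w + I * ζ‖ ≤ e)
    (h3 : ‖v + I * (z + 1/2)‖ ≤ nV) (h4 : ‖z + 1/2‖ ≤ nZ) :
    |ell (z + ζ, v + w) - ell (z, v)| ≤ a * nV + (nZ + a) * e := by
  unfold ell
  change |((starRingEnd ℂ) (z + ζ + 1/2) * (v + w + I * (z + ζ + 1/2))).im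
    - ((starRingEnd ℂ) (z + 1/2) * (v + I * (z + 1/2))).im| ≤ _
  rw [← sub_im]
  have e1 : (starRingEnd ℂ) (z + ζ + 1/2) * (v + w + I * (z + ζ + 1/2))
      - (starRingEnd ℂ) (z + 1/2) * (v + I * (z + 1/2))
      = (starRingEnd ℂ) ζ * (v + I * (z + 1/2)) + (starRingEnd ℂ) (z + 1/2 + ζ) * (w + I * ζ) := by
    simp only [map_add]; ring
  rw [e1]
  refine (Complex.abs_im_le_norm _).trans ((norm_add_le _ _).trans ?_)
  rw [norm_mul, norm_mul, RCLike.norm_conj, RCLike.norm_conj]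
  have h5 : ‖z + 1/2 + ζ‖ ≤ nZ + a := (norm_add_le _ _).trans (add_le_add h4 h1)
  exact add_le_add (mul_le_mul h1 h3 (norm_nonneg _) ((norm_nonneg _).trans h1))
    (mul_le_mul h5 h2 (norm_nonneg _) ((norm_nonneg _).trans h5))

theorem all_of_replicate {l : List SD} {n k : ℕ} (h : l.map SD.fl = List.replicate (n + 1) k) :
    l ≠ [] ∧ ∀ d ∈ l, d.fl = k := by
  constructor
  · rintro rfl
    simp [List.replicate_succ] at h
  · intro d hd
    have : d.fl ∈ l.map SD.fl := List.mem_map_of_mem hd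
    rw [h] at this
    exact List.eq_of_mem_replicate this

theorem fin_of (hH : Hyp) {p : Prm} (hs : p.sok) {h0 last : SD} {t0 : List SD}
    (hchk : chkL p (h0 :: t0) = true) (hk : h0.kind = 0)
    (hlast : (h0 :: t0).getLast? = some last) (hlk : last.kind = 1) {a : ℕ}
    (hfl : (h0 :: t0).map SD.fl = List.replicate (a + 1) 0)
    {r ϵ Δ θ τ τp τs : ℝ} {ê : ℂ}
    (hr : 0 < r) (hΔ : 0 < Δ) (hΔ1 : Δ ≤ 1)
    (he : ‖exp ((θ:ℂ) * I) - ê‖ ≤ τ)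
    (hUp : ‖uc (zt p.P h0.m (p.u h0.xp) (p.u h0.yp) 0 - hubZ) (vt p.P h0.m (p.u h0.xp) (p.u h0.yp) 0)
      - (r:ℂ) * (ê * (1 + (Δ:ℂ) * I))‖ ≤ τp)
    (hUn : ‖uc (zt p.P h0.m (p.u h0.xn) (p.u h0.yn) 0 - hubZ) (vt p.P h0.m (p.u h0.xn) (p.u h0.yn) 0)
      - (r:ℂ) * (ê * (1 - (Δ:ℂ) * I))‖ ≤ τp)
    (hSp : ‖sc (zt p.P h0.m (p.u h0.xp) (p.u h0.yp) 0 - hubZ) (vt p.P h0.m (p.u h0.xp) (p.u h0.yp) 0)‖ ≤ τs)
    (hSn : ‖sc (zt p.P h0.m (p.u h0.xn) (p.u h0.yn) 0 - hubZ) (vt p.P h0.m (p.u h0.xn) (p.u h0.yn) 0)‖ ≤ τs)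
    (h1 : r * (Δ ^ 2 / 2 + Δ ^ 3 + 2 * τ) + τp ≤ h0.Ein p) (h2 : ϵ * r + τs ≤ h0.Ein p)
    {xp yp up vp xn yn un vn a' e' : ℝ}
    (zp : zt p.P last.m (p.u last.xp) (p.u last.yp) last.h = ⟨xp, yp⟩)
    (wp : vt p.P last.m (p.u last.xp) (p.u last.yp) last.h = ⟨up, vp⟩)
    (zn : zt p.P last.m (p.u last.xn) (p.u last.yn) last.h = ⟨xn, yn⟩)
    (wn : vt p.P last.m (p.u last.xn) (p.u last.yn) last.h = ⟨un, vn⟩)
    (hW : 0 < last.W) (ha : last.Eout p ≤ last.W * a') (he' : last.Eout p ≤ e')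
    (ha' : a' ≤ 1/10^9) (he'' : e' ≤ 1/10^6)
    (hxp : xp + 1/2 ∈ Icc (81/10^5 : ℝ) (9/10^4)) (hxn : xn + 1/2 ∈ Icc (81/10^5 : ℝ) (9/10^4))
    (hyp : yp ∈ Icc (15/10^6 : ℝ) (18/10^6)) (hyn : yn ∈ Icc (15/10^6 : ℝ) (18/10^6))
    (hup : up ∈ Icc (-34 : ℝ) (-31)) (hun : un ∈ Icc (-34 : ℝ) (-31))
    (hvp : vp ∈ Icc (-65/100 : ℝ) (-6/10)) (hvn : vn ∈ Icc (-65/100 : ℝ) (-6/10))
    (lp : ell0 + (a' * 35 + (1/10^3 + a') * e')
      ≤ (xp + 1/2) * (vp + (xp + 1/2)) - yp * (up - yp))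
    (ln : (xn + 1/2) * (vn + (xn + 1/2)) - yn * (un - yn)
      ≤ -(ell0 + (a' * 35 + (1/10^3 + a') * e'))) :
    ∀ φ : ℝ → P2 → P2, IsFlow (f0 rho0) φ →
      ∀ (x : P2) (ψ : ℝ), OutC r ϵ ψ x → |ψ - θ| ≤ Δ →
        Silent φ (1/10^5) x (tot (h0 :: t0)) ∧ FinR 0 (φ (tot (h0 :: t0)) x) ∧
        (ψ = θ - 1 * Δ → ell (φ (tot (h0 :: t0)) x) ≤ -ell0) ∧
        (ψ = θ + 1 * Δ → ell0 ≤ ell (φ (tot (h0 :: t0)) x)) := by
  intro φ hφ x ψ hx hψ
  obtain ⟨q, hq, q1, q0, hN⟩ := init_sound hk hr hΔ hΔ1 he hUp hUn hSp hSn h1 h2 hx hψ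
  obtain ⟨hF, e, hel, hN'⟩ := chain_sound hH hs hφ hq t0 h0 x hchk hN
  rw [hlast] at hel
  have hel' : last = e := by simpa using hel
  subst hel'
  rw [hlk] at hN'
  obtain ⟨ne, kk⟩ := all_of_replicate hfl
  refine ⟨silent_of hφ ne kk hF, ?_⟩
  set y := φ (tot (h0 :: t0)) x with hy
  unfold Nb at hN'
  rw [if_pos rfl] at hN'
  obtain ⟨n1, n2⟩ := hN'
  set zq := last.z p q last.h with hzq
  set vq := last.v p q last.h with hvq
  have n1' : ‖y.1 - zq‖ ≤ a' := by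
    have h3 : last.W * ‖y.1 - zq‖ ≤ last.W * a' := n1.trans ha
    exact le_of_mul_le_mul_left h3 hW
  have n2' : ‖(y.2 - vq) + I * (y.1 - zq)‖ ≤ e' := n2.trans he'
  have n3 : ‖y.2 - vq‖ ≤ e' + a' := by
    have e1 : y.2 - vq = ((y.2 - vq) + I * (y.1 - zq)) - I * (y.1 - zq) := by ring
    rw [e1]
    refine (norm_sub_le _ _).trans ?_
    rw [norm_mul, norm_I, one_mul]
    linarith
  have ezq : zq = ⟨(1 - q) * xn + q * xp, (1 - q) * yn + q * yp⟩ := by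
    rw [hzq]; unfold SD.z; rw [zp, zn]
    apply Complex.ext <;> simp <;> ring
  have evq : vq = ⟨(1 - q) * un + q * up, (1 - q) * vn + q * vp⟩ := by
    rw [hvq]; unfold SD.v; rw [wp, wn]
    apply Complex.ext <;> simp <;> ring
  obtain ⟨hq0, hq1⟩ := hq
  have cv : ∀ {l u s t : ℝ}, s ∈ Icc l u → t ∈ Icc l u → (1 - q) * s + q * t ∈ Icc l u := by
    intro l u s t hs ht
    constructor <;> nlinarith [hs.1, hs.2, ht.1, ht.2]
  have X1 := cv hxn hxp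
  have Y1 := cv hyn hyp
  have U1 := cv hun hup
  have V1 := cv hvn hvp
  have hX : ((1 - q) * (xn + 1/2) + q * (xp + 1/2)) = (1 - q) * xn + q * xp + 1/2 := by ring
  rw [hX] at X1
  have b1 := abs_le.mp ((Complex.abs_re_le_norm (y.1 - zq)).trans n1')
  have b2 := abs_le.mp ((Complex.abs_im_le_norm (y.1 - zq)).trans n1')
  have b3 := abs_le.mp ((Complex.abs_re_le_norm (y.2 - vq)).trans n3)
  have b4 := abs_le.mp ((Complex.abs_im_le_norm (y.2 - vq)).trans n3)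
  rw [sub_re, ezq] at b1
  rw [sub_im, ezq] at b2
  rw [sub_re, evq] at b3
  rw [sub_im, evq] at b4
  simp only at b1 b2 b3 b4
  have r1 : (y.1 + 1/2).re = y.1.re + 1/2 := by simp
  have hvn' : ‖vq‖ ≤ 35 := by
    rw [evq]
    refine (norm_mk_le _ _).trans ?_
    rw [abs_of_nonpos (by linarith [U1.2]), abs_of_nonpos (by linarith [V1.2])]
    linarith [U1.1, V1.1]
  refine ⟨⟨?_, ?_, ?_, ?_, ?_, ?_, ?_, ?_⟩, ?_, ?_⟩
  · rw [r1]; linarith [X1.1]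
  · rw [r1]; linarith [X1.2]
  · linarith [Y1.1]
  · linarith [Y1.2]
  · have e1 : y.2 = (y.2 - vq) + vq := by ring
    rw [e1]
    refine (norm_add_le _ _).trans ?_
    linarith
  · linarith [U1.2]
  · linarith [V1.1]
  · linarith [V1.2]
  · intro h
    have hq0 := q0 (by rw [h]; ring)
    subst hq0
    have e1 : y = (zq + (y.1 - zq), vq + (y.2 - vq)) := by
      apply Prod.ext <;> simp
    have nZ : ‖zq + 1/2‖ ≤ 1/10^3 := by
      have e2 : zq + 1/2 = ⟨xn + 1/2, yn⟩ := by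
        rw [ezq]; apply Complex.ext <;> simp
      rw [e2]
      refine (norm_mk_le _ _).trans ?_
      rw [abs_of_nonneg (by linarith [hxn.1]), abs_of_nonneg (by linarith [hyn.1])]
      linarith [hxn.2, hyn.2]
    have nV : ‖vq + I * (zq + 1/2)‖ ≤ 35 := by
      have e2 : vq + I * (zq + 1/2) = ⟨un - yn, vn + (xn + 1/2)⟩ := by
        rw [ezq, evq]; apply Complex.ext <;> simp <;> ring
      rw [e2]
      refine (norm_mk_le _ _).trans ?_
      rw [abs_of_nonpos (by linarith [hun.2, hyn.1]), abs_of_nonpos (by linarith [hvn.2, hxn.2])]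
      linarith [hun.1, hvn.1, hyn.2, hxn.1]
    have c := abs_le.mp (ell_close (z := zq) (v := vq) n1' n2' nV nZ)
    rw [← e1] at c
    have e3 : ell (zq, vq) = (xn + 1/2) * (vn + (xn + 1/2)) - yn * (un - yn) := by
      unfold ell
      rw [ezq, evq]
      simp
      ring
    rw [e3] at c
    linarith [c.2]
  · intro h
    have hq1 := q1 (by rw [h]; ring)
    subst hq1
    have e1 : y = (zq + (y.1 - zq), vq + (y.2 - vq)) := by
      apply Prod.ext <;> simp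
    have nZ : ‖zq + 1/2‖ ≤ 1/10^3 := by
      have e2 : zq + 1/2 = ⟨xp + 1/2, yp⟩ := by
        rw [ezq]; apply Complex.ext <;> simp
      rw [e2]
      refine (norm_mk_le _ _).trans ?_
      rw [abs_of_nonneg (by linarith [hxp.1]), abs_of_nonneg (by linarith [hyp.1])]
      linarith [hxp.2, hyp.2]
    have nV : ‖vq + I * (zq + 1/2)‖ ≤ 35 := by
      have e2 : vq + I * (zq + 1/2) = ⟨up - yp, vp + (xp + 1/2)⟩ := by
        rw [ezq, evq]; apply Complex.ext <;> simp <;> ring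
      rw [e2]
      refine (norm_mk_le _ _).trans ?_
      rw [abs_of_nonpos (by linarith [hup.2, hyp.1]), abs_of_nonpos (by linarith [hvp.2, hxp.2])]
      linarith [hup.1, hvp.1, hyp.2, hxp.1]
    have c := abs_le.mp (ell_close (z := zq) (v := vq) n1' n2' nV nZ)
    rw [← e1] at c
    have e3 : ell (zq, vq) = (xp + 1/2) * (vp + (xp + 1/2)) - yp * (up - yp) := by
      unfold ell
      rw [ezq, evq]
      simp
      ring
    rw [e3] at c
    linarith [c.1]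

end Run7.h874
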