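import Pool.Agent.Run7.h874.Iface

/-!
# High-precision values of the constants of the hub
-/

set_option autoImplicit false
set_option exponentiation.threshold 1000000

namespace Run7.h874

open Complex Set

theorem prod_err {x a y b e f : ℝ} (hx : |x - a| ≤ e) (hy : |y - b| ≤ f) :
    |x * y - a * b| ≤ |a| * f + |b| * e + e * f := by
  have e1 : x * y - a * b = (x - a) * (y - b) + a * (y - b) + (x - a) * b := by ring
  rw [e1]
  refine (abs_add_three _ _ _).trans ?_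
  rw [abs_mul, abs_mul, abs_mul]
  have h1 : |x - a| * |y - b| ≤ e * f := mul_le_mul hx hy (abs_nonneg _) ((abs_nonneg _).trans hx)
  have h2 : |a| * |y - b| ≤ |a| * f := mul_le_mul_of_nonneg_left hy (abs_nonneg _)
  have h3 : |x - a| * |b| ≤ |b| * e := by rw [mul_comm]; exact mul_le_mul_of_nonneg_left hx (abs_nonneg _)
  linarith

theorem sqrt_err {x a e : ℝ} (ha : 0 ≤ a - e) (h1 : (a - e) ^ 2 ≤ x) (h2 : x ≤ (a + e) ^ 2) (he : 0 ≤ e) :
    |Real.sqrt x - a| ≤ e := by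
  rw [abs_le]
  constructor
  · have := Real.le_sqrt_of_sq_le h1
    linarith
  · have h3 : Real.sqrt x ≤ a + e := by
      rw [Real.sqrt_le_left (by linarith)]; exact h2
    linarith

/-- unit of precision -/
noncomputable def tau : ℝ := 1 / 2 ^ 320

noncomputable def n_s3 : ℝ := (0x1bb67ae8584caa73b25742d7078b83b8925d834cc53da4798c720a6486e45a6e2490bcfd95ef15dbe / 2 ^ 320 : ℝ)
noncomputable def n_s23 : ℝ := (0x4cbbb9d5dc1059ed8e7730eaff25e24a3f367f2fc266a0373fe7a4d34486d08aed41670a136851f32 / 2 ^ 320 : ℝ)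
noncomputable def n_al : ℝ := (0xa1cfae1587a1b152bf6face7ca21e6e12e2f222b1281352271d7043fe1fc5a17c1a6db7fbbf02de9 / 2 ^ 320 : ℝ)
noncomputable def n_be : ℝ := (0xf2cc4b5388ba3316107e56bf32c8ebf9d096a984714b4cd851200ddce891b1d500d4546ce6abb856 / 2 ^ 320 : ℝ)
noncomputable def n_u1 : ℝ := (0x11843eb1dd985a09e3b1ea6b0f2a66cdd600543dff3b6e96c89fba9a53e149415f5c7f14095b29d40 / 2 ^ 320 : ℝ)
noncomputable def n_u2 : ℝ := (0x1a489dc11597dad4c340942e1a849783fc88a169960203df309d4332bb62fd08dcfb148ecdc933f9a / 2 ^ 320 : ℝ)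
noncomputable def n_u3 : ℝ := (0x84e7ee6c768047f3ceab218406471cd59dd098f014bdb6fed8a79a4064647d685a3d4715db8dd718b / 2 ^ 320 : ℝ)
noncomputable def n_u4 : ℝ := (0x5401aedcd1b90712e2c5e86f5787d5b48c437c8753b6537b4c678166cc0bf9f61681465fa62e2fbd3 / 2 ^ 320 : ℝ)
noncomputable def n_u5 : ℝ := (0x7e0d4f4fd77ba7d25312a6188007df7a55fb2bb438df8b10f148679896e085301ba6d99fec6d6d7b4 / 2 ^ 320 : ℝ)
noncomputable def n_u6 : ℝ := (0x30804fd8cfb04a1b87b1f1b26934a90cbb870f0c33dca20287b3c7dc9516c0dff6d6b31ecc8624e21 / 2 ^ 320 : ℝ)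
noncomputable def n_u7 : ℝ := (0x48c6b1d849bd44480303b4de26c37145a7c6e0ff60027268a81a1056f7e36707164a58ac138f83392 / 2 ^ 320 : ℝ)
noncomputable def aK1 : ℝ := (0x250c8fab23838d87acf370c52535663fceae5bfae9953ec0cd411aa67c2146b2e964141725e70033 / 2 ^ 320 : ℝ)
noncomputable def aK2 : ℝ := (-0x1e06ace4613e0ceda70d3fa9de4679f0880a31c4c68133900de0355dcce6d72b3b72a2c128fc4c96d / 2 ^ 320 : ℝ)
noncomputable def aK0 : ℝ := (0x1a00db2b7b5be18e4f6443c65a4590c59ee076f751f898ac4bc7bf9229e723aaad7b4b201a42b536f / 2 ^ 320 : ℝ)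
noncomputable def aK3 : ℝ := (0x125969a8028979adad32c359960e9fda1a3f1e6a0787d866415e59806efed8d34efef1aeee614b3fb / 2 ^ 320 : ℝ)
noncomputable def aK4 : ℝ := (-0x86f5bcca9af5acd22bac5dc3ed18192e8f618e0bb1b3d9122bb17a0cc03f5058f1a356987be49327 / 2 ^ 320 : ℝ)
noncomputable def aB1 : ℝ := (0xcf790c5665730ca10beace390716f0164071716d7e2377cccc93457f89d7924fdb11f1b37a6c1c90 / 2 ^ 320 : ℝ)
noncomputable def aB4 : ℝ := (0xca81eedf690386591384bfa1d009943c422966f3216afb9285d93898f48f086cc3973985c72008f8 / 2 ^ 320 : ℝ)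
noncomputable def aC1 : ℝ := (0x5d6bf909f32c8adf690a379050e22449caac6bf5513cf8798353e33714b186b1fc97fb15873b89c0 / 2 ^ 320 : ℝ)
noncomputable def aC0 : ℝ := (0x130d747fbcb4b52f8a9bfdf3d52fea8ee4a04a44c79a6113908e67251cbcfe2bb92381ee57145f072 / 2 ^ 320 : ℝ)
noncomputable def aC4 : ℝ := (-0x2231da85ca3a9339ab32baabbc9fe14bb1c15b1ae0a21e547741908466a569b2e28770351a5a5215 / 2 ^ 320 : ℝ)
noncomputable def aC2 : ℝ := (0x8c2df405c87f39c411586ba08d6dd2bfed835cddcab569fbadf16663e76545849a906da449866a89 / 2 ^ 320 : ℝ)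
noncomputable def aC3 : ℝ := (0x997773abb820b3db1cee61d5fe4bc4947e6cfe5f84cd406e7fcf49a6890da115da82ce1426d0a3e6 / 2 ^ 320 : ℝ)
noncomputable def aD0 : ℝ := (0x84e7ee6c768047f3ceab218406471cd59dd098f014bdb6fed8a79a4064647d685a3d4715db8dd719 / 2 ^ 320 : ℝ)
noncomputable def aC5 : ℝ := (0xbf7d1faca89cb66d10eb612fe01b5f5cdf0d03311e005b69ff88ba2067fb7baccdb261089819116f / 2 ^ 320 : ℝ)

theorem e_s3 : |Real.sqrt 3 - n_s3| ≤ tau := by
  apply sqrt_err <;> norm_num [n_s3, tau]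

theorem e_s23 : |Real.sqrt 23 - n_s23| ≤ tau := by
  apply sqrt_err <;> norm_num [n_s23, tau]

theorem e_al : |al - n_al| ≤ tau := by
  have h := abs_le.mp e_s3
  unfold al
  apply sqrt_err
  · unfold n_al tau; norm_num
  · have h1 : (n_al - tau) ^ 2 ≤ (3 * (n_s3 - tau) / 4 - 1/2) / 2 := by
      unfold n_al n_s3 tau; norm_num
    linarith [h.1]
  · have h1 : (3 * (n_s3 + tau) / 4 - 1/2) / 2 ≤ (n_al + tau) ^ 2 := by
      unfold n_al n_s3 tau; norm_num
    linarith [h.2]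
  · unfold tau; norm_num

theorem e_be : |be - n_be| ≤ tau := by
  have h := abs_le.mp e_s3
  unfold be
  apply sqrt_err
  · unfold n_be tau; norm_num
  · have h1 : (n_be - tau) ^ 2 ≤ (3 * (n_s3 - tau) / 4 + 1/2) / 2 := by
      unfold n_be n_s3 tau; norm_num
    linarith [h.1]
  · have h1 : (3 * (n_s3 + tau) / 4 + 1/2) / 2 ≤ (n_be + tau) ^ 2 := by
      unfold n_be n_s3 tau; norm_num
    linarith [h.2]
  · unfold tau; norm_num

theorem tri {x a b e f : ℝ} (h1 : |x - a| ≤ e) (h2 : |a - b| ≤ f) : |x - b| ≤ e + f := by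
  have e1 : x - b = (x - a) + (a - b) := by ring
  rw [e1]; exact (abs_add_le _ _).trans (add_le_add h1 h2)

theorem e_u1 : |al * Real.sqrt 3 - n_u1| ≤ 100 * tau := by
  have h := prod_err e_al e_s3
  have h2 : |n_al * n_s3 - n_u1| ≤ 20 * tau := by unfold n_al n_s3 n_u1 tau; norm_num [abs_le]
  refine (tri h h2).trans ?_
  unfold n_al n_s3 tau
  norm_num [abs_of_nonneg, abs_of_pos]

theorem e_u2 : |be * Real.sqrt 3 - n_u2| ≤ 100 * tau := by
  have h := prod_err e_be e_s3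
  have h2 : |n_be * n_s3 - n_u2| ≤ 20 * tau := by unfold n_be n_s3 n_u2 tau; norm_num [abs_le]
  refine (tri h h2).trans ?_
  unfold n_be n_s3 tau
  norm_num [abs_of_nonneg, abs_of_pos]

theorem e_u3 : |Real.sqrt 23 * Real.sqrt 3 - n_u3| ≤ 100 * tau := by
  have h := prod_err e_s23 e_s3
  have h2 : |n_s23 * n_s3 - n_u3| ≤ 20 * tau := by unfold n_s23 n_s3 n_u3 tau; norm_num [abs_le]
  refine (tri h h2).trans ?_
  unfold n_s23 n_s3 tau
  norm_num [abs_of_nonneg, abs_of_pos]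

theorem e_u4 : |Real.sqrt 23 * (al * Real.sqrt 3) - n_u4| ≤ 2000 * tau := by
  have h := prod_err e_s23 e_u1
  have h2 : |n_s23 * n_u1 - n_u4| ≤ 20 * tau := by unfold n_s23 n_u1 n_u4 tau; norm_num [abs_le]
  refine (tri h h2).trans ?_
  unfold n_s23 n_u1 tau
  norm_num [abs_of_nonneg, abs_of_pos]

theorem e_u5 : |Real.sqrt 23 * (be * Real.sqrt 3) - n_u5| ≤ 2000 * tau := by
  have h := prod_err e_s23 e_u2
  have h2 : |n_s23 * n_u2 - n_u5| ≤ 20 * tau := by unfold n_s23 n_u2 n_u5 tau; norm_num [abs_le]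
  refine (tri h h2).trans ?_
  unfold n_s23 n_u2 tau
  norm_num [abs_of_nonneg, abs_of_pos]

theorem e_u6 : |Real.sqrt 23 * al - n_u6| ≤ 100 * tau := by
  have h := prod_err e_s23 e_al
  have h2 : |n_s23 * n_al - n_u6| ≤ 20 * tau := by unfold n_s23 n_al n_u6 tau; norm_num [abs_le]
  refine (tri h h2).trans ?_
  unfold n_s23 n_al tau
  norm_num [abs_of_nonneg, abs_of_pos]

theorem e_u7 : |Real.sqrt 23 * be - n_u7| ≤ 100 * tau := by
  have h := prod_err e_s23 e_be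
  have h2 : |n_s23 * n_be - n_u7| ≤ 20 * tau := by unfold n_s23 n_be n_u7 tau; norm_num [abs_le]
  refine (tri h h2).trans ?_
  unfold n_s23 n_be tau
  norm_num [abs_of_nonneg, abs_of_pos]

/-! ### coefficients -/
noncomputable def K1 : ℝ := 11/138 * (Real.sqrt 23 * (al * Real.sqrt 3)) - (be * Real.sqrt 3) / 6
noncomputable def K2 : ℝ := -9/23 * Real.sqrt 23
noncomputable def K0 : ℝ := 9/46 * (Real.sqrt 23 * Real.sqrt 3)
noncomputable def K3 : ℝ := 11/46 * Real.sqrt 23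
noncomputable def K4 : ℝ := 11/46 * ((Real.sqrt 23 * (al * Real.sqrt 3)) / 6 - (Real.sqrt 23 * al) / 2)
  - (be * Real.sqrt 3) / 12 - be / 4
noncomputable def B1 : ℝ := 11/138 * (Real.sqrt 23 * (be * Real.sqrt 3)) + (al * Real.sqrt 3) / 6
noncomputable def B4 : ℝ := 11/46 * ((Real.sqrt 23 * (be * Real.sqrt 3)) / 6 + (Real.sqrt 23 * be) / 2)
  + (al * Real.sqrt 3) / 12 - al / 4
noncomputable def C1 : ℝ := (al * Real.sqrt 3) / 3
noncomputable def C0 : ℝ := 11/16 * Real.sqrt 3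
noncomputable def C4 : ℝ := (al * Real.sqrt 3) / 6 - al / 2
noncomputable def C2 : ℝ := (be * Real.sqrt 3) / 3
noncomputable def C3 : ℝ := Real.sqrt 23 / 8
noncomputable def D0 : ℝ := (Real.sqrt 23 * Real.sqrt 3) / 16
noncomputable def C5 : ℝ := (be * Real.sqrt 3) / 6 + be / 2

theorem e_K1 : |K1 - aK1| ≤ 1000 * tau := by
  have h_u4 := abs_le.mp e_u4
  have h_u2 := abs_le.mp e_u2
  have h2 : |(11/138) * n_u4 + (-1/6) * n_u2 - aK1| ≤ 2 * tau := by unfold n_u4 n_u2 aK1 tau; norm_num [abs_le]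
  have h3 := abs_le.mp h2
  have ht : 0 < tau := by unfold tau; positivity
  unfold K1
  rw [abs_le]
  constructor <;> linarith

theorem e_K2 : |K2 - aK2| ≤ 1000 * tau := by
  have h_s23 := abs_le.mp e_s23
  have h2 : |(-9/23) * n_s23 - aK2| ≤ 2 * tau := by unfold n_s23 aK2 tau; norm_num [abs_le]
  have h3 := abs_le.mp h2
  have ht : 0 < tau := by unfold tau; positivity
  unfold K2
  rw [abs_le]
  constructor <;> linarith

theorem e_K0 : |K0 - aK0| ≤ 1000 * tau := by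
  have h_u3 := abs_le.mp e_u3
  have h2 : |(9/46) * n_u3 - aK0| ≤ 2 * tau := by unfold n_u3 aK0 tau; norm_num [abs_le]
  have h3 := abs_le.mp h2
  have ht : 0 < tau := by unfold tau; positivity
  unfold K0
  rw [abs_le]
  constructor <;> linarith

theorem e_K3 : |K3 - aK3| ≤ 1000 * tau := by
  have h_s23 := abs_le.mp e_s23
  have h2 : |(11/46) * n_s23 - aK3| ≤ 2 * tau := by unfold n_s23 aK3 tau; norm_num [abs_le]
  have h3 := abs_le.mp h2
  have ht : 0 < tau := by unfold tau; positivity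
  unfold K3
  rw [abs_le]
  constructor <;> linarith

theorem e_K4 : |K4 - aK4| ≤ 1000 * tau := by
  have h_u4 := abs_le.mp e_u4
  have h_u6 := abs_le.mp e_u6
  have h_u2 := abs_le.mp e_u2
  have h_be := abs_le.mp e_be
  have h2 : |(11/276) * n_u4 + (-11/92) * n_u6 + (-1/12) * n_u2 + (-1/4) * n_be - aK4| ≤ 2 * tau := by unfold n_u4 n_u6 n_u2 n_be aK4 tau; norm_num [abs_le]
  have h3 := abs_le.mp h2
  have ht : 0 < tau := by unfold tau; positivity
  unfold K4
  rw [abs_le]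
  constructor <;> linarith

theorem e_B1 : |B1 - aB1| ≤ 1000 * tau := by
  have h_u5 := abs_le.mp e_u5
  have h_u1 := abs_le.mp e_u1
  have h2 : |(11/138) * n_u5 + (1/6) * n_u1 - aB1| ≤ 2 * tau := by unfold n_u5 n_u1 aB1 tau; norm_num [abs_le]
  have h3 := abs_le.mp h2
  have ht : 0 < tau := by unfold tau; positivity
  unfold B1
  rw [abs_le]
  constructor <;> linarith

theorem e_B4 : |B4 - aB4| ≤ 1000 * tau := by
  have h_u5 := abs_le.mp e_u5
  have h_u7 := abs_le.mp e_u7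
  have h_u1 := abs_le.mp e_u1
  have h_al := abs_le.mp e_al
  have h2 : |(11/276) * n_u5 + (11/92) * n_u7 + (1/12) * n_u1 + (-1/4) * n_al - aB4| ≤ 2 * tau := by unfold n_u5 n_u7 n_u1 n_al aB4 tau; norm_num [abs_le]
  have h3 := abs_le.mp h2
  have ht : 0 < tau := by unfold tau; positivity
  unfold B4
  rw [abs_le]
  constructor <;> linarith

theorem e_C1 : |C1 - aC1| ≤ 1000 * tau := by
  have h_u1 := abs_le.mp e_u1
  have h2 : |(1/3) * n_u1 - aC1| ≤ 2 * tau := by unfold n_u1 aC1 tau; norm_num [abs_le]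
  have h3 := abs_le.mp h2
  have ht : 0 < tau := by unfold tau; positivity
  unfold C1
  rw [abs_le]
  constructor <;> linarith

theorem e_C0 : |C0 - aC0| ≤ 1000 * tau := by
  have h_s3 := abs_le.mp e_s3
  have h2 : |(11/16) * n_s3 - aC0| ≤ 2 * tau := by unfold n_s3 aC0 tau; norm_num [abs_le]
  have h3 := abs_le.mp h2
  have ht : 0 < tau := by unfold tau; positivity
  unfold C0
  rw [abs_le]
  constructor <;> linarith

theorem e_C4 : |C4 - aC4| ≤ 1000 * tau := by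
  have h_u1 := abs_le.mp e_u1
  have h_al := abs_le.mp e_al
  have h2 : |(1/6) * n_u1 + (-1/2) * n_al - aC4| ≤ 2 * tau := by unfold n_u1 n_al aC4 tau; norm_num [abs_le]
  have h3 := abs_le.mp h2
  have ht : 0 < tau := by unfold tau; positivity
  unfold C4
  rw [abs_le]
  constructor <;> linarith

theorem e_C2 : |C2 - aC2| ≤ 1000 * tau := by
  have h_u2 := abs_le.mp e_u2
  have h2 : |(1/3) * n_u2 - aC2| ≤ 2 * tau := by unfold n_u2 aC2 tau; norm_num [abs_le]
  have h3 := abs_le.mp h2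
  have ht : 0 < tau := by unfold tau; positivity
  unfold C2
  rw [abs_le]
  constructor <;> linarith

theorem e_C3 : |C3 - aC3| ≤ 1000 * tau := by
  have h_s23 := abs_le.mp e_s23
  have h2 : |(1/8) * n_s23 - aC3| ≤ 2 * tau := by unfold n_s23 aC3 tau; norm_num [abs_le]
  have h3 := abs_le.mp h2
  have ht : 0 < tau := by unfold tau; positivity
  unfold C3
  rw [abs_le]
  constructor <;> linarith

theorem e_D0 : |D0 - aD0| ≤ 1000 * tau := by
  have h_u3 := abs_le.mp e_u3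
  have h2 : |(1/16) * n_u3 - aD0| ≤ 2 * tau := by unfold n_u3 aD0 tau; norm_num [abs_le]
  have h3 := abs_le.mp h2
  have ht : 0 < tau := by unfold tau; positivity
  unfold D0
  rw [abs_le]
  constructor <;> linarith

theorem e_C5 : |C5 - aC5| ≤ 1000 * tau := by
  have h_u2 := abs_le.mp e_u2
  have h_be := abs_le.mp e_be
  have h2 : |(1/6) * n_u2 + (1/2) * n_be - aC5| ≤ 2 * tau := by unfold n_u2 n_be aC5 tau; norm_num [abs_le]
  have h3 := abs_le.mp h2
  have ht : 0 < tau := by unfold tau; positivity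
  unfold C5
  rw [abs_le]
  constructor <;> linarith


theorem al_div : al / Real.sqrt 3 = al * Real.sqrt 3 / 3 := by
  have h := Real.mul_self_sqrt (show (0:ℝ) ≤ 3 by norm_num)
  have h2 : Real.sqrt 3 ≠ 0 := by positivity
  field_simp
  linear_combination -al * h

theorem be_div : be / Real.sqrt 3 = be * Real.sqrt 3 / 3 := by
  have h := Real.mul_self_sqrt (show (0:ℝ) ≤ 3 by norm_num)
  have h2 : Real.sqrt 3 ≠ 0 := by positivity
  field_simp
  linear_combination -be * h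

theorem inv23 : 11 / (2 * Real.sqrt 23) = 11 / 46 * Real.sqrt 23 := by
  have h := Real.mul_self_sqrt (show (0:ℝ) ≤ 23 by norm_num)
  rw [div_eq_iff (by positivity)]
  linear_combination (-11/23) * h

theorem lam_eq : lam = ⟨al, be⟩ := by apply Complex.ext <;> simp [lam]
theorem l1_eq : l1 = ⟨al * Real.sqrt 3 / 3, -(be * Real.sqrt 3 / 3)⟩ := by
  unfold l1
  rw [lam_eq, ← al_div, ← be_div]
  apply Complex.ext <;> simp [neg_div]
theorem l2_eq : l2 = ⟨-11/8, -(Real.sqrt 23 / 8)⟩ := by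
  unfold l2
  apply Complex.ext <;> simp
theorem l4_eq : l4 = ⟨(al * Real.sqrt 3 / 3 - al) / 2, -((be * Real.sqrt 3 / 3 + be) / 2)⟩ := by
  unfold l4
  rw [lam_eq, ← al_div, ← be_div]
  apply Complex.ext <;> simp <;> ring
theorem kap_eq : kap = ⟨1/2, 11/46 * Real.sqrt 23⟩ := by
  unfold kap
  have e : (11 / (2 * (Real.sqrt 23 : ℂ)) : ℂ) = ((11 / (2 * Real.sqrt 23) : ℝ) : ℂ) := by
    push_cast; ring
  rw [e, inv23]
  apply Complex.ext <;> simp

theorem uc_num (X Y p q : ℝ) : uc ((⟨X, Y⟩ : ℂ) - hubZ) ⟨p, q⟩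
    = ⟨K1 * X + K2 * Y + K0 + K3 * p + K4 * q, -(B1 * X + p / 2 + B4 * q)⟩ := by
  have h23 := Real.mul_self_sqrt (show (0:ℝ) ≤ 23 by norm_num)
  have hh : (⟨X, Y⟩ : ℂ) - hubZ = ⟨X, Y - Real.sqrt 3 / 2⟩ := by
    apply Complex.ext <;> simp [hubZ]
  rw [hh]
  unfold uc
  rw [l1_eq, l2_eq, l4_eq, kap_eq]
  apply Complex.ext
  · simp [K1, K2, K0, K3, K4]
    ring
  · simp [B1, B4]
    linear_combination (-(11/368) * (Y - Real.sqrt 3 / 2)) * h23

theorem sc_num (X Y p q : ℝ) : sc ((⟨X, Y⟩ : ℂ) - hubZ) ⟨p, q⟩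
    = ⟨-(C1 * X) - 11/8 * Y + C0 + p - C4 * q, -(C2 * X) + C3 * Y - D0 - C5 * q⟩ := by
  have hh : (⟨X, Y⟩ : ℂ) - hubZ = ⟨X, Y - Real.sqrt 3 / 2⟩ := by
    apply Complex.ext <;> simp [hubZ]
  rw [hh]
  unfold sc
  rw [l1_eq, l2_eq, l4_eq]
  apply Complex.ext
  · simp [C1, C0, C4]
    ring
  · simp [C2, C3, D0, C5]
    ring

end Run7.h874
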