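import Mathlib

/-!
# Definitions for MP_efcf7c_an (all finite eclipse sequences are realised)

Masses `m₀ = m₁ = 1/2`, `m₂ = ε` small. Rotating frame: `R = q₁ - q₀`, `Z = q₂ - (q₀+q₁)/2`.
`ε = 0`: circular restricted problem, state `(Z, V)`.
-/

set_option autoImplicit false

namespace Run7.h874

open Complex Set

/-- Newtonian kernel `z / |z|^3`, cut off at radius `ϱ` (`ϱ = 0` is the true kernel). -/
noncomputable def gc (ϱ : ℝ) (z : ℂ) : ℂ := (((max ‖z‖ ϱ) ^ 3)⁻¹ : ℝ) • z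

/-- Derivative of the true kernel at `z`, applied to `d`. -/
noncomputable def dg (z d : ℂ) : ℂ :=
  (-(1/2) * (‖z‖ ^ 3)⁻¹ : ℝ) • d - ((3/2) * (‖z‖ ^ 5)⁻¹ : ℝ) • (z ^ 2 * (starRingEnd ℂ) d)

abbrev P2 := ℂ × ℂ
abbrev P4 := (ℂ × ℂ) × (ℂ × ℂ)

/-- restricted problem, state `(Z, V)` -/
noncomputable def f0 (ϱ : ℝ) (x : P2) : P2 :=
  (x.2, -2 * I * x.2 + x.1 - (1/2 : ℂ) * (gc ϱ (x.1 + 1/2) + gc ϱ (x.1 - 1/2)))

/-- full problem, state `((R, W), (Z, V))` -/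
noncomputable def fe (ϱ ε : ℝ) (x : P4) : P4 :=
  ((x.1.2, -2 * I * x.1.2 + x.1.1 - gc ϱ x.1.1
      + (ε : ℂ) * (gc ϱ (x.2.1 - x.1.1/2) - gc ϱ (x.2.1 + x.1.1/2))),
   (x.2.2, -2 * I * x.2.2 + x.2.1
      - ((1 + (ε : ℂ))/2) * (gc ϱ (x.2.1 + x.1.1/2) + gc ϱ (x.2.1 - x.1.1/2))))

/-- `φ` is the global flow of `F`. -/
structure IsFlow {E : Type*} [NormedAddCommGroup E] [NormedSpace ℝ E] (F : E → E)
    (φ : ℝ → E → E) : Prop where
  zero : ∀ x, φ 0 x = x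
  deriv : ∀ t x, HasDerivAt (fun s => φ s x) (F (φ t x)) t
  cont : Continuous (Function.uncurry φ)
  add : ∀ s t x, φ (s + t) x = φ t (φ s x)

/-- cut-off radius used for the compact part of the orbits -/
noncomputable def rho0 : ℝ := 1/10000

/-! ## Hub coordinates (Lagrange point `L4` of the restricted problem) -/

noncomputable def al : ℝ := Real.sqrt ((3 * Real.sqrt 3 / 4 - 1/2) / 2)
noncomputable def be : ℝ := Real.sqrt ((3 * Real.sqrt 3 / 4 + 1/2) / 2)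
/-- unstable eigenvalue, `lam^2 = -1/2 + (√23/4) i` -/
noncomputable def lam : ℂ := (al : ℂ) + (be : ℂ) * I
noncomputable def l1 : ℂ := (starRingEnd ℂ) lam / (Real.sqrt 3 : ℂ)
noncomputable def l2 : ℂ := -11/8 - (Real.sqrt 23 / 8 : ℂ) * I
noncomputable def l4 : ℂ := (1/2 : ℂ) * ((starRingEnd ℂ) lam / (Real.sqrt 3 : ℂ) - lam)
noncomputable def kap : ℂ := 1/2 + (11 / (2 * Real.sqrt 23) : ℂ) * I

/-- unstable coordinate of a deviation `(ζ, v)` from the hub -/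
noncomputable def uc (ζ v : ℂ) : ℂ :=
  -I * kap * (l1 * (ζ.re : ℂ) + l2 * (ζ.im : ℂ) + (v.re : ℂ) + l4 * (v.im : ℂ))
/-- stable coordinate of a deviation `(ζ, v)` from the hub -/
noncomputable def sc (ζ v : ℂ) : ℂ :=
  -(starRingEnd ℂ) l1 * (ζ.re : ℂ) + (starRingEnd ℂ) l2 * (ζ.im : ℂ) + (v.re : ℂ)
    - (starRingEnd ℂ) l4 * (v.im : ℂ)

/-- position of the hub `L4` -/
noncomputable def hubZ : ℂ := (Real.sqrt 3 / 2 : ℂ) * I
noncomputable def U (x : P2) : ℂ := uc (x.1 - hubZ) x.2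
noncomputable def Sg (x : P2) : ℂ := sc (x.1 - hubZ) x.2
/-- real part of `u` in the direction of `s` -/
noncomputable def ups (x : P2) : ℝ := (U x * (starRingEnd ℂ) (Sg x)).re / ‖Sg x‖
/-- Jacobi energy, normalised to vanish at the hub -/
noncomputable def En (x : P2) : ℝ :=
  ‖x.2‖ ^ 2 / 2 - ‖x.1‖ ^ 2 / 2 - 1 / (2 * ‖x.1 + 1/2‖) - 1 / (2 * ‖x.1 - 1/2‖) + 11/8

/-- hub of the full problem at `ε = 0` -/
noncomputable def hub4 : P4 := ((1, 0), (hubZ, 0))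

/-! ## Words along orbits -/

/-- the horizontal coordinate `x` of a crossing lies in the region of the middle body `c`, with
margin `m`: body `0` sits at `-1/2`, body `1` at `1/2`, body `2` is the moving one -/
def reg (c : Fin 3) (m x : ℝ) : Prop :=
  (c = 0 ∧ x ≤ -1/2 - m) ∨ (c = 1 ∧ 1/2 + m ≤ x) ∨ (c = 2 ∧ -1/2 + m ≤ x ∧ x ≤ 1/2 - m)

/-- away from the primaries, and bounded -/
noncomputable def far (y : P2) : Prop :=
  4 * rho0 ≤ ‖y.1 + 1/2‖ ∧ 4 * rho0 ≤ ‖y.1 - 1/2‖ ∧ ‖y.1‖ ≤ 10 ∧ ‖y.2‖ ≤ 1000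

/-- the orbit of `x` stays in the upper half plane on `[0, T]` -/
def Silent (φ : ℝ → P2 → P2) (m : ℝ) (x : P2) (T : ℝ) : Prop :=
  0 ≤ T ∧ ∀ t ∈ Icc 0 T, far (φ t x) ∧ m ≤ (φ t x).1.im

/-- the orbit of `x` crosses the axis exactly once on `[0, T]`, downwards, with letter `c` -/
def Seg (φ : ℝ → P2 → P2) (c : Fin 3) (m : ℝ) (x : P2) (T : ℝ) : Prop :=
  ∃ t1 t2 : ℝ, 0 ≤ t1 ∧ t1 ≤ t2 ∧ t2 ≤ T ∧
    (∀ t ∈ Icc 0 T, far (φ t x)) ∧
    (∀ t ∈ Icc 0 t1, m ≤ (φ t x).1.im) ∧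
    (∀ t ∈ Icc t1 t2, (φ t x).2.im ≤ -m ∧ reg c m (φ t x).1.re) ∧
    (∀ t ∈ Icc t2 T, (φ t x).1.im ≤ -m)

/-- word of an orbit, in local frames (the frame is turned by `π` after each letter); `y` is the
final state in the final local frame -/
def Tr (φ : ℝ → P2 → P2) : List (Fin 3) → ℝ → P2 → ℝ → P2 → Prop
  | [], m, x, T, y => Silent φ m x T ∧ y = φ T x
  | c :: w, m, x, T, y => ∃ T1 ∈ Icc 0 T, Seg φ c m x T1 ∧ Tr φ w m (-(φ T1 x)) (T - T1) y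

/-- entry class near the hub -/
def EntryC (S : ℂ) (x : P2) : Prop := ‖Sg x - S‖ ≤ ‖S‖ / 100 ∧ ‖U x‖ ≤ ‖S‖ / 10

/-- exit class near the hub -/
def OutC (r ϵ ψ : ℝ) (x : P2) : Prop := U x = r * exp (ψ * I) ∧ ‖Sg x‖ ≤ ϵ * r

def Ends (f : ℝ → ℝ) (a b c d : ℝ) : Prop := (f a = c ∧ f b = d) ∨ (f a = d ∧ f b = c)
def Cross (f : ℝ → ℝ) (a b c d : ℝ) : Prop := (f a ≤ c ∧ d ≤ f b) ∨ (d ≤ f a ∧ f b ≤ c)

/-- inertial angular momentum about body `0` (at `-1/2`) -/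
noncomputable def ell (x : P2) : ℝ := ((starRingEnd ℂ) (x.1 + 1/2) * (x.2 + I * (x.1 + 1/2))).im

/-- final class of the restricted problem: state at distance about `9e-4` from body `0`, coming in
almost along the segment, with slack `η` -/
def FinR (η : ℝ) (x : P2) : Prop :=
  8/10^4 - η ≤ (x.1 + 1/2).re ∧ (x.1 + 1/2).re ≤ 1/10^3 + η ∧
  14/10^6 - η ≤ x.1.im ∧ x.1.im ≤ 20/10^6 + η ∧
  ‖x.2‖ ≤ 36 + η ∧ x.2.re ≤ -30 + η ∧ -7/10 - η ≤ x.2.im ∧ x.2.im ≤ -55/100 + η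

/-- threshold for the final angular momentum -/
noncomputable def ell0 : ℝ := 2/10^11

end Run7.h874
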