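import Pool.Agent.Run7.h874.ConnF
import Pool.Agent.Run7.h874.Data.DF

/-!
# Connection DF (to the collision)
-/

set_option autoImplicit false
set_option exponentiation.threshold 1000000

namespace Run7.h874.DF

open Complex Set

noncomputable def cC : ℝ := 0xd2e804082490965c7803cbfe0fbd31db8545579ecf / 2 ^ 168
noncomputable def cS : ℝ := -(0x911a0e86839140aeb61d49c7cbf12a30fbfc01167f / 2 ^ 168)
theorem ixp : hd0 (prm.u h0.xp) = 0x3825781dff2a96a59572164e := by decide +kernel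
theorem iyp : hd0 (prm.u h0.yp) = 0xddb3d742c265539d92c235784827825f18966654eb := by decide +kernel
theorem jxp : hd0 (derL (prm.u h0.xp)) = 0x244683a193b5cfeb2a1c14ef := by decide +kernel
theorem jyp : hd0 (derL (prm.u h0.yp)) = -0x22981e27767df1afe9232572 := by decide +kernel
noncomputable def ixp' : ℝ := 0x3825781dff2a96a59572164e / 2 ^ 168
noncomputable def iyp' : ℝ := 0xddb3d742c265539d92c235784827825f18966654eb / 2 ^ 168
noncomputable def iup' : ℝ := 0x244683a193b5cfeb2a1c14ef / 2 ^ 168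
noncomputable def ivp' : ℝ := -(0x22981e27767df1afe9232572 / 2 ^ 168)

theorem iztp : zt prm.P h0.m (prm.u h0.xp) (prm.u h0.yp) 0 = ⟨ixp', iyp'⟩ := by
  rw [zt_zero ixp iyp]
  unfold ixp' iyp' prm
  apply Complex.ext <;> norm_num
theorem ivtp : vt prm.P h0.m (prm.u h0.xp) (prm.u h0.yp) 0 = ⟨iup', ivp'⟩ := by
  rw [vt_zero jxp jyp]
  unfold iup' ivp' prm h0
  apply Complex.ext <;> norm_num

theorem fxp : sumI (prm.u last.xp) = -0x7fc6d9f0d07553d43ce992cc65407bd348ad8316e0 := by decide +kernel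
theorem fyp : sumI (prm.u last.yp) = 0x10fd9a35bcfa4e84890430b5b8b0a70d2f04044 := by decide +kernel
theorem gxp : sumI (derL (prm.u last.xp)) = -0x43aa7999c6b0e99c66cfb5e5ead97c01e651780 := by decide +kernel
theorem gyp : sumI (derL (prm.u last.yp)) = -0x14253814a92f4779f6ab169ad8b2c2e221cfde := by decide +kernel
noncomputable def fxp' : ℝ := -(0x7fc6d9f0d07553d43ce992cc65407bd348ad8316e0 / 2 ^ 168)
noncomputable def fyp' : ℝ := 0x10fd9a35bcfa4e84890430b5b8b0a70d2f04044 / 2 ^ 168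
noncomputable def fup' : ℝ := -(0x21d53ccce35874ce3367daf2f56cbe00f328bc000000 / 2 ^ 168)
noncomputable def fvp' : ℝ := -(0xa129c0a5497a3bcfb558b4d6c59617110e7ef00000 / 2 ^ 168)

theorem fztp : zt prm.P last.m (prm.u last.xp) (prm.u last.yp) last.h = ⟨fxp', fyp'⟩ := by
  rw [zt_end fxp fyp]
  unfold fxp' fyp' prm
  apply Complex.ext <;> norm_num
theorem fvtp : vt prm.P last.m (prm.u last.xp) (prm.u last.yp) last.h = ⟨fup', fvp'⟩ := by
  rw [vt_end gxp gyp]
  unfold fup' fvp' prm last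
  apply Complex.ext <;> norm_num

theorem ixn : hd0 (prm.u h0.xn) = 0x3825781dfec0699bf6dd4cd1 := by decide +kernel
theorem iyn : hd0 (prm.u h0.yn) = 0xddb3d742c265539d92c23578483c73e35e4670bae4 := by decide +kernel
theorem jxn : hd0 (derL (prm.u h0.xn)) = 0x244683a1ae12d06c2eae27bb := by decide +kernel
theorem jyn : hd0 (derL (prm.u h0.yn)) = -0x22981e27656749c0452da0a7 := by decide +kernel
noncomputable def ixn' : ℝ := 0x3825781dfec0699bf6dd4cd1 / 2 ^ 168
noncomputable def iyn' : ℝ := 0xddb3d742c265539d92c23578483c73e35e4670bae4 / 2 ^ 168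
noncomputable def iun' : ℝ := 0x244683a1ae12d06c2eae27bb / 2 ^ 168
noncomputable def ivn' : ℝ := -(0x22981e27656749c0452da0a7 / 2 ^ 168)

theorem iztn : zt prm.P h0.m (prm.u h0.xn) (prm.u h0.yn) 0 = ⟨ixn', iyn'⟩ := by
  rw [zt_zero ixn iyn]
  unfold ixn' iyn' prm
  apply Complex.ext <;> norm_num
theorem ivtn : vt prm.P h0.m (prm.u h0.xn) (prm.u h0.yn) 0 = ⟨iun', ivn'⟩ := by
  rw [vt_zero jxn jyn]
  unfold iun' ivn' prm h0
  apply Complex.ext <;> norm_num

theorem fxn : sumI (prm.u last.xn) = -0x7fc6d9dffaec827458acf1a628dd2917ab26ae15e0 := by decide +kernel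
theorem fyn : sumI (prm.u last.yn) = 0x10fd9eef7ae4cfd89bb038aff8518bb674ea9db := by decide +kernel
theorem gxn : sumI (derL (prm.u last.xn)) = -0x43aa6f9f386f88eeea899d66c0adb4008c098d9 := by decide +kernel
theorem gyn : sumI (derL (prm.u last.yn)) = -0x142534f5ea342080b4cff584d4cb5396b8203c := by decide +kernel
noncomputable def fxn' : ℝ := -(0x7fc6d9dffaec827458acf1a628dd2917ab26ae15e0 / 2 ^ 168)
noncomputable def fyn' : ℝ := 0x10fd9eef7ae4cfd89bb038aff8518bb674ea9db / 2 ^ 168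
noncomputable def fun' : ℝ := -(0x21d537cf9c37c4777544ceb36056da004604c6c80000 / 2 ^ 168)
noncomputable def fvn' : ℝ := -(0xa129a7af51a10405a67fac26a65a9cb5c101e00000 / 2 ^ 168)

theorem fztn : zt prm.P last.m (prm.u last.xn) (prm.u last.yn) last.h = ⟨fxn', fyn'⟩ := by
  rw [zt_end fxn fyn]
  unfold fxn' fyn' prm
  apply Complex.ext <;> norm_num
theorem fvtn : vt prm.P last.m (prm.u last.xn) (prm.u last.yn) last.h = ⟨fun', fvn'⟩ := by
  rw [vt_end gxn gyn]
  unfold fun' fvn' prm last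
  apply Complex.ext <;> norm_num


/-- component error of the initial data -/
noncomputable def e0 : ℝ := (1 / 2 ^ 74) * (1 / 2 ^ 34) ^ 3 + 8 / 2 ^ 168

theorem cn : ‖(⟨cC, cS⟩ : ℂ)‖ ≤ 1001/1000 := by
  apply norm_le_of_sq <;> norm_num [cC, cS]


theorem hUp : ‖uc (zt prm.P h0.m (prm.u h0.xp) (prm.u h0.yp) 0 - hubZ)
    (vt prm.P h0.m (prm.u h0.xp) (prm.u h0.yp) 0)
    - ((1 / 2 ^ 74 : ℝ) : ℂ) * ((⟨cC, cS⟩ : ℂ) * (1 + ((1 / 2 ^ 34) : ℝ) * I))‖
      ≤ 10000 * tau + 2 * e0 + (1 / 2 ^ 74) * ((1 / 2 ^ 34) ^ 2 / 2 * (1001/1000)) := by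
  rw [iztp, ivtp]
  apply init_close
  · rw [abs_le]; constructor <;> norm_num [ixp']
  · rw [abs_le]; constructor <;> norm_num [iyp']
  · rw [abs_le]; constructor <;> norm_num [iup']
  · rw [abs_le]; constructor <;> norm_num [ivp']
  · positivity
  · exact cn
  · rw [abs_le]; constructor <;> norm_num [ixp', iyp', iup', ivp', e0, cC, cS, aK1, aK2, aK0, aK3, aK4]
  · rw [abs_le]; constructor <;> norm_num [ixp', iyp', iup', ivp', e0, cC, cS, aB1, aB4]


theorem hSp : ‖sc (zt prm.P h0.m (prm.u h0.xp) (prm.u h0.yp) 0 - hubZ)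
    (vt prm.P h0.m (prm.u h0.xp) (prm.u h0.yp) 0)‖ ≤ 10000 * tau + 2 * (8 / 2 ^ 168) := by
  rw [iztp, ivtp]
  have h := sc_close1 (X := ixp') (Y := iyp') (p := iup') (q := ivp') (a := 0) (b := 0) (e := 8 / 2 ^ 168)
    (by rw [abs_le]; constructor <;> norm_num [ixp'])
    (by rw [abs_le]; constructor <;> norm_num [iyp'])
    (by rw [abs_le]; constructor <;> norm_num [iup'])
    (by rw [abs_le]; constructor <;> norm_num [ivp'])
    (by rw [abs_le]; constructor <;> norm_num [ixp', iyp', iup', ivp', aC1, aC0, aC4])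
    (by rw [abs_le]; constructor <;> norm_num [ixp', iyp', iup', ivp', aC2, aC3, aD0, aC5])
  have e : (⟨0, 0⟩ : ℂ) = 0 := rfl
  rw [e, sub_zero] at h
  exact h


theorem hUn : ‖uc (zt prm.P h0.m (prm.u h0.xn) (prm.u h0.yn) 0 - hubZ)
    (vt prm.P h0.m (prm.u h0.xn) (prm.u h0.yn) 0)
    - ((1 / 2 ^ 74 : ℝ) : ℂ) * ((⟨cC, cS⟩ : ℂ) * (1 + ((-(1 / 2 ^ 34)) : ℝ) * I))‖
      ≤ 10000 * tau + 2 * e0 + (1 / 2 ^ 74) * ((-(1 / 2 ^ 34)) ^ 2 / 2 * (1001/1000)) := by
  rw [iztn, ivtn]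
  apply init_close
  · rw [abs_le]; constructor <;> norm_num [ixn']
  · rw [abs_le]; constructor <;> norm_num [iyn']
  · rw [abs_le]; constructor <;> norm_num [iun']
  · rw [abs_le]; constructor <;> norm_num [ivn']
  · positivity
  · exact cn
  · rw [abs_le]; constructor <;> norm_num [ixn', iyn', iun', ivn', e0, cC, cS, aK1, aK2, aK0, aK3, aK4]
  · rw [abs_le]; constructor <;> norm_num [ixn', iyn', iun', ivn', e0, cC, cS, aB1, aB4]


theorem hSn : ‖sc (zt prm.P h0.m (prm.u h0.xn) (prm.u h0.yn) 0 - hubZ)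
    (vt prm.P h0.m (prm.u h0.xn) (prm.u h0.yn) 0)‖ ≤ 10000 * tau + 2 * (8 / 2 ^ 168) := by
  rw [iztn, ivtn]
  have h := sc_close1 (X := ixn') (Y := iyn') (p := iun') (q := ivn') (a := 0) (b := 0) (e := 8 / 2 ^ 168)
    (by rw [abs_le]; constructor <;> norm_num [ixn'])
    (by rw [abs_le]; constructor <;> norm_num [iyn'])
    (by rw [abs_le]; constructor <;> norm_num [iun'])
    (by rw [abs_le]; constructor <;> norm_num [ivn'])
    (by rw [abs_le]; constructor <;> norm_num [ixn', iyn', iun', ivn', aC1, aC0, aC4])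
    (by rw [abs_le]; constructor <;> norm_num [ixn', iyn', iun', ivn', aC2, aC3, aD0, aC5])
  have e : (⟨0, 0⟩ : ℂ) = 0 := rfl
  rw [e, sub_zero] at h
  exact h


theorem sok : prm.sok := by
  apply sok_of
  · rw [abs_le]; unfold prm n_s3; constructor <;> norm_num
  · unfold prm tau; norm_num

theorem dir : ‖exp ((arg (⟨cC, cS⟩ : ℂ) : ℂ) * I) - ⟨cC, cS⟩‖ ≤ 4 / 2 ^ 168 := by
  apply exp_arg_close
  rw [norm_sq_mk, abs_le]
  constructor <;> norm_num [cC, cS]

theorem allfl : (h0 :: t0).map SD.fl = List.replicate (216 + 1) 0 := by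
  have h : all.map SD.fl = List.replicate 217 0 ++ (List.replicate 0 1 ++ List.replicate 0 2) := all_flags
  have e : List.replicate 0 1 ++ List.replicate 0 2 = ([] : List ℕ) := rfl
  rw [e, List.append_nil] at h
  exact h

theorem main (hH : Hyp) : ∀ φ : ℝ → P2 → P2, IsFlow (f0 rho0) φ →
      ∀ (x : P2) (ψ : ℝ), OutC (1 / 2 ^ 74) (1 / 2 ^ 68) ψ x →
        |ψ - arg (⟨cC, cS⟩ : ℂ)| ≤ 1 / 2 ^ 34 →
        Silent φ (1/10^5) x (tot (h0 :: t0)) ∧ FinR 0 (φ (tot (h0 :: t0)) x) ∧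
        (ψ = arg (⟨cC, cS⟩ : ℂ) - 1 * (1 / 2 ^ 34) → ell (φ (tot (h0 :: t0)) x) ≤ -ell0) ∧
        (ψ = arg (⟨cC, cS⟩ : ℂ) + 1 * (1 / 2 ^ 34) → ell0 ≤ ell (φ (tot (h0 :: t0)) x)) := by
  have hUn' := hUn
  have e1 : (1 + ((-(1 / 2 ^ 34) : ℝ) : ℂ) * I) = (1 - ((1 / 2 ^ 34 : ℝ) : ℂ) * I) := by
    push_cast; ring
  rw [e1] at hUn'
  have e2 : ((-(1 / 2 ^ 34) : ℝ)) ^ 2 = (1 / 2 ^ 34) ^ 2 := by norm_num
  rw [e2] at hUn'
  exact fin_of hH sok q0 rfl all_last rfl allfl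
    (by positivity) (by positivity) (by norm_num) dir hUp hUn' hSp hSn
    (by unfold SD.Ein prm h0 tau e0; norm_num)
    (by unfold SD.Ein prm h0 tau; norm_num)
    fztp fvtp fztn fvtn (a' := 24235/10^18) (e' := 94222/10^14)
    (by unfold SD.W last; norm_num)
    (by unfold SD.Eout SD.W prm last; norm_num)
    (by unfold SD.Eout prm last; norm_num)
    (by norm_num) (by norm_num)
    (by constructor <;> norm_num [fxp']) (by constructor <;> norm_num [fxn'])
    (by constructor <;> norm_num [fyp']) (by constructor <;> norm_num [fyn'])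
    (by constructor <;> norm_num [fup']) (by constructor <;> norm_num [fun'])
    (by constructor <;> norm_num [fvp']) (by constructor <;> norm_num [fvn'])
    (by norm_num [ell0, fxp', fyp', fup', fvp'])
    (by norm_num [ell0, fxn', fyn', fun', fvn'])

theorem conn (hH : Hyp) : StmtE2 := by
  refine ⟨⟨1 / 2 ^ 74, 1 / 2 ^ 68, arg (⟨cC, cS⟩ : ℂ), 1 / 2 ^ 34⟩,
    tot (h0 :: t0), 1/10^5, 1, ?_, tot_pos, by norm_num, Or.inl rfl, main hH⟩
  unfold OutPar.ok
  norm_num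

end Run7.h874.DF
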