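import Pool.Agent.Run7.h874.Conn
import Pool.Agent.Run7.h874.Data.DL

/-!
# Connection DL
-/

set_option autoImplicit false
set_option exponentiation.threshold 1000000

namespace Run7.h874.DL

open Complex Set

noncomputable def cC : ℝ := 0x5ce5fc82147cd9ed4c5dcb35abf794a22d0e1c83ac190d1486aa88c420200919e8 / 2 ^ 264
noncomputable def cS : ℝ := -(0xee8cafa39ae9ce3ef5a7e33bb36ea95c8f5e1730a3b84d3472ef7d46ff8a6ec48e / 2 ^ 264)
theorem ixp : hd0 (prm.u h0.xp) = 0x5bf2c7d3db5a7430984d0c1aa196573699ffb := by decide +kernel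
theorem iyp : hd0 (prm.u h0.yp) = 0xddb3d742c265539d92ba16b83c5c218cce19495cff7dacde9be6bce7cc1ba264d0 := by decide +kernel
theorem jxp : hd0 (derL (prm.u h0.xp)) = 0x774657d1cd74e6f107d5b0939b4a2264ece09 := by decide +kernel
theorem jyp : hd0 (derL (prm.u h0.yp)) = -0x12cfeda7040c3f42d668e201a2f97906ecfd7 := by decide +kernel
noncomputable def ixp' : ℝ := 0x5bf2c7d3db5a7430984d0c1aa196573699ffb / 2 ^ 264
noncomputable def iyp' : ℝ := 0xddb3d742c265539d92ba16b83c5c218cce19495cff7dacde9be6bce7cc1ba264d0 / 2 ^ 264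
noncomputable def iup' : ℝ := 0x774657d1cd74e6f107d5b0939b4a2264ece09 / 2 ^ 264
noncomputable def ivp' : ℝ := -(0x12cfeda7040c3f42d668e201a2f97906ecfd7 / 2 ^ 264)

theorem iztp : zt prm.P h0.m (prm.u h0.xp) (prm.u h0.yp) 0 = ⟨ixp', iyp'⟩ := by
  rw [zt_zero ixp iyp]
  unfold ixp' iyp' prm
  apply Complex.ext <;> norm_num
theorem ivtp : vt prm.P h0.m (prm.u h0.xp) (prm.u h0.yp) 0 = ⟨iup', ivp'⟩ := by
  rw [vt_zero jxp jyp]
  unfold iup' ivp' prm h0
  apply Complex.ext <;> norm_num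

theorem fxp : sumI (prm.u last.xp) = 0x844bf67cd889fb915b452986591ef5ba0e7a6f8f197d7e4e789ad955684e3 := by decide +kernel
theorem fyp : sumI (prm.u last.yp) = -0xddb3dd552848724e449ce6f0ba50d458c5206ca7da17078d95dd588c1ede0ae722 := by decide +kernel
theorem gxp : sumI (derL (prm.u last.xp)) = -0xb865957c7f2337916f14fcf261bab161dfc64a5015722ad41ed87be804940 := by decide +kernel
theorem gyp : sumI (derL (prm.u last.yp)) = -0x12fb9c5191be9efb0ad9e95919d9f22855ac8b6a16b8bb72fbd27877a0751 := by decide +kernel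
noncomputable def fxp' : ℝ := -(0x844bf67cd889fb915b452986591ef5ba0e7a6f8f197d7e4e789ad955684e3 / 2 ^ 264)
noncomputable def fyp' : ℝ := 0xddb3dd552848724e449ce6f0ba50d458c5206ca7da17078d95dd588c1ede0ae722 / 2 ^ 264
noncomputable def fup' : ℝ := 0xb865957c7f2337916f14fcf261bab161dfc64a5015722ad41ed87be804940 / 2 ^ 264
noncomputable def fvp' : ℝ := 0x12fb9c5191be9efb0ad9e95919d9f22855ac8b6a16b8bb72fbd27877a0751 / 2 ^ 264

theorem fztp : -zt prm.P last.m (prm.u last.xp) (prm.u last.yp) last.h = ⟨fxp', fyp'⟩ := by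
  rw [zt_end fxp fyp]
  unfold fxp' fyp' prm
  apply Complex.ext <;> simp [neg_re, neg_im] <;> norm_num
theorem fvtp : -vt prm.P last.m (prm.u last.xp) (prm.u last.yp) last.h = ⟨fup', fvp'⟩ := by
  rw [vt_end gxp gyp]
  unfold fup' fvp' prm last
  apply Complex.ext <;> simp [neg_re, neg_im] <;> norm_num

theorem ixn : hd0 (prm.u h0.xn) = 0x5bf2c7d3db5a73afa1992079ad68daffd93df := by decide +kernel
theorem iyn : hd0 (prm.u h0.yn) = 0xddb3d742c265539d92ba16b83c5c218cce19495cff8532230914f082fd1e612cd4 := by decide +kernel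
theorem jxn : hd0 (derL (prm.u h0.xn)) = 0x774657d1cd74e74dedd232a818240fb14aabc := by decide +kernel
theorem jyn : hd0 (derL (prm.u h0.yn)) = -0x12cfeda7040c3e83fe36c63fbe871edff90d1 := by decide +kernel
noncomputable def ixn' : ℝ := 0x5bf2c7d3db5a73afa1992079ad68daffd93df / 2 ^ 264
noncomputable def iyn' : ℝ := 0xddb3d742c265539d92ba16b83c5c218cce19495cff8532230914f082fd1e612cd4 / 2 ^ 264
noncomputable def iun' : ℝ := 0x774657d1cd74e74dedd232a818240fb14aabc / 2 ^ 264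
noncomputable def ivn' : ℝ := -(0x12cfeda7040c3e83fe36c63fbe871edff90d1 / 2 ^ 264)

theorem iztn : zt prm.P h0.m (prm.u h0.xn) (prm.u h0.yn) 0 = ⟨ixn', iyn'⟩ := by
  rw [zt_zero ixn iyn]
  unfold ixn' iyn' prm
  apply Complex.ext <;> norm_num
theorem ivtn : vt prm.P h0.m (prm.u h0.xn) (prm.u h0.yn) 0 = ⟨iun', ivn'⟩ := by
  rw [vt_zero jxn jyn]
  unfold iun' ivn' prm h0
  apply Complex.ext <;> norm_num

theorem fxn : sumI (prm.u last.xn) = 0x844c454502d18cda331ad70cd37eeff09353926f6dbdc132edfeeb49e2d0e := by decide +kernel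
theorem fyn : sumI (prm.u last.yn) = -0xddb3dd5543e4c1b0e91df0c50e7ae5946c3fb029f63c2eabafded963ae54c93201 := by decide +kernel
theorem gxn : sumI (derL (prm.u last.xn)) = -0xb867a12c9417472760b9605288a907a78687dd28ab21309255dd6a9131499 := by decide +kernel
theorem gyn : sumI (derL (prm.u last.yn)) = -0x12fd380acfa03c78e92816bb12bcc250beb641a886fe7c048b0503a78cf34 := by decide +kernel
noncomputable def fxn' : ℝ := -(0x844c454502d18cda331ad70cd37eeff09353926f6dbdc132edfeeb49e2d0e / 2 ^ 264)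
noncomputable def fyn' : ℝ := 0xddb3dd5543e4c1b0e91df0c50e7ae5946c3fb029f63c2eabafded963ae54c93201 / 2 ^ 264
noncomputable def fun' : ℝ := 0xb867a12c9417472760b9605288a907a78687dd28ab21309255dd6a9131499 / 2 ^ 264
noncomputable def fvn' : ℝ := 0x12fd380acfa03c78e92816bb12bcc250beb641a886fe7c048b0503a78cf34 / 2 ^ 264

theorem fztn : -zt prm.P last.m (prm.u last.xn) (prm.u last.yn) last.h = ⟨fxn', fyn'⟩ := by
  rw [zt_end fxn fyn]
  unfold fxn' fyn' prm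
  apply Complex.ext <;> simp [neg_re, neg_im] <;> norm_num
theorem fvtn : -vt prm.P last.m (prm.u last.xn) (prm.u last.yn) last.h = ⟨fun', fvn'⟩ := by
  rw [vt_end gxn gyn]
  unfold fun' fvn' prm last
  apply Complex.ext <;> simp [neg_re, neg_im] <;> norm_num


/-- component error of the initial data -/
noncomputable def e0 : ℝ := (1 / 2 ^ 117) * (1 / 2 ^ 56) ^ 3 + 8 / 2 ^ 264

theorem cn : ‖(⟨cC, cS⟩ : ℂ)‖ ≤ 1001/1000 := by
  apply norm_le_of_sq <;> norm_num [cC, cS]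


theorem hUp : ‖uc (zt prm.P h0.m (prm.u h0.xp) (prm.u h0.yp) 0 - hubZ)
    (vt prm.P h0.m (prm.u h0.xp) (prm.u h0.yp) 0)
    - ((1 / 2 ^ 117 : ℝ) : ℂ) * ((⟨cC, cS⟩ : ℂ) * (1 + ((1 / 2 ^ 56) : ℝ) * I))‖
      ≤ 10000 * tau + 2 * e0 + (1 / 2 ^ 117) * ((1 / 2 ^ 56) ^ 2 / 2 * (1001/1000)) := by
  rw [iztp, ivtp]
  apply init_close
  · rw [abs_le]; constructor <;> norm_num [ixp']
  · rw [abs_le]; constructor <;> norm_num [iyp']
  · rw [abs_le]; constructor <;> norm_num [iup']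
  · rw [abs_le]; constructor <;> norm_num [ivp']
  · positivity
  · exact cn
  · rw [abs_le]; constructor <;> norm_num [ixp', iyp', iup', ivp', e0, cC, cS, aK1, aK2, aK0, aK3, aK4]
  · rw [abs_le]; constructor <;> norm_num [ixp', iyp', iup', ivp', e0, cC, cS, aB1, aB4]


theorem hSp : ‖sc (zt prm.P h0.m (prm.u h0.xp) (prm.u h0.yp) 0 - hubZ)
    (vt prm.P h0.m (prm.u h0.xp) (prm.u h0.yp) 0)‖ ≤ 10000 * tau + 2 * (8 / 2 ^ 264) := by
  rw [iztp, ivtp]
  have h := sc_close1 (X := ixp') (Y := iyp') (p := iup') (q := ivp') (a := 0) (b := 0) (e := 8 / 2 ^ 264)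
    (by rw [abs_le]; constructor <;> norm_num [ixp'])
    (by rw [abs_le]; constructor <;> norm_num [iyp'])
    (by rw [abs_le]; constructor <;> norm_num [iup'])
    (by rw [abs_le]; constructor <;> norm_num [ivp'])
    (by rw [abs_le]; constructor <;> norm_num [ixp', iyp', iup', ivp', aC1, aC0, aC4])
    (by rw [abs_le]; constructor <;> norm_num [ixp', iyp', iup', ivp', aC2, aC3, aD0, aC5])
  have e : (⟨0, 0⟩ : ℂ) = 0 := rfl
  rw [e, sub_zero] at h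
  exact h


theorem hUn : ‖uc (zt prm.P h0.m (prm.u h0.xn) (prm.u h0.yn) 0 - hubZ)
    (vt prm.P h0.m (prm.u h0.xn) (prm.u h0.yn) 0)
    - ((1 / 2 ^ 117 : ℝ) : ℂ) * ((⟨cC, cS⟩ : ℂ) * (1 + ((-(1 / 2 ^ 56)) : ℝ) * I))‖
      ≤ 10000 * tau + 2 * e0 + (1 / 2 ^ 117) * ((-(1 / 2 ^ 56)) ^ 2 / 2 * (1001/1000)) := by
  rw [iztn, ivtn]
  apply init_close
  · rw [abs_le]; constructor <;> norm_num [ixn']
  · rw [abs_le]; constructor <;> norm_num [iyn']
  · rw [abs_le]; constructor <;> norm_num [iun']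
  · rw [abs_le]; constructor <;> norm_num [ivn']
  · positivity
  · exact cn
  · rw [abs_le]; constructor <;> norm_num [ixn', iyn', iun', ivn', e0, cC, cS, aK1, aK2, aK0, aK3, aK4]
  · rw [abs_le]; constructor <;> norm_num [ixn', iyn', iun', ivn', e0, cC, cS, aB1, aB4]


theorem hSn : ‖sc (zt prm.P h0.m (prm.u h0.xn) (prm.u h0.yn) 0 - hubZ)
    (vt prm.P h0.m (prm.u h0.xn) (prm.u h0.yn) 0)‖ ≤ 10000 * tau + 2 * (8 / 2 ^ 264) := by
  rw [iztn, ivtn]
  have h := sc_close1 (X := ixn') (Y := iyn') (p := iun') (q := ivn') (a := 0) (b := 0) (e := 8 / 2 ^ 264)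
    (by rw [abs_le]; constructor <;> norm_num [ixn'])
    (by rw [abs_le]; constructor <;> norm_num [iyn'])
    (by rw [abs_le]; constructor <;> norm_num [iun'])
    (by rw [abs_le]; constructor <;> norm_num [ivn'])
    (by rw [abs_le]; constructor <;> norm_num [ixn', iyn', iun', ivn', aC1, aC0, aC4])
    (by rw [abs_le]; constructor <;> norm_num [ixn', iyn', iun', ivn', aC2, aC3, aD0, aC5])
  have e : (⟨0, 0⟩ : ℂ) = 0 := rfl
  rw [e, sub_zero] at h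
  exact h

noncomputable def Uap : ℝ := (0xe110dd1a532b9759 / 2 ^ 100)
noncomputable def Ubp : ℝ := (0x103ffcba313c2bbb7 / 2 ^ 100)
noncomputable def Sap : ℝ := (0x65a1561633af8d4bf0e0 / 2 ^ 100)
noncomputable def Sbp : ℝ := (0x747b8c738ed7a1116209 / 2 ^ 100)

theorem gUp : ‖uc (-zt prm.P last.m (prm.u last.xp) (prm.u last.yp) last.h - hubZ)
    (-vt prm.P last.m (prm.u last.xp) (prm.u last.yp) last.h) - ⟨Uap, Ubp⟩‖
      ≤ 10000 * tau + 2 * (1 / 2 ^ 100) := by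
  rw [fztp, fvtp]
  apply uc_close1
  · rw [abs_le]; constructor <;> norm_num [fxp']
  · rw [abs_le]; constructor <;> norm_num [fyp']
  · rw [abs_le]; constructor <;> norm_num [fup']
  · rw [abs_le]; constructor <;> norm_num [fvp']
  · rw [abs_le]; constructor <;> norm_num [fxp', fyp', fup', fvp', Uap, aK1, aK2, aK0, aK3, aK4]
  · rw [abs_le]; constructor <;> norm_num [fxp', fyp', fup', fvp', Ubp, aB1, aB4]

theorem gSp : ‖sc (-zt prm.P last.m (prm.u last.xp) (prm.u last.yp) last.h - hubZ)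
    (-vt prm.P last.m (prm.u last.xp) (prm.u last.yp) last.h) - ⟨Sap, Sbp⟩‖
      ≤ 10000 * tau + 2 * (1 / 2 ^ 100) := by
  rw [fztp, fvtp]
  apply sc_close1
  · rw [abs_le]; constructor <;> norm_num [fxp']
  · rw [abs_le]; constructor <;> norm_num [fyp']
  · rw [abs_le]; constructor <;> norm_num [fup']
  · rw [abs_le]; constructor <;> norm_num [fvp']
  · rw [abs_le]; constructor <;> norm_num [fxp', fyp', fup', fvp', Sap, aC1, aC0, aC4]
  · rw [abs_le]; constructor <;> norm_num [fxp', fyp', fup', fvp', Sbp, aC2, aC3, aD0, aC5]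

noncomputable def Uan : ℝ := (-(0xe7d91cc59af8b116 / 2 ^ 100))
noncomputable def Ubn : ℝ := (-(0x107b04798dd07b73a / 2 ^ 100))
noncomputable def San : ℝ := (0x65a156162ff2a0c28ac0 / 2 ^ 100)
noncomputable def Sbn : ℝ := (0x747b8c7391f89ad2de3f / 2 ^ 100)

theorem gUn : ‖uc (-zt prm.P last.m (prm.u last.xn) (prm.u last.yn) last.h - hubZ)
    (-vt prm.P last.m (prm.u last.xn) (prm.u last.yn) last.h) - ⟨Uan, Ubn⟩‖
      ≤ 10000 * tau + 2 * (1 / 2 ^ 100) := by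
  rw [fztn, fvtn]
  apply uc_close1
  · rw [abs_le]; constructor <;> norm_num [fxn']
  · rw [abs_le]; constructor <;> norm_num [fyn']
  · rw [abs_le]; constructor <;> norm_num [fun']
  · rw [abs_le]; constructor <;> norm_num [fvn']
  · rw [abs_le]; constructor <;> norm_num [fxn', fyn', fun', fvn', Uan, aK1, aK2, aK0, aK3, aK4]
  · rw [abs_le]; constructor <;> norm_num [fxn', fyn', fun', fvn', Ubn, aB1, aB4]

theorem gSn : ‖sc (-zt prm.P last.m (prm.u last.xn) (prm.u last.yn) last.h - hubZ)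
    (-vt prm.P last.m (prm.u last.xn) (prm.u last.yn) last.h) - ⟨San, Sbn⟩‖
      ≤ 10000 * tau + 2 * (1 / 2 ^ 100) := by
  rw [fztn, fvtn]
  apply sc_close1
  · rw [abs_le]; constructor <;> norm_num [fxn']
  · rw [abs_le]; constructor <;> norm_num [fyn']
  · rw [abs_le]; constructor <;> norm_num [fun']
  · rw [abs_le]; constructor <;> norm_num [fvn']
  · rw [abs_le]; constructor <;> norm_num [fxn', fyn', fun', fvn', San, aC1, aC0, aC4]
  · rw [abs_le]; constructor <;> norm_num [fxn', fyn', fun', fvn', Sbn, aC2, aC3, aD0, aC5]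


theorem sok : prm.sok := by
  apply sok_of
  · rw [abs_le]; unfold prm n_s3; constructor <;> norm_num
  · unfold prm tau; norm_num

theorem dir : ‖exp ((arg (⟨cC, cS⟩ : ℂ) : ℂ) * I) - ⟨cC, cS⟩‖ ≤ 4 / 2 ^ 264 := by
  apply exp_arg_close
  rw [norm_sq_mk, abs_le]
  constructor <;> norm_num [cC, cS]

theorem main (hH : Hyp) : ∀ φ : ℝ → P2 → P2, IsFlow (f0 rho0) φ →
      ∀ (x : P2) (ψ : ℝ), OutC (1 / 2 ^ 117) (1 / 2 ^ 111) ψ x →
        |ψ - arg (⟨cC, cS⟩ : ℂ)| ≤ 1 / 2 ^ 56 →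
        Seg φ 0 (1/10^5) x (tot (h0 :: t0)) ∧ EntryC ⟨Sap, Sbp⟩ (-(φ (tot (h0 :: t0)) x)) ∧
        (ψ = arg (⟨cC, cS⟩ : ℂ) - 1 * (1 / 2 ^ 56) → ups (-(φ (tot (h0 :: t0)) x)) ≤ -(5/10^12)) ∧
        (ψ = arg (⟨cC, cS⟩ : ℂ) + 1 * (1 / 2 ^ 56) → 5/10^12 ≤ ups (-(φ (tot (h0 :: t0)) x))) := by
  have hUn' := hUn
  have e1 : (1 + ((-(1 / 2 ^ 56) : ℝ) : ℂ) * I) = (1 - ((1 / 2 ^ 56 : ℝ) : ℂ) * I) := by
    push_cast; ring
  rw [e1] at hUn'
  have e2 : ((-(1 / 2 ^ 56) : ℝ)) ^ 2 = (1 / 2 ^ 56) ^ 2 := by norm_num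
  rw [e2] at hUn'
  exact conn_of hH sok rfl q0 rfl all_last rfl (a := 323) (b := 1) (c := 199) all_flags
    (by positivity) (by positivity) (by norm_num) dir hUp hUn' hSp hSn
    (by unfold SD.Ein prm h0 tau e0; norm_num)
    (by unfold SD.Ein prm h0 tau; norm_num)
    gUp gUn gSp gSn
    (e' := 5107/10^15) (nU := 1997/10^14) (nS := 5760/10^10) (nl := 5757/10^10) (s1 := 5757/10^10 / 1000)
    (by unfold SD.Eout prm last tau; norm_num)
    (by apply norm_le_of_sq <;> norm_num [Uap, Ubp])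
    (by apply norm_le_of_sq <;> norm_num [Uan, Ubn])
    (by apply norm_le_of_sq <;> norm_num [Sap, Sbp])
    (by apply norm_le_of_sq <;> norm_num [San, Sbn])
    (by apply le_norm_of_sq <;> norm_num [Sap, Sbp])
    (by norm_num) (by norm_num)
    (by rw [sub_self, norm_zero]; norm_num)
    (by
      have e : (⟨San, Sbn⟩ : ℂ) - ⟨Sap, Sbp⟩ = ⟨San - Sap, Sbn - Sbp⟩ := by
        apply Complex.ext <;> simp
      rw [e]
      apply norm_le_of_sq <;> norm_num [San, Sbn, Sap, Sbp])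
    (by norm_num) (by norm_num)
    (by
      have e : ((⟨Uap, Ubp⟩ : ℂ) * (starRingEnd ℂ) ⟨Sap, Sbp⟩).re = Uap * Sap + Ubp * Sbp := by
        simp
      rw [e]; norm_num [Uap, Ubp, Sap, Sbp])
    (by
      have e : ((⟨Uan, Ubn⟩ : ℂ) * (starRingEnd ℂ) ⟨San, Sbn⟩).re = Uan * San + Ubn * Sbn := by
        simp
      rw [e]; norm_num [Uan, Ubn, San, Sbn])

theorem conn (hH : Hyp) : ∃ (P : OutPar) (S : ℂ) (δ T m σ : ℝ), P.ok ∧ 0 < ‖S‖ ∧ ‖S‖ ≤ 1/2000 ∧
    10 * ‖S‖ ^ 2 ≤ δ ∧ 0 < T ∧ 0 < m ∧ (σ = 1 ∨ σ = -1) ∧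
    ∀ φ : ℝ → P2 → P2, IsFlow (f0 rho0) φ →
      ∀ (x : P2) (ψ : ℝ), OutC P.r P.ϵ ψ x → |ψ - P.θ| ≤ P.Δ →
        Seg φ 0 m x T ∧ EntryC S (-(φ T x)) ∧
        (ψ = P.θ - σ * P.Δ → ups (-(φ T x)) ≤ -δ) ∧ (ψ = P.θ + σ * P.Δ → δ ≤ ups (-(φ T x))) := by
  have hS1 : ‖(⟨Sap, Sbp⟩ : ℂ)‖ ≤ 5760/10^10 := by apply norm_le_of_sq <;> norm_num [Sap, Sbp]
  have hS2 : 5757/10^10 ≤ ‖(⟨Sap, Sbp⟩ : ℂ)‖ := by apply le_norm_of_sq <;> norm_num [Sap, Sbp]
  refine ⟨⟨1 / 2 ^ 117, 1 / 2 ^ 111, arg (⟨cC, cS⟩ : ℂ), 1 / 2 ^ 56⟩, ⟨Sap, Sbp⟩, 5/10^12,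
    tot (h0 :: t0), 1/10^5, 1, ?_, ?_, ?_, ?_, tot_pos, by norm_num, Or.inl rfl, main hH⟩
  · unfold OutPar.ok
    norm_num
  · refine lt_of_lt_of_le ?_ hS2; norm_num
  · refine hS1.trans ?_; norm_num
  · have : ‖(⟨Sap, Sbp⟩ : ℂ)‖ ^ 2 ≤ (5760/10^10) ^ 2 := pow_le_pow_left₀ (norm_nonneg _) hS1 2
    norm_num at this ⊢
    linarith

end Run7.h874.DL
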