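import Pool.Agent.Run7.h874.Conn
import Pool.Agent.Run7.h874.Data.DM

/-!
# Connection DM
-/

set_option autoImplicit false
set_option exponentiation.threshold 1000000

namespace Run7.h874.DM

open Complex Set

noncomputable def cC : ℝ := -(0x3ba02c1673edf3e2e2f241f97e86d2339f60d68821d / 2 ^ 176)
noncomputable def cS : ℝ := 0xfff90e4b9eec9e734d273178e9a248193f99eee3a1be / 2 ^ 176
theorem ixp : hd0 (prm.u h0.xp) = -0x3fa28e0a33a43d11754525ee2 := by decide +kernel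
theorem iyp : hd0 (prm.u h0.yp) = 0xddb3d742c265539d92b53b3d6b14f73e8874b65ef89e := by decide +kernel
theorem jxp : hd0 (derL (prm.u h0.xp)) = -0x7ffc8725cf587f239b19a37ef := by decide +kernel
theorem jyp : hd0 (derL (prm.u h0.yp)) = -0xfb3a95cf5102d4c771a7ded0 := by decide +kernel
noncomputable def ixp' : ℝ := -(0x3fa28e0a33a43d11754525ee2 / 2 ^ 176)
noncomputable def iyp' : ℝ := 0xddb3d742c265539d92b53b3d6b14f73e8874b65ef89e / 2 ^ 176
noncomputable def iup' : ℝ := -(0x7ffc8725cf587f239b19a37ef / 2 ^ 176)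
noncomputable def ivp' : ℝ := -(0xfb3a95cf5102d4c771a7ded0 / 2 ^ 176)

theorem iztp : zt prm.P h0.m (prm.u h0.xp) (prm.u h0.yp) 0 = ⟨ixp', iyp'⟩ := by
  rw [zt_zero ixp iyp]
  unfold ixp' iyp' prm
  apply Complex.ext <;> norm_num
theorem ivtp : vt prm.P h0.m (prm.u h0.xp) (prm.u h0.yp) 0 = ⟨iup', ivp'⟩ := by
  rw [vt_zero jxp jyp]
  unfold iup' ivp' prm h0
  apply Complex.ext <;> norm_num

theorem fxp : sumI (prm.u last.xp) = 0x198727ca584621950d943c663704ef0b23926e781 := by decide +kernel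
theorem fyp : sumI (prm.u last.yp) = -0xddb6e4115822d34ad3be568d8c7047f70e5328d6a08b := by decide +kernel
theorem gxp : sumI (derL (prm.u last.xp)) = -0x499e8ee460f80ce2f54bcbd18a4e67ce00cb051c7 := by decide +kernel
theorem gyp : sumI (derL (prm.u last.yp)) = 0x14ab2794a98a737d3abc9c9834775556ae2534a43 := by decide +kernel
noncomputable def fxp' : ℝ := -(0x198727ca584621950d943c663704ef0b23926e781 / 2 ^ 176)
noncomputable def fyp' : ℝ := 0xddb6e4115822d34ad3be568d8c7047f70e5328d6a08b / 2 ^ 176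
noncomputable def fup' : ℝ := 0x499e8ee460f80ce2f54bcbd18a4e67ce00cb051c7 / 2 ^ 176
noncomputable def fvp' : ℝ := -(0x14ab2794a98a737d3abc9c9834775556ae2534a43 / 2 ^ 176)

theorem fztp : -zt prm.P last.m (prm.u last.xp) (prm.u last.yp) last.h = ⟨fxp', fyp'⟩ := by
  rw [zt_end fxp fyp]
  unfold fxp' fyp' prm
  apply Complex.ext <;> simp [neg_re, neg_im] <;> norm_num
theorem fvtp : -vt prm.P last.m (prm.u last.xp) (prm.u last.yp) last.h = ⟨fup', fvp'⟩ := by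
  rw [vt_end gxp gyp]
  unfold fup' fvp' prm last
  apply Complex.ext <;> simp [neg_re, neg_im] <;> norm_num

theorem ixn : hd0 (prm.u h0.xn) = -0x3fa28e0a2813124cbed90f4ec := by decide +kernel
theorem iyn : hd0 (prm.u h0.yn) = 0xddb3d742c265539d92b53b3d6b14b0c44973390afc44 := by decide +kernel
theorem jxn : hd0 (derL (prm.u h0.xn)) = -0x7ffc8725cf941f4fb18d9172d := by decide +kernel
theorem jyn : hd0 (derL (prm.u h0.yn)) = -0xfb3a95d010fa30e03478c6b8 := by decide +kernel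
noncomputable def ixn' : ℝ := -(0x3fa28e0a2813124cbed90f4ec / 2 ^ 176)
noncomputable def iyn' : ℝ := 0xddb3d742c265539d92b53b3d6b14b0c44973390afc44 / 2 ^ 176
noncomputable def iun' : ℝ := -(0x7ffc8725cf941f4fb18d9172d / 2 ^ 176)
noncomputable def ivn' : ℝ := -(0xfb3a95d010fa30e03478c6b8 / 2 ^ 176)

theorem iztn : zt prm.P h0.m (prm.u h0.xn) (prm.u h0.yn) 0 = ⟨ixn', iyn'⟩ := by
  rw [zt_zero ixn iyn]
  unfold ixn' iyn' prm
  apply Complex.ext <;> norm_num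
theorem ivtn : vt prm.P h0.m (prm.u h0.xn) (prm.u h0.yn) 0 = ⟨iun', ivn'⟩ := by
  rw [vt_zero jxn jyn]
  unfold iun' ivn' prm h0
  apply Complex.ext <;> norm_num

theorem fxn : sumI (prm.u last.xn) = 0x196114d0ecc8ee7cbd4fc111013cfcd0ce07c633c := by decide +kernel
theorem fyn : sumI (prm.u last.yn) = -0xddb6e8fe404a905e17c04baae6cab13f7b4e75ddbe2a := by decide +kernel
theorem gxn : sumI (derL (prm.u last.xn)) = -0x4a1418ffe2da5610290129648f0c8127dd27985b8 := by decide +kernel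
theorem gyn : sumI (derL (prm.u last.yn)) = 0x1487df043bd6dd4af998242114cb37a45d9d51658 := by decide +kernel
noncomputable def fxn' : ℝ := -(0x196114d0ecc8ee7cbd4fc111013cfcd0ce07c633c / 2 ^ 176)
noncomputable def fyn' : ℝ := 0xddb6e8fe404a905e17c04baae6cab13f7b4e75ddbe2a / 2 ^ 176
noncomputable def fun' : ℝ := 0x4a1418ffe2da5610290129648f0c8127dd27985b8 / 2 ^ 176
noncomputable def fvn' : ℝ := -(0x1487df043bd6dd4af998242114cb37a45d9d51658 / 2 ^ 176)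

theorem fztn : -zt prm.P last.m (prm.u last.xn) (prm.u last.yn) last.h = ⟨fxn', fyn'⟩ := by
  rw [zt_end fxn fyn]
  unfold fxn' fyn' prm
  apply Complex.ext <;> simp [neg_re, neg_im] <;> norm_num
theorem fvtn : -vt prm.P last.m (prm.u last.xn) (prm.u last.yn) last.h = ⟨fun', fvn'⟩ := by
  rw [vt_end gxn gyn]
  unfold fun' fvn' prm last
  apply Complex.ext <;> simp [neg_re, neg_im] <;> norm_num


/-- component error of the initial data -/
noncomputable def e0 : ℝ := (1 / 2 ^ 77) * (1 / 2 ^ 36) ^ 3 + 8 / 2 ^ 176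

theorem cn : ‖(⟨cC, cS⟩ : ℂ)‖ ≤ 1001/1000 := by
  apply norm_le_of_sq <;> norm_num [cC, cS]


theorem hUp : ‖uc (zt prm.P h0.m (prm.u h0.xp) (prm.u h0.yp) 0 - hubZ)
    (vt prm.P h0.m (prm.u h0.xp) (prm.u h0.yp) 0)
    - ((1 / 2 ^ 77 : ℝ) : ℂ) * ((⟨cC, cS⟩ : ℂ) * (1 + ((1 / 2 ^ 36) : ℝ) * I))‖
      ≤ 10000 * tau + 2 * e0 + (1 / 2 ^ 77) * ((1 / 2 ^ 36) ^ 2 / 2 * (1001/1000)) := by
  rw [iztp, ivtp]
  apply init_close
  · rw [abs_le]; constructor <;> norm_num [ixp']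
  · rw [abs_le]; constructor <;> norm_num [iyp']
  · rw [abs_le]; constructor <;> norm_num [iup']
  · rw [abs_le]; constructor <;> norm_num [ivp']
  · positivity
  · exact cn
  · rw [abs_le]; constructor <;> norm_num [ixp', iyp', iup', ivp', e0, cC, cS, aK1, aK2, aK0, aK3, aK4]
  · rw [abs_le]; constructor <;> norm_num [ixp', iyp', iup', ivp', e0, cC, cS, aB1, aB4]


theorem hSp : ‖sc (zt prm.P h0.m (prm.u h0.xp) (prm.u h0.yp) 0 - hubZ)
    (vt prm.P h0.m (prm.u h0.xp) (prm.u h0.yp) 0)‖ ≤ 10000 * tau + 2 * (8 / 2 ^ 176) := by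
  rw [iztp, ivtp]
  have h := sc_close1 (X := ixp') (Y := iyp') (p := iup') (q := ivp') (a := 0) (b := 0) (e := 8 / 2 ^ 176)
    (by rw [abs_le]; constructor <;> norm_num [ixp'])
    (by rw [abs_le]; constructor <;> norm_num [iyp'])
    (by rw [abs_le]; constructor <;> norm_num [iup'])
    (by rw [abs_le]; constructor <;> norm_num [ivp'])
    (by rw [abs_le]; constructor <;> norm_num [ixp', iyp', iup', ivp', aC1, aC0, aC4])
    (by rw [abs_le]; constructor <;> norm_num [ixp', iyp', iup', ivp', aC2, aC3, aD0, aC5])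
  have e : (⟨0, 0⟩ : ℂ) = 0 := rfl
  rw [e, sub_zero] at h
  exact h


theorem hUn : ‖uc (zt prm.P h0.m (prm.u h0.xn) (prm.u h0.yn) 0 - hubZ)
    (vt prm.P h0.m (prm.u h0.xn) (prm.u h0.yn) 0)
    - ((1 / 2 ^ 77 : ℝ) : ℂ) * ((⟨cC, cS⟩ : ℂ) * (1 + ((-(1 / 2 ^ 36)) : ℝ) * I))‖
      ≤ 10000 * tau + 2 * e0 + (1 / 2 ^ 77) * ((-(1 / 2 ^ 36)) ^ 2 / 2 * (1001/1000)) := by
  rw [iztn, ivtn]
  apply init_close
  · rw [abs_le]; constructor <;> norm_num [ixn']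
  · rw [abs_le]; constructor <;> norm_num [iyn']
  · rw [abs_le]; constructor <;> norm_num [iun']
  · rw [abs_le]; constructor <;> norm_num [ivn']
  · positivity
  · exact cn
  · rw [abs_le]; constructor <;> norm_num [ixn', iyn', iun', ivn', e0, cC, cS, aK1, aK2, aK0, aK3, aK4]
  · rw [abs_le]; constructor <;> norm_num [ixn', iyn', iun', ivn', e0, cC, cS, aB1, aB4]


theorem hSn : ‖sc (zt prm.P h0.m (prm.u h0.xn) (prm.u h0.yn) 0 - hubZ)
    (vt prm.P h0.m (prm.u h0.xn) (prm.u h0.yn) 0)‖ ≤ 10000 * tau + 2 * (8 / 2 ^ 176) := by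
  rw [iztn, ivtn]
  have h := sc_close1 (X := ixn') (Y := iyn') (p := iun') (q := ivn') (a := 0) (b := 0) (e := 8 / 2 ^ 176)
    (by rw [abs_le]; constructor <;> norm_num [ixn'])
    (by rw [abs_le]; constructor <;> norm_num [iyn'])
    (by rw [abs_le]; constructor <;> norm_num [iun'])
    (by rw [abs_le]; constructor <;> norm_num [ivn'])
    (by rw [abs_le]; constructor <;> norm_num [ixn', iyn', iun', ivn', aC1, aC0, aC4])
    (by rw [abs_le]; constructor <;> norm_num [ixn', iyn', iun', ivn', aC2, aC3, aD0, aC5])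
  have e : (⟨0, 0⟩ : ℂ) = 0 := rfl
  rw [e, sub_zero] at h
  exact h

noncomputable def Uap : ℝ := (0xcdb835779dc901b49ee / 2 ^ 100)
noncomputable def Ubp : ℝ := (0x3a9e9a96f9e7be9731ed / 2 ^ 100)
noncomputable def Sap : ℝ := (0xd12ea24d06ab34a363be4 / 2 ^ 100)
noncomputable def Sbp : ℝ := (0x3ab188481b766331965399 / 2 ^ 100)

theorem gUp : ‖uc (-zt prm.P last.m (prm.u last.xp) (prm.u last.yp) last.h - hubZ)
    (-vt prm.P last.m (prm.u last.xp) (prm.u last.yp) last.h) - ⟨Uap, Ubp⟩‖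
      ≤ 10000 * tau + 2 * (1 / 2 ^ 100) := by
  rw [fztp, fvtp]
  apply uc_close1
  · rw [abs_le]; constructor <;> norm_num [fxp']
  · rw [abs_le]; constructor <;> norm_num [fyp']
  · rw [abs_le]; constructor <;> norm_num [fup']
  · rw [abs_le]; constructor <;> norm_num [fvp']
  · rw [abs_le]; constructor <;> norm_num [fxp', fyp', fup', fvp', Uap, aK1, aK2, aK0, aK3, aK4]
  · rw [abs_le]; constructor <;> norm_num [fxp', fyp', fup', fvp', Ubp, aB1, aB4]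

theorem gSp : ‖sc (-zt prm.P last.m (prm.u last.xp) (prm.u last.yp) last.h - hubZ)
    (-vt prm.P last.m (prm.u last.xp) (prm.u last.yp) last.h) - ⟨Sap, Sbp⟩‖
      ≤ 10000 * tau + 2 * (1 / 2 ^ 100) := by
  rw [fztp, fvtp]
  apply sc_close1
  · rw [abs_le]; constructor <;> norm_num [fxp']
  · rw [abs_le]; constructor <;> norm_num [fyp']
  · rw [abs_le]; constructor <;> norm_num [fup']
  · rw [abs_le]; constructor <;> norm_num [fvp']
  · rw [abs_le]; constructor <;> norm_num [fxp', fyp', fup', fvp', Sap, aC1, aC0, aC4]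
  · rw [abs_le]; constructor <;> norm_num [fxp', fyp', fup', fvp', Sbp, aC2, aC3, aD0, aC5]

noncomputable def Uan : ℝ := (-(0xd5398bd572bec9d61f0 / 2 ^ 100))
noncomputable def Ubn : ℝ := (-(0x3aeaf6191a5fd1118c13 / 2 ^ 100))
noncomputable def San : ℝ := (0xd12e9db8443e5e1df7954 / 2 ^ 100)
noncomputable def Sbn : ℝ := (0x3ab188e11c38e5a2d93148 / 2 ^ 100)

theorem gUn : ‖uc (-zt prm.P last.m (prm.u last.xn) (prm.u last.yn) last.h - hubZ)
    (-vt prm.P last.m (prm.u last.xn) (prm.u last.yn) last.h) - ⟨Uan, Ubn⟩‖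
      ≤ 10000 * tau + 2 * (1 / 2 ^ 100) := by
  rw [fztn, fvtn]
  apply uc_close1
  · rw [abs_le]; constructor <;> norm_num [fxn']
  · rw [abs_le]; constructor <;> norm_num [fyn']
  · rw [abs_le]; constructor <;> norm_num [fun']
  · rw [abs_le]; constructor <;> norm_num [fvn']
  · rw [abs_le]; constructor <;> norm_num [fxn', fyn', fun', fvn', Uan, aK1, aK2, aK0, aK3, aK4]
  · rw [abs_le]; constructor <;> norm_num [fxn', fyn', fun', fvn', Ubn, aB1, aB4]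

theorem gSn : ‖sc (-zt prm.P last.m (prm.u last.xn) (prm.u last.yn) last.h - hubZ)
    (-vt prm.P last.m (prm.u last.xn) (prm.u last.yn) last.h) - ⟨San, Sbn⟩‖
      ≤ 10000 * tau + 2 * (1 / 2 ^ 100) := by
  rw [fztn, fvtn]
  apply sc_close1
  · rw [abs_le]; constructor <;> norm_num [fxn']
  · rw [abs_le]; constructor <;> norm_num [fyn']
  · rw [abs_le]; constructor <;> norm_num [fun']
  · rw [abs_le]; constructor <;> norm_num [fvn']
  · rw [abs_le]; constructor <;> norm_num [fxn', fyn', fun', fvn', San, aC1, aC0, aC4]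
  · rw [abs_le]; constructor <;> norm_num [fxn', fyn', fun', fvn', Sbn, aC2, aC3, aD0, aC5]


theorem sok : prm.sok := by
  apply sok_of
  · rw [abs_le]; unfold prm n_s3; constructor <;> norm_num
  · unfold prm tau; norm_num

theorem dir : ‖exp ((arg (⟨cC, cS⟩ : ℂ) : ℂ) * I) - ⟨cC, cS⟩‖ ≤ 4 / 2 ^ 176 := by
  apply exp_arg_close
  rw [norm_sq_mk, abs_le]
  constructor <;> norm_num [cC, cS]

theorem main (hH : Hyp) : ∀ φ : ℝ → P2 → P2, IsFlow (f0 rho0) φ →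
      ∀ (x : P2) (ψ : ℝ), OutC (1 / 2 ^ 77) (1 / 2 ^ 71) ψ x →
        |ψ - arg (⟨cC, cS⟩ : ℂ)| ≤ 1 / 2 ^ 36 →
        Seg φ 2 (1/10^5) x (tot (h0 :: t0)) ∧ EntryC ⟨Sap, Sbp⟩ (-(φ (tot (h0 :: t0)) x)) ∧
        (ψ = arg (⟨cC, cS⟩ : ℂ) - 1 * (1 / 2 ^ 36) → ups (-(φ (tot (h0 :: t0)) x)) ≤ -(5/10^8)) ∧
        (ψ = arg (⟨cC, cS⟩ : ℂ) + 1 * (1 / 2 ^ 36) → 5/10^8 ≤ ups (-(φ (tot (h0 :: t0)) x))) := by
  have hUn' := hUn
  have e1 : (1 + ((-(1 / 2 ^ 36) : ℝ) : ℂ) * I) = (1 - ((1 / 2 ^ 36 : ℝ) : ℂ) * I) := by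
    push_cast; ring
  rw [e1] at hUn'
  have e2 : ((-(1 / 2 ^ 36) : ℝ)) ^ 2 = (1 / 2 ^ 36) ^ 2 := by norm_num
  rw [e2] at hUn'
  exact conn_of hH sok rfl q0 rfl all_last rfl (a := 141) (b := 1) (c := 67) all_flags
    (by positivity) (by positivity) (by norm_num) dir hUp hUn' hSp hSn
    (by unfold SD.Ein prm h0 tau e0; norm_num)
    (by unfold SD.Ein prm h0 tau; norm_num)
    gUp gUn gSp gSn
    (e' := 5915/10^11) (nU := 2252/10^10) (nS := 5736/10^8) (nl := 5733/10^8) (s1 := 5733/10^8 / 1000)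
    (by unfold SD.Eout prm last tau; norm_num)
    (by apply norm_le_of_sq <;> norm_num [Uap, Ubp])
    (by apply norm_le_of_sq <;> norm_num [Uan, Ubn])
    (by apply norm_le_of_sq <;> norm_num [Sap, Sbp])
    (by apply norm_le_of_sq <;> norm_num [San, Sbn])
    (by apply le_norm_of_sq <;> norm_num [Sap, Sbp])
    (by norm_num) (by norm_num)
    (by rw [sub_self, norm_zero]; norm_num)
    (by
      have e : (⟨San, Sbn⟩ : ℂ) - ⟨Sap, Sbp⟩ = ⟨San - Sap, Sbn - Sbp⟩ := by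
        apply Complex.ext <;> simp
      rw [e]
      apply norm_le_of_sq <;> norm_num [San, Sbn, Sap, Sbp])
    (by norm_num) (by norm_num)
    (by
      have e : ((⟨Uap, Ubp⟩ : ℂ) * (starRingEnd ℂ) ⟨Sap, Sbp⟩).re = Uap * Sap + Ubp * Sbp := by
        simp
      rw [e]; norm_num [Uap, Ubp, Sap, Sbp])
    (by
      have e : ((⟨Uan, Ubn⟩ : ℂ) * (starRingEnd ℂ) ⟨San, Sbn⟩).re = Uan * San + Ubn * Sbn := by
        simp
      rw [e]; norm_num [Uan, Ubn, San, Sbn])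

theorem conn (hH : Hyp) : ∃ (P : OutPar) (S : ℂ) (δ T m σ : ℝ), P.ok ∧ 0 < ‖S‖ ∧ ‖S‖ ≤ 1/2000 ∧
    10 * ‖S‖ ^ 2 ≤ δ ∧ 0 < T ∧ 0 < m ∧ (σ = 1 ∨ σ = -1) ∧
    ∀ φ : ℝ → P2 → P2, IsFlow (f0 rho0) φ →
      ∀ (x : P2) (ψ : ℝ), OutC P.r P.ϵ ψ x → |ψ - P.θ| ≤ P.Δ →
        Seg φ 2 m x T ∧ EntryC S (-(φ T x)) ∧
        (ψ = P.θ - σ * P.Δ → ups (-(φ T x)) ≤ -δ) ∧ (ψ = P.θ + σ * P.Δ → δ ≤ ups (-(φ T x))) := by
  have hS1 : ‖(⟨Sap, Sbp⟩ : ℂ)‖ ≤ 5736/10^8 := by apply norm_le_of_sq <;> norm_num [Sap, Sbp]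
  have hS2 : 5733/10^8 ≤ ‖(⟨Sap, Sbp⟩ : ℂ)‖ := by apply le_norm_of_sq <;> norm_num [Sap, Sbp]
  refine ⟨⟨1 / 2 ^ 77, 1 / 2 ^ 71, arg (⟨cC, cS⟩ : ℂ), 1 / 2 ^ 36⟩, ⟨Sap, Sbp⟩, 5/10^8,
    tot (h0 :: t0), 1/10^5, 1, ?_, ?_, ?_, ?_, tot_pos, by norm_num, Or.inl rfl, main hH⟩
  · unfold OutPar.ok
    norm_num
  · refine lt_of_lt_of_le ?_ hS2; norm_num
  · refine hS1.trans ?_; norm_num
  · have : ‖(⟨Sap, Sbp⟩ : ℂ)‖ ^ 2 ≤ (5736/10^8) ^ 2 := pow_le_pow_left₀ (norm_nonneg _) hS1 2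
    norm_num at this ⊢
    linarith

end Run7.h874.DM
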