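import Pool.Agent.Run7.h874.EndDR
import Pool.Agent.Run7.h874.EndDM
import Pool.Agent.Run7.h874.EndDL
import Pool.Agent.Run7.h874.EndDF

/-!
# Piece E: the numerical connections
-/

set_option autoImplicit false

namespace Run7.h874

theorem stmtE1 (hH : Hyp) : StmtE1 := by
  intro c
  have h : c = 0 ∨ c = 1 ∨ c = 2 := by omega
  rcases h with rfl | rfl | rfl
  · exact DL.conn hH
  · exact DR.conn hH
  · exact DM.conn hH

theorem stmtE2 (hH : Hyp) : StmtE2 := DF.conn hH

end Run7.h874
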