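import Pool.Agent.Run7.h874.PieceC3
import Pool.Agent.Run7.h874.PieceE

set_option autoImplicit false

namespace Run7.h874

theorem hyp : Hyp := ⟨stmtB1, stmtB2, stmtB3, stmtC1, stmtC2, stmtC5⟩

theorem E1 : StmtE1 := stmtE1 hyp
theorem E2 : StmtE2 := stmtE2 hyp

end Run7.h874
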