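import Pool.Agent.Run7.h874.G6
import Pool.Agent.Run7.h874.HypOK
import Pool.Agent.Run7.h874.T690.PJ
import Pool.Agent.Run7.h874.T690.PK
import Pool.Agent.Run7.h874.T704.PH
import Pool.Agent.Run7.h874.T550.PD3

/-!
# All pieces together

`StmtD` (helper550), `StmtH` (helper704), `StmtF`, `StmtJ` and the inertial assembly (helper690),
the other pieces (helper874).
-/

set_option autoImplicit false

namespace Run7.h874

theorem allD : StmtD := Run7.h550.SY.pD stmtA3 stmtC2 stmtC5 stmtC6 stmtC7

theorem allF : StmtF := pF allD E1 E2 stmtC7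

theorem allJ : StmtJ :=
  pJ stmtA1 stmtA2 stmtA3 allF pG (pH stmtA1 stmtA2 stmtA3)

end Run7.h874
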