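import Pool.Agent.Run7.h874.PieceA

/-!
# Piece A3: Lipschitz bounds of the cut-off fields
-/

set_option autoImplicit false

namespace Run7.h874

open Complex Set

theorem gc_lip_aux {ϱ : ℝ} (hϱ : 0 < ϱ) {z w : ℂ} (h : ‖z‖ ≤ ‖w‖) :
    ‖gc ϱ z - gc ϱ w‖ ≤ 4 / ϱ ^ 3 * ‖z - w‖ := by
  unfold gc
  set a := max ‖z‖ ϱ with ha
  set b := max ‖w‖ ϱ with hb
  have ha0 : 0 < a := lt_of_lt_of_le hϱ (le_max_right _ _)
  have hb0 : 0 < b := lt_of_lt_of_le hϱ (le_max_right _ _)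
  have hab : a ≤ b := max_le_max h (le_refl _)
  have hra : ϱ ≤ a := le_max_right _ _
  have hwb : ‖w‖ ≤ b := le_max_left _ _
  have hdiff : b - a ≤ ‖z - w‖ := by
    have h1 : ‖w‖ - ‖z‖ ≤ ‖z - w‖ := by rw [norm_sub_rev]; exact norm_sub_norm_le w z
    rcases le_total ‖w‖ ϱ with h2 | h2
    · have : b = ϱ := max_eq_right h2
      rw [this]; linarith [norm_nonneg (z - w)]
    · have : b = ‖w‖ := max_eq_left h2
      rw [this]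
      have : ‖z‖ ≤ a := le_max_left _ _
      linarith
  have e : ((a ^ 3)⁻¹ : ℝ) • z - ((b ^ 3)⁻¹ : ℝ) • w
      = ((a ^ 3)⁻¹ : ℝ) • (z - w) + ((a ^ 3)⁻¹ - (b ^ 3)⁻¹ : ℝ) • w := by
    rw [smul_sub, sub_smul]; abel
  rw [e]
  refine (norm_add_le _ _).trans ?_
  rw [norm_smul, norm_smul, Real.norm_eq_abs, Real.norm_eq_abs, abs_of_pos (a := (a ^ 3)⁻¹) (by positivity)]
  have hinv : (b ^ 3)⁻¹ ≤ (a ^ 3)⁻¹ := inv_anti₀ (by positivity) (pow_le_pow_left₀ ha0.le hab 3)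
  rw [abs_of_nonneg (by linarith)]
  have h3 : ((a ^ 3)⁻¹ - (b ^ 3)⁻¹) * ‖w‖ ≤ 3 * (a ^ 3)⁻¹ * (b - a) := by
    have h4 : ((a ^ 3)⁻¹ - (b ^ 3)⁻¹) * ‖w‖ ≤ ((a ^ 3)⁻¹ - (b ^ 3)⁻¹) * b :=
      mul_le_mul_of_nonneg_left hwb (by linarith)
    refine h4.trans ?_
    have e1 : ((a ^ 3)⁻¹ - (b ^ 3)⁻¹) * b = (a ^ 3)⁻¹ * ((b ^ 3 - a ^ 3) / b ^ 2) := by
      field_simp
    rw [e1]
    have h5 : (b ^ 3 - a ^ 3) / b ^ 2 ≤ 3 * (b - a) := by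
      rw [div_le_iff₀ (by positivity)]
      nlinarith [mul_nonneg (sub_nonneg.mpr hab) (sq_nonneg b),
        mul_nonneg (sub_nonneg.mpr hab) (mul_nonneg hb0.le (sub_nonneg.mpr hab)),
        mul_nonneg (sub_nonneg.mpr hab) (mul_nonneg ha0.le (sub_nonneg.mpr hab))]
    have h6 := mul_le_mul_of_nonneg_left h5 (show 0 ≤ (a ^ 3)⁻¹ by positivity)
    linarith
  have h7 : (a ^ 3)⁻¹ ≤ (ϱ ^ 3)⁻¹ := inv_anti₀ (by positivity) (pow_le_pow_left₀ hϱ.le hra 3)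
  have h8 : (a ^ 3)⁻¹ * ‖z - w‖ ≤ (ϱ ^ 3)⁻¹ * ‖z - w‖ := mul_le_mul_of_nonneg_right h7 (norm_nonneg _)
  have h9 : 3 * (a ^ 3)⁻¹ * (b - a) ≤ 3 * (ϱ ^ 3)⁻¹ * ‖z - w‖ := by
    apply mul_le_mul _ hdiff (by linarith) (by positivity)
    linarith
  rw [div_eq_mul_inv]
  linarith

theorem gc_lip {ϱ : ℝ} (hϱ : 0 < ϱ) (z w : ℂ) : ‖gc ϱ z - gc ϱ w‖ ≤ 4 / ϱ ^ 3 * ‖z - w‖ := by
  rcases le_total ‖z‖ ‖w‖ with h | h
  · exact gc_lip_aux hϱ h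
  · rw [norm_sub_rev, norm_sub_rev z w]; exact gc_lip_aux hϱ h

theorem gc_bdd {ϱ : ℝ} (hϱ : 0 < ϱ) (z : ℂ) : ‖gc ϱ z‖ ≤ 1 / ϱ ^ 2 := by
  unfold gc
  set a := max ‖z‖ ϱ with ha
  have ha0 : 0 < a := lt_of_lt_of_le hϱ (le_max_right _ _)
  rw [norm_smul, Real.norm_eq_abs, abs_of_pos (by positivity)]
  have h1 : (a ^ 3)⁻¹ * ‖z‖ ≤ (a ^ 3)⁻¹ * a := mul_le_mul_of_nonneg_left (le_max_left _ _) (by positivity)
  refine h1.trans ?_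
  have e : (a ^ 3)⁻¹ * a = 1 / a ^ 2 := by field_simp
  rw [e]
  exact one_div_le_one_div_of_le (by positivity) (pow_le_pow_left₀ hϱ.le (le_max_right _ _) 2)

theorem lipschitz_of_norm {E : Type*} [NormedAddCommGroup E] {F : E → E} {C : ℝ}
    (h : ∀ x y, ‖F x - F y‖ ≤ C * ‖x - y‖) : LipschitzWith (Real.toNNReal C) F :=
  LipschitzWith.of_dist_le' (by intro x y; rw [dist_eq_norm, dist_eq_norm]; exact h x y)

theorem f0_lip {ϱ : ℝ} (hϱ : 0 < ϱ) (x y : P2) :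
    ‖f0 ϱ x - f0 ϱ y‖ ≤ (3 + 4 / ϱ ^ 3) * ‖x - y‖ := by
  have h1 : ‖x.1 - y.1‖ ≤ ‖x - y‖ := norm_fst_le (x - y)
  have h2 : ‖x.2 - y.2‖ ≤ ‖x - y‖ := norm_snd_le (x - y)
  have hc : 0 ≤ 4 / ϱ ^ 3 := by positivity
  rw [Prod.norm_def]
  apply max_le
  · change ‖x.2 - y.2‖ ≤ _
    nlinarith [norm_nonneg (x - y)]
  · have g1 := gc_lip hϱ (x.1 + 1/2) (y.1 + 1/2)
    have g2 := gc_lip hϱ (x.1 - 1/2) (y.1 - 1/2)
    have e1 : x.1 + 1/2 - (y.1 + 1/2) = x.1 - y.1 := by ring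
    have e2 : x.1 - 1/2 - (y.1 - 1/2) = x.1 - y.1 := by ring
    rw [e1] at g1
    rw [e2] at g2
    have e : (f0 ϱ x - f0 ϱ y).2 = -2 * I * (x.2 - y.2) + (x.1 - y.1)
        - (1/2 : ℂ) * ((gc ϱ (x.1 + 1/2) - gc ϱ (y.1 + 1/2)) + (gc ϱ (x.1 - 1/2) - gc ϱ (y.1 - 1/2))) := by
      simp only [f0, Prod.snd_sub]; ring
    rw [e]
    refine (norm_sub_le _ _).trans ?_
    have n1 : ‖-2 * I * (x.2 - y.2) + (x.1 - y.1)‖ ≤ 2 * ‖x.2 - y.2‖ + ‖x.1 - y.1‖ := by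
      refine (norm_add_le _ _).trans ?_
      rw [norm_mul, norm_mul, norm_I, norm_neg]
      norm_num
    have n2 : ‖(1/2 : ℂ) * ((gc ϱ (x.1 + 1/2) - gc ϱ (y.1 + 1/2)) + (gc ϱ (x.1 - 1/2) - gc ϱ (y.1 - 1/2)))‖
        ≤ 4 / ϱ ^ 3 * ‖x.1 - y.1‖ := by
      rw [norm_mul]
      have : ‖(1/2:ℂ)‖ = 1/2 := by norm_num
      rw [this]
      have := (norm_add_le _ _).trans (add_le_add g1 g2)
      linarith
    nlinarith [norm_nonneg (x - y)]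

theorem fe_lip {ϱ ε : ℝ} (hϱ : 0 < ϱ) (h0 : 0 ≤ ε) (h1 : ε ≤ 1) (x y : P4) :
    ‖fe ϱ ε x - fe ϱ ε y‖ ≤ (3 + 4 * (4 / ϱ ^ 3)) * ‖x - y‖ := by
  have a1 : ‖x.1.1 - y.1.1‖ ≤ ‖x - y‖ := (norm_fst_le (x - y).1).trans (norm_fst_le (x - y))
  have a2 : ‖x.1.2 - y.1.2‖ ≤ ‖x - y‖ := (norm_snd_le (x - y).1).trans (norm_fst_le (x - y))
  have a3 : ‖x.2.1 - y.2.1‖ ≤ ‖x - y‖ := (norm_fst_le (x - y).2).trans (norm_snd_le (x - y))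
  have a4 : ‖x.2.2 - y.2.2‖ ≤ ‖x - y‖ := (norm_snd_le (x - y).2).trans (norm_snd_le (x - y))
  have hN := norm_nonneg (x - y)
  set N := ‖x - y‖
  set C := 4 / ϱ ^ 3 with hC
  have hc : 0 ≤ C := by positivity
  have n0 : ∀ a b : ℂ, ‖a‖ ≤ N → ‖b‖ ≤ N → ‖-2 * I * a + b‖ ≤ 3 * N := by
    intro a b ha hb
    refine (norm_add_le _ _).trans ?_
    rw [norm_mul, norm_mul, norm_I, norm_neg]
    norm_num
    linarith
  have hh : ‖(x.1.1 - y.1.1) / 2‖ ≤ N / 2 := by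
    rw [norm_div]
    have : ‖(2:ℂ)‖ = 2 := by norm_num
    rw [this]; linarith
  have gm : ‖gc ϱ (x.2.1 - x.1.1/2) - gc ϱ (y.2.1 - y.1.1/2)‖ ≤ C * (3/2 * N) := by
    refine (gc_lip hϱ _ _).trans (mul_le_mul_of_nonneg_left ?_ hc)
    have e : x.2.1 - x.1.1/2 - (y.2.1 - y.1.1/2) = (x.2.1 - y.2.1) - (x.1.1 - y.1.1)/2 := by ring
    rw [e]; exact (norm_sub_le _ _).trans (by linarith)
  have gp : ‖gc ϱ (x.2.1 + x.1.1/2) - gc ϱ (y.2.1 + y.1.1/2)‖ ≤ C * (3/2 * N) := by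
    refine (gc_lip hϱ _ _).trans (mul_le_mul_of_nonneg_left ?_ hc)
    have e : x.2.1 + x.1.1/2 - (y.2.1 + y.1.1/2) = (x.2.1 - y.2.1) + (x.1.1 - y.1.1)/2 := by ring
    rw [e]; exact (norm_add_le _ _).trans (by linarith)
  have gr : ‖gc ϱ x.1.1 - gc ϱ y.1.1‖ ≤ C * N :=
    (gc_lip hϱ _ _).trans (mul_le_mul_of_nonneg_left a1 hc)
  rw [Prod.norm_def, Prod.norm_def, Prod.norm_def]
  apply max_le
  · apply max_le
    · change ‖x.1.2 - y.1.2‖ ≤ _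
      nlinarith
    · have e : ((fe ϱ ε x - fe ϱ ε y).1).2 = (-2 * I * (x.1.2 - y.1.2) + (x.1.1 - y.1.1))
          - (gc ϱ x.1.1 - gc ϱ y.1.1) + (ε : ℂ) * ((gc ϱ (x.2.1 - x.1.1/2) - gc ϱ (y.2.1 - y.1.1/2))
            - (gc ϱ (x.2.1 + x.1.1/2) - gc ϱ (y.2.1 + y.1.1/2))) := by
        simp only [fe, Prod.fst_sub, Prod.snd_sub]; ring
      rw [e]
      refine (norm_add_le _ _).trans ?_
      have m1 := (norm_sub_le (-2 * I * (x.1.2 - y.1.2) + (x.1.1 - y.1.1))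
        (gc ϱ x.1.1 - gc ϱ y.1.1)).trans (add_le_add (n0 _ _ a2 a1) gr)
      have m2 : ‖(ε : ℂ) * ((gc ϱ (x.2.1 - x.1.1/2) - gc ϱ (y.2.1 - y.1.1/2))
            - (gc ϱ (x.2.1 + x.1.1/2) - gc ϱ (y.2.1 + y.1.1/2)))‖ ≤ 3 * (C * N) := by
        rw [norm_mul, Complex.norm_real, Real.norm_eq_abs, abs_of_nonneg h0]
        have m3 := (norm_sub_le (gc ϱ (x.2.1 - x.1.1/2) - gc ϱ (y.2.1 - y.1.1/2))
          (gc ϱ (x.2.1 + x.1.1/2) - gc ϱ (y.2.1 + y.1.1/2))).trans (add_le_add gm gp)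
        have m4 := mul_le_mul h1 m3 (norm_nonneg _) (by norm_num)
        refine m4.trans ?_
        linarith
      nlinarith
  · apply max_le
    · change ‖x.2.2 - y.2.2‖ ≤ _
      nlinarith
    · have e : ((fe ϱ ε x - fe ϱ ε y).2).2 = (-2 * I * (x.2.2 - y.2.2) + (x.2.1 - y.2.1))
          - ((1 + (ε : ℂ))/2) * ((gc ϱ (x.2.1 + x.1.1/2) - gc ϱ (y.2.1 + y.1.1/2))
            + (gc ϱ (x.2.1 - x.1.1/2) - gc ϱ (y.2.1 - y.1.1/2))) := by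
        simp only [fe, Prod.snd_sub]; ring
      rw [e]
      refine (norm_sub_le _ _).trans ?_
      have m1 := n0 _ _ a4 a3
      have m2 : ‖((1 + (ε : ℂ))/2) * ((gc ϱ (x.2.1 + x.1.1/2) - gc ϱ (y.2.1 + y.1.1/2))
            + (gc ϱ (x.2.1 - x.1.1/2) - gc ϱ (y.2.1 - y.1.1/2)))‖ ≤ 3 * (C * N) := by
        have e3 : ((1 + (ε : ℂ))/2) = (((1 + ε)/2 : ℝ) : ℂ) := by push_cast; ring
        rw [e3, norm_mul, Complex.norm_real, Real.norm_eq_abs, abs_of_nonneg (by linarith)]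
        have m3 := (norm_add_le (gc ϱ (x.2.1 + x.1.1/2) - gc ϱ (y.2.1 + y.1.1/2))
          (gc ϱ (x.2.1 - x.1.1/2) - gc ϱ (y.2.1 - y.1.1/2))).trans (add_le_add gp gm)
        have m4 := mul_le_mul (show (1 + ε)/2 ≤ 1 by linarith) m3 (norm_nonneg _) (by norm_num)
        refine m4.trans ?_
        linarith
      nlinarith

theorem fe_diff {ϱ ε : ℝ} (hϱ : 0 < ϱ) (h0 : 0 ≤ ε) (x : P4) :
    ‖fe ϱ ε x - fe ϱ 0 x‖ ≤ 2 / ϱ ^ 2 * ε := by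
  have b1 := gc_bdd hϱ (x.2.1 - x.1.1/2)
  have b2 := gc_bdd hϱ (x.2.1 + x.1.1/2)
  have hp : 0 ≤ 2 / ϱ ^ 2 * ε := by positivity
  rw [Prod.norm_def, Prod.norm_def, Prod.norm_def]
  apply max_le
  · apply max_le
    · have e : ((fe ϱ ε x - fe ϱ 0 x).1).1 = 0 := by simp [fe]
      rw [e, norm_zero]; exact hp
    · have e : ((fe ϱ ε x - fe ϱ 0 x).1).2 = (ε : ℂ) * (gc ϱ (x.2.1 - x.1.1/2)
            - gc ϱ (x.2.1 + x.1.1/2)) := by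
        simp only [fe, Prod.fst_sub, Prod.snd_sub]; push_cast; ring
      rw [e, norm_mul, Complex.norm_real, Real.norm_eq_abs, abs_of_nonneg h0]
      have := (norm_sub_le _ _).trans (add_le_add b1 b2)
      have h2 := mul_le_mul_of_nonneg_left this h0
      refine h2.trans (le_of_eq ?_)
      ring
  · apply max_le
    · have e : ((fe ϱ ε x - fe ϱ 0 x).2).1 = 0 := by simp [fe]
      rw [e, norm_zero]; exact hp
    · have e : ((fe ϱ ε x - fe ϱ 0 x).2).2 = ((-(ε / 2) : ℝ) : ℂ) * (gc ϱ (x.2.1 + x.1.1/2)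
            + gc ϱ (x.2.1 - x.1.1/2)) := by
        simp only [fe, Prod.snd_sub]; push_cast; ring
      rw [e, norm_mul, Complex.norm_real, Real.norm_eq_abs, abs_neg, abs_of_nonneg (by linarith)]
      have := (norm_add_le _ _).trans (add_le_add b2 b1)
      have h2 := mul_le_mul_of_nonneg_left this (show 0 ≤ ε / 2 by linarith)
      refine h2.trans ?_
      have : ε / 2 * (1 / ϱ ^ 2 + 1 / ϱ ^ 2) = (1 / ϱ ^ 2) * ε := by ring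
      rw [this]
      have h3 : 1 / ϱ ^ 2 ≤ 2 / ϱ ^ 2 := by
        apply div_le_div_of_nonneg_right _ (by positivity)
        norm_num
      exact mul_le_mul_of_nonneg_right h3 h0

theorem stmtA3 : StmtA3 := by
  refine ⟨?_, ?_, ?_⟩
  · intro ϱ h _
    exact ⟨_, lipschitz_of_norm (f0_lip h)⟩
  · intro ϱ ε h _ h0 h1
    exact ⟨_, lipschitz_of_norm (fe_lip h h0 h1)⟩
  · intro ϱ h _
    refine ⟨Real.toNNReal (3 + 4 * (4 / ϱ ^ 3)), 2 / ϱ ^ 2, ?_, ?_⟩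
    · intro ε h0 h1
      exact lipschitz_of_norm (fe_lip h h0 h1)
    · intro ε x h0 _
      exact fe_diff h h0 x

end Run7.h874
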