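import Pool.Agent.Run7.h874.PieceC3
import Pool.Agent.Run7.h874.PieceA3

/-!
# Piece G, part 1: the full field near the equilibrium
-/

set_option autoImplicit false

namespace Run7.h874

open Complex Set

theorem exists_a {ε : ℝ} (hε : 0 ≤ ε) : ∃ a : ℝ, 1 ≤ a ∧ a ≤ 1 + ε ∧ a ^ 3 = 1 + ε := by
  refine ⟨(1 + ε) ^ ((1:ℝ) / 3), Real.one_le_rpow (by linarith) (by norm_num), ?_, ?_⟩
  · calc (1 + ε) ^ ((1:ℝ) / 3) ≤ (1 + ε) ^ (1:ℝ) :=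
        Real.rpow_le_rpow_of_exponent_le (by linarith) (by norm_num)
      _ = 1 + ε := Real.rpow_one _
  · rw [← Real.rpow_natCast, ← Real.rpow_mul (by linarith)]
    norm_num

theorem gc_scaled {a ε : ℝ} (ha1 : 1 ≤ a) (ha3 : a ^ 3 = 1 + ε) {z : ℂ} (hz : ‖z‖ = 1) :
    gc 0 ((a:ℂ) * z) = ((a / (1 + ε) : ℝ) : ℂ) * z := by
  have ha0 : 0 ≤ a := by linarith
  rw [gc0, norm_mul, Complex.norm_real, Real.norm_eq_abs, abs_of_nonneg ha0, hz, mul_one, ha3,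
    Complex.real_smul]
  push_cast
  ring

/-- deviation of the kernel at `a z + δ` from its value at `a z`, `|z| = 1` -/
theorem kern_dev {a ε η : ℝ} (ha1 : 1 ≤ a) (ha2 : a ≤ 1 + ε) {z δ : ℂ}
    (hz : ‖z‖ = 1) (hδ : ‖δ‖ ≤ η) (hη : η + ε ≤ 3/1000) :
    ‖gc 0 ((a:ℂ) * z + δ) - gc 0 ((a:ℂ) * z) - dg z δ‖ ≤ 6.1 * (η + ε) * ‖δ‖ ∧
    ‖gc 0 ((a:ℂ) * z + δ) - gc 0 ((a:ℂ) * z)‖ ≤ 2.02 * ‖δ‖ := by
  have hε : 0 ≤ ε := by linarith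
  have hη0 : 0 ≤ η := (norm_nonneg _).trans hδ
  have h1 : ‖(a:ℂ) * z - z‖ ≤ η + ε := by
    have e : (a:ℂ) * z - z = ((a - 1 : ℝ) : ℂ) * z := by push_cast; ring
    rw [e, norm_mul, hz, Complex.norm_real, Real.norm_eq_abs, abs_of_nonneg (by linarith), mul_one]
    linarith
  have h2 : ‖(a:ℂ) * z + δ - z‖ ≤ η + ε := by
    have e : (a:ℂ) * z + δ - z = ((a - 1 : ℝ) : ℂ) * z + δ := by push_cast; ring
    rw [e]
    refine (norm_add_le _ _).trans ?_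
    rw [norm_mul, hz, Complex.norm_real, Real.norm_eq_abs, abs_of_nonneg (by linarith), mul_one]
    linarith
  have h3 := stmtB2 z ((a:ℂ) * z) ((a:ℂ) * z + δ) (η + ε) (by linarith) (by rw [hz]; linarith) h1 h2
  rw [add_sub_cancel_left, hz] at h3
  have h4 : 6 * (η + ε) / (1 - (η + ε)) ^ 4 ≤ 6.1 * (η + ε) := by
    have h5 : (0.997 : ℝ) ^ 4 ≤ (1 - (η + ε)) ^ 4 := pow_le_pow_left₀ (by norm_num) (by linarith) 4
    rw [div_le_iff₀ (by positivity)]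
    have h6 : (6:ℝ) ≤ 6.1 * (1 - (η + ε)) ^ 4 := by norm_num at h5 ⊢; linarith
    nlinarith
  have h7 := h3.trans (mul_le_mul_of_nonneg_right h4 (norm_nonneg δ))
  refine ⟨h7, ?_⟩
  have h8 : ‖dg z δ‖ ≤ 2 * ‖δ‖ := by
    have := norm_dg_le (z := z) (d := δ) (m := 1) (by norm_num) (by rw [hz])
    norm_num at this ⊢
    exact this
  have e : gc 0 ((a:ℂ) * z + δ) - gc 0 ((a:ℂ) * z)
      = (gc 0 ((a:ℂ) * z + δ) - gc 0 ((a:ℂ) * z) - dg z δ) + dg z δ := by ring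
  rw [e]
  refine (norm_add_le _ _).trans ?_
  have h9 : 6.1 * (η + ε) * ‖δ‖ ≤ 0.02 * ‖δ‖ := by
    apply mul_le_mul_of_nonneg_right _ (norm_nonneg _)
    norm_num at hη ⊢
    linarith
  linarith

theorem far_unit {a : ℝ} {z δ : ℂ} (ha1 : 1 ≤ a) (hz : ‖z‖ = 1) (hδ : ‖δ‖ ≤ 1/2) :
    rho0 ≤ ‖(a:ℂ) * z + δ‖ := by
  have h1 : ‖(a:ℂ) * z‖ ≤ ‖(a:ℂ) * z + δ‖ + ‖δ‖ := by
    have e : (a:ℂ) * z = ((a:ℂ) * z + δ) - δ := by ring
    calc ‖(a:ℂ) * z‖ = ‖((a:ℂ) * z + δ) - δ‖ := by rw [← e]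
      _ ≤ _ := norm_sub_le _ _
  rw [norm_mul, hz, Complex.norm_real, Real.norm_eq_abs, abs_of_nonneg (by linarith), mul_one] at h1
  have r0 : rho0 = 1/10000 := rfl
  rw [r0]; linarith

theorem dg_one (D : ℂ) : D - dg 1 D = 3 * (D.re : ℂ) := by
  unfold dg
  rw [re_eq]
  simp only [norm_one, one_pow, inv_one, mul_one, Complex.real_smul, one_mul]
  push_cast
  ring

theorem field_hub {a ε : ℝ} (ha1 : 1 ≤ a) (ha2 : a ≤ 1 + ε) (ha3 : a ^ 3 = 1 + ε)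
    (hε1 : ε ≤ 1/1000) {D W ζ V : ℂ} (hD : ‖D‖ ≤ 1/1000) (hζ : ‖ζ‖ ≤ 1/1000) :
    ∃ e n : ℂ, ‖e‖ ≤ 7 * ‖D‖ ^ 2 + 14 * ε * (‖D‖ + ‖ζ‖) ∧
      ‖n‖ ≤ ‖D‖ + 6.1 * (‖ζ‖ + ‖D‖) ^ 2 + 9 * ε * (‖ζ‖ + ‖D‖) ∧
      fe rho0 ε (((a:ℂ) + D, W), ((a:ℂ) * hubZ + ζ, V))
        = ((W, -2 * I * W + 3 * (D.re : ℂ) + e),
          (V, -2 * I * V + (3/2) * ζ - (3/4) * (starRingEnd ℂ) ζ + n)) := by
  have hε : 0 ≤ ε := by linarith
  have hD0 := norm_nonneg D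
  have hζ0 := norm_nonneg ζ
  set η := ‖ζ‖ + ‖D‖ / 2 with hη
  have hD2 : ‖D / 2‖ = ‖D‖ / 2 := by rw [norm_div]; norm_num
  have dp : ‖ζ + D / 2‖ ≤ η := by rw [hη, ← hD2]; exact norm_add_le _ _
  have dm : ‖ζ - D / 2‖ ≤ η := by rw [hη, ← hD2]; exact norm_sub_le _ _
  have hη3 : η + ε ≤ 3/1000 := by rw [hη]; linarith
  have ep : (a:ℂ) * hubZ + ζ + ((a:ℂ) + D) / 2 = (a:ℂ) * (hubZ + 1/2) + (ζ + D / 2) := by ring
  have em : (a:ℂ) * hubZ + ζ - ((a:ℂ) + D) / 2 = (a:ℂ) * (hubZ - 1/2) + (ζ - D / 2) := by ring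
  obtain ⟨p1, p2⟩ := kern_dev ha1 ha2 norm_hub1 dp hη3
  obtain ⟨m1, m2⟩ := kern_dev ha1 ha2 norm_hub2 dm hη3
  obtain ⟨r1, -⟩ := kern_dev (η := ‖D‖) ha1 ha2 (show ‖(1:ℂ)‖ = 1 by norm_num) (le_refl ‖D‖) (by linarith)
  rw [mul_one] at r1
  have gp0 := gc_scaled ha1 ha3 norm_hub1
  have gm0 := gc_scaled ha1 ha3 norm_hub2
  have gr0 := gc_scaled ha1 ha3 (show ‖(1:ℂ)‖ = 1 by norm_num)
  rw [mul_one, mul_one] at gr0
  have fp : gc rho0 ((a:ℂ) * hubZ + ζ + ((a:ℂ) + D) / 2) = gc 0 ((a:ℂ) * (hubZ + 1/2) + (ζ + D / 2)) := by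
    rw [ep]; exact gc_eq (by norm_num [rho0]) (far_unit ha1 norm_hub1 (by linarith))
  have fm : gc rho0 ((a:ℂ) * hubZ + ζ - ((a:ℂ) + D) / 2) = gc 0 ((a:ℂ) * (hubZ - 1/2) + (ζ - D / 2)) := by
    rw [em]; exact gc_eq (by norm_num [rho0]) (far_unit ha1 norm_hub2 (by linarith))
  have fr : gc rho0 ((a:ℂ) + D) = gc 0 ((a:ℂ) + D) := by
    apply gc_eq (by norm_num [rho0])
    have := far_unit (a := a) (z := 1) (δ := D) ha1 (by norm_num) (by linarith)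
    rwa [mul_one] at this
  set Gp := gc 0 ((a:ℂ) * (hubZ + 1/2) + (ζ + D / 2)) - gc 0 ((a:ℂ) * (hubZ + 1/2)) with hGp
  set Gm := gc 0 ((a:ℂ) * (hubZ - 1/2) + (ζ - D / 2)) - gc 0 ((a:ℂ) * (hubZ - 1/2)) with hGm
  have hsum := dg_hub ζ
  have hone : ((a / (1 + ε) : ℝ) : ℂ) * (1 + (ε:ℂ)) = (a:ℂ) := by
    have : (a / (1 + ε)) * (1 + ε) = a := by field_simp
    exact_mod_cast congrArg (fun t : ℝ => (t:ℂ)) this
  have dgp : dg (hubZ + 1/2) (ζ + D / 2) = dg (hubZ + 1/2) ζ + dg (hubZ + 1/2) (D / 2) := by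
    unfold dg; simp only [map_add, Complex.real_smul]; ring
  have dgm : dg (hubZ - 1/2) (ζ - D / 2) = dg (hubZ - 1/2) ζ - dg (hubZ - 1/2) (D / 2) := dg_sub _ _ _
  refine ⟨-(gc 0 ((a:ℂ) + D) - gc 0 (a:ℂ) - dg 1 D) + (ε:ℂ) * (Gm - Gp),
    -(1/2) * (dg (hubZ + 1/2) (D / 2) - dg (hubZ - 1/2) (D / 2))
      - (1/2) * ((Gp - dg (hubZ + 1/2) (ζ + D / 2)) + (Gm - dg (hubZ - 1/2) (ζ - D / 2)))
      - ((ε:ℂ) / 2) * (Gp + Gm), ?_, ?_, ?_⟩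
  · refine (norm_add_le _ _).trans ?_
    rw [norm_neg, norm_mul, Complex.norm_real, Real.norm_eq_abs, abs_of_nonneg hε]
    have h1 := (norm_sub_le Gm Gp).trans (add_le_add m2 p2)
    have h2 : ‖Gm - Gp‖ ≤ 4.04 * η := by linarith
    have h3 := mul_le_mul_of_nonneg_left h2 hε
    rw [hη] at h3
    nlinarith
  · refine (norm_sub_le _ _).trans ?_
    have n1 : ‖(ε:ℂ) / 2 * (Gp + Gm)‖ ≤ 2.02 * ε * η := by
      rw [norm_mul, norm_div, Complex.norm_real, Real.norm_eq_abs, abs_of_nonneg hε]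
      have h1 := (norm_add_le Gp Gm).trans (add_le_add p2 m2)
      have h2 : ‖Gp + Gm‖ ≤ 4.04 * η := by linarith
      have e2 : ‖(2:ℂ)‖ = 2 := by norm_num
      rw [e2]
      have h3 := mul_le_mul_of_nonneg_left h2 (show 0 ≤ ε / 2 by linarith)
      linarith
    have n2 : ‖-(1/2) * (dg (hubZ + 1/2) (D / 2) - dg (hubZ - 1/2) (D / 2))
        - (1/2) * ((Gp - dg (hubZ + 1/2) (ζ + D / 2)) + (Gm - dg (hubZ - 1/2) (ζ - D / 2)))‖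
        ≤ ‖D‖ + 6.1 * (η + ε) * η := by
      refine (norm_sub_le _ _).trans ?_
      rw [norm_mul, norm_mul]
      have e1 : ‖(-(1/2):ℂ)‖ = 1/2 := by rw [norm_neg]; norm_num
      have e2 : ‖(1/2:ℂ)‖ = 1/2 := by norm_num
      rw [e1, e2]
      have k1 := norm_dg_le (z := hubZ + 1/2) (d := D / 2) (m := 1) (by norm_num) (by rw [norm_hub1])
      have k2 := norm_dg_le (z := hubZ - 1/2) (d := D / 2) (m := 1) (by norm_num) (by rw [norm_hub2])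
      rw [hD2] at k1 k2
      have k3 := (norm_sub_le (dg (hubZ + 1/2) (D / 2)) (dg (hubZ - 1/2) (D / 2))).trans (add_le_add k1 k2)
      have k4 := (norm_add_le (Gp - dg (hubZ + 1/2) (ζ + D / 2)) (Gm - dg (hubZ - 1/2) (ζ - D / 2))).trans
        (add_le_add p1 m1)
      have k5 : 6.1 * (η + ε) * ‖ζ + D / 2‖ ≤ 6.1 * (η + ε) * η :=
        mul_le_mul_of_nonneg_left dp (by positivity)
      have k6 : 6.1 * (η + ε) * ‖ζ - D / 2‖ ≤ 6.1 * (η + ε) * η :=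
        mul_le_mul_of_nonneg_left dm (by positivity)
      norm_num at k3
      linarith
    have hη4 : η ≤ ‖ζ‖ + ‖D‖ := by rw [hη]; linarith
    have hη0 : 0 ≤ η := by rw [hη]; positivity
    have k7 : η * η ≤ (‖ζ‖ + ‖D‖) ^ 2 := by nlinarith
    have k8 : ε * η ≤ ε * (‖ζ‖ + ‖D‖) := mul_le_mul_of_nonneg_left hη4 hε
    nlinarith
  · have hEq1 : gc 0 ((a:ℂ) * (hubZ + 1/2) + (ζ + D / 2)) = ((a / (1 + ε) : ℝ) : ℂ) * (hubZ + 1/2) + Gp := by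
      rw [hGp, gp0]; ring
    have hEq2 : gc 0 ((a:ℂ) * (hubZ - 1/2) + (ζ - D / 2)) = ((a / (1 + ε) : ℝ) : ℂ) * (hubZ - 1/2) + Gm := by
      rw [hGm, gm0]; ring
    unfold fe
    apply Prod.ext
    · apply Prod.ext
      · rfl
      · simp only
        rw [fr, fm, fp, hEq1, hEq2, gr0]
        have := dg_one D
        linear_combination this - hone
    · apply Prod.ext
      · rfl
      · simp only
        rw [fm, fp, hEq1, hEq2, dgp, dgm]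
        linear_combination (-(1/2 : ℂ)) * hsum - hubZ * hone

end Run7.h874
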