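import Pool.Agent.Run7.h874.G1
import Pool.Agent.Run7.h874.T550.Exit

/-!
# Piece G, part 2: cones along orbits leaving the equilibrium of the full problem
-/

set_option autoImplicit false

namespace Run7.h874

open Complex Set

noncomputable def hubC : (ℂ × ℂ) →L[ℝ] (ℂ × ℂ) := LinearMap.toContinuousLinearMap hubL

theorem hubC_apply (x : ℂ × ℂ) : hubC x = (uc x.1 x.2, sc x.1 x.2) := rfl

theorem uc_cont {E : Type} [TopologicalSpace E] {f g : E → ℂ} (hf : Continuous f)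
    (hg : Continuous g) : Continuous (fun s => uc (f s) (g s)) :=
  continuous_fst.comp (hubC.continuous.comp (hf.prodMk hg))

theorem sc_cont {E : Type} [TopologicalSpace E] {f g : E → ℂ} (hf : Continuous f)
    (hg : Continuous g) : Continuous (fun s => sc (f s) (g s)) :=
  continuous_snd.comp (hubC.continuous.comp (hf.prodMk hg))

noncomputable def ue (a : ℝ) (y : P4) : ℂ := uc (y.2.1 - a * hubZ) y.2.2
noncomputable def se (a : ℝ) (y : P4) : ℂ := sc (y.2.1 - a * hubZ) y.2.2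
noncomputable def Qc (a : ℝ) (y : P4) : ℝ := y.1.2.im + 2 * (y.1.1.re - a)
noncomputable def QE (a : ℝ) (y : P4) : ℝ := (y.1.1.re - a) - 2 * Qc a y
noncomputable def Qf (a : ℝ) (y : P4) : ℝ :=
  Qc a y ^ 2 + QE a y ^ 2 + y.1.2.re ^ 2 + y.1.1.im ^ 2 / 400

structure CP (r ϵ1 ϵ2 ε a : ℝ) : Prop where
  hr : 0 < r
  hr6 : r ≤ 1/10^6
  h1 : 32 * r ≤ ϵ1
  h1' : ϵ1 ≤ 1/2
  h2 : 0 < ϵ2
  h2' : ϵ2 ≤ r / 1000
  he : 0 < ε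
  he' : ε ≤ r * ϵ2 / 1000
  ha1 : 1 ≤ a
  ha2 : a ≤ 1 + ε
  ha3 : a ^ 3 = 1 + ε

def Cone (a ϵ1 ϵ2 : ℝ) (y : P4) : Prop :=
  ‖se a y‖ ^ 2 - (ϵ1 * ‖ue a y‖) ^ 2 ≤ 0 ∧ Qf a y - (ϵ2 * ‖ue a y‖) ^ 2 ≤ 0

theorem nsq (z : ℂ) : ‖z‖ ^ 2 = z.re ^ 2 + z.im ^ 2 := by
  rw [Complex.sq_norm, Complex.normSq_apply]; ring

theorem le_of_sq' {x y : ℝ} (h : x ^ 2 ≤ y ^ 2) (hy : 0 ≤ y) : x ≤ y :=
  le_trans (le_abs_self x) (abs_le_of_sq_le_sq h hy)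

theorem cone_bd {r ϵ1 ϵ2 ε a : ℝ} (h : CP r ϵ1 ϵ2 ε a) {y : P4} (hc : Cone a ϵ1 ϵ2 y) :
    ‖se a y‖ ≤ ϵ1 * ‖ue a y‖ ∧ ‖y.1.1 - a‖ ≤ 20 * ϵ2 * ‖ue a y‖ ∧ ‖y.1.2‖ ≤ 4 * ϵ2 * ‖ue a y‖ ∧
      ‖y.2.1 - a * hubZ‖ ≤ 1.455 * ‖ue a y‖ ∧ ‖y.2.2‖ ≤ 1.66 * ‖ue a y‖ := by
  obtain ⟨h1, h2⟩ := hc
  have hu := norm_nonneg (ue a y)
  have e0 := h.h2
  have e1 : 0 ≤ ϵ1 := by have := h.h1; have := h.hr; linarith
  have hs : ‖se a y‖ ≤ ϵ1 * ‖ue a y‖ := le_of_sq' (by linarith) (by positivity)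
  have hs' : ‖se a y‖ ≤ 1/2 * ‖ue a y‖ := hs.trans (mul_le_mul_of_nonneg_right h.h1' hu)
  have hK : 0 ≤ ϵ2 * ‖ue a y‖ := by positivity
  set K := ϵ2 * ‖ue a y‖ with hKd
  have c2 := stmtC2 (y.2.1 - a * hubZ) y.2.2
  have q1 := c2.2.2.2.2.1
  have q2 := c2.2.2.2.2.2.1
  have eu : uc (y.2.1 - a * hubZ) y.2.2 = ue a y := rfl
  have es : sc (y.2.1 - a * hubZ) y.2.2 = se a y := rfl
  rw [eu, es] at q1 q2
  have hD : y.1.1.re - a = QE a y + 2 * Qc a y := by unfold QE; ring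
  have hq : y.1.2.im = -3 * Qc a y - 2 * QE a y := by unfold QE Qc; ring
  unfold Qf at h2
  generalize QE a y = E at *
  generalize Qc a y = c at *
  refine ⟨hs, ?_, ?_, ?_, ?_⟩
  · apply le_of_sq' _ (by positivity)
    have e : 20 * ϵ2 * ‖ue a y‖ = 20 * K := by rw [hKd]; ring
    rw [e, nsq]
    have e2 : (y.1.1 - (a:ℂ)).re = E + 2 * c := by rw [← hD]; simp
    have e3 : (y.1.1 - (a:ℂ)).im = y.1.1.im := by simp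
    rw [e2, e3]
    nlinarith [sq_nonneg (2 * E - c), sq_nonneg E, sq_nonneg c, sq_nonneg y.1.2.re]
  · apply le_of_sq' _ (by positivity)
    have e : 4 * ϵ2 * ‖ue a y‖ = 4 * K := by rw [hKd]; ring
    rw [e, nsq, hq]
    nlinarith [sq_nonneg (2 * c - 3 * E), sq_nonneg E, sq_nonneg c, sq_nonneg y.1.2.re,
      sq_nonneg y.1.1.im]
  · norm_num at q1 ⊢; linarith
  · norm_num at q2 ⊢; linarith

theorem cone_field {r ϵ1 ϵ2 ε a : ℝ} (h : CP r ϵ1 ϵ2 ε a) {y : P4} (hc : Cone a ϵ1 ϵ2 y)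
    (hu1 : ‖ue a y‖ ≤ 1.01 * r) :
    ∃ e n : ℂ, ‖e‖ ≤ 0.1 * (ϵ2 * ‖ue a y‖) ∧ ‖n‖ ≤ 13.2 * r * ‖ue a y‖ ∧
      (fe rho0 ε y).1.1 = y.1.2 ∧ (fe rho0 ε y).1.2 = -2 * I * y.1.2 + 3 * ((y.1.1.re - a : ℝ) : ℂ) + e ∧
      uc (fe rho0 ε y).2.1 (fe rho0 ε y).2.2 = lam * ue a y + uc 0 n ∧
      sc (fe rho0 ε y).2.1 (fe rho0 ε y).2.2 = -(starRingEnd ℂ) lam * se a y + sc 0 n := by
  obtain ⟨b0, b1, b2, b3, b4⟩ := cone_bd h hc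
  obtain ⟨hr, hr6, k1, k1', k2, k2', he, he', ha1, ha2, ha3⟩ := h
  have hu := norm_nonneg (ue a y)
  set u := ‖ue a y‖ with hud
  set D := y.1.1 - (a:ℂ) with hD
  set ζ := y.2.1 - (a:ℂ) * hubZ with hζ
  have hD0 := norm_nonneg D
  have hζ0 := norm_nonneg ζ
  have hϵ2 : ϵ2 ≤ 1/10^9 := by linarith
  have hε9 : ε ≤ 1/10^18 := by
    have : r * ϵ2 ≤ 1/10^6 * (1/10^9) := mul_le_mul hr6 hϵ2 k2.le (by norm_num)
    norm_num at this ⊢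
    linarith
  have hu6 : u ≤ 1.01/10^6 := by norm_num at hr6 hu1 ⊢; linarith
  have hD9 : ‖D‖ ≤ 1/1000 := by
    have : 20 * ϵ2 * u ≤ 20 * (1/10^9) * (1.01/10^6) := by gcongr
    norm_num at this ⊢
    linarith
  have hζ9 : ‖ζ‖ ≤ 1/1000 := by norm_num at b3 hu6 ⊢; linarith
  obtain ⟨e, n, he1, hn1, hf⟩ := field_hub ha1 ha2 ha3 (by norm_num at hε9 ⊢; linarith) (D := D)
    (W := y.1.2) (ζ := ζ) (V := y.2.2) hD9 hζ9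
  have hy : (((a:ℂ) + D, y.1.2), ((a:ℂ) * hubZ + ζ, y.2.2)) = y := by
    rw [hD, hζ]
    have e1 : (a:ℂ) + (y.1.1 - (a:ℂ)) = y.1.1 := by ring
    have e2 : (a:ℂ) * hubZ + (y.2.1 - (a:ℂ) * hubZ) = y.2.1 := by ring
    rw [e1, e2]
  rw [hy] at hf
  have hDu : ‖D‖ ≤ 0.001 * u := by
    refine b1.trans ?_
    apply mul_le_mul_of_nonneg_right _ hu
    norm_num at hϵ2 ⊢; linarith
  refine ⟨e, n, ?_, ?_, ?_, ?_, ?_, ?_⟩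
  · refine he1.trans ?_
    have s1 : ‖D‖ ^ 2 ≤ (20 * ϵ2 * u) ^ 2 := pow_le_pow_left₀ hD0 b1 2
    have s2 : (20 * ϵ2 * u) ^ 2 = 400 * (ϵ2 * u) * (ϵ2 * u) := by ring
    have s3 : ϵ2 * u ≤ 1/10^9 * (1.01/10^6) := mul_le_mul hϵ2 hu6 hu (by norm_num)
    have hK : 0 ≤ ϵ2 * u := by positivity
    have s4 : 400 * (ϵ2 * u) * (ϵ2 * u) ≤ 400 * (1/10^9 * (1.01/10^6)) * (ϵ2 * u) := by gcongr
    have s5 : ε ≤ ϵ2 / 1000 := by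
      have : r * ϵ2 ≤ 1 * ϵ2 := mul_le_mul_of_nonneg_right (by norm_num at hr6 ⊢; linarith) k2.le
      linarith
    have s6 : ε * (‖D‖ + ‖ζ‖) ≤ ϵ2 / 1000 * (1.456 * u) := by
      apply mul_le_mul s5 _ (by positivity) (by positivity)
      norm_num at b3 hDu ⊢; linarith
    norm_num at s4 s6 ⊢
    nlinarith
  · refine hn1.trans ?_
    have s0 : ‖ζ‖ + ‖D‖ ≤ 1.456 * u := by norm_num at b3 hDu ⊢; linarith
    have s1 : (‖ζ‖ + ‖D‖) ^ 2 ≤ (1.456 * u) ^ 2 := pow_le_pow_left₀ (by positivity) s0 2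
    have s2 : u * u ≤ 1.01 * r * u := mul_le_mul_of_nonneg_right hu1 hu
    have s3 : ‖D‖ ≤ 20 * (r / 1000) * u := b1.trans (by gcongr)
    have s5 : ε ≤ r / 1000 := by
      have : r * ϵ2 ≤ r * 1 := mul_le_mul_of_nonneg_left (by norm_num at hϵ2 ⊢; linarith) hr.le
      linarith
    have s6 : ε * (‖ζ‖ + ‖D‖) ≤ r / 1000 * (1.456 * u) :=
      mul_le_mul s5 s0 (by positivity) (by positivity)
    norm_num at s1 s2 s3 s6 ⊢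
    nlinarith
  · rw [hf]
  · rw [hf]; simp [hD]
  · rw [hf]
    have := stmtC1.1 ζ y.2.2 n
    exact this
  · rw [hf]
    have := stmtC1.2 ζ y.2.2 n
    exact this

end Run7.h874
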