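import Pool.Agent.Run7.h874.G2

/-!
# Piece G, part 3: the cone is kept
-/

set_option autoImplicit false

namespace Run7.h874

open Complex Set

/-- derivative of `Qf` in the direction of `F` -/
noncomputable def dQ (a : ℝ) (y F : P4) : ℝ :=
  2 * Qc a y * (F.1.2.im + 2 * F.1.1.re)
    + 2 * QE a y * (F.1.1.re - 2 * (F.1.2.im + 2 * F.1.1.re))
    + 2 * y.1.2.re * F.1.2.re + 2 * y.1.1.im * F.1.1.im / 400

theorem reR_deriv {f : ℝ → ℂ} {f' : ℂ} {t : ℝ} (hf : HasDerivAt f f' t) :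
    HasDerivAt (fun s => (f s).re) f'.re t := by
  exact (Complex.reCLM.hasFDerivAt (x := f t)).comp_hasDerivAt t hf

theorem imR_deriv {f : ℝ → ℂ} {f' : ℂ} {t : ℝ} (hf : HasDerivAt f f' t) :
    HasDerivAt (fun s => (f s).im) f'.im t := by
  exact (Complex.imCLM.hasFDerivAt (x := f t)).comp_hasDerivAt t hf

theorem Qf_deriv {a ε : ℝ} {Φ : ℝ → P4 → P4} (hΦ : IsFlow (fe rho0 ε) Φ) (t : ℝ) (x : P4) :
    HasDerivAt (fun s => Qf a (Φ s x)) (dQ a (Φ t x) (fe rho0 ε (Φ t x))) t := by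
  have h := hΦ.deriv t x
  generalize hF : fe rho0 ε (Φ t x) = F at *
  have hR : HasDerivAt (fun s => (Φ s x).1.1) F.1.1 t := h.fst.fst
  have hW : HasDerivAt (fun s => (Φ s x).1.2) F.1.2 t := h.fst.snd
  have d1 : HasDerivAt (fun s => Qc a (Φ s x)) (F.1.2.im + 2 * F.1.1.re) t := by
    unfold Qc
    exact (imR_deriv hW).add (((reR_deriv hR).sub_const a).const_mul 2)
  have d2 : HasDerivAt (fun s => QE a (Φ s x)) (F.1.1.re - 2 * (F.1.2.im + 2 * F.1.1.re)) t := by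
    unfold QE
    exact ((reR_deriv hR).sub_const a).sub (d1.const_mul 2)
  have d3 := reR_deriv hW
  have d4 := imR_deriv hR
  have D := (((d1.pow 2).add (d2.pow 2)).add (d3.pow 2)).add ((d4.pow 2).div_const 400)
  have e : (fun s => Qf a (Φ s x)) = (((fun s => Qc a (Φ s x)) ^ 2 + (fun s => QE a (Φ s x)) ^ 2
      + (fun s => (Φ s x).1.2.re) ^ 2) + fun s => ((fun s => (Φ s x).1.1.im) ^ 2) s / 400) := by
    funext s
    simp [Qf]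
  rw [e]
  refine D.congr_deriv ?_
  unfold dQ
  simp

noncomputable def du (ε : ℝ) (y : P4) : ℂ := uc (fe rho0 ε y).2.1 (fe rho0 ε y).2.2
noncomputable def ds (ε : ℝ) (y : P4) : ℂ := sc (fe rho0 ε y).2.1 (fe rho0 ε y).2.2

theorem ue_deriv {a ε : ℝ} {Φ : ℝ → P4 → P4} (hΦ : IsFlow (fe rho0 ε) Φ) (t : ℝ) (x : P4) :
    HasDerivAt (fun s => ue a (Φ s x)) (du ε (Φ t x)) t := by
  have h := hΦ.deriv t x
  exact uc_deriv (h.snd.fst.sub_const _) h.snd.snd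

theorem se_deriv {a ε : ℝ} {Φ : ℝ → P4 → P4} (hΦ : IsFlow (fe rho0 ε) Φ) (t : ℝ) (x : P4) :
    HasDerivAt (fun s => se a (Φ s x)) (ds ε (Φ t x)) t := by
  have h := hΦ.deriv t x
  exact sc_deriv (h.snd.fst.sub_const _) h.snd.snd

theorem re_cm (l s m : ℂ) : ((starRingEnd ℂ) s * (l * s + m)).re
    = l.re * ‖s‖ ^ 2 + ((starRingEnd ℂ) s * m).re := by
  have : (starRingEnd ℂ) s * (l * s + m) = l * ((‖s‖ ^ 2 : ℝ) : ℂ) + (starRingEnd ℂ) s * m := by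
    rw [← Complex.normSq_eq_norm_sq, Complex.normSq_eq_conj_mul_self]
    ring
  rw [this, Complex.add_re, Complex.re_mul_ofReal]

theorem abs_re_cm (s m : ℂ) : |((starRingEnd ℂ) s * m).re| ≤ ‖s‖ * ‖m‖ := by
  refine (Complex.abs_re_le_norm _).trans ?_
  rw [norm_mul, RCLike.norm_conj]

theorem lam_re : lam.re = al := by unfold lam; simp
theorem lam_conj_re : (-(starRingEnd ℂ) lam).re = -al := by rw [neg_re, conj_re, lam_re]
theorem al_lo : 0.632 < al := stmtC5.1.1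
theorem al_hi : al < 0.6321 := stmtC5.1.2

/-- growth in the cone -/
theorem cone_growth {r ϵ1 ϵ2 ε a : ℝ} (h : CP r ϵ1 ϵ2 ε a) {y : P4} (hc : Cone a ϵ1 ϵ2 y)
    (hu1 : ‖ue a y‖ ≤ 1.01 * r) : ‖du ε y - lam * ue a y‖ ≤ 17 * r * ‖ue a y‖ := by
  obtain ⟨e, n, -, hn, -, -, h5, -⟩ := cone_field h hc hu1
  have : du ε y - lam * ue a y = uc 0 n := by unfold du; rw [h5]; ring
  rw [this]
  have h6 := (stmtC2 0 n).1
  have hr := h.hr
  have hu := norm_nonneg (ue a y)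
  have : 0 ≤ r * ‖ue a y‖ := by positivity
  norm_num at h6 hn ⊢
  linarith

theorem cone_growth' {r ϵ1 ϵ2 ε a : ℝ} (h : CP r ϵ1 ϵ2 ε a) {y : P4} (hc : Cone a ϵ1 ϵ2 y)
    (hu1 : ‖ue a y‖ ≤ 1.01 * r) : ‖du ε y - lam * ue a y‖ ≤ ‖ue a y‖ / 50 := by
  refine (cone_growth h hc hu1).trans ?_
  have hr6 := h.hr6
  have hu := norm_nonneg (ue a y)
  have h1 : 17 * r * ‖ue a y‖ ≤ 1/50 * ‖ue a y‖ := by
    apply mul_le_mul_of_nonneg_right _ hu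
    norm_num at hr6 ⊢
    linarith
  linarith

theorem fs_neg {r ϵ1 ϵ2 ε a : ℝ} (h : CP r ϵ1 ϵ2 ε a) {y : P4} (hc : Cone a ϵ1 ϵ2 y)
    (hu1 : ‖ue a y‖ ≤ 1.01 * r) (hu0 : 0 < ‖ue a y‖) (hz : ‖se a y‖ ^ 2 - (ϵ1 * ‖ue a y‖) ^ 2 = 0) :
    2 * ((starRingEnd ℂ) (se a y) * ds ε y).re
      - ϵ1 ^ 2 * (2 * ((starRingEnd ℂ) (ue a y) * du ε y).re) < 0 := by
  obtain ⟨b0, -, -, -, -⟩ := cone_bd h hc
  obtain ⟨e, n, -, hn, -, -, h5, h6⟩ := cone_field h hc hu1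
  have e5 : du ε y = lam * ue a y + uc 0 n := h5
  have e6 : ds ε y = -(starRingEnd ℂ) lam * se a y + sc 0 n := h6
  rw [e5, e6, re_cm, re_cm, lam_re, lam_conj_re]
  have c2 := stmtC2 0 n
  have m1 := (abs_le.mp (abs_re_cm (ue a y) (uc 0 n))).1
  have m2 := (abs_le.mp (abs_re_cm (se a y) (sc 0 n))).2
  have al1 := al_lo
  obtain ⟨hr, hr6, k1, k1', k2, k2', he, he', ha1, ha2, ha3⟩ := h
  have n1 := c2.1
  have n2 := c2.2.1
  set u := ‖ue a y‖ with hu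
  set s := ‖se a y‖ with hs
  have hs0 : 0 ≤ s := norm_nonneg _
  have hϵ1 : 0 < ϵ1 := by linarith
  have hsu : s ^ 2 = (ϵ1 * u) ^ 2 := by linarith
  have p1 : s * ‖sc 0 n‖ ≤ (ϵ1 * u) * (13.5 * r * u) := by
    apply mul_le_mul b0 _ (norm_nonneg _) (by positivity)
    refine n2.trans ?_
    have : 0 ≤ r * u := by positivity
    norm_num at hn ⊢
    linarith
  have p2 : u * ‖uc 0 n‖ ≤ u * (17 * r * u) := by
    apply mul_le_mul_of_nonneg_left _ hu0.le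
    refine n1.trans ?_
    have : 0 ≤ r * u := by positivity
    norm_num at hn ⊢
    linarith
  have q1 : ((starRingEnd ℂ) (se a y) * sc 0 n).re ≤ (ϵ1 * u) * (13.5 * r * u) := m2.trans p1
  have q2 : -(u * (17 * r * u)) ≤ ((starRingEnd ℂ) (ue a y) * uc 0 n).re := by linarith
  have q3 : ϵ1 ^ 2 * (-(u * (17 * r * u))) ≤ ϵ1 ^ 2 * ((starRingEnd ℂ) (ue a y) * uc 0 n).re :=
    mul_le_mul_of_nonneg_left q2 (by positivity)
  rw [hsu]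
  have q4 : ϵ1 * (ϵ1 * (17 * (u * u) * r)) ≤ 1/2 * (ϵ1 * (17 * (u * u) * r)) :=
    mul_le_mul_of_nonneg_right k1' (by positivity)
  have q5 : 32 * r * (ϵ1 * (u * u)) ≤ ϵ1 * (ϵ1 * (u * u)) :=
    mul_le_mul_of_nonneg_right k1 (by positivity)
  have q6 : 0.632 * (ϵ1 * (ϵ1 * (u * u))) ≤ al * (ϵ1 * (ϵ1 * (u * u))) :=
    mul_le_mul_of_nonneg_right al1.le (by positivity)
  have q7 : 0 < r * (ϵ1 * (u * u)) := by positivity
  norm_num at q1 q3 q4 q5 q6 ⊢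
  nlinarith

theorem u_lo {r ϵ1 ϵ2 ε a : ℝ} (h : CP r ϵ1 ϵ2 ε a) {y : P4} (hc : Cone a ϵ1 ϵ2 y)
    (hu1 : ‖ue a y‖ ≤ 1.01 * r) :
    1.2 * ‖ue a y‖ ^ 2 ≤ 2 * ((starRingEnd ℂ) (ue a y) * du ε y).re := by
  have h1 := Run7.h550.SY.nsq_growth (u := fun _ => ue a y) (du := fun _ => du ε y) (l := lam)
    (t := 0) (cone_growth' h hc hu1)
  refine le_trans ?_ h1
  have := al_lo
  rw [lam_re]
  have h2 : 0 ≤ ‖ue a y‖ ^ 2 := by positivity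
  nlinarith

theorem fq_neg {r ϵ1 ϵ2 ε a : ℝ} (h : CP r ϵ1 ϵ2 ε a) {y : P4} (hc : Cone a ϵ1 ϵ2 y)
    (hu1 : ‖ue a y‖ ≤ 1.01 * r) (hu0 : 0 < ‖ue a y‖) (hz : Qf a y - (ϵ2 * ‖ue a y‖) ^ 2 = 0) :
    dQ a y (fe rho0 ε y) - ϵ2 ^ 2 * (2 * ((starRingEnd ℂ) (ue a y) * du ε y).re) < 0 := by
  have lo := u_lo h hc hu1
  obtain ⟨e, n, he, -, h3, h4, -, -⟩ := cone_field h hc hu1
  have k2 := h.h2
  unfold dQ
  rw [h3, h4]
  have x1 : (-2 * I * y.1.2 + 3 * ((y.1.1.re - a : ℝ) : ℂ) + e).im = -2 * y.1.2.re + e.im := by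
    simp
  have x2 : (-2 * I * y.1.2 + 3 * ((y.1.1.re - a : ℝ) : ℂ) + e).re
      = 2 * y.1.2.im + 3 * (y.1.1.re - a) + e.re := by
    simp
  rw [x1, x2]
  have hD : y.1.1.re - a = QE a y + 2 * Qc a y := by unfold QE; ring
  have hq : y.1.2.im = -3 * Qc a y - 2 * QE a y := by unfold QE Qc; ring
  rw [hD, hq]
  set K := ϵ2 * ‖ue a y‖ with hK
  have hK0 : 0 < K := by positivity
  have hQ : Qc a y ^ 2 + QE a y ^ 2 + y.1.2.re ^ 2 + y.1.1.im ^ 2 / 400 = K ^ 2 := by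
    have : Qf a y = K ^ 2 := by linarith
    rw [← this]; rfl
  have lo' : ϵ2 ^ 2 * (1.2 * ‖ue a y‖ ^ 2) ≤ ϵ2 ^ 2 * (2 * ((starRingEnd ℂ) (ue a y) * du ε y).re) :=
    mul_le_mul_of_nonneg_left lo (by positivity)
  have lo2 : ϵ2 ^ 2 * (1.2 * ‖ue a y‖ ^ 2) = 1.2 * K ^ 2 := by rw [hK]; ring
  rw [lo2] at lo'
  have er := (Complex.abs_re_le_norm e).trans he
  have ei := (Complex.abs_im_le_norm e).trans he
  generalize QE a y = E at *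
  generalize Qc a y = c at *
  generalize y.1.2.re = p at *
  generalize y.1.1.im = w at *
  generalize e.re = e1 at *
  generalize e.im = e2 at *
  generalize ϵ2 ^ 2 * (2 * ((starRingEnd ℂ) (ue a y) * du ε y).re) = L at *
  have a1 : |c| ≤ K := abs_le_of_sq_le_sq (by nlinarith [sq_nonneg E, sq_nonneg p, sq_nonneg w]) hK0.le
  have a2 : |E| ≤ K := abs_le_of_sq_le_sq (by nlinarith [sq_nonneg c, sq_nonneg p, sq_nonneg w]) hK0.le
  have a3 : |p| ≤ K := abs_le_of_sq_le_sq (by nlinarith [sq_nonneg E, sq_nonneg c, sq_nonneg w]) hK0.le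
  have m1 : c * e2 ≤ K * (0.1 * K) := by
    refine (le_abs_self _).trans ?_
    rw [abs_mul]
    exact mul_le_mul a1 ei (abs_nonneg _) hK0.le
  have m2 : -(E * e2) ≤ K * (0.1 * K) := by
    refine (neg_le_abs _).trans ?_
    rw [abs_mul]
    exact mul_le_mul a2 ei (abs_nonneg _) hK0.le
  have m3 : p * e1 ≤ K * (0.1 * K) := by
    refine (le_abs_self _).trans ?_
    rw [abs_mul]
    exact mul_le_mul a3 er (abs_nonneg _) hK0.le
  have m4 : -(w * (3 * c + 2 * E)) / 200 ≤ (1/4) * K ^ 2 := by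
    nlinarith [sq_nonneg (w + (3 * c + 2 * E) * 2), sq_nonneg p, sq_nonneg (2 * c - 3 * E),
      sq_nonneg E, sq_nonneg c, sq_nonneg w, sq_nonneg (w / 20 + (3 * c + 2 * E) / 5)]
  have hK2 : 0 < K ^ 2 := by positivity
  norm_num at m1 m2 m3 m4 lo' ⊢
  nlinarith

theorem cone_orbit {r ϵ1 ϵ2 ε a : ℝ} (h : CP r ϵ1 ϵ2 ε a) {Φ : ℝ → P4 → P4}
    (hΦ : IsFlow (fe rho0 ε) Φ) {x : P4} (hx : Cone a ϵ1 ϵ2 x) (hx0 : 0 < ‖ue a x‖) {T : ℝ}
    (hT : ∀ t ∈ Icc 0 T, ‖ue a (Φ t x)‖ ≤ 1.01 * r) :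
    ∀ t ∈ Icc 0 T, Cone a ϵ1 ϵ2 (Φ t x) ∧ 0 < ‖ue a (Φ t x)‖ := by
  have pos : ∀ t ∈ Icc 0 T, (∀ s ∈ Icc 0 t, Cone a ϵ1 ϵ2 (Φ s x)) → 0 < ‖ue a (Φ t x)‖ := by
    intro t ht hs
    have h1 := Run7.h550.SY.mono_norm (u := fun s => ue a (Φ s x)) (du := fun s => du ε (Φ s x))
      (l := lam) (T := t) (fun s => ue_deriv hΦ s x)
      (fun s hs' => cone_growth' h (hs s hs') (hT s ⟨hs'.1, hs'.2.trans ht.2⟩)) le_rfl ht.1 le_rfl
    simp only [hΦ.zero] at h1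
    have h2 : 0 < ‖ue a x‖ ^ 2 * Real.exp (2 * (lam.re - 1 / 50) * (t - 0)) := by positivity
    have h3 : 0 < ‖ue a (Φ t x)‖ ^ 2 := h2.trans_le h1
    by_contra hc
    have h4 : ‖ue a (Φ t x)‖ = 0 := le_antisymm (not_lt.mp hc) (norm_nonneg _)
    rw [h4] at h3
    norm_num at h3
  have key := Run7.h550.SY.barrier (ι := Bool)
    (fun i t => if i then ‖se a (Φ t x)‖ ^ 2 - (ϵ1 * ‖ue a (Φ t x)‖) ^ 2
      else Qf a (Φ t x) - (ϵ2 * ‖ue a (Φ t x)‖) ^ 2)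
    (fun i t => if i then 2 * ((starRingEnd ℂ) (se a (Φ t x)) * ds ε (Φ t x)).re
        - ϵ1 ^ 2 * (2 * ((starRingEnd ℂ) (ue a (Φ t x)) * du ε (Φ t x)).re)
      else dQ a (Φ t x) (fe rho0 ε (Φ t x))
        - ϵ2 ^ 2 * (2 * ((starRingEnd ℂ) (ue a (Φ t x)) * du ε (Φ t x)).re)) T
  have hd1 : ∀ t, HasDerivAt (fun t => ‖se a (Φ t x)‖ ^ 2 - (ϵ1 * ‖ue a (Φ t x)‖) ^ 2)
      (2 * ((starRingEnd ℂ) (se a (Φ t x)) * ds ε (Φ t x)).re
        - ϵ1 ^ 2 * (2 * ((starRingEnd ℂ) (ue a (Φ t x)) * du ε (Φ t x)).re)) t := by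
    intro t
    have e1 := Run7.h550.SY.nsq_deriv (u := fun s => se a (Φ s x)) (du := fun s => ds ε (Φ s x))
      (se_deriv hΦ t x)
    have e2 := Run7.h550.SY.nsq_deriv (u := fun s => ue a (Φ s x)) (du := fun s => du ε (Φ s x))
      (ue_deriv hΦ t x)
    have e3 := e1.sub (e2.const_mul (ϵ1 ^ 2))
    have e4 : (fun t => ‖se a (Φ t x)‖ ^ 2 - (ϵ1 * ‖ue a (Φ t x)‖) ^ 2)
        = fun t => ‖se a (Φ t x)‖ ^ 2 - ϵ1 ^ 2 * ‖ue a (Φ t x)‖ ^ 2 := by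
      funext t; ring
    rw [e4]
    exact e3
  have hd2 : ∀ t, HasDerivAt (fun t => Qf a (Φ t x) - (ϵ2 * ‖ue a (Φ t x)‖) ^ 2)
      (dQ a (Φ t x) (fe rho0 ε (Φ t x))
        - ϵ2 ^ 2 * (2 * ((starRingEnd ℂ) (ue a (Φ t x)) * du ε (Φ t x)).re)) t := by
    intro t
    have e1 := Qf_deriv (a := a) hΦ t x
    have e2 := Run7.h550.SY.nsq_deriv (u := fun s => ue a (Φ s x)) (du := fun s => du ε (Φ s x))
      (ue_deriv hΦ t x)
    have e3 := e1.sub (e2.const_mul (ϵ2 ^ 2))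
    have e4 : (fun t => Qf a (Φ t x) - (ϵ2 * ‖ue a (Φ t x)‖) ^ 2)
        = fun t => Qf a (Φ t x) - ϵ2 ^ 2 * ‖ue a (Φ t x)‖ ^ 2 := by
      funext t; ring
    rw [e4]
    exact e3
  have hcone : ∀ t, (∀ i : Bool, (if i = true then ‖se a (Φ t x)‖ ^ 2 - (ϵ1 * ‖ue a (Φ t x)‖) ^ 2
      else Qf a (Φ t x) - (ϵ2 * ‖ue a (Φ t x)‖) ^ 2) ≤ 0) → Cone a ϵ1 ϵ2 (Φ t x) := by
    intro t ht
    exact ⟨by simpa using ht true, by simpa using ht false⟩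
  have hall := key ?_ ?_ ?_ ?_
  · intro t ht
    refine ⟨hcone t (hall t ht), pos t ht fun s hs => hcone s (hall s ⟨hs.1, hs.2.trans ht.2⟩)⟩
  · intro i
    cases i
    · have hc : ContinuousOn (fun t => Qf a (Φ t x) - (ϵ2 * ‖ue a (Φ t x)‖) ^ 2) (Icc 0 T) :=
        fun t _ => (hd2 t).continuousAt.continuousWithinAt
      simpa using hc
    · have hc : ContinuousOn (fun t => ‖se a (Φ t x)‖ ^ 2 - (ϵ1 * ‖ue a (Φ t x)‖) ^ 2) (Icc 0 T) :=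
        fun t _ => (hd1 t).continuousAt.continuousWithinAt
      simpa using hc
  · intro i t _
    cases i
    · simpa using (hd2 t).hasDerivWithinAt
    · simpa using (hd1 t).hasDerivWithinAt
  · intro i
    cases i
    · simpa [hΦ.zero] using hx.2
    · simpa [hΦ.zero] using hx.1
  · intro t ht hs i hz
    have hcs : ∀ s ∈ Icc 0 t, Cone a ϵ1 ϵ2 (Φ s x) := fun s hs' => hcone s (hs s hs')
    have ht' : t ∈ Icc 0 T := ⟨ht.1, ht.2.le⟩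
    have hp := pos t ht' hcs
    have hct := hcs t ⟨ht.1, le_rfl⟩
    cases i
    · have hz' : Qf a (Φ t x) - (ϵ2 * ‖ue a (Φ t x)‖) ^ 2 = 0 := by simpa using hz
      simpa using fq_neg h hct (hT t ht') hp hz'
    · have hz' : ‖se a (Φ t x)‖ ^ 2 - (ϵ1 * ‖ue a (Φ t x)‖) ^ 2 = 0 := by simpa using hz
      simpa using fs_neg h hct (hT t ht') hp hz'

end Run7.h874
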