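import Pool.Agent.Run7.h874.G3

/-!
# Piece G, part 4: energy along orbits leaving the equilibrium of the full problem
-/

set_option autoImplicit false

namespace Run7.h874

open Complex Set

theorem kd {z p q : ℂ} (hz : ‖z‖ = 1) (h1 : ‖p - z‖ ≤ 1/1000) (h2 : ‖q - z‖ ≤ 1/1000) :
    ‖gc 0 q - gc 0 p‖ ≤ 2.01 * ‖q - p‖ := by
  have h3 := stmtB2 z p q (1/1000) (by norm_num) (by rw [hz]; norm_num) h1 h2
  rw [hz] at h3
  have h8 : ‖dg z (q - p)‖ ≤ 2 * ‖q - p‖ := by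
    have := norm_dg_le (z := z) (d := q - p) (m := 1) (by norm_num) (by rw [hz])
    norm_num at this ⊢
    exact this
  have e : gc 0 q - gc 0 p = (gc 0 q - gc 0 p - dg z (q - p)) + dg z (q - p) := by ring
  rw [e]
  refine (norm_add_le _ _).trans ?_
  have h9 := norm_nonneg (q - p)
  have h10 : 6 * (1/1000) / (1 - 1/1000) ^ 4 * ‖q - p‖ ≤ 0.01 * ‖q - p‖ := by
    apply mul_le_mul_of_nonneg_right _ h9
    norm_num
  norm_num at h3 h8 h10 ⊢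
  linarith

theorem kn {z q : ℂ} (hz : ‖z‖ = 1) (h2 : ‖q - z‖ ≤ 1/1000) : ‖gc 0 q‖ ≤ 1.01 := by
  have h := kd hz (by rw [sub_self, norm_zero]; norm_num) h2
  have hz0 : ‖gc 0 z‖ = 1 := by
    rw [gc0, hz]; simp [hz]
  have e : gc 0 q = (gc 0 q - gc 0 z) + gc 0 z := by ring
  rw [e]
  refine (norm_add_le _ _).trans ?_
  rw [hz0]
  norm_num at h h2 ⊢
  linarith

theorem rho_le {z q : ℂ} (hz : ‖z‖ = 1) (h2 : ‖q - z‖ ≤ 1/1000) : rho0 ≤ ‖q‖ := by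
  have h := ball_far h2
  rw [hz] at h
  have r0 : rho0 = 1/10000 := rfl
  rw [r0]; linarith

/-- the force on body 2 that does not come from the fixed primaries -/
noncomputable def Bf (ε : ℝ) (y : P4) : ℂ :=
  (1/2) * (gc 0 (y.2.1 + 1/2) + gc 0 (y.2.1 - 1/2))
    - ((1 + (ε:ℂ)) / 2) * (gc rho0 (y.2.1 + y.1.1/2) + gc rho0 (y.2.1 - y.1.1/2))

theorem EnE_deriv {ε : ℝ} {Φ : ℝ → P4 → P4} (hΦ : IsFlow (fe rho0 ε) Φ) (t : ℝ) (x : P4)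
    (n1 : (Φ t x).2.1 + 1/2 ≠ 0) (n2 : (Φ t x).2.1 - 1/2 ≠ 0) :
    HasDerivAt (fun s => En (Φ s x).2) ((starRingEnd ℂ) (Φ t x).2.2 * Bf ε (Φ t x)).re t := by
  have h := hΦ.deriv t x
  have h1 : HasDerivAt (fun s => (Φ s x).2.1) ((Φ t x).2.2) t := h.snd.fst
  have h2 : HasDerivAt (fun s => (Φ s x).2.2) ((fe rho0 ε (Φ t x)).2.2) t := h.snd.snd
  have d1 := inv_norm_deriv (h1.add_const (1/2 : ℂ)) n1
  have d2 := inv_norm_deriv (h1.sub_const (1/2 : ℂ)) n2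
  have d3 := norm_sq_deriv h2
  have d4 := norm_sq_deriv h1
  have e : (fun s => En (Φ s x).2) = fun s => ‖(Φ s x).2.2‖ ^ 2 / 2 - ‖(Φ s x).2.1‖ ^ 2 / 2
      - (1/2) * (1 / ‖(Φ s x).2.1 + 1/2‖) - (1/2) * (1 / ‖(Φ s x).2.1 - 1/2‖) + 11/8 := by
    funext s
    unfold En
    rw [half_inv, half_inv]
  rw [e]
  have D := ((((d3.div_const 2).sub (d4.div_const 2)).sub (d1.const_mul (1/2))).sub
    (d2.const_mul (1/2))).add_const (11/8)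
  refine D.congr_deriv ?_
  unfold Bf
  simp only [fe]
  generalize gc 0 ((Φ t x).2.1 + 1/2) = G1
  generalize gc 0 ((Φ t x).2.1 - 1/2) = G2
  generalize gc rho0 ((Φ t x).2.1 + (Φ t x).1.1/2) = G3
  generalize gc rho0 ((Φ t x).2.1 - (Φ t x).1.1/2) = G4
  generalize (Φ t x).2.1 = Z
  generalize (Φ t x).2.2 = V
  have eε : (1 + (ε:ℂ)) / 2 = (((1 + ε) / 2 : ℝ) : ℂ) := by push_cast; ring
  rw [eε]
  generalize (1 + ε) / 2 = m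
  simp
  ring

theorem hub_a {a ε : ℝ} (ha1 : 1 ≤ a) (ha2 : a ≤ 1 + ε) : ‖((a - 1 : ℝ) : ℂ) * hubZ‖ ≤ ε := by
  rw [norm_mul, Complex.norm_real, Real.norm_eq_abs, abs_of_nonneg (by linarith)]
  have h : ‖hubZ‖ ≤ 1 := by
    have : ‖hubZ‖ = Real.sqrt 3 / 2 := by
      unfold hubZ
      rw [norm_mul, Complex.norm_I, mul_one, norm_div, Complex.norm_real, Real.norm_eq_abs,
        abs_of_nonneg (Real.sqrt_nonneg 3)]
      norm_num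
    rw [this]
    have := s3_bounds.2
    linarith
  calc (a - 1) * ‖hubZ‖ ≤ (a - 1) * 1 := mul_le_mul_of_nonneg_left h (by linarith)
    _ ≤ ε := by linarith

/-- bounds on a state in the cone, with respect to the hub -/
theorem cone_near {r ϵ1 ϵ2 ε a : ℝ} (h : CP r ϵ1 ϵ2 ε a) {y : P4} (hc : Cone a ϵ1 ϵ2 y)
    (hu1 : ‖ue a y‖ ≤ 1.01 * r) :
    ‖y.1.1 - 1‖ ≤ 20 * ϵ2 * ‖ue a y‖ + ε ∧ ‖y.2.1 - hubZ‖ ≤ 1.455 * ‖ue a y‖ + ε ∧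
      ‖y.1.1 - 1‖ ≤ 1/10^5 ∧ ‖y.2.1 - hubZ‖ ≤ 1/10^5 ∧ ‖y.2.2‖ ≤ 1/10^5 ∧ ‖y.1.1 - 1‖ ≤ ϵ2 ∧
      ‖y.1.2‖ ≤ ϵ2 := by
  obtain ⟨b0, b1, b2, b3, b4⟩ := cone_bd h hc
  have hh := hub_a h.ha1 h.ha2
  obtain ⟨hr, hr6, k1, k1', k2, k2', he, he', ha1, ha2, ha3⟩ := h
  have hu := norm_nonneg (ue a y)
  set u := ‖ue a y‖ with hud
  have hϵ2 : ϵ2 ≤ 1/10^9 := by linarith
  have hu6 : u ≤ 1.01/10^6 := by norm_num at hr6 hu1 ⊢; linarith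
  have s1 : ‖y.1.1 - 1‖ ≤ 20 * ϵ2 * u + ε := by
    have e : y.1.1 - 1 = (y.1.1 - (a:ℂ)) + ((a - 1 : ℝ) : ℂ) := by push_cast; ring
    rw [e]
    refine (norm_add_le _ _).trans ?_
    rw [Complex.norm_real, Real.norm_eq_abs, abs_of_nonneg (by linarith)]
    linarith
  have s2 : ‖y.2.1 - hubZ‖ ≤ 1.455 * u + ε := by
    have e : y.2.1 - hubZ = (y.2.1 - (a:ℂ) * hubZ) + ((a - 1 : ℝ) : ℂ) * hubZ := by push_cast; ring
    rw [e]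
    refine (norm_add_le _ _).trans ?_
    linarith
  have s4 : r * ϵ2 ≤ 1/10^6 * ϵ2 := mul_le_mul_of_nonneg_right hr6 k2.le
  have s5 : ε ≤ 1/10^9 * ϵ2 := by norm_num at s4 ⊢; linarith
  have s6 : ϵ2 * u ≤ ϵ2 * (1.01/10^6) := mul_le_mul_of_nonneg_left hu6 k2.le
  refine ⟨s1, s2, ?_, ?_, ?_, ?_, ?_⟩
  · norm_num at s1 s5 s6 hϵ2 ⊢; linarith
  · norm_num at s2 s5 hu6 hϵ2 ⊢; linarith
  · norm_num at b4 hu6 ⊢; linarith
  · norm_num at s1 s5 s6 hϵ2 ⊢; linarith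
  · norm_num at b2 s6 ⊢; linarith

theorem cone_dE {r ϵ1 ϵ2 ε a : ℝ} (h : CP r ϵ1 ϵ2 ε a) {y : P4} (hc : Cone a ϵ1 ϵ2 y)
    (hu1 : ‖ue a y‖ ≤ 1.01 * r) :
    |((starRingEnd ℂ) y.2.2 * Bf ε y).re| ≤ ϵ2 * ‖ue a y‖ := by
  obtain ⟨b0, b1, b2, b3, b4⟩ := cone_bd h hc
  obtain ⟨s1, s2, s3, s4, s5, -, -⟩ := cone_near h hc hu1
  obtain ⟨hr, hr6, k1, k1', k2, k2', he, he', ha1, ha2, ha3⟩ := h
  refine (abs_re_cm _ _).trans ?_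
  have hu := norm_nonneg (ue a y)
  set u := ‖ue a y‖ with hud
  have hϵ2 : ϵ2 ≤ 1/10^9 := by linarith
  have hu6 : u ≤ 1.01/10^6 := by norm_num at hr6 hu1 ⊢; linarith
  have t1 : ‖y.2.1 + 1/2 - (hubZ + 1/2)‖ ≤ 1/1000 := by
    have e : y.2.1 + 1/2 - (hubZ + 1/2) = y.2.1 - hubZ := by ring
    rw [e]; norm_num at s4 ⊢; linarith
  have t2 : ‖y.2.1 - 1/2 - (hubZ - 1/2)‖ ≤ 1/1000 := by
    have e : y.2.1 - 1/2 - (hubZ - 1/2) = y.2.1 - hubZ := by ring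
    rw [e]; norm_num at s4 ⊢; linarith
  have hhalf : ‖(y.1.1 - 1) / 2‖ = ‖y.1.1 - 1‖ / 2 := by rw [norm_div]; norm_num
  have t3 : ‖y.2.1 + y.1.1/2 - (hubZ + 1/2)‖ ≤ 1/1000 := by
    have e : y.2.1 + y.1.1/2 - (hubZ + 1/2) = (y.2.1 - hubZ) + (y.1.1 - 1) / 2 := by ring
    rw [e]
    refine (norm_add_le _ _).trans ?_
    rw [hhalf]; norm_num at s3 s4 ⊢; linarith
  have t4 : ‖y.2.1 - y.1.1/2 - (hubZ - 1/2)‖ ≤ 1/1000 := by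
    have e : y.2.1 - y.1.1/2 - (hubZ - 1/2) = (y.2.1 - hubZ) - (y.1.1 - 1) / 2 := by ring
    rw [e]
    refine (norm_sub_le _ _).trans ?_
    rw [hhalf]; norm_num at s3 s4 ⊢; linarith
  have g3 : gc rho0 (y.2.1 + y.1.1/2) = gc 0 (y.2.1 + y.1.1/2) :=
    gc_eq (by norm_num [rho0]) (rho_le norm_hub1 t3)
  have g4 : gc rho0 (y.2.1 - y.1.1/2) = gc 0 (y.2.1 - y.1.1/2) :=
    gc_eq (by norm_num [rho0]) (rho_le norm_hub2 t4)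
  have w1 := kd norm_hub1 t3 t1
  have w2 := kd norm_hub2 t4 t2
  have w3 := kn norm_hub1 t3
  have w4 := kn norm_hub2 t4
  have x1 : ‖y.2.1 + 1/2 - (y.2.1 + y.1.1/2)‖ = ‖y.1.1 - 1‖ / 2 := by
    have e : y.2.1 + 1/2 - (y.2.1 + y.1.1/2) = -((y.1.1 - 1) / 2) := by ring
    rw [e, norm_neg, hhalf]
  have x2 : ‖y.2.1 - 1/2 - (y.2.1 - y.1.1/2)‖ = ‖y.1.1 - 1‖ / 2 := by
    have e : y.2.1 - 1/2 - (y.2.1 - y.1.1/2) = (y.1.1 - 1) / 2 := by ring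
    rw [e, hhalf]
  rw [x1] at w1
  rw [x2] at w2
  have hB : ‖Bf ε y‖ ≤ 1.005 * ‖y.1.1 - 1‖ + 1.01 * ε := by
    unfold Bf
    rw [g3, g4]
    have e : (1/2) * (gc 0 (y.2.1 + 1/2) + gc 0 (y.2.1 - 1/2))
        - ((1 + (ε:ℂ)) / 2) * (gc 0 (y.2.1 + y.1.1/2) + gc 0 (y.2.1 - y.1.1/2))
        = (1/2 : ℂ) * ((gc 0 (y.2.1 + 1/2) - gc 0 (y.2.1 + y.1.1/2))
          + (gc 0 (y.2.1 - 1/2) - gc 0 (y.2.1 - y.1.1/2)))
          - ((ε / 2 : ℝ) : ℂ) * (gc 0 (y.2.1 + y.1.1/2) + gc 0 (y.2.1 - y.1.1/2)) := by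
      push_cast; ring
    rw [e]
    refine (norm_sub_le _ _).trans ?_
    rw [norm_mul, norm_mul, Complex.norm_real, Real.norm_eq_abs, abs_of_nonneg (by linarith)]
    have e2 : ‖(1/2:ℂ)‖ = 1/2 := by norm_num
    rw [e2]
    have v1 := (norm_add_le _ _).trans (add_le_add w1 w2)
    have v2 := (norm_add_le _ _).trans (add_le_add w3 w4)
    have v3 := mul_le_mul_of_nonneg_left v2 (show 0 ≤ ε / 2 by linarith)
    norm_num at v1 v3 ⊢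
    linarith
  have s4' : r * ϵ2 ≤ 1/10^6 * ϵ2 := mul_le_mul_of_nonneg_right hr6 k2.le
  have s5' : ε ≤ 1/10^9 * ϵ2 := by norm_num at s4' ⊢; linarith
  have s6 : ϵ2 * u ≤ ϵ2 * (1.01/10^6) := mul_le_mul_of_nonneg_left hu6 k2.le
  have hB2 : ‖Bf ε y‖ ≤ ϵ2 / 2 := by
    norm_num at hB s1 s5' s6 ⊢; linarith
  have := mul_le_mul b4 hB2 (norm_nonneg _) (by positivity)
  have h0 : 0 ≤ ϵ2 * u := by positivity
  norm_num at this ⊢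
  linarith

theorem cone_decay {r ϵ1 ϵ2 ε a : ℝ} (h : CP r ϵ1 ϵ2 ε a) {Φ : ℝ → P4 → P4}
    (hΦ : IsFlow (fe rho0 ε) Φ) {x : P4} (hx : Cone a ϵ1 ϵ2 x) (hx0 : 0 < ‖ue a x‖) {T : ℝ}
    (hT : ∀ t ∈ Icc 0 T, ‖ue a (Φ t x)‖ ≤ 1.01 * r) {s t : ℝ} (hs : 0 ≤ s) (hst : s ≤ t)
    (ht : t ≤ T) : ‖ue a (Φ s x)‖ ≤ ‖ue a (Φ t x)‖ * Real.exp (-(0.6 * (t - s))) := by
  have hc := cone_orbit h hΦ hx hx0 hT
  have h1 := Run7.h550.SY.mono_norm (u := fun s => ue a (Φ s x)) (du := fun s => du ε (Φ s x))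
    (l := lam) (T := T) (fun s => ue_deriv hΦ s x)
    (fun s hs' => cone_growth' h (hc s hs').1 (hT s hs')) hs hst ht
  have h2 : Real.exp (0.6 * (t - s)) ^ 2 ≤ Real.exp (2 * (lam.re - 1 / 50) * (t - s)) := by
    rw [← Real.exp_nat_mul]
    apply Real.exp_le_exp.mpr
    rw [lam_re]
    have := al_lo
    push_cast
    nlinarith
  have h3 : (‖ue a (Φ s x)‖ * Real.exp (0.6 * (t - s))) ^ 2 ≤ ‖ue a (Φ t x)‖ ^ 2 := by
    rw [mul_pow]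
    refine le_trans ?_ h1
    exact mul_le_mul_of_nonneg_left h2 (by positivity)
  have h4 := le_of_sq' h3 (norm_nonneg _)
  rw [Real.exp_neg, ← div_eq_mul_inv, le_div_iff₀ (Real.exp_pos _)]
  exact h4

theorem cone_mono {r ϵ1 ϵ2 ε a : ℝ} (h : CP r ϵ1 ϵ2 ε a) {Φ : ℝ → P4 → P4}
    (hΦ : IsFlow (fe rho0 ε) Φ) {x : P4} (hx : Cone a ϵ1 ϵ2 x) (hx0 : 0 < ‖ue a x‖) {T : ℝ}
    (hT : ∀ t ∈ Icc 0 T, ‖ue a (Φ t x)‖ ≤ 1.01 * r) {s t : ℝ} (hs : 0 ≤ s) (hst : s ≤ t)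
    (ht : t ≤ T) : ‖ue a (Φ s x)‖ ≤ ‖ue a (Φ t x)‖ := by
  refine (cone_decay h hΦ hx hx0 hT hs hst ht).trans ?_
  have : Real.exp (-(0.6 * (t - s))) ≤ 1 := Real.exp_le_one_iff.mpr (by norm_num; nlinarith)
  exact mul_le_of_le_one_right (norm_nonneg _) this

theorem cone_energy {r ϵ1 ϵ2 ε a : ℝ} (h : CP r ϵ1 ϵ2 ε a) {Φ : ℝ → P4 → P4}
    (hΦ : IsFlow (fe rho0 ε) Φ) {x : P4} (hx : Cone a ϵ1 ϵ2 x) (hx0 : 0 < ‖ue a x‖) {T : ℝ}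
    (hT0 : 0 ≤ T) (hT : ∀ t ∈ Icc 0 T, ‖ue a (Φ t x)‖ ≤ 1.01 * r) :
    |En (Φ T x).2 - En x.2| ≤ ϵ2 := by
  have hc := cone_orbit h hΦ hx hx0 hT
  set M := ‖ue a (Φ T x)‖ with hM
  have hM0 : 0 ≤ M := norm_nonneg _
  have k2 := h.h2
  have hne : ∀ t ∈ Icc 0 T, (Φ t x).2.1 + 1/2 ≠ 0 ∧ (Φ t x).2.1 - 1/2 ≠ 0 := by
    intro t ht
    obtain ⟨-, -, -, s4, -, -, -⟩ := cone_near h (hc t ht).1 (hT t ht)
    have f1 := ball_far (z := hubZ + 1/2) (w := (Φ t x).2.1 + 1/2) (ρ := 1/10^5) (by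
      have e : (Φ t x).2.1 + 1/2 - (hubZ + 1/2) = (Φ t x).2.1 - hubZ := by ring
      rw [e]; exact s4)
    have f2 := ball_far (z := hubZ - 1/2) (w := (Φ t x).2.1 - 1/2) (ρ := 1/10^5) (by
      have e : (Φ t x).2.1 - 1/2 - (hubZ - 1/2) = (Φ t x).2.1 - hubZ := by ring
      rw [e]; exact s4)
    rw [norm_hub1] at f1
    rw [norm_hub2] at f2
    exact ⟨ne_of_far (m := 1 - 1/10^5) (by norm_num) f1, ne_of_far (m := 1 - 1/10^5) (by norm_num) f2⟩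
  have hd : ∀ t ∈ Icc 0 T, HasDerivAt (fun s => En (Φ s x).2 - En x.2)
      ((starRingEnd ℂ) (Φ t x).2.2 * Bf ε (Φ t x)).re t := fun t ht =>
    (EnE_deriv hΦ t x (hne t ht).1 (hne t ht).2).sub_const _
  have hB : ∀ t, HasDerivAt (fun s => ϵ2 * M * (5/3) * Real.exp (-(0.6 * (T - s))))
      (ϵ2 * M * Real.exp (-(0.6 * (T - t)))) t := by
    intro t
    have h1 : HasDerivAt (fun s : ℝ => -(0.6 * (T - s))) (-(0.6 * (0 - 1))) t :=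
      (((hasDerivAt_const t T).sub (hasDerivAt_id t)).const_mul 0.6).neg
    have h2 := (h1.exp).const_mul (ϵ2 * M * (5/3))
    refine h2.congr_deriv ?_
    norm_num
    ring
  have key := image_norm_le_of_norm_deriv_right_le_deriv_boundary
    (f := fun s => En (Φ s x).2 - En x.2)
    (f' := fun t => ((starRingEnd ℂ) (Φ t x).2.2 * Bf ε (Φ t x)).re) (a := 0) (b := T)
    (fun t ht => (hd t ht).continuousAt.continuousWithinAt)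
    (fun t ht => (hd t ⟨ht.1, ht.2.le⟩).hasDerivWithinAt)
    (B := fun s => ϵ2 * M * (5/3) * Real.exp (-(0.6 * (T - s))))
    (B' := fun t => ϵ2 * M * Real.exp (-(0.6 * (T - t))))
    (by simp only [hΦ.zero, sub_self, norm_zero]; positivity) hB
    (by
      intro t ht
      have ht' : t ∈ Icc 0 T := ⟨ht.1, ht.2.le⟩
      rw [Real.norm_eq_abs]
      refine (cone_dE h (hc t ht').1 (hT t ht')).trans ?_
      rw [mul_assoc]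
      exact mul_le_mul_of_nonneg_left (cone_decay h hΦ hx hx0 hT ht'.1 ht'.2 le_rfl) k2.le)
    ⟨hT0, le_rfl⟩
  rw [Real.norm_eq_abs] at key
  refine key.trans ?_
  rw [sub_self, mul_zero, neg_zero, Real.exp_zero, mul_one]
  have hM1 := hT T ⟨hT0, le_rfl⟩
  have hr6 := h.hr6
  have hM2 : M ≤ 1/1000 := by norm_num at hM1 hr6 ⊢; linarith
  have := mul_le_mul_of_nonneg_left hM2 k2.le
  norm_num at this ⊢
  linarith

end Run7.h874
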