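import Pool.Agent.Run7.h874.G4

/-!
# Piece G, part 5: the two exit phases
-/

set_option autoImplicit false

namespace Run7.h874

open Complex Set Function

theorem fe_cont {ε : ℝ} (h0 : 0 ≤ ε) (h1 : ε ≤ 1) : Continuous (fe rho0 ε) := by
  obtain ⟨K, hK⟩ := stmtA3.2.1 rho0 ε (by norm_num [rho0]) (by norm_num [rho0]) h0 h1
  exact hK.continuous

theorem ue_cont (a : ℝ) : Continuous (ue a) :=
  uc_cont ((continuous_fst.comp continuous_snd).sub continuous_const)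
    (continuous_snd.comp continuous_snd)

theorem U_cont : Continuous (fun y : P4 => U y.2) :=
  uc_cont ((continuous_fst.comp continuous_snd).sub continuous_const)
    (continuous_snd.comp continuous_snd)

theorem du_cont {ε : ℝ} (h0 : 0 ≤ ε) (h1 : ε ≤ 1) : Continuous (du ε) := by
  have h := fe_cont h0 h1
  exact uc_cont ((continuous_fst.comp continuous_snd).comp h)
    ((continuous_snd.comp continuous_snd).comp h)

theorem Zuniq {Z Z' g : ℝ → ℂ} {T : ℝ} (hT : 0 ≤ T) (h0 : Z 0 = Z' 0)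
    (h1 : ∀ t ∈ Icc 0 T, HasDerivAt Z (g t) t) (h2 : ∀ t ∈ Icc 0 T, HasDerivAt Z' (g t) t) :
    Z T = Z' T := by
  have h := constant_of_has_deriv_right_zero (f := fun t => Z t - Z' t) (a := 0) (b := T)
    (fun t ht => ((h1 t ht).sub (h2 t ht)).continuousAt.continuousWithinAt)
    (fun t ht => by
      have := ((h1 t ⟨ht.1, ht.2.le⟩).sub (h2 t ⟨ht.1, ht.2.le⟩)).hasDerivWithinAt (s := Ici t)
      rw [sub_self] at this
      exact this) T ⟨hT, le_rfl⟩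
  simp only [h0, sub_self] at h
  exact sub_eq_zero.mp h

/-- offset between the two unstable coordinates -/
noncomputable def om (a : ℝ) : ℂ := uc (((a - 1 : ℝ) : ℂ) * hubZ) 0
noncomputable def os (a : ℝ) : ℂ := sc (((a - 1 : ℝ) : ℂ) * hubZ) 0

theorem U_eq (a : ℝ) (y : P4) : U y.2 = ue a y + om a := by
  unfold U ue om
  rw [← uc_add']
  congr 1
  · push_cast; ring
  · ring

theorem Sg_eq (a : ℝ) (y : P4) : Sg y.2 = se a y + os a := by
  unfold Sg se os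
  rw [← sc_add']
  congr 1
  · push_cast; ring
  · ring

theorem om_le {a ε : ℝ} (ha1 : 1 ≤ a) (ha2 : a ≤ 1 + ε) : ‖om a‖ ≤ 2.34 * ε ∧ ‖os a‖ ≤ 1.87 * ε := by
  have h := hub_a ha1 ha2
  have c := stmtC2 (((a - 1 : ℝ) : ℂ) * hubZ) 0
  have e : ‖(0:ℂ) + I * (((a - 1 : ℝ) : ℂ) * hubZ)‖ = ‖((a - 1 : ℝ) : ℂ) * hubZ‖ := by
    rw [zero_add, norm_mul, Complex.norm_I, one_mul]
  have c1 := c.2.2.1
  have c2 := c.2.2.2.1
  rw [e] at c1 c2
  have hε := (norm_nonneg _).trans h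
  unfold om os
  generalize ‖uc (((a - 1 : ℝ) : ℂ) * hubZ) 0‖ = A at c1 ⊢
  generalize ‖sc (((a - 1 : ℝ) : ℂ) * hubZ) 0‖ = B at c2 ⊢
  generalize ‖((a - 1 : ℝ) : ℂ) * hubZ‖ = N at c1 c2 h hε
  constructor
  · norm_num at c1 ⊢; linarith
  · norm_num at c2 ⊢; linarith

theorem CP.small {r ϵ1 ϵ2 ε a : ℝ} (h : CP r ϵ1 ϵ2 ε a) : ε ≤ r / 10^9 ∧ ε ≤ 1/10^9 * ϵ2 ∧
    ε ≤ 1/10^15 ∧ ‖om a‖ ≤ r / 10^6 ∧ ‖os a‖ ≤ r / 10^6 := by
  have ho := om_le h.ha1 h.ha2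
  obtain ⟨hr, hr6, k1, k1', k2, k2', he, he', ha1, ha2, ha3⟩ := h
  have h1 : ϵ2 ≤ 1/10^9 := by linarith
  have h2 : r * ϵ2 ≤ r * (1/10^9) := mul_le_mul_of_nonneg_left h1 hr.le
  have h3 : r * ϵ2 ≤ 1/10^6 * ϵ2 := mul_le_mul_of_nonneg_right hr6 k2.le
  refine ⟨by norm_num at h2 ⊢; linarith, by norm_num at h3 ⊢; linarith,
    by norm_num at h2 hr6 ⊢; linarith, ?_, ?_⟩
  · norm_num at h2 ho ⊢; linarith [ho.1]
  · norm_num at h2 ho ⊢; linarith [ho.2]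

theorem growth2 {r ϵ1 ϵ2 ε a : ℝ} (h : CP r ϵ1 ϵ2 ε a) {Φ : ℝ → P4 → P4}
    (hΦ : IsFlow (fe rho0 ε) Φ) {x : P4} (hx : Cone a ϵ1 ϵ2 x) (hx1 : ‖ue a x‖ = r / 2) {t : ℝ}
    (ht : 0 ≤ t) (hT : ∀ s ∈ Icc 0 t, ‖U (Φ s x).2‖ ≤ r) :
    (∀ s ∈ Icc 0 t, ‖ue a (Φ s x)‖ ≤ 1.01 * r) ∧
    ‖du ε (Φ t x) - lam * U (Φ t x).2‖ ≤ ‖U (Φ t x).2‖ / 50 := by
  obtain ⟨-, -, -, o1, -⟩ := h.small
  have hr := h.hr
  have hr6 := h.hr6
  have hT' : ∀ s ∈ Icc 0 t, ‖ue a (Φ s x)‖ ≤ 1.01 * r := by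
    intro s hs
    have e : ue a (Φ s x) = U (Φ s x).2 - om a := by rw [U_eq a]; ring
    rw [e]
    refine (norm_sub_le _ _).trans ?_
    have := hT s hs
    norm_num at o1 ⊢
    linarith
  refine ⟨hT', ?_⟩
  have hx0 : 0 < ‖ue a x‖ := by rw [hx1]; linarith
  have hc := (cone_orbit h hΦ hx hx0 hT' t ⟨ht, le_rfl⟩).1
  have hg := cone_growth h hc (hT' t ⟨ht, le_rfl⟩)
  have hm := cone_mono h hΦ hx hx0 hT' le_rfl ht le_rfl
  rw [hΦ.zero, hx1] at hm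
  have e1 : du ε (Φ t x) - lam * U (Φ t x).2 = (du ε (Φ t x) - lam * ue a (Φ t x)) - lam * om a := by
    rw [U_eq a]; ring
  have n1 : ‖lam‖ ≤ 1.2 := by
    have hl : ‖lam‖ ^ 2 ≤ 1.2 ^ 2 := by
      rw [nsq]
      have r1 : lam.re = al := lam_re
      have i1 : lam.im = be := by unfold lam; simp
      rw [r1, i1]
      have h1 := al_hi
      have h2 := stmtC5.2.1.2
      have h3 := stmtC5.2.1.1
      have h4 := al_lo
      norm_num at h1 h2 h3 h4 ⊢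
      nlinarith
    exact le_of_sq' hl (by norm_num)
  have n2 : ‖ue a (Φ t x)‖ ≤ ‖U (Φ t x).2‖ + ‖om a‖ := by
    have e : ue a (Φ t x) = U (Φ t x).2 - om a := by rw [U_eq a]; ring
    rw [e]
    exact norm_sub_le _ _
  rw [e1]
  refine (norm_sub_le _ _).trans ?_
  rw [norm_mul]
  have n3 : ‖lam‖ * ‖om a‖ ≤ 1.2 * (r / 10^6) := mul_le_mul n1 o1 (norm_nonneg _) (by norm_num)
  have n4 : 17 * r * ‖ue a (Φ t x)‖ ≤ 17 * (1/10^6) * ‖ue a (Φ t x)‖ := by gcongr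
  norm_num at n3 n4 o1 ⊢
  linarith

theorem polar {η : ℝ} (hη : 0 < η) {z1 z2 w : ℂ} {p r : ℝ} (hw : w ≠ 0)
    (hn : ‖(η:ℂ) * exp (p * I) * exp z1 * w * exp z2‖ = r) :
    (η:ℂ) * exp (p * I) * exp z1 * w * exp z2
      = r * exp (((p + z1.im + arg w + z2.im : ℝ) : ℂ) * I) := by
  have e0 : ∀ z : ℂ, exp z = (Real.exp z.re : ℂ) * exp (z.im * I) := by
    intro z
    rw [Complex.ofReal_exp, ← Complex.exp_add, Complex.re_add_im]
  have ew : w = (‖w‖:ℂ) * exp (arg w * I) := (Complex.norm_mul_exp_arg_mul_I w).symm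
  have hwn : 0 < ‖w‖ := norm_pos_iff.mpr hw
  have key : (η:ℂ) * exp (p * I) * exp z1 * w * exp z2
      = ((η * Real.exp z1.re * ‖w‖ * Real.exp z2.re : ℝ) : ℂ)
        * exp (((p + z1.im + arg w + z2.im : ℝ) : ℂ) * I) := by
    have e1 : exp (((p + z1.im + arg w + z2.im : ℝ) : ℂ) * I)
        = exp (p * I) * exp (z1.im * I) * exp (arg w * I) * exp (z2.im * I) := by
      rw [← Complex.exp_add, ← Complex.exp_add, ← Complex.exp_add]
      congr 1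
      push_cast
      ring
    rw [e1]
    calc (η:ℂ) * exp (p * I) * exp z1 * w * exp z2
        = (η:ℂ) * exp (p * I) * ((Real.exp z1.re : ℂ) * exp (z1.im * I))
          * ((‖w‖:ℂ) * exp (arg w * I)) * ((Real.exp z2.re : ℂ) * exp (z2.im * I)) := by
          rw [← e0 z1, ← e0 z2, ← ew]
      _ = _ := by push_cast; ring
  have hpos : 0 < η * Real.exp z1.re * ‖w‖ * Real.exp z2.re := by positivity
  rw [key, norm_mul, Complex.norm_exp_ofReal_mul_I, mul_one, Complex.norm_real, Real.norm_eq_abs,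
    abs_of_pos hpos] at hn
  rw [key, hn]

end Run7.h874
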