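import Pool.Agent.Run7.h874.G5

/-!
# Piece G, part 6: assembly
-/

set_option autoImplicit false

namespace Run7.h874

open Complex Set Function

/-- energy of the initial states -/
theorem En_init {r ϵ1 ϵ2 ε a : ℝ} (h : CP r ϵ1 ϵ2 ε a) {y : P4} (hs : se a y = 0)
    (hu : ‖ue a y‖ ≤ ε) : |En y.2| ≤ ϵ2 := by
  obtain ⟨-, sm2, sm3, -, -⟩ := h.small
  have ho := om_le h.ha1 h.ha2
  have hh := hub_a h.ha1 h.ha2
  have k2 := h.h2
  have he := h.he
  have hU : ‖U y.2‖ ≤ 3.34 * ε := by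
    rw [U_eq a]
    refine (norm_add_le _ _).trans ?_
    have := ho.1
    norm_num at this ⊢
    linarith
  have hS : ‖Sg y.2‖ ≤ 1.87 * ε := by
    rw [Sg_eq a, hs, zero_add]
    exact ho.2
  have c2 := stmtC2 (y.2.1 - a * hubZ) y.2.2
  have q1 := c2.2.2.2.2.1
  have eu : uc (y.2.1 - a * hubZ) y.2.2 = ue a y := rfl
  have es : sc (y.2.1 - a * hubZ) y.2.2 = se a y := rfl
  rw [eu, es, hs, norm_zero, mul_zero, add_zero] at q1
  have hZ : ‖y.2.1 - hubZ‖ ≤ 2 * ε := by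
    have e : y.2.1 - hubZ = (y.2.1 - (a:ℂ) * hubZ) + ((a - 1 : ℝ) : ℂ) * hubZ := by push_cast; ring
    rw [e]
    refine (norm_add_le _ _).trans ?_
    have := norm_nonneg (ue a y)
    have q2 : ‖y.2.1 - (a:ℂ) * hubZ‖ ≤ ε := by norm_num at q1; linarith
    linarith
  have hZ' : ‖y.2.1 - hubZ‖ ≤ 1/100 := by norm_num at hZ sm3 ⊢; linarith
  have h6 := (stmtC6 y.2 hZ').2
  have h7 : |(U y.2 * (starRingEnd ℂ) (Sg y.2)).im| ≤ 3.34 * ε * (1.87 * ε) := by
    refine (Complex.abs_im_le_norm _).trans ?_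
    rw [norm_mul, RCLike.norm_conj]
    exact mul_le_mul hU hS (norm_nonneg _) (by positivity)
  have h8 : ‖y.2.1 - hubZ‖ ^ 3 ≤ (2 * ε) ^ 3 := pow_le_pow_left₀ (norm_nonneg _) hZ 3
  have h9 : |En y.2| ≤ 1.05 * (2 * ε) ^ 3 + 3.34 * ε * (1.87 * ε) := by
    generalize (U y.2 * (starRingEnd ℂ) (Sg y.2)).im = q at h6 h7
    have := abs_sub_abs_le_abs_sub (En y.2) (-q)
    rw [abs_neg, sub_neg_eq_add] at this
    have h12 := mul_le_mul_of_nonneg_left h8 (show (0:ℝ) ≤ 1.05 by norm_num)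
    linarith
  refine h9.trans ?_
  have h10 : ε * ε ≤ ε * 1 := mul_le_mul_of_nonneg_left (by norm_num at sm3 ⊢; linarith) he.le
  have h11 : ε * (ε * ε) ≤ ε * 1 := mul_le_mul_of_nonneg_left (by nlinarith) he.le
  norm_num at sm2 ⊢
  nlinarith

theorem tout_congr {u : ℝ → ℝ → ℂ} {r p q : ℝ} (h : ∀ t, u t p = u t q) :
    Run7.h550.SY.tout u r p = Run7.h550.SY.tout u r q := by
  unfold Run7.h550.SY.tout
  simp only [h]

/-- abstract form of the selection of a window of arguments -/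
theorem window {f : ℝ → ℝ} {L θ Δ : ℝ} (hL : 0 ≤ L) (hf : ContinuousOn f (Icc 0 L))
    (h : f L = f 0 + 4 * Real.pi) (hΔ : 0 < Δ) (hΔ' : Δ ≤ 1/10) :
    ∃ (k : ℤ) (a' b' : ℝ), 0 ≤ a' ∧ a' < b' ∧ b' ≤ L ∧ f a' = θ - Δ + k * (2 * Real.pi) ∧
      f b' = θ + Δ + k * (2 * Real.pi) ∧
      ∀ p ∈ Icc a' b', θ - Δ + k * (2 * Real.pi) ≤ f p ∧ f p ≤ θ + Δ + k * (2 * Real.pi) := by
  have hpi := Real.pi_gt_three
  set k := ⌈(f 0 - θ + Δ) / (2 * Real.pi)⌉ with hk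
  have h1 : (f 0 - θ + Δ) / (2 * Real.pi) ≤ k := Int.le_ceil _
  have h2 : (k:ℝ) < (f 0 - θ + Δ) / (2 * Real.pi) + 1 := Int.ceil_lt_add_one _
  rw [div_le_iff₀ (by positivity)] at h1
  have h3 : (k:ℝ) * (2 * Real.pi) < f 0 - θ + Δ + 2 * Real.pi := by
    have h4 := mul_lt_mul_of_pos_right h2 (show 0 < 2 * Real.pi by positivity)
    rw [add_mul, div_mul_cancel₀ _ (by positivity), one_mul] at h4
    exact h4
  obtain ⟨a', b', e1, e2, e3, e4, e5, e6⟩ := Run7.h550.SY.sel (f := f) (a := 0) (b := L)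
    (c := θ - Δ + k * (2 * Real.pi)) (d := θ + Δ + k * (2 * Real.pi)) hL hf (by linarith)
    (by rw [h]; norm_num at hΔ' ⊢; linarith) (by linarith)
  exact ⟨k, a', b', e1, e2, e3, e4, e5, e6⟩

theorem exp_shift (ψ : ℝ) (k : ℤ) :
    exp (((ψ - k * (2 * Real.pi) : ℝ) : ℂ) * I) = exp ((ψ : ℂ) * I) := by
  have e : ((ψ - k * (2 * Real.pi) : ℝ) : ℂ) * I = (ψ : ℂ) * I - k * (2 * Real.pi * I) := by
    push_cast; ring
  rw [e]
  exact Complex.exp_periodic.sub_int_mul_eq k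

/-- curve of initial states -/
noncomputable def x00 (a η : ℝ) (g : ℂ × ℂ →L[ℝ] ℂ × ℂ) (p : ℝ) : P4 :=
  (((a:ℂ), 0), ((a:ℂ) * hubZ + (g ((η:ℂ) * exp (p * I), 0)).1, (g ((η:ℂ) * exp (p * I), 0)).2))

theorem x00_cont (a η : ℝ) (g : ℂ × ℂ →L[ℝ] ℂ × ℂ) : Continuous (x00 a η g) := by
  have h1 : Continuous fun p : ℝ => g ((η:ℂ) * exp (p * I), 0) := by
    refine g.continuous.comp (Continuous.prodMk ?_ continuous_const)
    exact continuous_const.mul (Complex.continuous_exp.comp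
      (Complex.continuous_ofReal.mul continuous_const))
  unfold x00
  exact continuous_const.prodMk ((continuous_const.add (continuous_fst.comp h1)).prodMk
    (continuous_snd.comp h1))

theorem x00_u {a η : ℝ} {g : ℂ × ℂ →L[ℝ] ℂ × ℂ}
    (hg : ∀ u s : ℂ, uc (g (u, s)).1 (g (u, s)).2 = u ∧ sc (g (u, s)).1 (g (u, s)).2 = s) (p : ℝ) :
    ue a (x00 a η g p) = (η:ℂ) * exp (p * I) ∧ se a (x00 a η g p) = 0 ∧ Qf a (x00 a η g p) = 0 := by
  have h := hg ((η:ℂ) * exp (p * I)) 0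
  refine ⟨?_, ?_, ?_⟩
  · unfold ue x00
    simp only [add_sub_cancel_left]
    exact h.1
  · unfold se x00
    simp only [add_sub_cancel_left]
    exact h.2
  · unfold Qf QE Qc x00
    simp

theorem pG : StmtG := by
  intro P ν κ hP hν hκ
  obtain ⟨hr, hr6, h64, hϵ1, hΔ, hΔ'⟩ := hP
  obtain ⟨g, hg⟩ := stmtC4
  set r := P.r with hrdef
  set ϵ2 := min (r / 1000) (min (ν / 2) κ) with hϵ2
  have k2 : 0 < ϵ2 := by
    rw [hϵ2]
    exact lt_min (by positivity) (lt_min (by positivity) hκ)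
  have k2a : ϵ2 ≤ r / 1000 := min_le_left _ _
  have k2b : ϵ2 ≤ ν / 2 := (min_le_right _ _).trans (min_le_left _ _)
  have k2c : ϵ2 ≤ κ := (min_le_right _ _).trans (min_le_right _ _)
  refine ⟨r * ϵ2 / 1000, by positivity, ?_⟩
  intro ε hε0 hε1 Φ hΦ n
  obtain ⟨a, ha1, ha2, ha3⟩ := exists_a hε0.le
  have h : CP r (P.ϵ / 2) ϵ2 ε a :=
    ⟨hr, hr6, by linarith, by linarith, k2, k2a, hε0, hε1.le, ha1, ha2, ha3⟩
  obtain ⟨sm1, sm2, sm3, sm4, sm5⟩ := h.small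
  -- size of the initial states
  set η := min ε (r / 2 * Real.exp (-(n:ℝ))) with hη
  have hη0 : 0 < η := lt_min hε0 (by positivity)
  have hηε : η ≤ ε := min_le_left _ _
  have hηn : η ≤ r / 2 * Real.exp (-(n:ℝ)) := min_le_right _ _
  have hηr : η < r / 2 := by linarith
  have hx0 := fun p => x00_u (a := a) (η := η) hg p
  have hx0c := x00_cont a η g
  set x0 := x00 a η g with hx0d
  have hnu : ∀ p, ‖ue a (x0 p)‖ = η := by
    intro p
    rw [(hx0 p).1, norm_mul, Complex.norm_exp_ofReal_mul_I, mul_one, Complex.norm_real,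
      Real.norm_eq_abs, abs_of_pos hη0]
  have hcone0 : ∀ p, Cone a (P.ϵ / 2) ϵ2 (x0 p) := by
    intro p
    constructor
    · rw [(hx0 p).2.1, norm_zero]
      have : 0 ≤ (P.ϵ / 2 * ‖ue a (x0 p)‖) ^ 2 := by positivity
      linarith
    · rw [(hx0 p).2.2]
      have : 0 ≤ (ϵ2 * ‖ue a (x0 p)‖) ^ 2 := by positivity
      linarith
  have hpos0 : ∀ p, 0 < ‖ue a (x0 p)‖ := fun p => by rw [hnu]; exact hη0
  have hε1' : ε ≤ 1 := by linarith
  set L := 4 * Real.pi with hL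
  have hL0 : 0 < L := by have := Real.pi_pos; positivity
  -- phase 1
  have hu1c : Continuous (uncurry fun t p => ue a (Φ t (x0 p))) :=
    (ue_cont a).comp (hΦ.cont.comp (continuous_fst.prodMk (hx0c.comp continuous_snd)))
  have hdu1c : Continuous (uncurry fun t p => du ε (Φ t (x0 p))) :=
    (du_cont hε0.le hε1').comp (hΦ.cont.comp (continuous_fst.prodMk (hx0c.comp continuous_snd)))
  have hle : ∀ {p t : ℝ}, (∀ s ∈ Icc 0 t, ‖ue a (Φ s (x0 p))‖ ≤ r / 2) →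
      ∀ s ∈ Icc 0 t, ‖ue a (Φ s (x0 p))‖ ≤ 1.01 * r := by
    intro p t hs s hs'
    refine (hs s hs').trans ?_
    norm_num
    linarith
  have hlre : 1 / 10 < lam.re := by
    rw [lam_re]
    have := al_lo
    norm_num at this ⊢
    linarith
  obtain ⟨Z1, hZ1c, hZ1cc, hZ10, hZ1⟩ := Run7.h550.SY.exitL (a := 0) (b := L) (r := r / 2)
    (u := fun t p => ue a (Φ t (x0 p))) (du := fun t p => du ε (Φ t (x0 p))) (l := lam) hL0.le
    hu1c hdu1c (fun t p => ue_deriv hΦ t (x0 p)) hlre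
    (fun p _ => by
      simp only [hΦ.zero]
      exact ⟨hpos0 p, by rw [hnu]; exact hηr⟩)
    (fun p _ t ht hs => cone_growth' h
      (cone_orbit h hΦ (hcone0 p) (hpos0 p) (hle hs) t ⟨ht, le_rfl⟩).1 (hle hs t ⟨ht, le_rfl⟩))
  set t1 := Run7.h550.SY.tout (fun t p => ue a (Φ t (x0 p))) (r / 2) with ht1
  -- clamp
  set c : ℝ → ℝ := fun p => max 0 (min p L) with hc
  have hcc : Continuous c := continuous_const.max (continuous_id.min continuous_const)
  have hcm : ∀ p, c p ∈ Icc 0 L := fun p =>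
    ⟨le_max_left _ _, max_le hL0.le (min_le_right _ _)⟩
  have hcid : ∀ p ∈ Icc 0 L, c p = p := by
    intro p hp
    rw [hc]
    simp only
    rw [min_eq_left hp.2, max_eq_right hp.1]
  have ht1c : Continuous fun p => t1 (c p) := hZ1c.comp_continuous hcc hcm
  set x1 : ℝ → P4 := fun p => Φ (t1 (c p)) (x0 (c p)) with hx1
  have hx1c : Continuous x1 := hΦ.cont.comp (ht1c.prodMk (hx0c.comp hcc))
  have hb1 : ∀ p ∈ Icc 0 L, ∀ s ∈ Icc 0 (t1 p), ‖ue a (Φ s (x0 p))‖ ≤ 1.01 * r := fun p hp =>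
    hle fun s hs => ((hZ1 p hp).2.2.1 s hs).1
  have hx1u : ∀ p, ‖ue a (x1 p)‖ = r / 2 := fun p => (hZ1 (c p) (hcm p)).2.1
  have hx1cone : ∀ p, Cone a (P.ϵ / 2) ϵ2 (x1 p) := fun p =>
    (cone_orbit h hΦ (hcone0 (c p)) (hpos0 (c p)) (hb1 (c p) (hcm p)) (t1 (c p))
      ⟨(hZ1 (c p) (hcm p)).1.le, le_rfl⟩).1
  -- phase 2
  have hu2c : Continuous (uncurry fun t p => U (Φ t (x1 p)).2) :=
    U_cont.comp (hΦ.cont.comp (continuous_fst.prodMk (hx1c.comp continuous_snd)))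
  have hdu2c : Continuous (uncurry fun t p => du ε (Φ t (x1 p))) :=
    (du_cont hε0.le hε1').comp (hΦ.cont.comp (continuous_fst.prodMk (hx1c.comp continuous_snd)))
  have hUd : ∀ t p, HasDerivAt (fun s => U (Φ s (x1 p)).2) (du ε (Φ t (x1 p))) t := by
    intro t p
    have e : (fun s => U (Φ s (x1 p)).2) = fun s => ue a (Φ s (x1 p)) + om a := by
      funext s; exact U_eq a _
    rw [e]
    exact (ue_deriv hΦ t (x1 p)).add_const _
  have hU0 : ∀ p, 0 < ‖U (x1 p).2‖ ∧ ‖U (x1 p).2‖ < r := by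
    intro p
    have e1 : ‖U (x1 p).2‖ ≤ ‖ue a (x1 p)‖ + ‖om a‖ := by rw [U_eq a]; exact norm_add_le _ _
    have e2 : ‖ue a (x1 p)‖ ≤ ‖U (x1 p).2‖ + ‖om a‖ := by
      have e : ue a (x1 p) = U (x1 p).2 - om a := by rw [U_eq a]; ring
      calc ‖ue a (x1 p)‖ = ‖U (x1 p).2 - om a‖ := by rw [← e]
        _ ≤ _ := norm_sub_le _ _
    rw [hx1u] at e1 e2
    norm_num at sm4
    constructor <;> linarith
  obtain ⟨Z2, hZ2c, hZ2cc, hZ20, hZ2⟩ := Run7.h550.SY.exitL (a := 0) (b := L) (r := r)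
    (u := fun t p => U (Φ t (x1 p)).2) (du := fun t p => du ε (Φ t (x1 p))) (l := lam) hL0.le
    hu2c hdu2c hUd hlre
    (fun p _ => by
      simp only [hΦ.zero]
      exact hU0 p)
    (fun p _ t ht hs => (growth2 h hΦ (hx1cone p) (hx1u p) ht hs).2)
  set t2 := Run7.h550.SY.tout (fun t p => U (Φ t (x1 p)).2) r with ht2
  have hb2 : ∀ p ∈ Icc 0 L, ∀ s ∈ Icc 0 (t2 p), ‖ue a (Φ s (x1 p))‖ ≤ 1.01 * r := fun p hp =>
    (growth2 h hΦ (hx1cone p) (hx1u p) (hZ2 p hp).1.le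
      (fun s hs => ((hZ2 p hp).2.2.1 s hs).1)).1
  -- the angle
  set w : ℝ → ℂ := fun p => 1 + om a / ue a (x1 p) with hw
  have hwd : ∀ p, ‖om a / ue a (x1 p)‖ ≤ 1/1000 := by
    intro p
    rw [norm_div, hx1u, div_le_iff₀ (by positivity)]
    norm_num at sm4 ⊢
    linarith
  have hwre : ∀ p, 0 < (w p).re := by
    intro p
    have h1 := (abs_le.mp (Complex.abs_re_le_norm (om a / ue a (x1 p)))).1
    have h2 := hwd p
    have h3 : (w p).re = 1 + (om a / ue a (x1 p)).re := by rw [hw]; simp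
    rw [h3]
    linarith
  have hwslit : ∀ p, w p ∈ slitPlane := fun p => Or.inl (hwre p)
  have hw0 : ∀ p, w p ≠ 0 := fun p => slitPlane_ne_zero (hwslit p)
  have hu1ne : ∀ p, ue a (x1 p) ≠ 0 := fun p => norm_pos_iff.mp (by rw [hx1u]; positivity)
  have hwc : Continuous w := continuous_const.add
    (continuous_const.div ((ue_cont a).comp hx1c) hu1ne)
  have hargc : Continuous fun p => arg (w p) :=
    continuous_iff_continuousAt.mpr fun p =>
      (Complex.continuousAt_arg (hwslit p)).comp hwc.continuousAt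
  set ψ0 : ℝ → ℝ := fun p => p + (Z1 (t1 p) p).im + arg (w p) + (Z2 (t2 p) p).im with hψ0
  have hZ1ic : ContinuousOn (fun p => (Z1 (t1 p) p).im) (Icc 0 L) :=
    Complex.continuous_im.comp_continuousOn (hZ1cc.comp_continuousOn (hZ1c.prodMk continuousOn_id))
  have hZ2ic : ContinuousOn (fun p => (Z2 (t2 p) p).im) (Icc 0 L) :=
    Complex.continuous_im.comp_continuousOn (hZ2cc.comp_continuousOn (hZ2c.prodMk continuousOn_id))
  have hψ0c : ContinuousOn ψ0 (Icc 0 L) :=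
    ((continuousOn_id.add hZ1ic).add hargc.continuousOn).add hZ2ic
  -- periodicity
  have hm0 : (0:ℝ) ∈ Icc 0 L := ⟨le_rfl, hL0.le⟩
  have hmL : L ∈ Icc 0 L := ⟨hL0.le, le_rfl⟩
  have hx0per : x0 L = x0 0 := by
    rw [hx0d]
    unfold x00
    have e : exp ((L:ℂ) * I) = exp (((0:ℝ):ℂ) * I) := by
      have h1 := exp_shift L 2
      have h2 : L - ((2:ℤ):ℝ) * (2 * Real.pi) = 0 := by rw [hL]; push_cast; ring
      rw [h2] at h1
      exact h1.symm
    rw [e]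
  have ht1per : t1 L = t1 0 := tout_congr fun t => by simp only [hx0per]
  have hx1per : x1 L = x1 0 := by
    rw [hx1]
    simp only
    rw [hcid L hmL, hcid 0 hm0, ht1per, hx0per]
  have ht2per : t2 L = t2 0 := tout_congr fun t => by simp only [hx1per]
  have hwper : w L = w 0 := by rw [hw]; simp only [hx1per]
  have hZ1per : Z1 (t1 L) L = Z1 (t1 0) 0 := by
    rw [ht1per]
    refine Zuniq (Z := fun t => Z1 t L) (Z' := fun t => Z1 t 0)
      (g := fun t => du ε (Φ t (x0 0)) / ue a (Φ t (x0 0))) (hZ1 0 hm0).1.le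
      (by simp only [hZ10]) ?_ ?_
    · intro t ht
      have h1 := ((hZ1 L hmL).2.2.1 t (by rw [ht1per]; exact ht)).2.2.1
      rw [hx0per] at h1
      exact h1
    · intro t ht
      exact ((hZ1 0 hm0).2.2.1 t ht).2.2.1
  have hZ2per : Z2 (t2 L) L = Z2 (t2 0) 0 := by
    rw [ht2per]
    refine Zuniq (Z := fun t => Z2 t L) (Z' := fun t => Z2 t 0)
      (g := fun t => du ε (Φ t (x1 0)) / U (Φ t (x1 0)).2) (hZ2 0 hm0).1.le
      (by simp only [hZ20]) ?_ ?_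
    · intro t ht
      have h1 := ((hZ2 L hmL).2.2.1 t (by rw [ht2per]; exact ht)).2.2.1
      rw [hx1per] at h1
      exact h1
    · intro t ht
      exact ((hZ2 0 hm0).2.2.1 t ht).2.2.1
  have hψ0per : ψ0 L = ψ0 0 + 4 * Real.pi := by
    rw [hψ0]
    simp only
    rw [hZ1per, hZ2per, hwper, hL]
    ring
  obtain ⟨k, a', b', e1, e2, e3, e4, e5, e6⟩ := window (θ := P.θ) (Δ := P.Δ) hL0.le hψ0c hψ0per hΔ hΔ'
  have hsub : Icc a' b' ⊆ Icc 0 L := Icc_subset_Icc e1 e3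
  refine ⟨a', b', fun p => Φ (t2 p) (x1 p), fun p => ψ0 p - k * (2 * Real.pi), e2, ?_, ?_, ?_, ?_⟩
  · exact hΦ.cont.comp_continuousOn ((hZ2c.mono hsub).prodMk hx1c.continuousOn)
  · exact (hψ0c.mono hsub).sub continuousOn_const
  · left
    constructor
    · simp only; rw [e4]; ring
    · simp only; rw [e5]; ring
  intro p hp
  have hpL := hsub hp
  have hcp := hcid p hpL
  obtain ⟨z1a, z1b, z1c, z1d⟩ := hZ1 p hpL
  obtain ⟨z2a, z2b, z2c, z2d⟩ := hZ2 p hpL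
  have hx1p : x1 p = Φ (t1 p) (x0 p) := by rw [hx1]; simp only; rw [hcp]
  -- the final state as a point of the orbit of `x0 p`
  have hflow : ∀ s, Φ s (x1 p) = Φ (t1 p + s) (x0 p) := by
    intro s; rw [hx1p, ← hΦ.add]
  have hball : ∀ s ∈ Icc 0 (t1 p + t2 p), ‖ue a (Φ s (x0 p))‖ ≤ 1.01 * r := by
    intro s hs
    rcases le_total s (t1 p) with h1 | h1
    · exact hb1 p hpL s ⟨hs.1, h1⟩
    · have h2 := hb2 p hpL (s - t1 p) ⟨by linarith, by linarith [hs.2]⟩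
      rw [hflow, add_sub_cancel] at h2
      exact h2
  have hTT : 0 ≤ t1 p + t2 p := by linarith
  have hcone := cone_orbit h hΦ (hcone0 p) (hpos0 p) hball
  have hfin := hcone (t1 p + t2 p) ⟨hTT, le_rfl⟩
  have hfinb := hball (t1 p + t2 p) ⟨hTT, le_rfl⟩
  have hnear := cone_near h hfin.1 hfinb
  have hbd := cone_bd h hfin.1
  have hE := cone_energy h hΦ (hcone0 p) (hpos0 p) hTT hball
  have hE0 := En_init h (hx0 p).2.1 (by rw [hnu]; exact hηε)
  have hy : Φ (t2 p) (x1 p) = Φ (t1 p + t2 p) (x0 p) := hflow _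
  show OutC P.r P.ϵ (ψ0 p - k * (2 * Real.pi)) (Φ (t2 p) (x1 p)).2 ∧
    |ψ0 p - k * (2 * Real.pi) - P.θ| ≤ P.Δ ∧ |En (Φ (t2 p) (x1 p)).2| ≤ ν ∧
    ‖(Φ (t2 p) (x1 p)).1.1 - 1‖ ≤ κ ∧ ‖(Φ (t2 p) (x1 p)).1.2‖ ≤ κ ∧
    ∀ t ∈ Icc (-(n:ℝ)) 0, ‖Φ t (Φ (t2 p) (x1 p)) - hub4‖ ≤ 1/50
  have hU : U (Φ (t2 p) (x1 p)).2 = r * exp (((ψ0 p : ℝ) : ℂ) * I) := by
    have h1 := (z2c (t2 p) ⟨z2a.le, le_rfl⟩).2.2.2
    have h2 := (z1c (t1 p) ⟨z1a.le, le_rfl⟩).2.2.2
    simp only [hΦ.zero] at h1 h2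
    have h3 : U (x1 p).2 = ue a (x1 p) * w p := by
      rw [U_eq a, hw]
      simp only
      field_simp [hu1ne p]
    rw [h3, hx1p, h2, (hx0 p).1] at h1
    rw [← hx1p] at h1
    have h4 := polar (r := r) hη0 (z1 := Z1 (t1 p) p) (z2 := Z2 (t2 p) p) (w := w p) (p := p) (hw0 p)
      (by rw [← h1]; exact z2b)
    rw [h1, h4]
  refine ⟨⟨?_, ?_⟩, ?_, ?_, ?_, ?_, ?_⟩
  · rw [hU]
    have := exp_shift (ψ0 p) k
    rw [this]
  · rw [hy, Sg_eq a]
    refine (norm_add_le _ _).trans ?_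
    have h1 := hbd.1
    have h2 : P.ϵ / 2 * ‖ue a (Φ (t1 p + t2 p) (x0 p))‖ ≤ P.ϵ / 2 * (1.01 * r) :=
      mul_le_mul_of_nonneg_left hfinb (by linarith)
    have h3 : 64 * r * r ≤ P.ϵ * r := mul_le_mul_of_nonneg_right h64 hr.le
    have h4 : ‖os a‖ ≤ 2 * r * r := by
      have h5 := (om_le h.ha1 h.ha2).2
      have h6 : r * ϵ2 ≤ r * (r / 1000) := mul_le_mul_of_nonneg_left k2a hr.le
      have h7 : 0 < r * r := by positivity
      norm_num at h5 ⊢
      nlinarith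
    norm_num at h2 ⊢
    nlinarith
  · have := e6 p hp
    rw [abs_le]
    constructor <;> linarith [this.1, this.2]
  · rw [hy]
    have h1 := abs_sub_abs_le_abs_sub (En (Φ (t1 p + t2 p) (x0 p)).2) (En (x0 p).2)
    linarith
  · rw [hy]
    exact hnear.2.2.2.2.2.1.trans k2c
  · rw [hy]
    exact hnear.2.2.2.2.2.2.trans k2c
  · intro t ht
    -- long past
    have hT1 : (n:ℝ) ≤ t1 p := by
      have h1 := (z1c (t1 p) ⟨z1a.le, le_rfl⟩).2.2.2
      have h2 := z1d 0 (t1 p) le_rfl z1a.le le_rfl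
      simp only [hΦ.zero] at h1
      rw [hZ10, sub_zero, sub_zero] at h2
      have h3 : (Z1 (t1 p) p).re ≤ t1 p := by
        have h4 := (Complex.abs_re_le_norm (Z1 (t1 p) p - lam * ((t1 p : ℝ) : ℂ))).trans h2
        rw [Complex.sub_re, Complex.re_mul_ofReal, lam_re] at h4
        have h5 := (abs_le.mp h4).2
        have h6 := al_hi
        norm_num at h6
        nlinarith
      have h7 : r / 2 = η * Real.exp (Z1 (t1 p) p).re := by
        have h8 := congrArg norm h1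
        rw [norm_mul, hnu, Complex.norm_exp] at h8
        rw [← h8]
        exact z1b.symm
      have h9 : r / 2 ≤ r / 2 * Real.exp (-(n:ℝ)) * Real.exp (t1 p) := by
        calc r / 2 = η * Real.exp (Z1 (t1 p) p).re := h7
          _ ≤ (r / 2 * Real.exp (-(n:ℝ))) * Real.exp (t1 p) := by
            apply mul_le_mul hηn (Real.exp_le_exp.mpr h3) (Real.exp_pos _).le (by positivity)
      rw [mul_assoc, ← Real.exp_add] at h9
      have h10 : 1 ≤ Real.exp (-(n:ℝ) + t1 p) := by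
        by_contra hcon
        push Not at hcon
        nlinarith
      have h11 : 0 ≤ -(n:ℝ) + t1 p := Real.one_le_exp_iff.mp h10
      linarith
    have h1 : Φ t (Φ (t2 p) (x1 p)) = Φ (t1 p + t2 p + t) (x0 p) := by
      rw [hy, ← hΦ.add]
    have hs : t1 p + t2 p + t ∈ Icc 0 (t1 p + t2 p) := ⟨by linarith [ht.1], by linarith [ht.2]⟩
    obtain ⟨-, -, q1, q2, q3, -, q4⟩ := cone_near h (hcone _ hs).1 (hball _ hs)
    rw [h1]
    generalize Φ (t1 p + t2 p + t) (x0 p) = y at *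
    have hϵ2s : ϵ2 ≤ 1/10^9 := by linarith
    unfold hub4
    rw [Prod.norm_def, Prod.norm_def, Prod.norm_def]
    simp only [Prod.fst_sub, Prod.snd_sub, sub_zero]
    refine max_le (max_le ?_ ?_) (max_le ?_ ?_)
    · exact q1.trans (by norm_num)
    · exact q4.trans (hϵ2s.trans (by norm_num))
    · exact q2.trans (by norm_num)
    · exact q3.trans (by norm_num)

end Run7.h874
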