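import Pool.Agent.Run7.h874.Iface

/-!
# Gronwall steps for the restricted problem
-/

set_option autoImplicit false

namespace Run7.h874

open Complex Set

/-- fencing lemma with barrier `(e0 + δ t) exp (L t)` -/
theorem gron {E : Type*} [NormedAddCommGroup E] [NormedSpace ℝ E] {f f' : ℝ → E}
    {h L δ δ0 e0 : ℝ} (hL : 0 ≤ L) (hδ : δ0 < δ) (hδ0 : 0 ≤ δ0) (he : 0 ≤ e0)
    (hf : ∀ t ∈ Icc 0 h, HasDerivAt f (f' t) t) (h0 : ‖f 0‖ ≤ e0)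
    (hb : ∀ t ∈ Ico 0 h, ‖f t‖ = (e0 + δ * t) * Real.exp (L * t) → ‖f' t‖ ≤ L * ‖f t‖ + δ0) :
    ∀ t ∈ Icc 0 h, ‖f t‖ ≤ (e0 + δ * t) * Real.exp (L * t) := by
  have hB : ∀ x : ℝ, HasDerivAt (fun t => (e0 + δ * t) * Real.exp (L * t))
      (δ * Real.exp (L * x) + (e0 + δ * x) * (Real.exp (L * x) * L)) x := by
    intro x
    have h1 : HasDerivAt (fun t : ℝ => e0 + δ * t) δ x := by
      simpa using ((hasDerivAt_id x).const_mul δ).const_add e0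
    have h2 : HasDerivAt (fun t : ℝ => Real.exp (L * t)) (Real.exp (L * x) * L) x := by
      have : HasDerivAt (fun t : ℝ => L * t) L x := by simpa using (hasDerivAt_id x).const_mul L
      exact this.exp
    exact h1.mul h2
  intro t ht
  refine image_norm_le_of_norm_deriv_right_lt_deriv_boundary' (f := f) (f' := f') (a := 0) (b := h)
    (fun t ht => (hf t ht).continuousAt.continuousWithinAt)
    (fun t ht => (hf t ⟨ht.1, ht.2.le⟩).hasDerivWithinAt)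
    (B := fun t => (e0 + δ * t) * Real.exp (L * t))
    (B' := fun x => δ * Real.exp (L * x) + (e0 + δ * x) * (Real.exp (L * x) * L))
    (by simpa using h0) (fun x _ => (hB x).continuousAt.continuousWithinAt)
    (fun x _ => (hB x).hasDerivWithinAt) ?_ ht
  intro x hx hfx
  have h1 := hb x hx hfx
  have h2 : 1 ≤ Real.exp (L * x) := Real.one_le_exp (mul_nonneg hL hx.1)
  rw [hfx] at h1
  nlinarith

theorem gc_odd (ϱ : ℝ) (z : ℂ) : gc ϱ (-z) = -gc ϱ z := by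
  unfold gc; rw [norm_neg, smul_neg]

theorem gc_eq {ϱ : ℝ} {z : ℂ} (hϱ : 0 ≤ ϱ) (h : ϱ ≤ ‖z‖) : gc ϱ z = gc 0 z := by
  unfold gc; rw [max_eq_left h, max_eq_left (norm_nonneg z)]

/-- acceleration of the restricted problem with the true kernel -/
noncomputable def acc0 (z v : ℂ) : ℂ :=
  -2 * I * v + z - (1/2 : ℂ) * (gc 0 (z + 1/2) + gc 0 (z - 1/2))

/-- a reference trajectory on `[0, h]` -/
structure Ref (h δ : ℝ) (g1 g2 : ℝ) (z v : ℝ → ℂ) : Prop where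
  hz : ∀ s ∈ Icc 0 h, HasDerivAt z (v s) s
  hv : ∀ s ∈ Icc 0 h, ∃ a, HasDerivAt v a s ∧ ‖a - acc0 (z s) (v s)‖ ≤ δ
  h1 : ∀ s ∈ Icc 0 h, (1 + 1/2048) / g1 ≤ ‖z s + 1/2‖
  h2 : ∀ s ∈ Icc 0 h, (1 + 1/2048) / g2 ≤ ‖z s - 1/2‖

/-- an orbit of the cut-off restricted problem on `[0, h]` -/
def Orb (h : ℝ) (Z V : ℝ → ℂ) : Prop :=
  ∀ s ∈ Icc 0 h, HasDerivAt Z (V s) s ∧ HasDerivAt V ((f0 rho0 (Z s, V s)).2) s

theorem seg_far {a b z : ℂ} {m η : ℝ} (ha : ‖a - z‖ ≤ η) (hb : ‖b - z‖ ≤ η) (hm : m + η ≤ ‖z‖) :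
    ∀ t ∈ Icc (0:ℝ) 1, m ≤ ‖a + (t:ℂ) * (b - a)‖ := by
  intro t ht
  have e : a + (t:ℂ) * (b - a) - z = ((1 - t : ℝ) : ℂ) * (a - z) + (t:ℂ) * (b - z) := by
    push_cast; ring
  have h1 : ‖a + (t:ℂ) * (b - a) - z‖ ≤ η := by
    rw [e]
    refine (norm_add_le _ _).trans ?_
    rw [norm_mul, norm_mul, Complex.norm_real, Complex.norm_real, Real.norm_eq_abs,
      Real.norm_eq_abs, abs_of_nonneg (by linarith [ht.2]), abs_of_nonneg ht.1]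
    nlinarith [ht.1, ht.2]
  have h2 : ‖z‖ ≤ ‖a + (t:ℂ) * (b - a)‖ + ‖a + (t:ℂ) * (b - a) - z‖ := by
    have := norm_sub_norm_le z (a + (t:ℂ) * (b - a))
    rw [norm_sub_rev] at this
    linarith
  linarith

/-- decomposition of the acceleration difference -/
theorem acc_diff (hB3 : StmtB3) {g1 g2 B η : ℝ} (hg1 : 0 < g1) (hg2 : 0 < g2)
    {Z V zp vp zn vn : ℂ} {q : ℝ} (hq : q ∈ Icc (0:ℝ) 1)
    (hB : ‖zp - zn‖ ≤ B) (hd : ‖Z - (zn + (q:ℂ) * (zp - zn))‖ ≤ η)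
    (hs1 : (B + η) * g1 ≤ 1/4096) (hs2 : (B + η) * g2 ≤ 1/4096)
    (hg1' : g1 ≤ 2000) (hg2' : g2 ≤ 2000)
    (h1 : (1 + 1/2048) / g1 ≤ ‖zp + 1/2‖) (h2 : (1 + 1/2048) / g2 ≤ ‖zp - 1/2‖) :
    ∃ r : ℂ, ‖r‖ ≤ 3/8 * (g1 ^ 4 + g2 ^ 4) * B ^ 2 ∧
      (f0 rho0 (Z, V)).2 - (((1 - q : ℝ) : ℂ) * acc0 zn vn + (q:ℂ) * acc0 zp vp)
        = -2 * I * (V - (vn + (q:ℂ) * (vp - vn))) + (Z - (zn + (q:ℂ) * (zp - zn)))
          - (1/2:ℂ) * ((gc 0 (Z + 1/2) - gc 0 (zn + (q:ℂ) * (zp - zn) + 1/2))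
            + (gc 0 (Z - 1/2) - gc 0 (zn + (q:ℂ) * (zp - zn) - 1/2))) + r ∧
      (∀ t ∈ Icc (0:ℝ) 1, 1 / g1 ≤ ‖(zn + (q:ℂ) * (zp - zn) + 1/2)
        + (t:ℂ) * ((Z + 1/2) - (zn + (q:ℂ) * (zp - zn) + 1/2))‖) ∧
      (∀ t ∈ Icc (0:ℝ) 1, 1 / g2 ≤ ‖(zn + (q:ℂ) * (zp - zn) - 1/2)
        + (t:ℂ) * ((Z - 1/2) - (zn + (q:ℂ) * (zp - zn) - 1/2))‖) := by
  have hη : 0 ≤ η := (norm_nonneg _).trans hd
  have hB0 : 0 ≤ B := (norm_nonneg _).trans hB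
  set zq := zn + (q:ℂ) * (zp - zn) with hzq
  have hqn : ‖zq - zp‖ ≤ B := by
    have e : zq - zp = -(((1 - q : ℝ) : ℂ) * (zp - zn)) := by rw [hzq]; push_cast; ring
    rw [e, norm_neg, norm_mul, Complex.norm_real, Real.norm_eq_abs,
      abs_of_nonneg (by linarith [hq.2])]
    nlinarith [hq.1, norm_nonneg (zp - zn)]
  have hZn : ‖Z - zp‖ ≤ B + η := by
    have e : Z - zp = (Z - zq) + (zq - zp) := by ring
    rw [e]; exact (norm_add_le _ _).trans (by linarith)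
  have hnn : ‖zn - zp‖ ≤ B := by rw [norm_sub_rev]; exact hB
  have m1 : 1 / g1 + (B + η) ≤ ‖zp + 1/2‖ := by
    refine le_trans ?_ h1
    rw [le_div_iff₀ hg1, add_mul, one_div, inv_mul_cancel₀ hg1.ne']
    linarith
  have m2 : 1 / g2 + (B + η) ≤ ‖zp - 1/2‖ := by
    refine le_trans ?_ h2
    rw [le_div_iff₀ hg2, add_mul, one_div, inv_mul_cancel₀ hg2.ne']
    linarith
  have s1 : ∀ t ∈ Icc (0:ℝ) 1, 1 / g1 ≤ ‖(zn + 1/2) + (t:ℂ) * ((zp + 1/2) - (zn + 1/2))‖ :=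
    seg_far (z := zp + 1/2) (η := B + η) (by ring_nf; ring_nf at hnn; linarith) (by simp; linarith) m1
  have s2 : ∀ t ∈ Icc (0:ℝ) 1, 1 / g2 ≤ ‖(zn - 1/2) + (t:ℂ) * ((zp - 1/2) - (zn - 1/2))‖ :=
    seg_far (z := zp - 1/2) (η := B + η) (by ring_nf; ring_nf at hnn; linarith) (by simp; linarith) m2
  have c1 := hB3 (zn + 1/2) (zp + 1/2) (1 / g1) q (by positivity) hq s1
  have c2 := hB3 (zn - 1/2) (zp - 1/2) (1 / g2) q (by positivity) hq s2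
  have hr0 : rho0 = 1/10000 := rfl
  have hfar1 : rho0 ≤ ‖Z + 1/2‖ := by
    have h3 : ‖zp + 1/2‖ ≤ ‖Z + 1/2‖ + ‖Z - zp‖ := by
      have e : zp + 1/2 = (Z + 1/2) - (Z - zp) := by ring
      calc ‖zp + 1/2‖ = ‖(Z + 1/2) - (Z - zp)‖ := by rw [← e]
        _ ≤ _ := norm_sub_le _ _
    have h4 : 1/2000 ≤ 1 / g1 := one_div_le_one_div_of_le hg1 hg1'
    rw [hr0]; linarith
  have hfar2 : rho0 ≤ ‖Z - 1/2‖ := by
    have h3 : ‖zp - 1/2‖ ≤ ‖Z - 1/2‖ + ‖Z - zp‖ := by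
      have e : zp - 1/2 = (Z - 1/2) - (Z - zp) := by ring
      calc ‖zp - 1/2‖ = ‖(Z - 1/2) - (Z - zp)‖ := by rw [← e]
        _ ≤ _ := norm_sub_le _ _
    have h4 : 1/2000 ≤ 1 / g2 := one_div_le_one_div_of_le hg2 hg2'
    rw [hr0]; linarith
  refine ⟨(1/2:ℂ) * (((((1 - q : ℝ) : ℂ) * gc 0 (zn + 1/2) + (q : ℂ) * gc 0 (zp + 1/2)
      - gc 0 (zn + 1/2 + (q:ℂ) * ((zp + 1/2) - (zn + 1/2))))
      + (((1 - q : ℝ) : ℂ) * gc 0 (zn - 1/2) + (q : ℂ) * gc 0 (zp - 1/2)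
      - gc 0 (zn - 1/2 + (q:ℂ) * ((zp - 1/2) - (zn - 1/2)))))), ?_, ?_, ?_, ?_⟩
  · rw [norm_mul]
    have e1 : ‖(1/2:ℂ)‖ = 1/2 := by norm_num
    rw [e1]
    have e2 : (zp + 1/2) - (zn + 1/2) = zp - zn := by ring
    have e3 : (zp - 1/2) - (zn - 1/2) = zp - zn := by ring
    have k1 : ‖((1 - q : ℝ) : ℂ) * gc 0 (zn + 1/2) + (q : ℂ) * gc 0 (zp + 1/2)
      - gc 0 (zn + 1/2 + (q:ℂ) * ((zp + 1/2) - (zn + 1/2)))‖ ≤ 3/4 * g1 ^ 4 * B ^ 2 := by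
      refine c1.trans ?_
      rw [e2]
      have : 3 / 4 / (1 / g1) ^ 4 = 3/4 * g1 ^ 4 := by field_simp
      rw [this]
      have : ‖zp - zn‖ ^ 2 ≤ B ^ 2 := pow_le_pow_left₀ (norm_nonneg _) hB 2
      exact mul_le_mul_of_nonneg_left this (by positivity)
    have k2 : ‖((1 - q : ℝ) : ℂ) * gc 0 (zn - 1/2) + (q : ℂ) * gc 0 (zp - 1/2)
      - gc 0 (zn - 1/2 + (q:ℂ) * ((zp - 1/2) - (zn - 1/2)))‖ ≤ 3/4 * g2 ^ 4 * B ^ 2 := by
      refine c2.trans ?_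
      rw [e3]
      have : 3 / 4 / (1 / g2) ^ 4 = 3/4 * g2 ^ 4 := by field_simp
      rw [this]
      have : ‖zp - zn‖ ^ 2 ≤ B ^ 2 := pow_le_pow_left₀ (norm_nonneg _) hB 2
      exact mul_le_mul_of_nonneg_left this (by positivity)
    have := (norm_add_le _ _).trans (add_le_add k1 k2)
    linarith
  · have e2 : zn + 1/2 + (q:ℂ) * ((zp + 1/2) - (zn + 1/2)) = zq + 1/2 := by rw [hzq]; ring
    have e3 : zn - 1/2 + (q:ℂ) * ((zp - 1/2) - (zn - 1/2)) = zq - 1/2 := by rw [hzq]; ring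
    rw [e2, e3]
    simp only [f0, acc0]
    rw [gc_eq (by norm_num [rho0]) hfar1, gc_eq (by norm_num [rho0]) hfar2, hzq]
    push_cast; ring
  · exact seg_far (z := zp + 1/2) (η := B + η)
      (by have e : zq + 1/2 - (zp + 1/2) = zq - zp := by ring
          rw [e]; linarith)
      (by have e : Z + 1/2 - (zp + 1/2) = Z - zp := by ring
          rw [e]; linarith) m1
  · exact seg_far (z := zp - 1/2) (η := B + η)
      (by have e : zq - 1/2 - (zp - 1/2) = zq - zp := by ring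
          rw [e]; linarith)
      (by have e : Z - 1/2 - (zp - 1/2) = Z - zp := by ring
          rw [e]; linarith) m2

end Run7.h874
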