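import Pool.Agent.Run7.h874.Defs

/-!
# Interface: the pieces of the proof that every finite word is realised
-/

set_option autoImplicit false

namespace Run7.h874

open Complex Set

/-! ## Piece A: flows -/

/-- A1: a globally Lipschitz field has a global flow, Lipschitz in the initial state. -/
def StmtA1 : Prop :=
  ∀ (E : Type) [NormedAddCommGroup E] [NormedSpace ℝ E] [CompleteSpace E] (F : E → E) (K : NNReal),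
    LipschitzWith K F → ∃ φ : ℝ → E → E, IsFlow F φ

/-- A2: uniqueness and Gronwall for flows of Lipschitz fields: a curve that solves the equation of
`F` up to an error `δ` on `[0, T]` stays close to the flow. -/
def StmtA2 : Prop :=
  ∀ (E : Type) [NormedAddCommGroup E] [NormedSpace ℝ E] (F : E → E) (K : NNReal) (φ : ℝ → E → E),
    LipschitzWith K F → IsFlow F φ →
    ∀ (g g' : ℝ → E) (T δ η : ℝ), 0 ≤ T → 0 ≤ δ → 0 ≤ η → ContinuousOn g (Icc 0 T) →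
      (∀ t ∈ Ico 0 T, HasDerivWithinAt g (g' t) (Ici t) t) →
      (∀ t ∈ Ico 0 T, ‖g' t - F (g t)‖ ≤ δ) →
      ∀ x, ‖g 0 - x‖ ≤ η → ∀ t ∈ Icc 0 T, ‖g t - φ t x‖ ≤ (η + δ * T) * Real.exp (K * T)

/-- A3: the cut-off fields are globally Lipschitz. -/
def StmtA3 : Prop :=
  (∀ ϱ : ℝ, 0 < ϱ → ϱ ≤ 1 → ∃ K : NNReal, LipschitzWith K (f0 ϱ)) ∧
  (∀ ϱ ε : ℝ, 0 < ϱ → ϱ ≤ 1 → 0 ≤ ε → ε ≤ 1 → ∃ K : NNReal, LipschitzWith K (fe ϱ ε)) ∧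
  (∀ ϱ : ℝ, 0 < ϱ → ϱ ≤ 1 → ∃ K : NNReal, ∃ C : ℝ, (∀ ε : ℝ, 0 ≤ ε → ε ≤ 1 →
      LipschitzWith K (fe ϱ ε)) ∧ ∀ (ε : ℝ) (x : P4), 0 ≤ ε → ε ≤ 1 →
        ‖fe ϱ ε x - fe ϱ 0 x‖ ≤ C * ε)

/-! ## Piece B: calculus of the Newtonian kernel -/

/-- B1: Lipschitz bound. -/
def StmtB1 : Prop :=
  ∀ (a b : ℂ) (m : ℝ), 0 < m → (∀ t ∈ Icc (0:ℝ) 1, m ≤ ‖a + (t:ℂ) * (b - a)‖) →
    ‖gc 0 b - gc 0 a‖ ≤ 2 / m ^ 3 * ‖b - a‖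

/-- B2: deviation from the derivative at a point `z`; `z`, `a`, `b` in a ball of radius `ρ < |z|`
about `z`. -/
def StmtB2 : Prop :=
  ∀ (z a b : ℂ) (ρ : ℝ), 0 ≤ ρ → ρ < ‖z‖ → ‖a - z‖ ≤ ρ → ‖b - z‖ ≤ ρ →
    ‖gc 0 b - gc 0 a - dg z (b - a)‖ ≤ 6 * ρ / (‖z‖ - ρ) ^ 4 * ‖b - a‖

/-- B2': quadratic remainder. -/
def StmtB2' : Prop :=
  ∀ (z d : ℂ), ‖d‖ < ‖z‖ →
    ‖gc 0 (z + d) - gc 0 z - dg z d‖ ≤ 3 / (‖z‖ - ‖d‖) ^ 4 * ‖d‖ ^ 2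

/-- B3: convex combinations. -/
def StmtB3 : Prop :=
  ∀ (a b : ℂ) (m q : ℝ), 0 < m → q ∈ Icc (0:ℝ) 1 →
    (∀ t ∈ Icc (0:ℝ) 1, m ≤ ‖a + (t:ℂ) * (b - a)‖) →
    ‖((1 - q : ℝ) : ℂ) * gc 0 a + (q : ℂ) * gc 0 b - gc 0 (a + (q:ℂ) * (b - a))‖
      ≤ 3 / 4 / m ^ 4 * ‖b - a‖ ^ 2

/-- B4: cubic remainder of `1/|z|`. -/
def StmtB4 : Prop :=
  ∀ (z d : ℂ), ‖z‖ = 1 → ‖d‖ < 1 →
    |1 / ‖z + d‖ - (1 - (z * (starRingEnd ℂ) d).re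
      + (3 * ((z * (starRingEnd ℂ) d).re) ^ 2 - ‖d‖ ^ 2) / 2)| ≤ ‖d‖ ^ 3 / (1 - ‖d‖) ^ 4

/-! ## Piece C: hub algebra -/

/-- C1: `uc`, `sc` diagonalise the linearised restricted problem. -/
def StmtC1 : Prop :=
  (∀ ζ v n : ℂ, uc v (-2 * I * v + (3/2) * ζ - (3/4) * (starRingEnd ℂ) ζ + n)
      = lam * uc ζ v + uc 0 n) ∧
  (∀ ζ v n : ℂ, sc v (-2 * I * v + (3/2) * ζ - (3/4) * (starRingEnd ℂ) ζ + n)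
      = -(starRingEnd ℂ) lam * sc ζ v + sc 0 n)

/-- C2: norm bounds. -/
def StmtC2 : Prop :=
  ∀ ζ v : ℂ, ‖uc 0 v‖ ≤ 1.276 * ‖v‖ ∧ ‖sc 0 v‖ ≤ 1.02 * ‖v‖ ∧
    ‖uc ζ v‖ ≤ 1.061 * ‖ζ‖ + 1.276 * ‖v + I * ζ‖ ∧
    ‖sc ζ v‖ ≤ 0.849 * ‖ζ‖ + 1.02 * ‖v + I * ζ‖ ∧
    ‖ζ‖ ≤ 0.895 * ‖uc ζ v‖ + 1.119 * ‖sc ζ v‖ ∧
    ‖v‖ ≤ 1.02 * ‖uc ζ v‖ + 1.276 * ‖sc ζ v‖ ∧
    ‖v + I * ζ‖ ≤ 0.745 * ‖uc ζ v‖ + 0.931 * ‖sc ζ v‖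

/-- C3: quadratic part of the energy. -/
def StmtC3 : Prop :=
  ∀ ζ v : ℂ, -(uc ζ v * (starRingEnd ℂ) (sc ζ v)).im
    = ‖v‖ ^ 2 / 2 - 3 / 8 * ζ.re ^ 2 - 9 / 8 * ζ.im ^ 2

/-- C4: `(uc, sc)` is a linear coordinate system with continuous inverse. -/
def StmtC4 : Prop :=
  ∃ g : ℂ × ℂ →L[ℝ] ℂ × ℂ, ∀ u s : ℂ, uc (g (u, s)).1 (g (u, s)).2 = u ∧
    sc (g (u, s)).1 (g (u, s)).2 = s

/-- C5: numerical values. -/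
def StmtC5 : Prop :=
  (0.632 < al ∧ al < 0.6321) ∧ (0.948 < be ∧ be < 0.9485) ∧ al ^ 2 - be ^ 2 = -1/2 ∧
    2 * al * be = Real.sqrt 23 / 4

/-- C6: the restricted field and energy near the hub, in hub coordinates. -/
def StmtC6 : Prop :=
  ∀ x : P2, ‖x.1 - hubZ‖ ≤ 1/100 →
    (∃ n : ℂ, ‖n‖ ≤ 3.13 * ‖x.1 - hubZ‖ ^ 2 ∧
      uc (f0 rho0 x).1 (f0 rho0 x).2 = lam * U x + uc 0 n ∧
      sc (f0 rho0 x).1 (f0 rho0 x).2 = -(starRingEnd ℂ) lam * Sg x + sc 0 n) ∧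
    |En x + (U x * (starRingEnd ℂ) (Sg x)).im| ≤ 1.05 * ‖x.1 - hubZ‖ ^ 3

/-- C7: energy is conserved away from the primaries; the field is odd. -/
def StmtC7 : Prop :=
  (∀ x : P2, f0 rho0 (-x) = -f0 rho0 x) ∧ (∀ x : P2, En (-x) = En x) ∧
  ∀ φ : ℝ → P2 → P2, IsFlow (f0 rho0) φ → ∀ (x : P2) (T : ℝ), 0 ≤ T →
    (∀ t ∈ Icc 0 T, far (φ t x)) → En (φ T x) = En x

/-! ## Piece D: passage of the hub (restricted problem) -/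

def StmtD : Prop :=
  ∀ (S : ℂ) (δ r ϵ θ Δ : ℝ), 0 < ‖S‖ → ‖S‖ ≤ 1/2000 → 10 * ‖S‖ ^ 2 ≤ δ → 0 < r → r ≤ 1/10^6 →
    64 * r ≤ ϵ → ϵ ≤ 1 → 0 < Δ → Δ ≤ 1/10 →
    ∃ ν > 0, ∃ Tm > 0, ∀ φ : ℝ → P2 → P2, IsFlow (f0 rho0) φ →
      ∀ (a b : ℝ) (x : ℝ → P2), a < b → ContinuousOn x (Icc a b) →
        (∀ p ∈ Icc a b, EntryC S (x p) ∧ |En (x p)| ≤ ν) →
        Cross (fun p => ups (x p)) a b (-δ) δ →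
        ∃ (a' b' : ℝ) (T ψ : ℝ → ℝ), a ≤ a' ∧ a' < b' ∧ b' ≤ b ∧ ContinuousOn T (Icc a' b') ∧
          ContinuousOn ψ (Icc a' b') ∧ Ends ψ a' b' (θ - Δ) (θ + Δ) ∧
          ∀ p ∈ Icc a' b', T p ∈ Icc 0 Tm ∧ |ψ p - θ| ≤ Δ ∧
            OutC r ϵ (ψ p) (φ (T p) (x p)) ∧
            ∀ t ∈ Icc 0 (T p), ‖(φ t (x p)).1 - hubZ‖ ≤ 1/100 ∧ ‖(φ t (x p)).2‖ ≤ 1/100

/-! ## Piece E: numerical connections (restricted problem) -/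

/-- parameters of an exit class -/
structure OutPar where
  r : ℝ
  ϵ : ℝ
  θ : ℝ
  Δ : ℝ

def OutPar.ok (P : OutPar) : Prop :=
  0 < P.r ∧ P.r ≤ 1/10^6 ∧ 64 * P.r ≤ P.ϵ ∧ P.ϵ ≤ 1 ∧ 0 < P.Δ ∧ P.Δ ≤ 1/10

/-- E1: for each letter `c` there is a connection from the hub to the opposite hub that crosses the
axis once, with letter `c`. -/
def StmtE1 : Prop :=
  ∀ c : Fin 3, ∃ (P : OutPar) (S : ℂ) (δ T m σ : ℝ), P.ok ∧ 0 < ‖S‖ ∧ ‖S‖ ≤ 1/2000 ∧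
    10 * ‖S‖ ^ 2 ≤ δ ∧ 0 < T ∧ 0 < m ∧ (σ = 1 ∨ σ = -1) ∧
    ∀ φ : ℝ → P2 → P2, IsFlow (f0 rho0) φ →
      ∀ (x : P2) (ψ : ℝ), OutC P.r P.ϵ ψ x → |ψ - P.θ| ≤ P.Δ →
        Seg φ c m x T ∧ EntryC S (-(φ T x)) ∧
        (ψ = P.θ - σ * P.Δ → ups (-(φ T x)) ≤ -δ) ∧ (ψ = P.θ + σ * P.Δ → δ ≤ ups (-(φ T x)))

/-- E2: the connection from the hub to a collision with body `0`. -/
def StmtE2 : Prop :=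
  ∃ (P : OutPar) (T m σ : ℝ), P.ok ∧ 0 < T ∧ 0 < m ∧ (σ = 1 ∨ σ = -1) ∧
    ∀ φ : ℝ → P2 → P2, IsFlow (f0 rho0) φ →
      ∀ (x : P2) (ψ : ℝ), OutC P.r P.ϵ ψ x → |ψ - P.θ| ≤ P.Δ →
        Silent φ m x T ∧ FinR 0 (φ T x) ∧
        (ψ = P.θ - σ * P.Δ → ell (φ T x) ≤ -ell0) ∧ (ψ = P.θ + σ * P.Δ → ell0 ≤ ell (φ T x))

/-! ## Piece F: chains (restricted problem) -/

def StmtF : Prop :=
  ∀ w : List (Fin 3), ∃ (P : OutPar) (ν Tm m : ℝ), P.ok ∧ 0 < ν ∧ 0 < Tm ∧ 0 < m ∧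
    ∀ φ : ℝ → P2 → P2, IsFlow (f0 rho0) φ →
      ∀ (a b : ℝ) (x : ℝ → P2) (ψ : ℝ → ℝ), a < b → ContinuousOn x (Icc a b) →
        ContinuousOn ψ (Icc a b) → Ends ψ a b (P.θ - P.Δ) (P.θ + P.Δ) →
        (∀ p ∈ Icc a b, OutC P.r P.ϵ (ψ p) (x p) ∧ |ψ p - P.θ| ≤ P.Δ ∧ |En (x p)| ≤ ν) →
        ∃ (a' b' : ℝ) (T : ℝ → ℝ) (y : ℝ → P2), a ≤ a' ∧ a' < b' ∧ b' ≤ b ∧
          ContinuousOn T (Icc a' b') ∧ ContinuousOn y (Icc a' b') ∧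
          Cross (fun p => ell (y p)) a' b' (-ell0) ell0 ∧
          ∀ p ∈ Icc a' b', T p ∈ Icc 0 Tm ∧ Tr φ w m (x p) (T p) (y p) ∧ FinR 0 (y p)

/-! ## Piece G: the start (full problem) -/

def StmtG : Prop :=
  ∀ (P : OutPar) (ν κ : ℝ), P.ok → 0 < ν → 0 < κ →
    ∃ ε0 > 0, ∀ ε : ℝ, 0 < ε → ε < ε0 → ∀ Φ : ℝ → P4 → P4, IsFlow (fe rho0 ε) Φ →
      ∀ n : ℕ, ∃ (a b : ℝ) (x : ℝ → P4) (ψ : ℝ → ℝ), a < b ∧ ContinuousOn x (Icc a b) ∧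
        ContinuousOn ψ (Icc a b) ∧ Ends ψ a b (P.θ - P.Δ) (P.θ + P.Δ) ∧
        ∀ p ∈ Icc a b, OutC P.r P.ϵ (ψ p) (x p).2 ∧ |ψ p - P.θ| ≤ P.Δ ∧ |En (x p).2| ≤ ν ∧
          ‖(x p).1.1 - 1‖ ≤ κ ∧ ‖(x p).1.2‖ ≤ κ ∧
          ∀ t ∈ Icc (-(n:ℝ)) 0, ‖Φ t (x p) - hub4‖ ≤ 1/50

/-! ## Piece H: the end (full problem) -/

/-- final class of the full problem -/
def FinE (y : P4) : Prop :=
  FinR (1/10^6) y.2 ∧ ‖y.1.1 - 1‖ ≤ 1/10^16 ∧ ‖y.1.2‖ ≤ 1/10^16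

/-- angular momentum about body `0` in the full problem -/
noncomputable def ellE (y : P4) : ℝ :=
  ((starRingEnd ℂ) (y.2.1 + y.1.1/2) * (y.2.2 + y.1.2/2 + I * (y.2.1 + y.1.1/2))).im

/-- a state from which the true solution runs without eclipse into a collision of bodies `0`, `2` -/
def Coll (ε : ℝ) (y : P4) : Prop :=
  ∃ (ω : ℝ) (X : ℝ → P4), 0 < ω ∧ X 0 = y ∧
    (∀ t ∈ Ico 0 ω, HasDerivWithinAt X (fe 0 ε (X t)) (Ici t) t) ∧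
    (∀ t ∈ Ioo 0 ω, HasDerivAt X (fe 0 ε (X t)) t) ∧
    (∀ t ∈ Ico 0 ω, (X t).1.1 ≠ 0 ∧ (X t).2.1 + (X t).1.1/2 ≠ 0 ∧ (X t).2.1 - (X t).1.1/2 ≠ 0 ∧
      0 < ((X t).2.1 * (starRingEnd ℂ) (X t).1.1).im) ∧
    (∀ κ > 0, ∀ t0 < ω, ∃ t ∈ Ioo t0 ω, 0 ≤ t ∧ ‖(X t).2.1 + (X t).1.1/2‖ < κ)

def StmtH : Prop :=
  ∃ ε1 > 0, ∀ ε : ℝ, 0 < ε → ε < ε1 → ∃ C : Set P4, IsClosed C ∧
    (∀ y ∈ C, FinE y → Coll ε y) ∧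
    ∀ (a b : ℝ) (y : ℝ → P4), a < b → ContinuousOn y (Icc a b) →
      (∀ p ∈ Icc a b, FinE (y p)) → Cross (fun p => ellE (y p)) a b (-(ell0/2)) (ell0/2) →
      ∃ p ∈ Icc a b, y p ∈ C

/-! ## Piece J: gluing in the full problem -/

/-- the shape `Z / R` at an eclipse: label of the middle body -/
def mid (c : Fin 3) (X : P4) : Prop :=
  (c = 0 ∧ (X.2.1 / X.1.1).re < -1/2) ∨ (c = 1 ∧ 1/2 < (X.2.1 / X.1.1).re) ∨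
    (c = 2 ∧ -1/2 < (X.2.1 / X.1.1).re ∧ (X.2.1 / X.1.1).re < 1/2)

/-- a solution of the full problem in the rotating frame on `(-∞, ω)`, ending in a collision of
body `2` with body `0` or `1`, with word `w` -/
def Path (w : List (Fin 3)) (ε ω : ℝ) (X : ℝ → P4) : Prop :=
  (∀ t < ω, HasDerivAt X (fe 0 ε (X t)) t) ∧
  (∀ t < ω, (X t).1.1 ≠ 0 ∧ (X t).2.1 + (X t).1.1/2 ≠ 0 ∧ (X t).2.1 - (X t).1.1/2 ≠ 0) ∧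
  (∃ σ : ℂ, (σ = 1 ∨ σ = -1) ∧
    ∀ κ > 0, ∀ t0 < ω, ∃ t ∈ Ioo t0 ω, ‖(X t).2.1 + σ * (X t).1.1/2‖ < κ) ∧
  ∃ τ : Fin w.length → ℝ, StrictMono τ ∧ (∀ i, τ i < ω) ∧
    (∀ t < ω, ((X t).2.1 * (starRingEnd ℂ) (X t).1.1).im = 0 → ∃ i, τ i = t) ∧
    ∀ i, ((X (τ i)).2.1 * (starRingEnd ℂ) (X (τ i)).1.1).im = 0 ∧ mid (w.get i) (X (τ i))

def StmtJ : Prop := ∀ w : List (Fin 3), ∃ (ε ω : ℝ) (X : ℝ → P4), 0 < ε ∧ Path w ε ω X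

end Run7.h874
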