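import Pool.Agent.Run7.h874.Chain

/-!
# Chains of certified steps
-/

set_option autoImplicit false

namespace Run7.h874

open Complex Set

theorem ev_one (l : List ℤ) : ev l 1 = (sumI l : ℝ) := by
  induction l with
  | nil => simp [ev, sumI]
  | cons a l ih => simp [ev, sumI, ih]

theorem ev_zero (l : List ℤ) : ev l 0 = (hd0 l : ℝ) := by
  cases l <;> simp [ev, hd0]

theorem SD.two_h (d : SD) : 2 ^ d.m * d.h = 1 := by
  unfold SD.h; exact mul_inv_cancel₀ (by positivity)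

theorem zt_link {P m m' : ℕ} {x y x' y' : List ℤ} {h : ℝ} (hh : 2 ^ m * h = 1)
    (h1 : sumI x = hd0 x') (h2 : sumI y = hd0 y') : zt P m x y h = zt P m' x' y' 0 := by
  unfold zt
  rw [hh, mul_zero, ev_one, ev_one, ev_zero, ev_zero, h1, h2]

theorem vt_link {P m m' : ℕ} {x y x' y' : List ℤ} {h : ℝ} (hh : 2 ^ m * h = 1)
    (h1 : 2 ^ m * sumI (derL x) = 2 ^ m' * hd0 (derL x'))
    (h2 : 2 ^ m * sumI (derL y) = 2 ^ m' * hd0 (derL y')) :
    vt P m x y h = vt P m' x' y' 0 := by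
  have e1 : (2:ℝ) ^ m * (sumI (derL x) : ℝ) = 2 ^ m' * (hd0 (derL x') : ℝ) := by exact_mod_cast h1
  have e2 : (2:ℝ) ^ m * (sumI (derL y) : ℝ) = 2 ^ m' * (hd0 (derL y') : ℝ) := by exact_mod_cast h2
  unfold vt
  rw [hh, mul_zero, ev_one, ev_one, ev_zero, ev_zero, e1, e2]

theorem link_sound (hH : Hyp) {p : Prm} {d d' : SD} (h : link p d d' = true)
    (hw : d.kind = 1 → 1/2 ≤ d.W) {q : ℝ} {a b : ℂ}
    (hN : Nb d.kind d.W (d.Eout p) (a - d.z p q d.h) (b - d.v p q d.h)) :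
    Nb d'.kind d'.W (d'.Ein p) (a - d'.z p q 0) (b - d'.v p q 0) := by
  unfold link at h
  simp only [Bool.and_eq_true, decide_eq_true_eq, Nat.ble_eq] at h
  obtain ⟨⟨⟨⟨⟨⟨⟨a1, a2⟩, ⟨b1, b2⟩⟩, ⟨c1, c2⟩⟩, ⟨d1, d2⟩⟩, f1⟩, f2⟩, hk⟩ := h
  have hh := d.two_h
  have ez : d.z p q d.h = d'.z p q 0 := by
    unfold SD.z
    rw [zt_link (m' := d'.m) hh a1 b1, zt_link (m' := d'.m) hh c1 d1]
  have ev' : d.v p q d.h = d'.v p q 0 := by
    unfold SD.v
    rw [vt_link (m' := d'.m) hh a2 b2, vt_link (m' := d'.m) hh c2 d2]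
  rw [ez, ev'] at hN
  set ζ := a - d'.z p q 0
  set v := b - d'.v p q 0
  have hE0 : (0:ℝ) < 2 ^ p.E := by positivity
  have hle : ∀ {m n : ℕ}, m ≤ n → (m:ℝ) / 2 ^ p.E ≤ (n:ℝ) / 2 ^ p.E := by
    intro m n hmn
    exact div_le_div_of_nonneg_right (by exact_mod_cast hmn) hE0.le
  have hEo0 : 0 ≤ d.Eout p := by unfold SD.Eout; positivity
  generalize hkd : d.kind = k at hk hN hw
  generalize hkd' : d'.kind = k' at hk ⊢
  unfold Nb at hN ⊢
  split at hk
  · -- 0, 0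
    simp only [Nat.ble_eq] at hk
    have := hle hk
    simp only [if_false, zero_ne_one] at hN ⊢
    exact ⟨hN.1.trans this, hN.2.trans this⟩
  · -- 0, 1
    simp only [Bool.and_eq_true, Nat.ble_eq] at hk
    obtain ⟨k1, k2⟩ := hk
    simp only [zero_ne_one, if_false, if_true] at hN ⊢
    have hC := hH.C2 ζ v
    have n1 := hC.2.2.2.2.1
    have n2 := hC.2.2.2.2.2.2
    have m1 : ‖ζ‖ ≤ 2.014 * d.Eout p := by linarith [hN.1, hN.2]
    have m2 : ‖v + I * ζ‖ ≤ 1.676 * d.Eout p := by linarith [hN.1, hN.2]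
    constructor
    · have h1 : ((2014 * d'.w * d.eout : ℕ) : ℝ) ≤ ((1000 * 2 ^ 20 * d'.ein : ℕ) : ℝ) := by
        exact_mod_cast k1
      push_cast at h1
      have hW : 0 ≤ d'.W := by unfold SD.W; positivity
      refine (mul_le_mul_of_nonneg_left m1 hW).trans ?_
      unfold SD.W SD.Eout SD.Ein
      have e1 : (d'.w:ℝ) / 2 ^ 20 * (2.014 * ((d.eout:ℝ) / 2 ^ p.E))
          = (2014 * d'.w * d.eout) / (1000 * 2 ^ 20 * 2 ^ p.E) := by
        field_simp; norm_num; ring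
      have e2 : (d'.ein:ℝ) / 2 ^ p.E = (1000 * 2 ^ 20 * d'.ein) / (1000 * 2 ^ 20 * 2 ^ p.E) := by
        field_simp
      rw [e1, e2]
      exact div_le_div_of_nonneg_right (by exact_mod_cast h1) (by positivity)
    · have h1 : ((1676 * d.eout : ℕ) : ℝ) ≤ ((1000 * d'.ein : ℕ) : ℝ) := by exact_mod_cast k2
      push_cast at h1
      refine m2.trans ?_
      unfold SD.Eout SD.Ein
      rw [← mul_div_assoc]
      apply div_le_div_of_nonneg_right _ hE0.le
      linarith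
  · -- 1, 1
    simp only [Bool.and_eq_true, Nat.ble_eq] at hk
    obtain ⟨k1, k2⟩ := hk
    simp only [if_true] at hN ⊢
    have hW := hw rfl
    refine ⟨?_, hN.2.trans (hle k1)⟩
    have h1 : ((d.eout * d'.w : ℕ) : ℝ) ≤ ((d'.ein * d.w : ℕ) : ℝ) := by exact_mod_cast k2
    push_cast at h1
    have hW' : 0 ≤ d'.W := by unfold SD.W; positivity
    have hWp : 0 < d.W := by linarith
    have h2 : ‖ζ‖ ≤ d.Eout p / d.W := by rw [le_div_iff₀ hWp, mul_comm]; exact hN.1
    refine (mul_le_mul_of_nonneg_left h2 hW').trans ?_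
    rw [mul_div_assoc', div_le_iff₀ hWp]
    unfold SD.W SD.Eout SD.Ein
    have e1 : (d'.w:ℝ) / 2 ^ 20 * ((d.eout:ℝ) / 2 ^ p.E) = (d.eout * d'.w) / (2 ^ 20 * 2 ^ p.E) := by
      field_simp
    have e2 : (d'.ein:ℝ) / 2 ^ p.E * ((d.w:ℝ) / 2 ^ 20) = (d'.ein * d.w) / (2 ^ 20 * 2 ^ p.E) := by
      field_simp
    rw [e1, e2]
    exact div_le_div_of_nonneg_right (by exact_mod_cast h1) (by positivity)
  · -- 1, 2
    simp only [Nat.ble_eq] at hk
    have hW := hw rfl
    simp only [if_true] at hN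
    have e12 : ¬ ((2:ℕ) = 1) := by norm_num
    simp only [e12, if_false]
    have hWp : 0 < d.W := by linarith
    have h2 : ‖ζ‖ ≤ d.Eout p / d.W := by rw [le_div_iff₀ hWp, mul_comm]; exact hN.1
    have hC := hH.C2 ζ v
    have n1 := hC.2.2.1
    have n2 := hC.2.2.2.1
    have h1 : (((1061 * 2 ^ 20 + 1276 * d.w) * d.eout : ℕ) : ℝ) ≤ ((1000 * d.w * d'.ein : ℕ) : ℝ) := by
      exact_mod_cast hk
    push_cast at h1
    have hwp : (0:ℝ) < d.w := by
      unfold SD.W at hWp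
      have : (0:ℝ) < 2 ^ 20 := by positivity
      by_contra hcon
      push Not at hcon
      have : (d.w:ℝ) / 2 ^ 20 ≤ 0 := div_nonpos_of_nonpos_of_nonneg hcon this.le
      linarith
    have key : 1.061 * (d.Eout p / d.W) + 1.276 * d.Eout p ≤ d'.Ein p := by
      unfold SD.W SD.Eout SD.Ein
      have e1 : 1.061 * ((d.eout:ℝ) / 2 ^ p.E / ((d.w:ℝ) / 2 ^ 20)) + 1.276 * ((d.eout:ℝ) / 2 ^ p.E)
          = ((1061 * 2 ^ 20 + 1276 * d.w) * d.eout) / (1000 * d.w * 2 ^ p.E) := by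
        field_simp; ring
      have e2 : (d'.ein:ℝ) / 2 ^ p.E = (1000 * d.w * d'.ein) / (1000 * d.w * 2 ^ p.E) := by
        field_simp
      rw [e1, e2]
      exact div_le_div_of_nonneg_right (by exact_mod_cast h1) (by positivity)
    have e0 : 0 ≤ d.Eout p / d.W := by positivity
    constructor
    · linarith [hN.2]
    · have := norm_nonneg ζ
      have := norm_nonneg (v + I * ζ)
      nlinarith [hN.2]
  · -- 2, 2
    simp only [Nat.ble_eq] at hk
    have := hle hk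
    have e12 : ¬ ((2:ℕ) = 1) := by norm_num
    simp only [e12, if_false] at hN ⊢
    exact ⟨hN.1.trans this, hN.2.trans this⟩
  · exact absurd hk (by simp)

theorem one_w {p : Prm} {d : SD} (ho : one p d = true) : d.kind = 1 → 1/2 ≤ d.W := by
  intro hk
  unfold one at ho
  rw [hk] at ho
  simp only [Bool.and_eq_true, Nat.ble_eq] at ho
  have w1 := ho.2.1.1.1
  unfold SD.W
  rw [le_div_iff₀ (by positivity)]
  have : ((2 ^ 19 : ℕ) : ℝ) ≤ d.w := by exact_mod_cast w1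
  norm_num at this ⊢
  linarith

/-- total time -/
noncomputable def tot : List SD → ℝ
  | [] => 0
  | d :: l => d.h + tot l

theorem tot_nonneg : ∀ l : List SD, 0 ≤ tot l
  | [] => le_refl _
  | d :: l => add_nonneg d.h_pos.le (tot_nonneg l)

theorem tot_append (l m : List SD) : tot (l ++ m) = tot l + tot m := by
  induction l with
  | nil => simp [tot]
  | cons a l ih => simp [tot, ih, add_assoc]

/-- flags along a chain -/
def FlagL (c : ℕ) (φ : ℝ → P2 → P2) : List SD → P2 → Prop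
  | [], _ => True
  | d :: l, y => (∀ s ∈ Icc 0 d.h, flagP c d.fl (φ s y)) ∧ FlagL c φ l (φ d.h y)

theorem FlagL_append {c : ℕ} {φ : ℝ → P2 → P2} (hφ : IsFlow (f0 rho0) φ) :
    ∀ (l m : List SD) (y : P2), FlagL c φ (l ++ m) y → FlagL c φ l y ∧ FlagL c φ m (φ (tot l) y)
  | [], m, y, h => ⟨trivial, by simpa [tot, hφ.zero] using h⟩
  | d :: l, m, y, h => by
    obtain ⟨h1, h2⟩ := h
    obtain ⟨h3, h4⟩ := FlagL_append hφ l m _ h2
    refine ⟨⟨h1, h3⟩, ?_⟩
    simp only [tot]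
    rw [hφ.add]
    exact h4

theorem FlagL_unif {c : ℕ} {φ : ℝ → P2 → P2} (hφ : IsFlow (f0 rho0) φ) (k : ℕ) :
    ∀ (l : List SD) (y : P2), l ≠ [] → (∀ d ∈ l, d.fl = k) → FlagL c φ l y →
      ∀ t ∈ Icc 0 (tot l), flagP c k (φ t y)
  | [], _, h, _, _ => absurd rfl h
  | d :: l, y, _, hk, h => by
    obtain ⟨h1, h2⟩ := h
    intro t ht
    simp only [tot] at ht
    rcases le_or_gt t d.h with hle | hgt
    · have := h1 t ⟨ht.1, hle⟩
      rwa [hk d (by simp)] at this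
    · have hne : l ≠ [] := by
        rintro rfl
        simp only [tot, add_zero] at ht
        linarith [ht.2]
      have h3 := FlagL_unif hφ k l (φ d.h y) hne (fun e he => hk e (by simp [he])) h2 (t - d.h)
        ⟨by linarith, by linarith [ht.2]⟩
      rw [← hφ.add] at h3
      rwa [add_sub_cancel] at h3

/-- main theorem on chains -/
theorem chain_sound (hH : Hyp) {p : Prm} (hs : p.sok) {φ : ℝ → P2 → P2}
    (hφ : IsFlow (f0 rho0) φ) {q : ℝ} (hq : q ∈ Icc (0:ℝ) 1) :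
    ∀ (l : List SD) (d : SD) (y : P2), chkL p (d :: l) = true →
      Nb d.kind d.W (d.Ein p) (y.1 - d.z p q 0) (y.2 - d.v p q 0) →
      FlagL p.c φ (d :: l) y ∧ ∃ e ∈ (d :: l).getLast?,
        Nb e.kind e.W (e.Eout p) ((φ (tot (d :: l)) y).1 - e.z p q e.h)
          ((φ (tot (d :: l)) y).2 - e.v p q e.h)
  | [], d, y, hc, hi => by
    have ho : one p d = true := hc
    have S := one_sound hH ho hs hφ hq hi
    refine ⟨⟨S.flag, trivial⟩, d, by simp, ?_⟩
    have := S.nb d.h ⟨d.h_pos.le, le_refl _⟩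
    simpa [tot] using this
  | d' :: l, d, y, hc, hi => by
    simp only [chkL, Bool.and_eq_true] at hc
    obtain ⟨⟨ho, hl⟩, hc'⟩ := hc
    have S := one_sound hH ho hs hφ hq hi
    have hN := S.nb d.h ⟨d.h_pos.le, le_refl _⟩
    have hN' := link_sound hH hl (one_w ho) hN
    obtain ⟨h1, e, he, h2⟩ := chain_sound hH hs hφ hq l d' (φ d.h y) hc' hN'
    refine ⟨⟨S.flag, h1⟩, e, ?_, ?_⟩
    · rw [List.getLast?_cons_cons]; exact he
    · rw [← hφ.add] at h2
      exact h2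

theorem chkL_append (p : Prm) : ∀ (l1 : List SD) (a : SD) (l2 : List SD),
    chkL p (l1 ++ [a]) = true → chkL p (a :: l2) = true → chkL p (l1 ++ a :: l2) = true
  | [], _, _, _, h2 => h2
  | [d], a, l2, h1, h2 => by
    have h1' : (one p d && link p d a && chkL p [a]) = true := h1
    simp only [Bool.and_eq_true] at h1'
    show (one p d && link p d a && chkL p (a :: l2)) = true
    simp only [Bool.and_eq_true]
    exact ⟨h1'.1, h2⟩
  | d :: d' :: l1, a, l2, h1, h2 => by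
    have h1' : (one p d && link p d d' && chkL p (d' :: (l1 ++ [a]))) = true := h1
    simp only [Bool.and_eq_true] at h1'
    show (one p d && link p d d' && chkL p (d' :: (l1 ++ a :: l2))) = true
    simp only [Bool.and_eq_true]
    exact ⟨h1'.1, chkL_append p (d' :: l1) a l2 h1'.2 h2⟩

theorem seg_of {φ : ℝ → P2 → P2} (hφ : IsFlow (f0 rho0) φ) {c : ℕ} {cf : Fin 3} (hc : c = cf.val)
    {l0 l1 l2 : List SD} (n0 : l0 ≠ []) (n1 : l1 ≠ []) (n2 : l2 ≠ [])
    (k0 : ∀ d ∈ l0, d.fl = 0) (k1 : ∀ d ∈ l1, d.fl = 1) (k2 : ∀ d ∈ l2, d.fl = 2) {y : P2}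
    (h : FlagL c φ (l0 ++ (l1 ++ l2)) y) :
    Seg φ cf (1/10^5) y (tot (l0 ++ (l1 ++ l2))) := by
  obtain ⟨h0, h12⟩ := FlagL_append hφ _ _ _ h
  obtain ⟨h1, h2⟩ := FlagL_append hφ _ _ _ h12
  rw [← hφ.add] at h2
  have f0 := FlagL_unif hφ 0 l0 y n0 k0 h0
  have f1 := FlagL_unif hφ 1 l1 _ n1 k1 h1
  have f2 := FlagL_unif hφ 2 l2 _ n2 k2 h2
  have t0 := tot_nonneg l0
  have t1 := tot_nonneg l1
  have t2 := tot_nonneg l2
  rw [tot_append, tot_append]
  have g0 : ∀ t ∈ Icc 0 (tot l0), flagP c 0 (φ t y) := f0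
  have g1 : ∀ t ∈ Icc (tot l0) (tot l0 + tot l1), flagP c 1 (φ t y) := by
    intro t ht
    have := f1 (t - tot l0) ⟨by linarith [ht.1], by linarith [ht.2]⟩
    rwa [← hφ.add, add_sub_cancel] at this
  have g2 : ∀ t ∈ Icc (tot l0 + tot l1) (tot l0 + (tot l1 + tot l2)), flagP c 2 (φ t y) := by
    intro t ht
    have := f2 (t - (tot l0 + tot l1)) ⟨by linarith [ht.1], by linarith [ht.2]⟩
    rwa [← hφ.add, add_sub_cancel] at this
  refine ⟨tot l0, tot l0 + tot l1, t0, by linarith, by linarith, ?_, ?_, ?_, ?_⟩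
  · intro t ht
    rcases le_or_gt t (tot l0) with h3 | h3
    · exact (g0 t ⟨ht.1, h3⟩).1
    · rcases le_or_gt t (tot l0 + tot l1) with h4 | h4
      · exact (g1 t ⟨h3.le, h4⟩).1
      · exact (g2 t ⟨h4.le, ht.2⟩).1
  · intro t ht
    have := (g0 t ht).2
    simpa using this
  · intro t ht
    have := (g1 t ht).2
    simp only [if_true, one_ne_zero, if_false] at this
    refine ⟨this.1, ?_⟩
    have h3 := this.2
    unfold reg
    subst hc
    fin_cases cf
    · left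
      simp at h3 ⊢
      exact h3
    · right; left
      simp at h3 ⊢
      exact h3
    · right; right
      simp at h3 ⊢
      exact h3
  · intro t ht
    have := (g2 t ht).2
    simpa using this

theorem silent_of {φ : ℝ → P2 → P2} (hφ : IsFlow (f0 rho0) φ) {c : ℕ}
    {l0 : List SD} (n0 : l0 ≠ []) (k0 : ∀ d ∈ l0, d.fl = 0) {y : P2}
    (h : FlagL c φ l0 y) : Silent φ (1/10^5) y (tot l0) := by
  have f0 := FlagL_unif hφ 0 l0 y n0 k0 h
  refine ⟨tot_nonneg _, ?_⟩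
  intro t ht
  have := f0 t ht
  exact ⟨this.1, by simpa using this.2⟩

end Run7.h874
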