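import Pool.Agent.Run7.h874.Cst
import Pool.Agent.Run7.h874.Lnk

/-!
# Initial and final conditions of a certified chain
-/

set_option autoImplicit false

namespace Run7.h874

open Complex Set

/-- rational approximation of `uc (⟨X, Y⟩ - hubZ) ⟨p, q⟩` -/
noncomputable def ucA (X Y p q : ℝ) : ℂ :=
  ⟨aK1 * X + aK2 * Y + aK0 + aK3 * p + aK4 * q, -(aB1 * X + p / 2 + aB4 * q)⟩
noncomputable def scA (X Y p q : ℝ) : ℂ :=
  ⟨-(aC1 * X) - 11/8 * Y + aC0 + p - aC4 * q, -(aC2 * X) + aC3 * Y - aD0 - aC5 * q⟩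

theorem mul_err {k a x : ℝ} {e : ℝ} (h : |k - a| ≤ e) : |(k - a) * x| ≤ e * |x| := by
  rw [abs_mul]; exact mul_le_mul_of_nonneg_right h (abs_nonneg _)

theorem tau_pos : 0 < tau := by unfold tau; positivity

theorem uc_approx {X Y p q M : ℝ} (hM : |X| + |Y| + |p| + |q| + 1 ≤ M) :
    ‖uc ((⟨X, Y⟩ : ℂ) - hubZ) ⟨p, q⟩ - ucA X Y p q‖ ≤ 2000 * M * tau := by
  have ht := tau_pos
  rw [uc_num]
  have e : (⟨K1 * X + K2 * Y + K0 + K3 * p + K4 * q, -(B1 * X + p / 2 + B4 * q)⟩ : ℂ) - ucA X Y p q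
      = ⟨(K1 - aK1) * X + (K2 - aK2) * Y + (K0 - aK0) * 1 + (K3 - aK3) * p + (K4 - aK4) * q,
        -((B1 - aB1) * X + (B4 - aB4) * q)⟩ := by
    unfold ucA
    apply Complex.ext <;> simp <;> ring
  rw [e]
  refine (norm_mk_le _ _).trans ?_
  rw [abs_neg]
  have h1 := mul_err (x := X) e_K1
  have h2 := mul_err (x := Y) e_K2
  have h3 := mul_err (x := 1) e_K0
  have h4 := mul_err (x := p) e_K3
  have h5 := mul_err (x := q) e_K4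
  have h6 := mul_err (x := X) e_B1
  have h7 := mul_err (x := q) e_B4
  have a1 := abs_add_le ((K1 - aK1) * X + (K2 - aK2) * Y + (K0 - aK0) * 1 + (K3 - aK3) * p) ((K4 - aK4) * q)
  have a2 := abs_add_le ((K1 - aK1) * X + (K2 - aK2) * Y + (K0 - aK0) * 1) ((K3 - aK3) * p)
  have a3 := abs_add_le ((K1 - aK1) * X + (K2 - aK2) * Y) ((K0 - aK0) * 1)
  have a4 := abs_add_le ((K1 - aK1) * X) ((K2 - aK2) * Y)
  have a5 := abs_add_le ((B1 - aB1) * X) ((B4 - aB4) * q)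
  rw [abs_one] at h3
  have k1 : 1000 * tau * (|X| + |Y| + |p| + |q| + 1) ≤ 1000 * tau * M :=
    mul_le_mul_of_nonneg_left hM (by positivity)
  have n1 : 0 ≤ 1000 * tau * |Y| := by positivity
  have n2 : 0 ≤ 1000 * tau * |p| := by positivity
  linarith

theorem sc_approx {X Y p q M : ℝ} (hM : |X| + |Y| + |p| + |q| + 1 ≤ M) :
    ‖sc ((⟨X, Y⟩ : ℂ) - hubZ) ⟨p, q⟩ - scA X Y p q‖ ≤ 2000 * M * tau := by
  have ht := tau_pos
  rw [sc_num]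
  have e : (⟨-(C1 * X) - 11/8 * Y + C0 + p - C4 * q, -(C2 * X) + C3 * Y - D0 - C5 * q⟩ : ℂ)
        - scA X Y p q
      = ⟨-((C1 - aC1) * X) + (C0 - aC0) * 1 - (C4 - aC4) * q,
        -((C2 - aC2) * X) + (C3 - aC3) * Y - (D0 - aD0) * 1 - (C5 - aC5) * q⟩ := by
    unfold scA
    apply Complex.ext <;> simp <;> ring
  rw [e]
  refine (norm_mk_le _ _).trans ?_
  have h1 := mul_err (x := X) e_C1
  have h2 := mul_err (x := 1) e_C0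
  have h3 := mul_err (x := q) e_C4
  have h4 := mul_err (x := X) e_C2
  have h5 := mul_err (x := Y) e_C3
  have h6 := mul_err (x := 1) e_D0
  have h7 := mul_err (x := q) e_C5
  have a1 := abs_sub (-((C1 - aC1) * X) + (C0 - aC0) * 1) ((C4 - aC4) * q)
  have a2 := abs_add_le (-((C1 - aC1) * X)) ((C0 - aC0) * 1)
  have a3 := abs_sub (-((C2 - aC2) * X) + (C3 - aC3) * Y - (D0 - aD0) * 1) ((C5 - aC5) * q)
  have a4 := abs_sub (-((C2 - aC2) * X) + (C3 - aC3) * Y) ((D0 - aD0) * 1)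
  have a5 := abs_add_le (-((C2 - aC2) * X)) ((C3 - aC3) * Y)
  rw [abs_neg] at a2 a5
  rw [abs_one] at h2 h6
  have k1 : 1000 * tau * (|X| + |Y| + |p| + |q| + 1) ≤ 1000 * tau * M :=
    mul_le_mul_of_nonneg_left hM (by positivity)
  have n1 : 0 ≤ 1000 * tau * |Y| := by positivity
  have n2 : 0 ≤ 1000 * tau * |p| := by positivity
  linarith

theorem uc_interp (zn zp vn vp h : ℂ) (q : ℝ) :
    uc (zn + (q:ℂ) * (zp - zn) - h) (vn + (q:ℂ) * (vp - vn))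
      = ((1 - q : ℝ) : ℂ) * uc (zn - h) vn + (q:ℂ) * uc (zp - h) vp := by
  unfold uc
  simp only [sub_re, sub_im, add_re, add_im, mul_re, mul_im, ofReal_re, ofReal_im, zero_mul,
    sub_zero, add_zero]
  push_cast
  ring

theorem sc_interp (zn zp vn vp h : ℂ) (q : ℝ) :
    sc (zn + (q:ℂ) * (zp - zn) - h) (vn + (q:ℂ) * (vp - vn))
      = ((1 - q : ℝ) : ℂ) * sc (zn - h) vn + (q:ℂ) * sc (zp - h) vp := by
  unfold sc
  simp only [sub_re, sub_im, add_re, add_im, mul_re, mul_im, ofReal_re, ofReal_im, zero_mul,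
    sub_zero, add_zero]
  push_cast
  ring

theorem uc_sub (a b c d : ℂ) : uc (a - b) (c - d) = uc a c - uc b d := by
  unfold uc
  simp only [sub_re, sub_im]
  push_cast
  ring

theorem sc_sub (a b c d : ℂ) : sc (a - b) (c - d) = sc a c - sc b d := by
  unfold sc
  simp only [sub_re, sub_im]
  push_cast
  ring

theorem exp_lin {t Δ : ℝ} (ht : |t| ≤ Δ) (hΔ : Δ ≤ 1) :
    ‖exp ((t:ℂ) * I) - 1 - (t:ℂ) * I‖ ≤ Δ ^ 2 / 2 + Δ ^ 3 := by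
  have hn : ‖(t:ℂ) * I‖ = |t| := by simp
  have h1 := Complex.exp_bound (x := (t:ℂ) * I) (by rw [hn]; linarith) (n := 3) (by norm_num)
  rw [hn] at h1
  simp [Finset.sum_range_succ, Nat.factorial] at h1
  have e : exp ((t:ℂ) * I) - 1 - (t:ℂ) * I = (exp ((t:ℂ) * I) - (1 + (t:ℂ) * I + ((t:ℂ) * I) ^ 2 / 2))
      + ((t:ℂ) * I) ^ 2 / 2 := by ring
  rw [e]
  refine (norm_add_le _ _).trans ?_
  have h2 : ‖((t:ℂ) * I) ^ 2 / 2‖ = |t| ^ 2 / 2 := by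
    rw [norm_div, norm_pow, hn]; norm_num
  rw [h2]
  have h3 : |t| ^ 2 ≤ Δ ^ 2 := pow_le_pow_left₀ (abs_nonneg _) ht 2
  have h4 : |t| ^ 3 ≤ Δ ^ 3 := pow_le_pow_left₀ (abs_nonneg _) ht 3
  have h5 : 0 ≤ |t| ^ 3 := by positivity
  rw [sq_abs] at *
  norm_num at h1
  nlinarith

theorem init_sound {p : Prm} {d : SD} (hk : d.kind = 0) {r ϵ Δ θ τ τp τs : ℝ} {ê : ℂ}
    (hr : 0 < r) (hΔ : 0 < Δ) (hΔ1 : Δ ≤ 1)
    (he : ‖exp ((θ:ℂ) * I) - ê‖ ≤ τ)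
    (hUp : ‖uc (zt p.P d.m (p.u d.xp) (p.u d.yp) 0 - hubZ) (vt p.P d.m (p.u d.xp) (p.u d.yp) 0)
      - (r:ℂ) * (ê * (1 + (Δ:ℂ) * I))‖ ≤ τp)
    (hUn : ‖uc (zt p.P d.m (p.u d.xn) (p.u d.yn) 0 - hubZ) (vt p.P d.m (p.u d.xn) (p.u d.yn) 0)
      - (r:ℂ) * (ê * (1 - (Δ:ℂ) * I))‖ ≤ τp)
    (hSp : ‖sc (zt p.P d.m (p.u d.xp) (p.u d.yp) 0 - hubZ) (vt p.P d.m (p.u d.xp) (p.u d.yp) 0)‖ ≤ τs)
    (hSn : ‖sc (zt p.P d.m (p.u d.xn) (p.u d.yn) 0 - hubZ) (vt p.P d.m (p.u d.xn) (p.u d.yn) 0)‖ ≤ τs)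
    (h1 : r * (Δ ^ 2 / 2 + Δ ^ 3 + 2 * τ) + τp ≤ d.Ein p) (h2 : ϵ * r + τs ≤ d.Ein p)
    {x : P2} {ψ : ℝ} (hx : OutC r ϵ ψ x) (hψ : |ψ - θ| ≤ Δ) :
    ∃ q ∈ Icc (0:ℝ) 1, (ψ = θ + Δ → q = 1) ∧ (ψ = θ - Δ → q = 0) ∧
      Nb d.kind d.W (d.Ein p) (x.1 - d.z p q 0) (x.2 - d.v p q 0) := by
  obtain ⟨hU, hS⟩ := hx
  have hψ' := abs_le.mp hψ
  set q : ℝ := (ψ - θ + Δ) / (2 * Δ) with hq
  have hq0 : 0 ≤ q := div_nonneg (by linarith [hψ'.1]) (by linarith)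
  have hq1 : q ≤ 1 := by rw [hq, div_le_one (by linarith)]; linarith [hψ'.2]
  have hqt : (2 * q - 1) * Δ = ψ - θ := by rw [hq]; field_simp; ring
  refine ⟨q, ⟨hq0, hq1⟩, ?_, ?_, ?_⟩
  · intro h; rw [hq, h]; field_simp; ring
  · intro h; rw [hq, h]; field_simp; ring
  · unfold Nb
    rw [if_neg (by rw [hk]; norm_num)]
    have ez : ∀ w : ℂ, w - d.z p q 0 = (w - hubZ) - (d.z p q 0 - hubZ) := by intro w; ring
    rw [ez, uc_sub, sc_sub]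
    have e1 : uc (d.z p q 0 - hubZ) (d.v p q 0) = _ := uc_interp _ _ _ _ _ _
    have e2 : sc (d.z p q 0 - hubZ) (d.v p q 0) = _ := sc_interp _ _ _ _ _ _
    rw [e1, e2]
    change ‖U x - _‖ ≤ _ ∧ ‖Sg x - _‖ ≤ _
    set Up := uc (zt p.P d.m (p.u d.xp) (p.u d.yp) 0 - hubZ) (vt p.P d.m (p.u d.xp) (p.u d.yp) 0)
    set Un := uc (zt p.P d.m (p.u d.xn) (p.u d.yn) 0 - hubZ) (vt p.P d.m (p.u d.xn) (p.u d.yn) 0)
    constructor
    · rw [hU]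
      have hexp : exp ((ψ:ℂ) * I) = exp ((θ:ℂ) * I) * exp (((ψ - θ : ℝ) : ℂ) * I) := by
        rw [← Complex.exp_add]; congr 1; push_cast; ring
      have hqt' : (2 * (q:ℂ) - 1) * (Δ:ℂ) = (ψ:ℂ) - (θ:ℂ) := by exact_mod_cast congrArg (fun t : ℝ => (t:ℂ)) hqt
      have e3 : (r:ℂ) * exp ((ψ:ℂ) * I) - (((1 - q : ℝ) : ℂ) * Un + (q:ℂ) * Up)
          = (r:ℂ) * (exp ((θ:ℂ) * I) * (exp (((ψ - θ : ℝ) : ℂ) * I) - 1 - ((ψ - θ : ℝ) : ℂ) * I)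
              + (exp ((θ:ℂ) * I) - ê) * (1 + ((ψ - θ : ℝ) : ℂ) * I))
            - (((1 - q : ℝ) : ℂ) * (Un - (r:ℂ) * (ê * (1 - (Δ:ℂ) * I)))
              + (q:ℂ) * (Up - (r:ℂ) * (ê * (1 + (Δ:ℂ) * I)))) := by
        rw [hexp]
        push_cast
        linear_combination (-(r:ℂ) * ê * I) * hqt'
      rw [e3]
      refine (norm_sub_le _ _).trans ?_
      have n1 := convex_defect ⟨hq0, hq1⟩ hUn hUp
      rw [norm_mul, Complex.norm_real, Real.norm_eq_abs, abs_of_pos hr]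
      have n2 := norm_add_le (exp ((θ:ℂ) * I) * (exp (((ψ - θ : ℝ) : ℂ) * I) - 1 - ((ψ - θ : ℝ) : ℂ) * I))
        ((exp ((θ:ℂ) * I) - ê) * (1 + ((ψ - θ : ℝ) : ℂ) * I))
      rw [norm_mul, norm_mul, norm_exp_I, one_mul] at n2
      have n3 := exp_lin hψ hΔ1
      have n4 : ‖(1:ℂ) + ((ψ - θ : ℝ) : ℂ) * I‖ ≤ 2 := by
        refine (norm_add_le _ _).trans ?_
        rw [norm_one, norm_mul, norm_I, mul_one, Complex.norm_real, Real.norm_eq_abs]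
        linarith
      have n5 : ‖exp ((θ:ℂ) * I) - ê‖ * ‖(1:ℂ) + ((ψ - θ : ℝ) : ℂ) * I‖ ≤ τ * 2 :=
        mul_le_mul he n4 (norm_nonneg _) ((norm_nonneg _).trans he)
      have n6 := mul_le_mul_of_nonneg_left (n2.trans (add_le_add n3 n5)) hr.le
      linarith
    · refine (norm_sub_le _ _).trans ?_
      have n1 := convex_defect ⟨hq0, hq1⟩ hSn hSp
      linarith

/-- final state of a chain ending near the opposite hub -/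
theorem final_dev {p : Prm} {d : SD} {q : ℝ} (hq : q ∈ Icc (0:ℝ) 1) {y : P2}
    (hN : Nb 2 d.W (d.Eout p) (y.1 - d.z p q d.h) (y.2 - d.v p q d.h))
    {Up Un Sp Sn : ℂ} {τ : ℝ}
    (hUp : ‖uc (-zt p.P d.m (p.u d.xp) (p.u d.yp) d.h - hubZ) (-vt p.P d.m (p.u d.xp) (p.u d.yp) d.h)
      - Up‖ ≤ τ)
    (hUn : ‖uc (-zt p.P d.m (p.u d.xn) (p.u d.yn) d.h - hubZ) (-vt p.P d.m (p.u d.xn) (p.u d.yn) d.h)
      - Un‖ ≤ τ)
    (hSp : ‖sc (-zt p.P d.m (p.u d.xp) (p.u d.yp) d.h - hubZ) (-vt p.P d.m (p.u d.xp) (p.u d.yp) d.h)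
      - Sp‖ ≤ τ)
    (hSn : ‖sc (-zt p.P d.m (p.u d.xn) (p.u d.yn) d.h - hubZ) (-vt p.P d.m (p.u d.xn) (p.u d.yn) d.h)
      - Sn‖ ≤ τ) :
    ‖U (-y) - (((1 - q : ℝ) : ℂ) * Un + (q:ℂ) * Up)‖ ≤ d.Eout p + τ ∧
    ‖Sg (-y) - (((1 - q : ℝ) : ℂ) * Sn + (q:ℂ) * Sp)‖ ≤ d.Eout p + τ := by
  unfold Nb at hN
  rw [if_neg (by norm_num)] at hN
  have e1 : uc (-d.z p q d.h - hubZ) (-d.v p q d.h)
      = ((1 - q : ℝ) : ℂ) * uc (-zt p.P d.m (p.u d.xn) (p.u d.yn) d.h - hubZ)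
          (-vt p.P d.m (p.u d.xn) (p.u d.yn) d.h)
        + (q:ℂ) * uc (-zt p.P d.m (p.u d.xp) (p.u d.yp) d.h - hubZ)
          (-vt p.P d.m (p.u d.xp) (p.u d.yp) d.h) := by
    have e : -d.z p q d.h = -zt p.P d.m (p.u d.xn) (p.u d.yn) d.h
      + (q:ℂ) * (-zt p.P d.m (p.u d.xp) (p.u d.yp) d.h - -zt p.P d.m (p.u d.xn) (p.u d.yn) d.h) := by
      unfold SD.z; ring
    have e' : -d.v p q d.h = -vt p.P d.m (p.u d.xn) (p.u d.yn) d.h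
      + (q:ℂ) * (-vt p.P d.m (p.u d.xp) (p.u d.yp) d.h - -vt p.P d.m (p.u d.xn) (p.u d.yn) d.h) := by
      unfold SD.v; ring
    rw [e, e']
    exact uc_interp _ _ _ _ _ _
  have e2 : sc (-d.z p q d.h - hubZ) (-d.v p q d.h)
      = ((1 - q : ℝ) : ℂ) * sc (-zt p.P d.m (p.u d.xn) (p.u d.yn) d.h - hubZ)
          (-vt p.P d.m (p.u d.xn) (p.u d.yn) d.h)
        + (q:ℂ) * sc (-zt p.P d.m (p.u d.xp) (p.u d.yp) d.h - hubZ)
          (-vt p.P d.m (p.u d.xp) (p.u d.yp) d.h) := by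
    have e : -d.z p q d.h = -zt p.P d.m (p.u d.xn) (p.u d.yn) d.h
      + (q:ℂ) * (-zt p.P d.m (p.u d.xp) (p.u d.yp) d.h - -zt p.P d.m (p.u d.xn) (p.u d.yn) d.h) := by
      unfold SD.z; ring
    have e' : -d.v p q d.h = -vt p.P d.m (p.u d.xn) (p.u d.yn) d.h
      + (q:ℂ) * (-vt p.P d.m (p.u d.xp) (p.u d.yp) d.h - -vt p.P d.m (p.u d.xn) (p.u d.yn) d.h) := by
      unfold SD.v; ring
    rw [e, e']
    exact sc_interp _ _ _ _ _ _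
  have eU : U (-y) = uc (-d.z p q d.h - hubZ) (-d.v p q d.h) - uc (y.1 - d.z p q d.h) (y.2 - d.v p q d.h) := by
    rw [← uc_sub]
    unfold U
    congr 1 <;> simp <;> ring
  have eS : Sg (-y) = sc (-d.z p q d.h - hubZ) (-d.v p q d.h) - sc (y.1 - d.z p q d.h) (y.2 - d.v p q d.h) := by
    rw [← sc_sub]
    unfold Sg
    congr 1 <;> simp <;> ring
  rw [eU, eS, e1, e2]
  constructor
  · have n1 := convex_defect hq hUn hUp
    set A := uc (-zt p.P d.m (p.u d.xp) (p.u d.yp) d.h - hubZ) (-vt p.P d.m (p.u d.xp) (p.u d.yp) d.h)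
    set B := uc (-zt p.P d.m (p.u d.xn) (p.u d.yn) d.h - hubZ) (-vt p.P d.m (p.u d.xn) (p.u d.yn) d.h)
    set C := uc (y.1 - d.z p q d.h) (y.2 - d.v p q d.h)
    have e3 : ((1 - q : ℝ) : ℂ) * B + (q:ℂ) * A - C - (((1 - q : ℝ) : ℂ) * Un + (q:ℂ) * Up)
        = (((1 - q : ℝ) : ℂ) * (B - Un) + (q:ℂ) * (A - Up)) - C := by ring
    rw [e3]
    exact (norm_sub_le _ _).trans (by linarith [hN.1])
  · have n1 := convex_defect hq hSn hSp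
    set A := sc (-zt p.P d.m (p.u d.xp) (p.u d.yp) d.h - hubZ) (-vt p.P d.m (p.u d.xp) (p.u d.yp) d.h)
    set B := sc (-zt p.P d.m (p.u d.xn) (p.u d.yn) d.h - hubZ) (-vt p.P d.m (p.u d.xn) (p.u d.yn) d.h)
    set C := sc (y.1 - d.z p q d.h) (y.2 - d.v p q d.h)
    have e3 : ((1 - q : ℝ) : ℂ) * B + (q:ℂ) * A - C - (((1 - q : ℝ) : ℂ) * Sn + (q:ℂ) * Sp)
        = (((1 - q : ℝ) : ℂ) * (B - Sn) + (q:ℂ) * (A - Sp)) - C := by ring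
    rw [e3]
    exact (norm_sub_le _ _).trans (by linarith [hN.2])

theorem ups_bound {U' S' Ua Sa : ℂ} {e δ nU nS : ℝ} (hU : ‖U' - Ua‖ ≤ e) (hS : ‖S' - Sa‖ ≤ e)
    (hS0 : 0 < ‖S'‖) (hnU : ‖Ua‖ ≤ nU) (hnS : ‖Sa‖ ≤ nS) (hδ : 0 ≤ δ)
    (h : (δ + e) * (nS + e) + nU * e ≤ (Ua * (starRingEnd ℂ) Sa).re) :
    δ ≤ (U' * (starRingEnd ℂ) S').re / ‖S'‖ := by
  have he : 0 ≤ e := (norm_nonneg _).trans hU
  rw [le_div_iff₀ hS0]
  have e1 : U' * (starRingEnd ℂ) S' = (U' - Ua) * (starRingEnd ℂ) S' + Ua * (starRingEnd ℂ) (S' - Sa)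
      + Ua * (starRingEnd ℂ) Sa := by rw [map_sub]; ring
  rw [e1, add_re, add_re]
  have h1 := abs_le.mp (Complex.abs_re_le_norm ((U' - Ua) * (starRingEnd ℂ) S'))
  have h2 := abs_le.mp (Complex.abs_re_le_norm (Ua * (starRingEnd ℂ) (S' - Sa)))
  rw [norm_mul, RCLike.norm_conj] at h1 h2
  have h3 : ‖U' - Ua‖ * ‖S'‖ ≤ e * ‖S'‖ := mul_le_mul_of_nonneg_right hU (norm_nonneg _)
  have h4 : ‖Ua‖ * ‖S' - Sa‖ ≤ nU * e := mul_le_mul hnU hS (norm_nonneg _) ((norm_nonneg _).trans hnU)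
  have h5 : ‖S'‖ ≤ nS + e := by
    have : S' = Sa + (S' - Sa) := by ring
    rw [this]; exact (norm_add_le _ _).trans (by linarith)
  have h6 : (δ + e) * ‖S'‖ ≤ (δ + e) * (nS + e) := mul_le_mul_of_nonneg_left h5 (by linarith)
  nlinarith [h1.1, h2.1]

/-- polar form of a rational direction -/
theorem exp_arg_close {ê : ℂ} {τ : ℝ} (h : |‖ê‖ ^ 2 - 1| ≤ τ) :
    ‖exp ((arg ê : ℂ) * I) - ê‖ ≤ τ := by
  have h1 := Complex.norm_mul_exp_arg_mul_I ê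
  have e : exp ((arg ê : ℂ) * I) - ê = ((1 - ‖ê‖ : ℝ) : ℂ) * exp ((arg ê : ℂ) * I) := by
    push_cast
    linear_combination h1
  rw [e, norm_mul, norm_exp_I, mul_one, Complex.norm_real, Real.norm_eq_abs]
  refine le_trans ?_ h
  have e2 : ‖ê‖ ^ 2 - 1 = -((1 - ‖ê‖) * (1 + ‖ê‖)) := by ring
  rw [e2, abs_neg, abs_mul]
  have h3 : 1 ≤ |1 + ‖ê‖| := by rw [abs_of_nonneg (by positivity)]; linarith [norm_nonneg ê]
  nlinarith [abs_nonneg (1 - ‖ê‖)]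

end Run7.h874
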