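import Pool.Agent.Run7.h874.PieceC2

/-!
# Piece C4, C6, C7
-/

set_option autoImplicit false

namespace Run7.h874

open Complex Set

theorem uc_add' (a b c d : ℂ) : uc (a + b) (c + d) = uc a c + uc b d := by
  unfold uc
  simp only [add_re, add_im]
  push_cast
  ring

theorem sc_add' (a b c d : ℂ) : sc (a + b) (c + d) = sc a c + sc b d := by
  unfold sc
  simp only [add_re, add_im]
  push_cast
  ring

theorem uc_rsmul (t : ℝ) (a c : ℂ) : uc (t • a) (t • c) = t • uc a c := by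
  unfold uc
  simp only [Complex.real_smul, Complex.re_ofReal_mul, Complex.im_ofReal_mul]
  push_cast
  ring

theorem sc_rsmul (t : ℝ) (a c : ℂ) : sc (t • a) (t • c) = t • sc a c := by
  unfold sc
  simp only [Complex.real_smul, Complex.re_ofReal_mul, Complex.im_ofReal_mul]
  push_cast
  ring

/-- the coordinate map -/
noncomputable def hubL : (ℂ × ℂ) →ₗ[ℝ] (ℂ × ℂ) where
  toFun x := (uc x.1 x.2, sc x.1 x.2)
  map_add' x y := by
    apply Prod.ext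
    · exact uc_add' _ _ _ _
    · exact sc_add' _ _ _ _
  map_smul' t x := by
    apply Prod.ext
    · exact uc_rsmul _ _ _
    · exact sc_rsmul _ _ _

theorem hubL_inj : Function.Injective hubL := by
  rw [injective_iff_map_eq_zero]
  intro x hx
  have h1 : uc x.1 x.2 = 0 := congrArg Prod.fst hx
  have h2 : sc x.1 x.2 = 0 := congrArg Prod.snd hx
  have h := stmtC2 x.1 x.2
  have a := h.2.2.2.2.1
  have b := h.2.2.2.2.2.1
  rw [h1, h2, norm_zero, mul_zero, mul_zero, add_zero] at a b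
  have a' : x.1 = 0 := norm_le_zero_iff.mp a
  have b' : x.2 = 0 := norm_le_zero_iff.mp b
  exact Prod.ext a' b'

theorem stmtC4 : StmtC4 := by
  set e := LinearEquiv.ofInjectiveEndo hubL hubL_inj with he
  refine ⟨LinearMap.toContinuousLinearMap e.symm.toLinearMap, ?_⟩
  intro u s
  have h : hubL (e.symm (u, s)) = (u, s) := by
    have := e.apply_symm_apply (u, s)
    exact this
  exact ⟨congrArg Prod.fst h, congrArg Prod.snd h⟩

theorem gc_hub : gc 0 (hubZ + 1/2) + gc 0 (hubZ - 1/2) = 2 * hubZ := by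
  rw [gc0, gc0, norm_hub1, norm_hub2]
  simp
  ring

theorem far_hub {ζ : ℂ} (h : ‖ζ‖ ≤ 1/100) : rho0 ≤ ‖hubZ + ζ + 1/2‖ ∧ rho0 ≤ ‖hubZ + ζ - 1/2‖ := by
  have r0 : rho0 = 1/10000 := rfl
  have h1 : ‖hubZ + 1/2‖ ≤ ‖hubZ + ζ + 1/2‖ + ‖ζ‖ := by
    have e : hubZ + 1/2 = (hubZ + ζ + 1/2) - ζ := by ring
    calc ‖hubZ + 1/2‖ = ‖(hubZ + ζ + 1/2) - ζ‖ := by rw [← e]
      _ ≤ _ := norm_sub_le _ _
  have h2 : ‖hubZ - 1/2‖ ≤ ‖hubZ + ζ - 1/2‖ + ‖ζ‖ := by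
    have e : hubZ - 1/2 = (hubZ + ζ - 1/2) - ζ := by ring
    calc ‖hubZ - 1/2‖ = ‖(hubZ + ζ - 1/2) - ζ‖ := by rw [← e]
      _ ≤ _ := norm_sub_le _ _
  rw [norm_hub1] at h1
  rw [norm_hub2] at h2
  rw [r0]
  constructor <;> linarith

/-- the field near the hub -/
theorem f0_hub {ζ V : ℂ} (h : ‖ζ‖ ≤ 1/100) : ∃ n : ℂ, ‖n‖ ≤ 3.13 * ‖ζ‖ ^ 2 ∧
    (f0 rho0 (hubZ + ζ, V)).2 = -2 * I * V + (3/2) * ζ - (3/4) * (starRingEnd ℂ) ζ + n := by
  have hf := far_hub h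
  have hζ0 := norm_nonneg ζ
  have q1 := stmtB2' (hubZ + 1/2) ζ (by rw [norm_hub1]; linarith)
  have q2 := stmtB2' (hubZ - 1/2) ζ (by rw [norm_hub2]; linarith)
  rw [norm_hub1] at q1
  rw [norm_hub2] at q2
  refine ⟨-(1/2) * ((gc 0 (hubZ + 1/2 + ζ) - gc 0 (hubZ + 1/2) - dg (hubZ + 1/2) ζ)
    + (gc 0 (hubZ - 1/2 + ζ) - gc 0 (hubZ - 1/2) - dg (hubZ - 1/2) ζ)), ?_, ?_⟩
  · rw [norm_mul]
    have e : ‖(-(1/2) : ℂ)‖ = 1/2 := by rw [norm_neg]; norm_num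
    rw [e]
    have h3 : 3 / (1 - ‖ζ‖) ^ 4 ≤ 3.13 := by
      have h4 : (0.99 : ℝ) ^ 4 ≤ (1 - ‖ζ‖) ^ 4 := pow_le_pow_left₀ (by norm_num) (by linarith) 4
      rw [div_le_iff₀ (by positivity)]
      norm_num at h4 ⊢
      linarith
    have h5 : 3 / (1 - ‖ζ‖) ^ 4 * ‖ζ‖ ^ 2 ≤ 3.13 * ‖ζ‖ ^ 2 :=
      mul_le_mul_of_nonneg_right h3 (by positivity)
    have := (norm_add_le _ _).trans (add_le_add q1 q2)
    linarith
  · have e1 : hubZ + ζ + 1/2 = hubZ + 1/2 + ζ := by ring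
    have e2 : hubZ + ζ - 1/2 = hubZ - 1/2 + ζ := by ring
    have g1 : gc rho0 (hubZ + ζ + 1/2) = gc 0 (hubZ + 1/2 + ζ) := by
      rw [gc_eq (by norm_num [rho0]) hf.1, e1]
    have g2 : gc rho0 (hubZ + ζ - 1/2) = gc 0 (hubZ - 1/2 + ζ) := by
      rw [gc_eq (by norm_num [rho0]) hf.2, e2]
    simp only [f0]
    rw [g1, g2]
    linear_combination (-(1/2 : ℂ)) * gc_hub - (1/2 : ℂ) * dg_hub ζ

theorem stmtC6 : StmtC6 := by
  intro x hx
  set ζ := x.1 - hubZ with hζ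
  have hx1 : x.1 = hubZ + ζ := by rw [hζ]; ring
  constructor
  · obtain ⟨n, hn, he⟩ := f0_hub (V := x.2) hx
    have hx' : x = (hubZ + ζ, x.2) := by rw [← hx1]
    have he' : (f0 rho0 x).2 = -2 * I * x.2 + (3/2) * ζ - (3/4) * (starRingEnd ℂ) ζ + n := by
      conv_lhs => rw [hx']
      exact he
    refine ⟨n, hn, ?_, ?_⟩
    · have e1 : (f0 rho0 x).1 = x.2 := rfl
      rw [e1, he']
      exact stmtC1.1 ζ x.2 n
    · have e1 : (f0 rho0 x).1 = x.2 := rfl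
      rw [e1, he']
      exact stmtC1.2 ζ x.2 n
  · have hU : U x = uc ζ x.2 := rfl
    have hS : Sg x = sc ζ x.2 := rfl
    rw [hU, hS]
    have c3 := stmtC3 ζ x.2
    have e0 : (uc ζ x.2 * (starRingEnd ℂ) (sc ζ x.2)).im
        = -(‖x.2‖ ^ 2 / 2 - 3 / 8 * ζ.re ^ 2 - 9 / 8 * ζ.im ^ 2) := by rw [← c3]; ring
    rw [e0]
    have hζ0 := norm_nonneg ζ
    have b1 := stmtB4 (hubZ + 1/2) ζ norm_hub1 (by linarith)
    have b2 := stmtB4 (hubZ - 1/2) ζ norm_hub2 (by linarith)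
    have e1 : hubZ + 1/2 + ζ = x.1 + 1/2 := by rw [hx1]; ring
    have e2 : hubZ - 1/2 + ζ = x.1 - 1/2 := by rw [hx1]; ring
    rw [e1] at b1
    rw [e2] at b2
    have r1 : ((hubZ + 1/2) * (starRingEnd ℂ) ζ).re = ζ.re / 2 + Real.sqrt 3 / 2 * ζ.im := by
      simp [hubZ]; ring
    have r2 : ((hubZ - 1/2) * (starRingEnd ℂ) ζ).re = -ζ.re / 2 + Real.sqrt 3 / 2 * ζ.im := by
      simp [hubZ]; ring
    rw [r1] at b1
    rw [r2] at b2
    have nz : ‖ζ‖ ^ 2 = ζ.re ^ 2 + ζ.im ^ 2 := by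
      rw [← Complex.normSq_eq_norm_sq, Complex.normSq_apply]; ring
    have nx : ‖x.1‖ ^ 2 = 3/4 + Real.sqrt 3 * ζ.im + ‖ζ‖ ^ 2 := by
      rw [nz, ← Complex.normSq_eq_norm_sq, Complex.normSq_apply, hx1]
      simp [hubZ]
      linear_combination (1/4) * r3
    have h3 : ‖ζ‖ ^ 3 / (1 - ‖ζ‖) ^ 4 ≤ 1.05 * ‖ζ‖ ^ 3 := by
      have h4 : (0.99 : ℝ) ^ 4 ≤ (1 - ‖ζ‖) ^ 4 := pow_le_pow_left₀ (by norm_num) (by linarith) 4
      rw [div_le_iff₀ (by positivity)]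
      have h5 : 0 ≤ ‖ζ‖ ^ 3 := by positivity
      norm_num at h4 ⊢
      nlinarith
    unfold En
    rw [nx]
    have b1' := abs_le.mp (b1.trans h3)
    have b2' := abs_le.mp (b2.trans h3)
    have i1 : 1 / (2 * ‖x.1 + 1/2‖) = 1/2 * (1 / ‖x.1 + 1/2‖) := by
      rw [one_div, one_div, mul_inv]; ring
    have i2 : 1 / (2 * ‖x.1 - 1/2‖) = 1/2 * (1 / ‖x.1 - 1/2‖) := by
      rw [one_div, one_div, mul_inv]; ring
    rw [i1, i2]
    generalize 1 / ‖x.1 + 1/2‖ = P1 at *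
    generalize 1 / ‖x.1 - 1/2‖ = P2 at *
    rw [nz] at *
    have q3 : Real.sqrt 3 ^ 2 = 3 := by rw [pow_two]; exact r3
    rw [abs_le]
    have k1 : (ζ.re / 2 + Real.sqrt 3 / 2 * ζ.im) ^ 2 + (-ζ.re / 2 + Real.sqrt 3 / 2 * ζ.im) ^ 2
        = ζ.re ^ 2 / 2 + 3 / 2 * ζ.im ^ 2 := by
      linear_combination (ζ.im ^ 2 / 2) * q3
    constructor
    · linarith [b1'.2, b2'.2]
    · linarith [b1'.1, b2'.1]

theorem En_neg (x : P2) : En (-x) = En x := by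
  unfold En
  have e1 : ‖(-x).1 + 1/2‖ = ‖x.1 - 1/2‖ := by
    rw [← norm_neg]; congr 1; simp; ring
  have e2 : ‖(-x).1 - 1/2‖ = ‖x.1 + 1/2‖ := by
    rw [← norm_neg]; congr 1; simp; ring
  rw [e1, e2]
  simp only [Prod.fst_neg, Prod.snd_neg, norm_neg]
  ring

theorem f0_odd' (ϱ : ℝ) (x : P2) : f0 ϱ (-x) = -f0 ϱ x := by
  unfold f0
  have e1 : (-x).1 + 1/2 = -(x.1 - 1/2) := by simp; ring
  have e2 : (-x).1 - 1/2 = -(x.1 + 1/2) := by simp; ring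
  rw [e1, e2, gc_odd, gc_odd]
  apply Prod.ext
  · simp
  · simp; ring

theorem norm_sq_deriv {z : ℝ → ℂ} {z' : ℂ} {t : ℝ} (hz : HasDerivAt z z' t) :
    HasDerivAt (fun s => ‖z s‖ ^ 2) (2 * (z t * (starRingEnd ℂ) z').re) t := by
  have := hz.norm_sq
  have e : 2 * inner ℝ (z t) z' = 2 * (z t * (starRingEnd ℂ) z').re := by
    rw [Complex.inner]; simp; ring
  rw [← e]; exact this

theorem half_inv (a : ℝ) : 1 / (2 * a) = (1/2) * (1 / a) := by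
  rw [one_div, one_div, mul_inv]; ring

theorem En_deriv {φ : ℝ → P2 → P2} (hφ : IsFlow (f0 rho0) φ) (x : P2) {t : ℝ}
    (hf : far (φ t x)) : HasDerivAt (fun s => En (φ s x)) 0 t := by
  have h := hφ.deriv t x
  have h1 : HasDerivAt (fun s => (φ s x).1) ((φ t x).2) t := h.fst
  have h2 : HasDerivAt (fun s => (φ s x).2) ((f0 rho0 (φ t x)).2) t := h.snd
  have r0 : rho0 = 1/10000 := rfl
  obtain ⟨f1, f2, -, -⟩ := hf
  rw [r0] at f1 f2
  have n1 : (φ t x).1 + 1/2 ≠ 0 := ne_of_far (by norm_num : (0:ℝ) < 4 * (1/10000)) f1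
  have n2 : (φ t x).1 - 1/2 ≠ 0 := ne_of_far (by norm_num : (0:ℝ) < 4 * (1/10000)) f2
  have d1 := inv_norm_deriv (h1.add_const (1/2 : ℂ)) n1
  have d2 := inv_norm_deriv (h1.sub_const (1/2 : ℂ)) n2
  have d3 := norm_sq_deriv h2
  have d4 := norm_sq_deriv h1
  have e : (fun s => En (φ s x)) = fun s => ‖(φ s x).2‖ ^ 2 / 2 - ‖(φ s x).1‖ ^ 2 / 2
      - (1/2) * (1 / ‖(φ s x).1 + 1/2‖) - (1/2) * (1 / ‖(φ s x).1 - 1/2‖) + 11/8 := by
    funext s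
    unfold En
    rw [half_inv, half_inv]
  rw [e]
  have D := ((((d3.div_const 2).sub (d4.div_const 2)).sub (d1.const_mul (1/2))).sub
    (d2.const_mul (1/2))).add_const (11/8)
  refine D.congr_deriv ?_
  have g1 : gc rho0 ((φ t x).1 + 1/2) = gc 0 ((φ t x).1 + 1/2) :=
    gc_eq (by norm_num [rho0]) (by rw [r0]; linarith)
  have g2 : gc rho0 ((φ t x).1 - 1/2) = gc 0 ((φ t x).1 - 1/2) :=
    gc_eq (by norm_num [rho0]) (by rw [r0]; linarith)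
  simp only [f0]
  rw [g1, g2]
  generalize gc 0 ((φ t x).1 + 1/2) = G1
  generalize gc 0 ((φ t x).1 - 1/2) = G2
  generalize (φ t x).1 = Z
  generalize (φ t x).2 = V
  simp
  ring

theorem stmtC7 : StmtC7 := by
  refine ⟨f0_odd' rho0, En_neg, ?_⟩
  intro φ hφ x T hT hf
  have hd : ∀ t ∈ Icc 0 T, HasDerivAt (fun s => En (φ s x)) 0 t := fun t ht =>
    En_deriv hφ x (hf t ht)
  have := constant_of_has_deriv_right_zero (f := fun s => En (φ s x)) (a := 0) (b := T)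
    (fun t ht => (hd t ht).continuousAt.continuousWithinAt)
    (fun t ht => (hd t ⟨ht.1, ht.2.le⟩).hasDerivWithinAt) T ⟨hT, le_refl _⟩
  simpa [hφ.zero] using this

end Run7.h874
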