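import Pool.Agent.Run7.h874.Grn

/-!
# One Gronwall step (plain and near the hub)
-/

set_option autoImplicit false

namespace Run7.h874

open Complex Set

theorem norm_exp_I (t : ℝ) : ‖exp ((t:ℂ) * I)‖ = 1 := Complex.norm_exp_ofReal_mul_I t

theorem convex_defect {q : ℝ} (hq : q ∈ Icc (0:ℝ) 1) {a b : ℂ} {δ : ℝ} (ha : ‖a‖ ≤ δ)
    (hb : ‖b‖ ≤ δ) : ‖((1 - q : ℝ) : ℂ) * a + (q:ℂ) * b‖ ≤ δ := by
  refine (norm_add_le _ _).trans ?_
  rw [norm_mul, norm_mul, Complex.norm_real, Complex.norm_real, Real.norm_eq_abs,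
    Real.norm_eq_abs, abs_of_nonneg (by linarith [hq.2]), abs_of_nonneg hq.1]
  nlinarith [hq.1, hq.2]

/-- common data of a step -/
structure StepData (h δ g1 g2 B : ℝ) (Z V zp vp zn vn : ℝ → ℂ) (q : ℝ) : Prop where
  orb : Orb h Z V
  rp : Ref h δ g1 g2 zp vp
  rn : Ref h δ g1 g2 zn vn
  hq : q ∈ Icc (0:ℝ) 1
  hB : ∀ s ∈ Icc 0 h, ‖zp s - zn s‖ ≤ B
  hg1 : 0 < g1
  hg2 : 0 < g2
  hg1' : g1 ≤ 2000
  hg2' : g2 ≤ 2000
  hh : 0 ≤ h
  hδ : 0 ≤ δ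
  hB0 : 0 ≤ B

/-- deviation in position and velocity -/
noncomputable def dz (Z zp zn : ℝ → ℂ) (q : ℝ) (s : ℝ) : ℂ := Z s - (zn s + (q:ℂ) * (zp s - zn s))

theorem step_deriv (hB3 : StmtB3) {h δ g1 g2 B : ℝ} {Z V zp vp zn vn : ℝ → ℂ} {q : ℝ}
    (H : StepData h δ g1 g2 B Z V zp vp zn vn q) {s : ℝ} (hs : s ∈ Icc 0 h) :
    HasDerivAt (dz Z zp zn q) (dz V vp vn q s) s ∧
    ∃ a : ℂ, HasDerivAt (dz V vp vn q) a s ∧
      ∀ η : ℝ, ‖dz Z zp zn q s‖ ≤ η → (B + η) * g1 ≤ 1/4096 → (B + η) * g2 ≤ 1/4096 →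
        ∃ r : ℂ, ‖r‖ ≤ δ + 3/8 * (g1 ^ 4 + g2 ^ 4) * B ^ 2 ∧
        a = -2 * I * dz V vp vn q s + dz Z zp zn q s
          - (1/2:ℂ) * ((gc 0 (Z s + 1/2) - gc 0 (zn s + (q:ℂ) * (zp s - zn s) + 1/2))
            + (gc 0 (Z s - 1/2) - gc 0 (zn s + (q:ℂ) * (zp s - zn s) - 1/2))) + r ∧
        (∀ t ∈ Icc (0:ℝ) 1, 1 / g1 ≤ ‖(zn s + (q:ℂ) * (zp s - zn s) + 1/2)
          + (t:ℂ) * ((Z s + 1/2) - (zn s + (q:ℂ) * (zp s - zn s) + 1/2))‖) ∧
        (∀ t ∈ Icc (0:ℝ) 1, 1 / g2 ≤ ‖(zn s + (q:ℂ) * (zp s - zn s) - 1/2)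
          + (t:ℂ) * ((Z s - 1/2) - (zn s + (q:ℂ) * (zp s - zn s) - 1/2))‖) := by
  obtain ⟨hZ, hV⟩ := H.orb s hs
  obtain ⟨ap, hap, hap'⟩ := H.rp.hv s hs
  obtain ⟨an, han, han'⟩ := H.rn.hv s hs
  have hzp := H.rp.hz s hs
  have hzn := H.rn.hz s hs
  refine ⟨?_, (f0 rho0 (Z s, V s)).2 - (an + (q:ℂ) * (ap - an)), ?_, ?_⟩
  · exact hZ.sub (hzn.add ((hzp.sub hzn).const_mul (q:ℂ)))
  · exact hV.sub (han.add ((hap.sub han).const_mul (q:ℂ)))
  · intro η hη h1 h2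
    obtain ⟨r, hr, he, s1, s2⟩ := acc_diff (Z := Z s) (V := V s) (vp := vp s) (vn := vn s) hB3 H.hg1
      H.hg2 H.hq (H.hB s hs) hη h1 h2 H.hg1' H.hg2' (H.rp.h1 s hs) (H.rp.h2 s hs)
    refine ⟨r - (((1 - q : ℝ) : ℂ) * (an - acc0 (zn s) (vn s))
      + (q:ℂ) * (ap - acc0 (zp s) (vp s))), ?_, ?_, s1, s2⟩
    · refine (norm_sub_le _ _).trans ?_
      have := convex_defect H.hq han' hap'
      linarith
    · have he' : (f0 rho0 (Z s, V s)).2 = (((1 - q : ℝ) : ℂ) * acc0 (zn s) (vn s)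
          + (q:ℂ) * acc0 (zp s) (vp s)) + (-2 * I * (V s - (vn s + (q:ℂ) * (vp s - vn s)))
          + (Z s - (zn s + (q:ℂ) * (zp s - zn s)))
          - (1/2:ℂ) * ((gc 0 (Z s + 1/2) - gc 0 (zn s + (q:ℂ) * (zp s - zn s) + 1/2))
            + (gc 0 (Z s - 1/2) - gc 0 (zn s + (q:ℂ) * (zp s - zn s) - 1/2))) + r) := by
        rw [← he]; ring
      rw [he']
      unfold dz
      push_cast; ring

/-- plain step in the inertial norm -/
theorem plain_step (hB1 : StmtB1) (hB3 : StmtB3) {h δ g1 g2 B : ℝ} {Z V zp vp zn vn : ℝ → ℂ}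
    {q : ℝ} (H : StepData h δ g1 g2 B Z V zp vp zn vn q) {w L e0 eo δ' : ℝ} (hw : 1/2 ≤ w)
    (hLw : w ≤ L) (hL : g1 ^ 3 + g2 ^ 3 ≤ L * w)
    (hδ' : δ + 3/8 * (g1 ^ 4 + g2 ^ 4) * B ^ 2 < δ') (he0 : 0 ≤ e0)
    (heo : (e0 + δ' * h) * Real.exp (L * h) ≤ eo)
    (h1 : (B + 3 * eo) * g1 ≤ 1/4096) (h2 : (B + 3 * eo) * g2 ≤ 1/4096)
    (hi1 : w * ‖dz Z zp zn q 0‖ ≤ e0) (hi2 : ‖dz V vp vn q 0 + I * dz Z zp zn q 0‖ ≤ e0) :
    ∀ s ∈ Icc 0 h, w * ‖dz Z zp zn q s‖ ≤ eo ∧ ‖dz V vp vn q s + I * dz Z zp zn q s‖ ≤ eo := by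
  have hw0 : 0 < w := by linarith
  have hL0 : 0 ≤ L := by linarith
  have hδ0 : 0 ≤ δ + 3/8 * (g1 ^ 4 + g2 ^ 4) * B ^ 2 := by
    have := H.hδ
    positivity
  set f : ℝ → ℂ × ℂ := fun s => ((w:ℂ) * (exp ((s:ℂ) * I) * dz Z zp zn q s),
    exp ((s:ℂ) * I) * (dz V vp vn q s + I * dz Z zp zn q s)) with hf
  have hfn : ∀ s, ‖f s‖ = max (w * ‖dz Z zp zn q s‖) ‖dz V vp vn q s + I * dz Z zp zn q s‖ := by
    intro s
    rw [hf, Prod.norm_def]
    simp only [norm_mul, norm_exp_I, one_mul, Complex.norm_real, Real.norm_eq_abs,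
      abs_of_pos hw0]
  -- derivative
  have hex : ∀ s : ℝ, HasDerivAt (fun s : ℝ => exp ((s:ℂ) * I)) (exp ((s:ℂ) * I) * I) s := by
    intro s
    have h3 : HasDerivAt (fun s : ℝ => (s:ℂ) * I) I s := by
      simpa using (Complex.ofRealCLM.hasDerivAt (x := s)).mul_const I
    exact h3.cexp
  have hder : ∀ s ∈ Icc 0 h, ∃ F : ℂ × ℂ, HasDerivAt f F s ∧
      ((w * ‖dz Z zp zn q s‖ ≤ eo) → ‖F‖ ≤ L * ‖f s‖ + (δ + 3/8 * (g1 ^ 4 + g2 ^ 4) * B ^ 2)) := by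
    intro s hs
    obtain ⟨d1, a, d2, hr⟩ := step_deriv hB3 H hs
    have e1 := ((hex s).mul d1).const_mul (w:ℂ)
    have e2 := (hex s).mul (d2.add (d1.const_mul I))
    refine ⟨_, e1.prodMk e2, ?_⟩
    intro hle
    have hd : ‖dz Z zp zn q s‖ ≤ 3 * eo := by
      nlinarith [norm_nonneg (dz Z zp zn q s)]
    obtain ⟨r, hrn, ha, s1, s2⟩ := hr (3 * eo) hd h1 h2
    rw [Prod.norm_def]
    have hdn0 := norm_nonneg (dz Z zp zn q s)
    have hn1 : w * ‖dz Z zp zn q s‖ ≤ ‖f s‖ := by rw [hfn]; exact le_max_left _ _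
    have hn2 : ‖dz V vp vn q s + I * dz Z zp zn q s‖ ≤ ‖f s‖ := by rw [hfn]; exact le_max_right _ _
    have hf0 : 0 ≤ ‖f s‖ := norm_nonneg _
    apply max_le
    · have e3 : (w:ℂ) * (exp ((s:ℂ) * I) * I * dz Z zp zn q s + exp ((s:ℂ) * I) * dz V vp vn q s)
          = (w:ℂ) * (exp ((s:ℂ) * I) * (dz V vp vn q s + I * dz Z zp zn q s)) := by ring
      change ‖(w:ℂ) * (exp ((s:ℂ) * I) * I * dz Z zp zn q s + exp ((s:ℂ) * I) * dz V vp vn q s)‖ ≤ _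
      rw [e3, norm_mul, norm_mul, norm_exp_I, Complex.norm_real, Real.norm_eq_abs, abs_of_pos hw0,
        one_mul]
      nlinarith
    · change ‖exp ((s:ℂ) * I) * I * (dz V vp vn q s + I * dz Z zp zn q s)
          + exp ((s:ℂ) * I) * (a + I * dz V vp vn q s)‖ ≤ _
      have e3 : exp ((s:ℂ) * I) * I * (dz V vp vn q s + I * dz Z zp zn q s)
          + exp ((s:ℂ) * I) * (a + I * dz V vp vn q s)
          = exp ((s:ℂ) * I) * (r - (1/2:ℂ) * ((gc 0 (Z s + 1/2) - gc 0 (zn s + (q:ℂ) * (zp s - zn s) + 1/2))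
            + (gc 0 (Z s - 1/2) - gc 0 (zn s + (q:ℂ) * (zp s - zn s) - 1/2)))) := by
        rw [ha]
        have : I * I = -1 := I_mul_I
        linear_combination (exp ((s:ℂ) * I) * dz Z zp zn q s) * this
      rw [e3, norm_mul, norm_exp_I, one_mul]
      have k1 := hB1 _ _ (1 / g1) (by have := H.hg1; positivity) s1
      have k2 := hB1 _ _ (1 / g2) (by have := H.hg2; positivity) s2
      have e4 : (Z s + 1/2) - (zn s + (q:ℂ) * (zp s - zn s) + 1/2) = dz Z zp zn q s := by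
        unfold dz; ring
      have e5 : (Z s - 1/2) - (zn s + (q:ℂ) * (zp s - zn s) - 1/2) = dz Z zp zn q s := by
        unfold dz; ring
      rw [e4] at k1
      rw [e5] at k2
      have e6 : 2 / (1 / g1) ^ 3 = 2 * g1 ^ 3 := by have := H.hg1; field_simp
      have e7 : 2 / (1 / g2) ^ 3 = 2 * g2 ^ 3 := by have := H.hg2; field_simp
      rw [e6] at k1
      rw [e7] at k2
      have k3 : ‖(1/2:ℂ) * ((gc 0 (Z s + 1/2) - gc 0 (zn s + (q:ℂ) * (zp s - zn s) + 1/2))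
            + (gc 0 (Z s - 1/2) - gc 0 (zn s + (q:ℂ) * (zp s - zn s) - 1/2)))‖
          ≤ (g1 ^ 3 + g2 ^ 3) * ‖dz Z zp zn q s‖ := by
        rw [norm_mul]
        have : ‖(1/2:ℂ)‖ = 1/2 := by norm_num
        rw [this]
        have := (norm_add_le _ _).trans (add_le_add k1 k2)
        nlinarith
      refine (norm_sub_le _ _).trans ?_
      have k4 : (g1 ^ 3 + g2 ^ 3) * ‖dz Z zp zn q s‖ ≤ L * ‖f s‖ := by
        calc (g1 ^ 3 + g2 ^ 3) * ‖dz Z zp zn q s‖ ≤ L * w * ‖dz Z zp zn q s‖ :=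
              mul_le_mul_of_nonneg_right hL hdn0
          _ = L * (w * ‖dz Z zp zn q s‖) := by ring
          _ ≤ L * ‖f s‖ := mul_le_mul_of_nonneg_left hn1 hL0
      linarith
  choose! F hF using hder
  have hmono : ∀ t ∈ Icc 0 h, (e0 + δ' * t) * Real.exp (L * t) ≤ eo := by
    intro t ht
    refine le_trans ?_ heo
    have hδ'0 : 0 ≤ δ' := by linarith
    apply mul_le_mul
    · nlinarith [ht.2]
    · exact Real.exp_le_exp.mpr (mul_le_mul_of_nonneg_left ht.2 hL0)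
    · positivity
    · have := H.hh
      positivity
  have main := gron (f := f) (f' := F) (h := h) hL0 hδ' hδ0 he0 (fun t ht => (hF t ht).1)
    (by rw [hfn]; exact max_le hi1 hi2) ?_
  · intro s hs
    have h3 := (main s hs).trans (hmono s hs)
    rw [hfn] at h3
    exact ⟨(le_max_left _ _).trans h3, (le_max_right _ _).trans h3⟩
  · intro t ht hft
    apply (hF t ⟨ht.1, ht.2.le⟩).2
    have h3 : w * ‖dz Z zp zn q t‖ ≤ ‖f t‖ := by rw [hfn]; exact le_max_left _ _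
    rw [hft] at h3
    exact h3.trans (hmono t ⟨ht.1, ht.2.le⟩)

theorem re_deriv {f : ℝ → ℂ} {f' : ℂ} {s : ℝ} (h : HasDerivAt f f' s) :
    HasDerivAt (fun s => ((f s).re : ℂ)) (f'.re : ℂ) s :=
  (Complex.reCLM.hasFDerivAt.comp_hasDerivAt s h).ofReal_comp

theorem im_deriv {f : ℝ → ℂ} {f' : ℂ} {s : ℝ} (h : HasDerivAt f f' s) :
    HasDerivAt (fun s => ((f s).im : ℂ)) (f'.im : ℂ) s :=
  (Complex.imCLM.hasFDerivAt.comp_hasDerivAt s h).ofReal_comp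

theorem uc_deriv {f g : ℝ → ℂ} {f' g' : ℂ} {s : ℝ} (hf : HasDerivAt f f' s)
    (hg : HasDerivAt g g' s) : HasDerivAt (fun s => uc (f s) (g s)) (uc f' g') s := by
  unfold uc
  exact ((((re_deriv hf).const_mul l1).add ((im_deriv hf).const_mul l2)).add
    (re_deriv hg)).add ((im_deriv hg).const_mul l4) |>.const_mul (-I * kap)

theorem sc_deriv {f g : ℝ → ℂ} {f' g' : ℂ} {s : ℝ} (hf : HasDerivAt f f' s)
    (hg : HasDerivAt g g' s) : HasDerivAt (fun s => sc (f s) (g s)) (sc f' g') s := by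
  unfold sc
  exact ((((re_deriv hf).const_mul (-(starRingEnd ℂ) l1)).add
    ((im_deriv hf).const_mul ((starRingEnd ℂ) l2))).add
    (re_deriv hg)).sub ((im_deriv hg).const_mul ((starRingEnd ℂ) l4))

theorem hub_sq3 : (Real.sqrt 3 : ℂ) ^ 2 = 3 := by
  rw [← Complex.ofReal_pow, Real.sq_sqrt (by norm_num)]; norm_num

theorem norm_hub1 : ‖hubZ + 1/2‖ = 1 := by
  have h : hubZ + 1/2 = (⟨1/2, Real.sqrt 3 / 2⟩ : ℂ) := by
    apply Complex.ext <;> simp [hubZ]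
  rw [h, Complex.norm_def, Complex.normSq_mk]
  have : (1/2:ℝ) * (1/2) + Real.sqrt 3 / 2 * (Real.sqrt 3 / 2) = 1 := by
    have := Real.mul_self_sqrt (show (0:ℝ) ≤ 3 by norm_num)
    nlinarith
  rw [this, Real.sqrt_one]

theorem norm_hub2 : ‖hubZ - 1/2‖ = 1 := by
  have h : hubZ - 1/2 = (⟨-1/2, Real.sqrt 3 / 2⟩ : ℂ) := by
    apply Complex.ext <;> simp [hubZ]; norm_num
  rw [h, Complex.norm_def, Complex.normSq_mk]
  have : (-1/2:ℝ) * (-1/2) + Real.sqrt 3 / 2 * (Real.sqrt 3 / 2) = 1 := by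
    have := Real.mul_self_sqrt (show (0:ℝ) ≤ 3 by norm_num)
    nlinarith
  rw [this, Real.sqrt_one]

theorem dg_hub (d : ℂ) : dg (hubZ + 1/2) d + dg (hubZ - 1/2) d
    = -d + (3/2) * (starRingEnd ℂ) d := by
  unfold dg
  rw [norm_hub1, norm_hub2]
  simp only [one_pow, inv_one, mul_one, Complex.real_smul]
  have h3 := hub_sq3
  have hI : I ^ 2 = -1 := I_sq
  unfold hubZ
  push_cast
  linear_combination (-(3/4) * (starRingEnd ℂ) d * I ^ 2) * h3 - (9/4) * (starRingEnd ℂ) d * hI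

/-- step near the hub, in hub coordinates -/
theorem hub_step (hB2 : StmtB2) (hB3 : StmtB3) (hC1 : StmtC1) (hC2 : StmtC2) (hC5 : StmtC5)
    {h δ g1 g2 B : ℝ} {Z V zp vp zn vn : ℝ → ℂ}
    {q : ℝ} (H : StepData h δ g1 g2 B Z V zp vp zn vn q) {D ρ L e0 eo δ' : ℝ}
    (hDp : ∀ s ∈ Icc 0 h, ‖zp s - hubZ‖ ≤ D) (hDn : ∀ s ∈ Icc 0 h, ‖zn s - hubZ‖ ≤ D)
    (hρ : D + 3 * eo ≤ ρ) (hρ1 : ρ < 1) (heo0 : 0 ≤ eo)
    (hL : 0.6321 + 15.43 * ρ / (1 - ρ) ^ 4 ≤ L)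
    (hδ' : 1.276 * (δ + 3/8 * (g1 ^ 4 + g2 ^ 4) * B ^ 2) < δ') (he0 : 0 ≤ e0)
    (heo : (e0 + δ' * h) * Real.exp (L * h) ≤ eo)
    (h1 : (B + 3 * eo) * g1 ≤ 1/4096) (h2 : (B + 3 * eo) * g2 ≤ 1/4096)
    (hi1 : ‖uc (dz Z zp zn q 0) (dz V vp vn q 0)‖ ≤ e0)
    (hi2 : ‖sc (dz Z zp zn q 0) (dz V vp vn q 0)‖ ≤ e0) :
    ∀ s ∈ Icc 0 h, ‖uc (dz Z zp zn q s) (dz V vp vn q s)‖ ≤ eo ∧
      ‖sc (dz Z zp zn q s) (dz V vp vn q s)‖ ≤ eo := by
  obtain ⟨⟨ha1, ha2⟩, ⟨hb1, hb2⟩, -, -⟩ := hC5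
  have hδ0 : 0 ≤ δ + 3/8 * (g1 ^ 4 + g2 ^ 4) * B ^ 2 := by
    have := H.hδ
    positivity
  have hD0 : 0 ≤ D := (norm_nonneg _).trans (hDp 0 ⟨le_refl _, H.hh⟩)
  have hρ0 : 0 ≤ ρ := by linarith
  have hK0 : 0 ≤ 15.43 * ρ / (1 - ρ) ^ 4 := by
    have : 0 < (1 - ρ) ^ 4 := by have : 0 < 1 - ρ := by linarith
                                 positivity
    positivity
  have hL0 : 0 ≤ L := by linarith
  set f : ℝ → ℂ × ℂ := fun s => (exp (((-be * s : ℝ) : ℂ) * I) * uc (dz Z zp zn q s) (dz V vp vn q s),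
    exp (((-be * s : ℝ) : ℂ) * I) * sc (dz Z zp zn q s) (dz V vp vn q s)) with hf
  have hfn : ∀ s, ‖f s‖ = max ‖uc (dz Z zp zn q s) (dz V vp vn q s)‖
      ‖sc (dz Z zp zn q s) (dz V vp vn q s)‖ := by
    intro s
    rw [hf, Prod.norm_def]
    simp only [norm_mul, norm_exp_I, one_mul]
  have hex : ∀ s : ℝ, HasDerivAt (fun s : ℝ => exp (((-be * s : ℝ) : ℂ) * I))
      (exp (((-be * s : ℝ) : ℂ) * I) * (-(be:ℂ) * I)) s := by
    intro s
    have h3 : HasDerivAt (fun s : ℝ => ((-be * s : ℝ) : ℂ) * I) (-(be:ℂ) * I) s := by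
      have h4 : HasDerivAt (fun s : ℝ => -be * s) (-be) s := by
        simpa using (hasDerivAt_id s).const_mul (-be)
      have h5 := h4.ofReal_comp.mul_const I
      simpa using h5
    exact h3.cexp
  have hder : ∀ s ∈ Icc 0 h, ∃ F : ℂ × ℂ, HasDerivAt f F s ∧
      (‖f s‖ ≤ eo → ‖F‖ ≤ L * ‖f s‖ + 1.276 * (δ + 3/8 * (g1 ^ 4 + g2 ^ 4) * B ^ 2)) := by
    intro s hs
    obtain ⟨d1, a, d2, hr⟩ := step_deriv hB3 H hs
    have e1 := (hex s).mul (uc_deriv d1 d2)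
    have e2 := (hex s).mul (sc_deriv d1 d2)
    refine ⟨_, e1.prodMk e2, ?_⟩
    intro hle
    set d := dz Z zp zn q s with hdd
    set v := dz V vp vn q s with hvv
    have hn1 : ‖uc d v‖ ≤ ‖f s‖ := by rw [hfn]; exact le_max_left _ _
    have hn2 : ‖sc d v‖ ≤ ‖f s‖ := by rw [hfn]; exact le_max_right _ _
    have hf0 : 0 ≤ ‖f s‖ := norm_nonneg _
    have hd2 : ‖d‖ ≤ 2.014 * ‖f s‖ := by
      have := (hC2 d v).2.2.2.2.1
      linarith
    have hd : ‖d‖ ≤ 3 * eo := by linarith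
    obtain ⟨r, hrn, ha, s1, s2⟩ := hr (3 * eo) hd h1 h2
    -- the points
    set zq := zn s + (q:ℂ) * (zp s - zn s) with hzq
    have hzqD : ‖zq - hubZ‖ ≤ D := by
      have e : zq - hubZ = ((1 - q : ℝ) : ℂ) * (zn s - hubZ) + (q:ℂ) * (zp s - hubZ) := by
        rw [hzq]; push_cast; ring
      rw [e]
      exact convex_defect H.hq (hDn s hs) (hDp s hs)
    have hZD : ‖Z s - hubZ‖ ≤ ρ := by
      have e : Z s - hubZ = d + (zq - hubZ) := by rw [hdd, hzq]; unfold dz; ring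
      rw [e]
      exact (norm_add_le _ _).trans (by linarith)
    have k1 := hB2 (hubZ + 1/2) (zq + 1/2) (Z s + 1/2) ρ hρ0 (by rw [norm_hub1]; exact hρ1)
      (by have e : zq + 1/2 - (hubZ + 1/2) = zq - hubZ := by ring
          rw [e]; linarith)
      (by have e : Z s + 1/2 - (hubZ + 1/2) = Z s - hubZ := by ring
          rw [e]; exact hZD)
    have k2 := hB2 (hubZ - 1/2) (zq - 1/2) (Z s - 1/2) ρ hρ0 (by rw [norm_hub2]; exact hρ1)
      (by have e : zq - 1/2 - (hubZ - 1/2) = zq - hubZ := by ring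
          rw [e]; linarith)
      (by have e : Z s - 1/2 - (hubZ - 1/2) = Z s - hubZ := by ring
          rw [e]; exact hZD)
    have e4 : (Z s + 1/2) - (zq + 1/2) = d := by rw [hdd, hzq]; unfold dz; ring
    have e5 : (Z s - 1/2) - (zq - 1/2) = d := by rw [hdd, hzq]; unfold dz; ring
    rw [e4, norm_hub1] at k1
    rw [e5, norm_hub2] at k2
    set n : ℂ := r - (1/2:ℂ) * ((gc 0 (Z s + 1/2) - gc 0 (zq + 1/2) - dg (hubZ + 1/2) d)
      + (gc 0 (Z s - 1/2) - gc 0 (zq - 1/2) - dg (hubZ - 1/2) d)) with hnn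
    have han : a = -2 * I * v + (3/2) * d - (3/4) * (starRingEnd ℂ) d + n := by
      rw [ha, hnn]
      have := dg_hub d
      linear_combination (-(1/2:ℂ)) * this
    have hnb : ‖n‖ ≤ 6 * ρ / (1 - ρ) ^ 4 * ‖d‖ + (δ + 3/8 * (g1 ^ 4 + g2 ^ 4) * B ^ 2) := by
      rw [hnn]
      refine (norm_sub_le _ _).trans ?_
      rw [norm_mul]
      have e6 : ‖(1/2:ℂ)‖ = 1/2 := by norm_num
      rw [e6]
      have := (norm_add_le _ _).trans (add_le_add k1 k2)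
      linarith
    have hn' : 1.276 * ‖n‖ ≤ 15.43 * ρ / (1 - ρ) ^ 4 * ‖f s‖
        + 1.276 * (δ + 3/8 * (g1 ^ 4 + g2 ^ 4) * B ^ 2) := by
      have hq4 : 0 ≤ ρ / (1 - ρ) ^ 4 := by
        have : 0 < (1 - ρ) ^ 4 := by have : 0 < 1 - ρ := by linarith
                                     positivity
        positivity
      have e7 : 6 * ρ / (1 - ρ) ^ 4 = 6 * (ρ / (1 - ρ) ^ 4) := by ring
      have e8 : 15.43 * ρ / (1 - ρ) ^ 4 = 15.43 * (ρ / (1 - ρ) ^ 4) := by ring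
      rw [e7] at hnb
      rw [e8]
      nlinarith [mul_le_mul_of_nonneg_left hd2 hq4, mul_nonneg hq4 hf0]
    have hu : uc v a = lam * uc d v + uc 0 n := by rw [han]; exact hC1.1 d v n
    have hsx : sc v a = -(starRingEnd ℂ) lam * sc d v + sc 0 n := by rw [han]; exact hC1.2 d v n
    have hLb : (0.6321 : ℝ) * ‖f s‖ + 15.43 * ρ / (1 - ρ) ^ 4 * ‖f s‖ ≤ L * ‖f s‖ := by
      rw [← add_mul]; exact mul_le_mul_of_nonneg_right hL hf0
    have hal0 : 0 ≤ al := by linarith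
    rw [Prod.norm_def]
    apply max_le
    · change ‖exp (((-be * s : ℝ) : ℂ) * I) * (-(be:ℂ) * I) * uc d v
        + exp (((-be * s : ℝ) : ℂ) * I) * uc v a‖ ≤ _
      have e3 : exp (((-be * s : ℝ) : ℂ) * I) * (-(be:ℂ) * I) * uc d v
        + exp (((-be * s : ℝ) : ℂ) * I) * uc v a
        = exp (((-be * s : ℝ) : ℂ) * I) * ((al:ℂ) * uc d v + uc 0 n) := by
        rw [hu]; unfold lam; ring
      rw [e3, norm_mul, norm_exp_I, one_mul]
      refine (norm_add_le _ _).trans ?_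
      rw [norm_mul, Complex.norm_real, Real.norm_eq_abs, abs_of_nonneg hal0]
      have k5 := (hC2 0 n).1
      nlinarith
    · change ‖exp (((-be * s : ℝ) : ℂ) * I) * (-(be:ℂ) * I) * sc d v
        + exp (((-be * s : ℝ) : ℂ) * I) * sc v a‖ ≤ _
      have e3 : exp (((-be * s : ℝ) : ℂ) * I) * (-(be:ℂ) * I) * sc d v
        + exp (((-be * s : ℝ) : ℂ) * I) * sc v a
        = exp (((-be * s : ℝ) : ℂ) * I) * (-((al:ℂ) * sc d v) + sc 0 n) := by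
        rw [hsx]; unfold lam
        simp only [map_add, map_mul, Complex.conj_ofReal, Complex.conj_I]
        ring
      rw [e3, norm_mul, norm_exp_I, one_mul]
      refine (norm_add_le _ _).trans ?_
      rw [norm_neg, norm_mul, Complex.norm_real, Real.norm_eq_abs, abs_of_nonneg hal0]
      have k5 := (hC2 0 n).2.1
      have k6 := norm_nonneg n
      nlinarith
  choose! F hF using hder
  have hδ'0 : 0 ≤ δ' := by linarith
  have hmono : ∀ t ∈ Icc 0 h, (e0 + δ' * t) * Real.exp (L * t) ≤ eo := by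
    intro t ht
    refine le_trans ?_ heo
    apply mul_le_mul
    · nlinarith [ht.2]
    · exact Real.exp_le_exp.mpr (mul_le_mul_of_nonneg_left ht.2 hL0)
    · positivity
    · have := H.hh
      positivity
  have main := gron (f := f) (f' := F) (h := h) hL0 hδ' (by linarith) he0 (fun t ht => (hF t ht).1)
    (by rw [hfn]; exact max_le hi1 hi2) ?_
  · intro s hs
    have h3 := (main s hs).trans (hmono s hs)
    rw [hfn] at h3
    exact ⟨(le_max_left _ _).trans h3, (le_max_right _ _).trans h3⟩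
  · intro t ht hft
    apply (hF t ⟨ht.1, ht.2.le⟩).2
    rw [hft]
    exact hmono t ⟨ht.1, ht.2.le⟩

end Run7.h874
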