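import Pool.Agent.Run7.h874.Snd4
import Pool.Agent.Run7.h874.Stp

/-!
# Soundness of the checks on one step
-/

set_option autoImplicit false

namespace Run7.h874

open Complex Set

/-- bound on a deviation in the norm of a step of the given kind -/
def Nb (kind : ℕ) (w e : ℝ) (d v : ℂ) : Prop :=
  if kind = 1 then w * ‖d‖ ≤ e ∧ ‖v + I * d‖ ≤ e else ‖uc d v‖ ≤ e ∧ ‖sc d v‖ ≤ e

/-- step length -/
noncomputable def SD.h (d : SD) : ℝ := (2 ^ d.m)⁻¹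

noncomputable def SD.W (d : SD) : ℝ := (d.w : ℝ) / 2 ^ 20
noncomputable def SD.Ein (p : Prm) (d : SD) : ℝ := (d.ein : ℝ) / 2 ^ p.E
noncomputable def SD.Eout (p : Prm) (d : SD) : ℝ := (d.eout : ℝ) / 2 ^ p.E

/-- reference position and velocity, parameter `q` -/
noncomputable def SD.z (p : Prm) (d : SD) (q s : ℝ) : ℂ :=
  zt p.P d.m (p.u d.xn) (p.u d.yn) s + (q:ℂ) * (zt p.P d.m (p.u d.xp) (p.u d.yp) s
    - zt p.P d.m (p.u d.xn) (p.u d.yn) s)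
noncomputable def SD.v (p : Prm) (d : SD) (q s : ℝ) : ℂ :=
  vt p.P d.m (p.u d.xn) (p.u d.yn) s + (q:ℂ) * (vt p.P d.m (p.u d.xp) (p.u d.yp) s
    - vt p.P d.m (p.u d.xn) (p.u d.yn) s)

/-- property of a state implied by the flag of a step -/
def flagP (c fl : ℕ) (x : P2) : Prop :=
  far x ∧ (if fl = 0 then 1/10^5 ≤ x.1.im else if fl = 1 then
    x.2.im ≤ -(1/10^5) ∧ (if c = 0 then x.1.re ≤ -1/2 - 1/10^5 else if c = 1 then
      1/2 + 1/10^5 ≤ x.1.re else -1/2 + 1/10^5 ≤ x.1.re ∧ x.1.re ≤ 1/2 - 1/10^5)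
    else x.1.im ≤ -(1/10^5))

theorem unp_length (W n N : ℕ) : (unp W n N).length = n := by
  induction n generalizing N with
  | zero => rfl
  | succ n ih => simp [unp, ih]

/-! ### exponential -/

theorem expUp_sound {L sh : ℕ} (hx : (L:ℝ) / 2 ^ sh ≤ 1) : ∀ (n acc : ℕ),
    (expUp L sh n acc : ℝ) / 2 ^ 60 ≥
      ∑ i ∈ Finset.range n, ((L:ℝ) / 2 ^ sh) ^ i / (i.factorial : ℝ)
        + ((L:ℝ) / 2 ^ sh) ^ n / (n.factorial : ℝ) * ((acc:ℝ) / 2 ^ 60) := by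
  intro n
  induction n with
  | zero => intro acc; simp [expUp]
  | succ n ih =>
    intro acc
    have h1 := ih (2 ^ 60 + L * acc / (2 ^ sh * (n + 1)) + 1)
    simp only [expUp]
    refine le_trans ?_ h1
    rw [Finset.sum_range_succ]
    set x := (L:ℝ) / 2 ^ sh with hxd
    have hx0 : 0 ≤ x := by positivity
    have h2 : (1:ℝ) + x / (n + 1) * ((acc:ℝ) / 2 ^ 60)
        ≤ ((2 ^ 60 + L * acc / (2 ^ sh * (n + 1)) + 1 : ℕ) : ℝ) / 2 ^ 60 := by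
      have h3 : (L * acc : ℝ) / (2 ^ sh * (n + 1)) ≤ ((L * acc / (2 ^ sh * (n + 1)) : ℕ) : ℝ) + 1 := by
        have h4 := Nat.lt_div_mul_add (a := L * acc) (b := 2 ^ sh * (n + 1)) (by positivity)
        rw [div_le_iff₀ (by positivity)]
        have h5 : ((L * acc : ℕ) : ℝ) ≤ ((L * acc / (2 ^ sh * (n + 1)) * (2 ^ sh * (n + 1))
          + 2 ^ sh * (n + 1) : ℕ) : ℝ) := by exact_mod_cast h4.le
        push_cast at h5 ⊢
        linarith
      rw [le_div_iff₀ (by positivity)]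
      push_cast
      have h6 : (1 + x / (n + 1) * ((acc:ℝ) / 2 ^ 60)) * 2 ^ 60
          = 2 ^ 60 + (L * acc : ℝ) / (2 ^ sh * (n + 1)) := by
        rw [hxd]; field_simp
      rw [h6]
      push_cast at h3
      linarith
    have h7 : 0 ≤ x ^ n / (n.factorial : ℝ) := by positivity
    have h8 : x ^ (n + 1) / ((n + 1).factorial : ℝ) * ((acc:ℝ) / 2 ^ 60)
        = x ^ n / (n.factorial : ℝ) * (x / (n + 1) * ((acc:ℝ) / 2 ^ 60)) := by
      rw [Nat.factorial_succ]; push_cast; field_simp; ring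
    rw [h8]
    nlinarith [mul_le_mul_of_nonneg_left h2 h7]

theorem exp_le_of_expUp {L m F : ℕ} (h1 : L ≤ 2 ^ (20 + m))
    (h2 : expUp L (20 + m) 12 (2 ^ 61) ≤ 2 ^ 30 * F) :
    Real.exp ((L:ℝ) / 2 ^ 20 * (2 ^ m)⁻¹) ≤ (F:ℝ) / 2 ^ 30 := by
  have e : (L:ℝ) / 2 ^ 20 * (2 ^ m)⁻¹ = (L:ℝ) / 2 ^ (20 + m) := by rw [pow_add]; field_simp
  rw [e]
  set x := (L:ℝ) / 2 ^ (20 + m) with hx
  have hx0 : 0 ≤ x := by positivity
  have hx1 : x ≤ 1 := by
    rw [hx, div_le_one (by positivity)]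
    exact_mod_cast h1
  have h3 := Real.exp_bound' hx0 hx1 (n := 12) (by norm_num)
  have h4 := expUp_sound (L := L) (sh := 20 + m) hx1 12 (2 ^ 61)
  generalize expUp L (20 + m) 12 (2 ^ 61) = E at h2 h4
  have h5 : ((E : ℕ) : ℝ) ≤ ((2 ^ 30 * F : ℕ) : ℝ) := by
    exact_mod_cast h2
  have h6 : (E : ℝ) / 2 ^ 60 ≤ (F:ℝ) / 2 ^ 30 := by
    push_cast at h5
    rw [div_le_div_iff₀ (by positivity) (by positivity)]
    nlinarith
  refine h3.trans (le_trans ?_ h6)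
  refine le_trans ?_ h4
  rw [← hx]
  have h7 : x ^ 12 * ((12:ℕ) + 1) / ((Nat.factorial 12 : ℝ) * (12:ℕ))
      ≤ x ^ 12 / ((Nat.factorial 12 : ℕ) : ℝ) * (((2 ^ 61 : ℕ) : ℝ) / 2 ^ 60) := by
    have : (((2 ^ 61 : ℕ) : ℝ) / 2 ^ 60) = 2 := by norm_num
    rw [this]
    have h8 : 0 ≤ x ^ 12 := by positivity
    norm_num [Nat.factorial]
    nlinarith
  linarith

end Run7.h874
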