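import Pool.Agent.Run7.h874.Iface

/-!
# Piece A: flows
-/

set_option autoImplicit false

namespace Run7.h874

open Set Metric

section

variable {E : Type} [NormedAddCommGroup E] [NormedSpace ℝ E]

theorem gb_le {δ K ε x T : ℝ} (hK : 0 ≤ K) (hε : 0 ≤ ε) (hδ : 0 ≤ δ) (hx : 0 ≤ x) (hT : x ≤ T) :
    gronwallBound δ K ε x ≤ (δ + ε * T) * Real.exp (K * T) := by
  have h1 : gronwallBound δ K ε x ≤ (δ + ε * x) * Real.exp (K * x) := by
    rcases hK.eq_or_lt with h | h
    · rw [← h, gronwallBound_K0]; simp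
    · rw [gronwallBound_of_K_ne_0 h.ne']
      have h2 : Real.exp (K * x) - 1 ≤ K * x * Real.exp (K * x) := by
        have h3 := Real.add_one_le_exp (-(K * x))
        have h4 : Real.exp (-(K * x)) * Real.exp (K * x) = 1 := by
          rw [← Real.exp_add]; simp
        nlinarith [Real.exp_pos (K * x)]
      have h5 : ε / K * (Real.exp (K * x) - 1) ≤ ε / K * (K * x * Real.exp (K * x)) :=
        mul_le_mul_of_nonneg_left h2 (by positivity)
      have h6 : ε / K * (K * x * Real.exp (K * x)) = ε * x * Real.exp (K * x) := by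
        field_simp
      simp only
      linarith
  refine h1.trans ?_
  apply mul_le_mul
  · nlinarith
  · exact Real.exp_le_exp.mpr (mul_le_mul_of_nonneg_left hT hK)
  · positivity
  · have : 0 ≤ T := hx.trans hT
    positivity

theorem stmtA2 : StmtA2 := by
  intro E _ _ F K φ hF hφ g g' T δ η hT hδ hη hg hg' hb x hx t ht
  have h1 := dist_le_of_approx_trajectories_ODE (v := fun _ => F) (K := K) (f := g) (f' := g')
    (g := fun s => φ s x) (g' := fun s => F (φ s x)) (a := 0) (b := T) (εf := δ) (εg := 0) (δ := η)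
    (fun _ => hF) hg hg' (fun t ht => by rw [dist_eq_norm]; exact hb t ht)
    (fun t _ => (hφ.deriv t x).continuousAt.continuousWithinAt)
    (fun t _ => (hφ.deriv t x).hasDerivWithinAt) (fun t _ => by simp)
    (by rw [dist_eq_norm, hφ.zero]; exact hx) t ht
  rw [dist_eq_norm, add_zero, sub_zero] at h1
  exact h1.trans (gb_le K.2 hδ hη ht.1 ht.2)

variable [CompleteSpace E]

/-- local solutions on a symmetric interval -/
def Good (F : E → E) (T : ℝ) : Prop :=
  ∀ x, ∃ α : ℝ → E, α 0 = x ∧ ∀ t ∈ Icc (-T) T, HasDerivWithinAt α (F (α t)) (Icc (-T) T) t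

theorem good_local {F : E → E} {K : NNReal} (hF : LipschitzWith K F) :
    Good F (1 / (2 * (K + 1))) := by
  intro x
  set h : ℝ := 1 / (2 * (K + 1)) with hh
  have hh0 : 0 < h := by positivity
  have hK : 0 ≤ (K:ℝ) := K.2
  have h0 : (0:ℝ) ∈ Icc (-h) h := ⟨by linarith, hh0.le⟩
  have hpl : IsPicardLindelof (fun _ => F) (tmin := -h) (tmax := h) ⟨0, h0⟩ x (‖F x‖₊ + 1) 0
      (‖F x‖₊ + K * (‖F x‖₊ + 1)) K := by
    apply IsPicardLindelof.of_time_independent
    · intro y hy
      rw [mem_closedBall, dist_eq_norm] at hy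
      have h1 := hF.norm_sub_le y x
      have h2 : ‖F y‖ ≤ ‖F y - F x‖ + ‖F x‖ := by
        have : F y = (F y - F x) + F x := by abel
        calc ‖F y‖ = ‖(F y - F x) + F x‖ := by rw [← this]
          _ ≤ _ := norm_add_le _ _
      push_cast at hy ⊢
      nlinarith [mul_le_mul_of_nonneg_left hy hK]
    · exact hF.lipschitzOnWith
    · push_cast
      simp only [sub_zero, zero_sub, neg_neg, max_self]
      have h3 : (‖F x‖ + K * (‖F x‖ + 1)) ≤ (K + 1) * (‖F x‖ + 1) := by nlinarith [norm_nonneg (F x)]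
      have h4 : (K + 1) * (‖F x‖ + 1) * h = (‖F x‖ + 1) / 2 := by rw [hh]; field_simp
      have h5 := mul_le_mul_of_nonneg_right h3 hh0.le
      linarith [norm_nonneg (F x)]
  obtain ⟨α, h1, h2⟩ := hpl.exists_eq_forall_mem_Icc_hasDerivWithinAt₀
  exact ⟨α, h1, h2⟩

theorem deriv_trivial {δ : ℝ → E} {v : E} {a b t : ℝ} (h : t ∉ Icc a b) :
    HasDerivWithinAt δ v (Icc a b) t := by
  apply HasFDerivWithinAt.of_notMem_closure
  rwa [isClosed_Icc.closure_eq]

theorem shift_deriv {β : ℝ → E} {v : E} {s : Set ℝ} {c t : ℝ}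
    (h : HasDerivWithinAt β v s (t - c)) :
    HasDerivWithinAt (fun r => β (r - c)) v ((fun r => r - c) ⁻¹' s) t := by
  have h1 : HasDerivWithinAt (fun r : ℝ => r - c) 1 ((fun r => r - c) ⁻¹' s) t :=
    ((hasDerivAt_id t).sub_const c).hasDerivWithinAt
  have := h.scomp t h1 (fun r hr => hr)
  rw [one_smul] at this
  exact this

theorem good_double {F : E → E} {T : ℝ} (hT : 0 < T) (h : Good F T) : Good F (2 * T) := by
  intro x
  obtain ⟨α, a0, a1⟩ := h x
  obtain ⟨β, b0, b1⟩ := h (α T)
  obtain ⟨γ, c0, c1⟩ := h (α (-T))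
  set δ : ℝ → E := fun t => if t < -T then γ (t + T) else if t ≤ T then α t else β (t - T) with hδ
  have e2 : ∀ t ∈ Icc (-T) T, δ t = α t := by
    intro t ht
    rw [hδ]
    simp only
    rw [if_neg (not_lt.mpr ht.1), if_pos ht.2]
  have e1 : ∀ t ∈ Icc (-(2 * T)) (-T), δ t = γ (t + T) := by
    intro t ht
    rcases ht.2.eq_or_lt with h | h
    · rw [e2 t ⟨by linarith, by linarith⟩, h]; simp [c0]
    · rw [hδ]; simp only; rw [if_pos h]
  have e3 : ∀ t ∈ Icc T (2 * T), δ t = β (t - T) := by
    intro t ht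
    rcases ht.1.eq_or_lt with h | h
    · rw [e2 t ⟨by linarith, by linarith⟩, ← h]; simp [b0]
    · rw [hδ]; simp only; rw [if_neg (by linarith), if_neg (by linarith)]
  refine ⟨δ, ?_, ?_⟩
  · rw [e2 0 ⟨by linarith, hT.le⟩, a0]
  · intro t ht
    have s1 : HasDerivWithinAt δ (F (δ t)) (Icc (-(2 * T)) (-T)) t := by
      by_cases hm : t ∈ Icc (-(2 * T)) (-T)
      · rw [e1 t hm]
        have h1 := c1 (t + T) ⟨by linarith [hm.1], by linarith [hm.2]⟩
        have h2 : HasDerivWithinAt (fun r => γ (r - -T)) (F (γ (t + T)))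
            ((fun r => r - -T) ⁻¹' Icc (-T) T) t := shift_deriv (by rw [sub_neg_eq_add]; exact h1)
        have h3 : Icc (-(2 * T)) (-T) ⊆ (fun r => r - -T) ⁻¹' Icc (-T) T := by
          intro r hr
          simp only [mem_preimage, mem_Icc]
          constructor <;> linarith [hr.1, hr.2]
        refine (h2.mono h3).congr (fun r hr => ?_) ?_
        · rw [e1 r hr, sub_neg_eq_add]
        · rw [e1 t hm, sub_neg_eq_add]
      · exact deriv_trivial hm
    have s2 : HasDerivWithinAt δ (F (δ t)) (Icc (-T) T) t := by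
      by_cases hm : t ∈ Icc (-T) T
      · rw [e2 t hm]
        exact (a1 t hm).congr (fun r hr => e2 r hr) (e2 t hm)
      · exact deriv_trivial hm
    have s3 : HasDerivWithinAt δ (F (δ t)) (Icc T (2 * T)) t := by
      by_cases hm : t ∈ Icc T (2 * T)
      · rw [e3 t hm]
        have h1 := b1 (t - T) ⟨by linarith [hm.1], by linarith [hm.2]⟩
        have h2 : HasDerivWithinAt (fun r => β (r - T)) (F (β (t - T)))
            ((fun r => r - T) ⁻¹' Icc (-T) T) t := shift_deriv h1
        have h3 : Icc T (2 * T) ⊆ (fun r => r - T) ⁻¹' Icc (-T) T := by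
          intro r hr
          simp only [mem_preimage, mem_Icc]
          constructor <;> linarith [hr.1, hr.2]
        exact (h2.mono h3).congr (fun r hr => e3 r hr) (e3 t hm)
      · exact deriv_trivial hm
    have hu : Icc (-(2 * T)) (2 * T) ⊆ (Icc (-(2 * T)) (-T) ∪ Icc (-T) T) ∪ Icc T (2 * T) := by
      intro r hr
      rcases le_or_gt r (-T) with h | h
      · exact Or.inl (Or.inl ⟨hr.1, h⟩)
      · rcases le_or_gt r T with h' | h'
        · exact Or.inl (Or.inr ⟨h.le, h'⟩)
        · exact Or.inr ⟨h'.le, hr.2⟩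
    exact ((s1.union s2).union s3).mono hu

theorem good_mono {F : E → E} {T T' : ℝ} (h : Good F T) (hT : T' ≤ T) : Good F T' := by
  intro x
  obtain ⟨α, a0, a1⟩ := h x
  refine ⟨α, a0, fun t ht => ?_⟩
  exact (a1 t ⟨by linarith [ht.1], by linarith [ht.2]⟩).mono
    (Icc_subset_Icc (by linarith) hT)

theorem good_all {F : E → E} {K : NNReal} (hF : LipschitzWith K F) (T : ℝ) : Good F T := by
  set h : ℝ := 1 / (2 * (K + 1)) with hh
  have hh0 : 0 < h := by have : 0 ≤ (K:ℝ) := K.2
                         positivity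
  have h1 : ∀ n : ℕ, Good F (2 ^ n * h) := by
    intro n
    induction n with
    | zero => rw [pow_zero, one_mul]; exact good_local hF
    | succ n ih =>
      have := good_double (by positivity) ih
      rw [pow_succ, mul_comm (2 ^ n : ℝ) 2, mul_assoc]
      exact this
  obtain ⟨n, hn⟩ := pow_unbounded_of_one_lt (T / h) (show (1:ℝ) < 2 by norm_num)
  apply good_mono (h1 n)
  rw [div_lt_iff₀ hh0] at hn
  exact hn.le

theorem uniq {F : E → E} {K : NNReal} (hF : LipschitzWith K F) {α β : ℝ → E} {T : ℝ} (hT : 0 < T)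
    (ha : ∀ t ∈ Icc (-T) T, HasDerivWithinAt α (F (α t)) (Icc (-T) T) t)
    (hb : ∀ t ∈ Icc (-T) T, HasDerivWithinAt β (F (β t)) (Icc (-T) T) t) (h0 : α 0 = β 0) :
    ∀ t ∈ Icc (-T) T, α t = β t := by
  have := ODE_solution_unique_of_mem_Icc (v := fun _ => F) (s := fun _ => univ) (K := K) (a := -T)
    (b := T) (t₀ := 0) (f := α) (g := β) (fun _ _ => hF.lipschitzOnWith) ⟨by linarith, hT⟩
    (fun t ht => (ha t ht).continuousWithinAt)
    (fun t ht => (ha t ⟨ht.1.le, ht.2.le⟩).hasDerivAt (Icc_mem_nhds ht.1 ht.2))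
    (fun _ _ => mem_univ _)
    (fun t ht => (hb t ht).continuousWithinAt)
    (fun t ht => (hb t ⟨ht.1.le, ht.2.le⟩).hasDerivAt (Icc_mem_nhds ht.1 ht.2))
    (fun _ _ => mem_univ _) h0
  exact this

theorem stmtA1 : StmtA1 := by
  intro E _ _ _ F K hF
  choose sol h0 h1 using fun T : ℝ => good_all hF T
  set φ : ℝ → E → E := fun t x => sol (|t| + 1) x t with hφ
  have key : ∀ (T t : ℝ) (x : E), 0 < T → |t| ≤ T → φ t x = sol (T + 1) x t := by
    intro T t x hT ht
    have := abs_le.mp (le_refl |t|)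
    have t0 := abs_nonneg t
    exact uniq hF (T := |t| + 1) (by positivity) (h1 (|t| + 1) x)
      (fun s hs => (h1 (T + 1) x s ⟨by linarith [hs.1], by linarith [hs.2]⟩).mono
        (Icc_subset_Icc (by linarith) (by linarith)))
      (by rw [h0, h0]) t ⟨by linarith [this.1], by linarith [this.2]⟩
  have hd : ∀ t x, HasDerivAt (fun s => φ s x) (F (φ t x)) t := by
    intro t x
    have t0 := abs_nonneg t
    have hT : 0 < |t| + 1 := by positivity
    have e := key (|t| + 1) t x hT (by linarith)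
    have ht := abs_le.mp (le_refl |t|)
    have d : HasDerivAt (sol (|t| + 1 + 1) x) (F (sol (|t| + 1 + 1) x t)) t :=
      (h1 (|t| + 1 + 1) x t ⟨by linarith [ht.1], by linarith [ht.2]⟩).hasDerivAt
        (Icc_mem_nhds (by linarith [ht.1]) (by linarith [ht.2]))
    rw [e]
    refine d.congr_of_eventuallyEq ?_
    have hn : Ioo (t - 1) (t + 1) ∈ nhds t := Ioo_mem_nhds (by linarith) (by linarith)
    filter_upwards [hn] with s hs
    apply key (|t| + 1) s x hT
    rw [abs_le]
    constructor
    · linarith [ht.1, hs.1]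
    · linarith [ht.2, hs.2]
  have hz : ∀ x, φ 0 x = x := by
    intro x; rw [hφ]; simp only; exact h0 _ _
  have hun : ∀ (f g : ℝ → E), (∀ t, HasDerivAt f (F (f t)) t) → (∀ t, HasDerivAt g (F (g t)) t) →
      f 0 = g 0 → f = g := by
    intro f g hf hg h
    exact ODE_solution_unique_univ (v := fun _ => F) (s := fun _ => univ) (K := K) (t₀ := 0)
      (fun _ => hF.lipschitzOnWith) (fun t => ⟨hf t, mem_univ _⟩) (fun t => ⟨hg t, mem_univ _⟩) h
  -- Gronwall in both directions
  have hfor : ∀ (G : E → E), LipschitzWith K G → ∀ (f g : ℝ → E), (∀ t, HasDerivAt f (G (f t)) t) →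
      (∀ t, HasDerivAt g (G (g t)) t) → ∀ t, 0 ≤ t → ‖f t - g t‖ ≤ ‖f 0 - g 0‖ * Real.exp (K * t) := by
    intro G hG f g hf hg t ht
    have := dist_le_of_trajectories_ODE (v := fun _ => G) (K := K) (f := f) (g := g) (a := 0) (b := t)
      (δ := ‖f 0 - g 0‖) (fun _ => hG) (fun s _ => (hf s).continuousAt.continuousWithinAt)
      (fun s _ => (hf s).hasDerivWithinAt) (fun s _ => (hg s).continuousAt.continuousWithinAt)
      (fun s _ => (hg s).hasDerivWithinAt) (by rw [dist_eq_norm]) t ⟨ht, le_refl _⟩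
    rw [dist_eq_norm, sub_zero] at this
    exact this
  have hlip : ∀ t x y, ‖φ t x - φ t y‖ ≤ ‖x - y‖ * Real.exp (K * |t|) := by
    intro t x y
    rcases le_total 0 t with h | h
    · have := hfor F hF (fun s => φ s x) (fun s => φ s y) (fun s => hd s x) (fun s => hd s y) t h
      simpa [hz, abs_of_nonneg h] using this
    · have hG : LipschitzWith K (fun z => -F z) := by
        intro a b
        have := hF a b
        rw [edist_neg_neg]; exact this
      have hr : ∀ x s, HasDerivAt (fun s => φ (-s) x) (-F (φ (-s) x)) s := by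
        intro x s
        have := (hd (-s) x).scomp s (hasDerivAt_neg s)
        rw [neg_one_smul] at this
        exact this
      have := hfor _ hG (fun s => φ (-s) x) (fun s => φ (-s) y) (hr x) (hr y) (-t) (by linarith)
      simpa [hz, abs_of_nonpos h] using this
  refine ⟨φ, ⟨hz, hd, ?_, ?_⟩⟩
  · rw [continuous_iff_continuousAt]
    rintro ⟨t0, x0⟩
    rw [Metric.continuousAt_iff]
    intro ε hε
    have c1 := (hd t0 x0).continuousAt
    rw [Metric.continuousAt_iff] at c1
    obtain ⟨δ1, hδ1, hc1⟩ := c1 (ε / 2) (by positivity)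
    set M := Real.exp (K * (|t0| + 1)) with hM
    have hM0 : 0 < M := Real.exp_pos _
    refine ⟨min (min δ1 1) (ε / (2 * M)), by positivity, ?_⟩
    rintro ⟨t, x⟩ hd'
    rw [Prod.dist_eq, max_lt_iff] at hd'
    obtain ⟨d1, d2⟩ := hd'
    simp only [lt_min_iff] at d1 d2
    have a1 := hc1 d1.1.1
    have a2 := hlip t x x0
    have a3 : |t| ≤ |t0| + 1 := by
      have h5 := d1.1.2
      rw [Real.dist_eq] at h5
      have h6 : |t| ≤ |t - t0| + |t0| := by
        have : t = (t - t0) + t0 := by ring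
        calc |t| = |(t - t0) + t0| := by rw [← this]
          _ ≤ _ := abs_add_le _ _
      linarith
    have a4 : Real.exp (K * |t|) ≤ M := Real.exp_le_exp.mpr (mul_le_mul_of_nonneg_left a3 K.2)
    have a5 : ‖x - x0‖ < ε / (2 * M) := by rw [← dist_eq_norm]; exact d2.2
    have a6 : ‖x - x0‖ * Real.exp (K * |t|) < ε / 2 := by
      calc ‖x - x0‖ * Real.exp (K * |t|) ≤ ‖x - x0‖ * M :=
            mul_le_mul_of_nonneg_left a4 (norm_nonneg _)
        _ < ε / (2 * M) * M := mul_lt_mul_of_pos_right a5 hM0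
        _ = ε / 2 := by field_simp
    simp only [Function.uncurry_apply_pair]
    have a7 : dist (φ t x) (φ t0 x0) ≤ dist (φ t x) (φ t x0) + dist (φ t x0) (φ t0 x0) :=
      dist_triangle _ _ _
    rw [dist_eq_norm (φ t x) (φ t x0)] at a7
    linarith
  · intro s t x
    have := hun (fun t => φ (s + t) x) (fun t => φ t (φ s x))
      (fun t => by
        have h5 : HasDerivAt (fun t : ℝ => s + t) 1 t := by simpa using (hasDerivAt_id t).const_add s
        have := (hd (s + t) x).scomp t h5
        rw [one_smul] at this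
        exact this)
      (fun t => hd t _) (by simp [hz])
    exact congrFun this t

end

end Run7.h874
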