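import Pool.Agent.Run7.h874.Iface

/-!
# Piece B: calculus of the Newtonian kernel
-/

set_option autoImplicit false

namespace Run7.h874

open Complex Set

/-- second derivative of the kernel -/
noncomputable def ddg (z q d : ℂ) : ℂ :=
  ((3/4) * (‖z‖ ^ 5)⁻¹ : ℝ) • ((starRingEnd ℂ) z * q * d + z * (q * (starRingEnd ℂ) d)
    + z * ((starRingEnd ℂ) q * d))
  + ((15/4) * (‖z‖ ^ 7)⁻¹ : ℝ) • (z ^ 3 * ((starRingEnd ℂ) q * (starRingEnd ℂ) d))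

theorem norm_deriv {z : ℝ → ℂ} {z' : ℂ} {t : ℝ} (hz : HasDerivAt z z' t) (h0 : z t ≠ 0) :
    HasDerivAt (fun s => ‖z s‖) ((z t * (starRingEnd ℂ) z').re / ‖z t‖) t := by
  have h1 : HasDerivAt (fun s => ‖z s‖ ^ 2) (2 * (z t * (starRingEnd ℂ) z').re) t := by
    have := hz.norm_sq
    have e : 2 * inner ℝ (z t) z' = 2 * (z t * (starRingEnd ℂ) z').re := by
      rw [Complex.inner]; simp; ring
    rw [← e]; exact this
  have hn : ‖z t‖ ^ 2 ≠ 0 := by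
    have : ‖z t‖ ≠ 0 := norm_ne_zero_iff.mpr h0
    positivity
  have h2 := h1.sqrt hn
  have e1 : (fun s => Real.sqrt (‖z s‖ ^ 2)) = fun s => ‖z s‖ := by
    funext s; exact Real.sqrt_sq (norm_nonneg _)
  rw [e1] at h2
  rw [Real.sqrt_sq (norm_nonneg _)] at h2
  convert h2 using 1
  field_simp

theorem gc0 (z : ℂ) : gc 0 z = ((‖z‖ ^ 3)⁻¹ : ℝ) • z := by
  unfold gc; rw [max_eq_left (norm_nonneg _)]

theorem normSq_eq (z : ℂ) : z * (starRingEnd ℂ) z = ((‖z‖ ^ 2 : ℝ) : ℂ) := by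
  rw [Complex.mul_conj, Complex.normSq_eq_norm_sq]

theorem re_eq (z : ℂ) : ((z.re : ℝ) : ℂ) = (z + (starRingEnd ℂ) z) / 2 := by
  rw [Complex.add_conj]; push_cast; ring

theorem gc_deriv {z : ℝ → ℂ} {z' : ℂ} {t : ℝ} (hz : HasDerivAt z z' t) (h0 : z t ≠ 0) :
    HasDerivAt (fun s => gc 0 (z s)) (dg (z t) z') t := by
  have hn : ‖z t‖ ≠ 0 := norm_ne_zero_iff.mpr h0
  have h1 := norm_deriv hz h0
  have h2 := (h1.pow 3).inv (pow_ne_zero 3 hn)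
  have h3 := h2.smul hz
  have e : (fun s => gc 0 (z s)) = fun s => ((‖z s‖ ^ 3)⁻¹ : ℝ) • z s := by
    funext s; exact gc0 _
  rw [e]
  refine HasDerivAt.congr_deriv h3 ?_
  unfold dg
  simp only [Complex.real_smul, Pi.inv_apply, Pi.pow_apply]
  have hc : (‖z t‖ : ℂ) ≠ 0 := by exact_mod_cast hn
  push_cast
  rw [re_eq]
  have hN := normSq_eq (z t)
  have hN' : (starRingEnd ℂ) (z t) * z t = (‖z t‖ : ℂ) ^ 2 := by rw [mul_comm, hN]; push_cast; rfl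
  simp only [map_mul, Complex.conj_conj]
  field_simp
  linear_combination (-3 * z') * hN'

theorem dg_deriv {z : ℝ → ℂ} {z' d : ℂ} {t : ℝ} (hz : HasDerivAt z z' t) (h0 : z t ≠ 0) :
    HasDerivAt (fun s => dg (z s) d) (ddg (z t) z' d) t := by
  have hn : ‖z t‖ ≠ 0 := norm_ne_zero_iff.mpr h0
  have h1 := norm_deriv hz h0
  have h2 := ((h1.pow 3).inv (pow_ne_zero 3 hn)).const_mul (-(1/2) : ℝ)
  have h3 := h2.smul_const d
  have h4 := ((h1.pow 5).inv (pow_ne_zero 5 hn)).const_mul ((3/2) : ℝ)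
  have h5 := (hz.pow 2).mul_const ((starRingEnd ℂ) d)
  have h6 := h4.smul h5
  have h7 := h3.sub h6
  have e : (fun s => dg (z s) d) = fun s => (-(1/2) * (‖z s‖ ^ 3)⁻¹ : ℝ) • d
      - ((3/2) * (‖z s‖ ^ 5)⁻¹ : ℝ) • (z s ^ 2 * (starRingEnd ℂ) d) := rfl
  rw [e]
  refine HasDerivAt.congr_deriv h7 ?_
  unfold ddg
  simp only [Complex.real_smul, Pi.inv_apply, Pi.pow_apply]
  have hc : (‖z t‖ : ℂ) ≠ 0 := by exact_mod_cast hn
  push_cast
  rw [re_eq]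
  have hN := normSq_eq (z t)
  have hN' : (starRingEnd ℂ) (z t) * z t = (‖z t‖ : ℂ) ^ 2 := by rw [mul_comm, hN]; push_cast; rfl
  simp only [map_mul, Complex.conj_conj]
  field_simp
  linear_combination (60 * z t * z' * (starRingEnd ℂ) d) * hN'

theorem norm_real_smul {c : ℝ} (hc : 0 ≤ c) (w : ℂ) : ‖c • w‖ = c * ‖w‖ := by
  rw [norm_smul, Real.norm_eq_abs, abs_of_nonneg hc]

theorem norm_dg_le {z d : ℂ} {m : ℝ} (hm : 0 < m) (h : m ≤ ‖z‖) : ‖dg z d‖ ≤ 2 / m ^ 3 * ‖d‖ := by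
  have hz : 0 < ‖z‖ := lt_of_lt_of_le hm h
  have e0 : dg z d = -(((1/2) * (‖z‖ ^ 3)⁻¹ : ℝ) • d
      + ((3/2) * (‖z‖ ^ 5)⁻¹ : ℝ) • (z ^ 2 * (starRingEnd ℂ) d)) := by
    unfold dg
    simp only [Complex.real_smul]; push_cast; ring
  rw [e0, norm_neg]
  refine (norm_add_le _ _).trans ?_
  rw [norm_real_smul (by positivity), norm_real_smul (by positivity)]
  have e1 : ‖z ^ 2 * (starRingEnd ℂ) d‖ = ‖z‖ ^ 2 * ‖d‖ := by
    rw [norm_mul, norm_pow, RCLike.norm_conj]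
  rw [e1]
  have e : 3 / 2 * (‖z‖ ^ 5)⁻¹ * (‖z‖ ^ 2 * ‖d‖) = 3 / 2 * (‖z‖ ^ 3)⁻¹ * ‖d‖ := by field_simp
  rw [e]
  have h1 : (‖z‖ ^ 3)⁻¹ ≤ (m ^ 3)⁻¹ := inv_anti₀ (by positivity) (pow_le_pow_left₀ hm.le h 3)
  have h2 : (‖z‖ ^ 3)⁻¹ * ‖d‖ ≤ (m ^ 3)⁻¹ * ‖d‖ := mul_le_mul_of_nonneg_right h1 (norm_nonneg _)
  rw [show 2 / m ^ 3 = 2 * (m ^ 3)⁻¹ from div_eq_mul_inv _ _]
  linarith

theorem norm_ddg_le {z q d : ℂ} {m : ℝ} (hm : 0 < m) (h : m ≤ ‖z‖) :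
    ‖ddg z q d‖ ≤ 6 / m ^ 4 * (‖q‖ * ‖d‖) := by
  have hz : 0 < ‖z‖ := lt_of_lt_of_le hm h
  unfold ddg
  refine (norm_add_le _ _).trans ?_
  have t1 : ‖(starRingEnd ℂ) z * q * d + z * (q * (starRingEnd ℂ) d)
      + z * ((starRingEnd ℂ) q * d)‖ ≤ 3 * (‖z‖ * (‖q‖ * ‖d‖)) := by
    refine (norm_add₃_le).trans ?_
    simp only [norm_mul, RCLike.norm_conj]
    linarith
  have t2 : ‖z ^ 3 * ((starRingEnd ℂ) q * (starRingEnd ℂ) d)‖ = ‖z‖ ^ 3 * (‖q‖ * ‖d‖) := by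
    rw [norm_mul, norm_mul, norm_pow, RCLike.norm_conj, RCLike.norm_conj]
  rw [norm_real_smul (by positivity), norm_real_smul (by positivity), t2]
  have h3 : 3/4 * (‖z‖ ^ 5)⁻¹ * ‖(starRingEnd ℂ) z * q * d + z * (q * (starRingEnd ℂ) d)
      + z * ((starRingEnd ℂ) q * d)‖ ≤ 3/4 * (‖z‖ ^ 5)⁻¹ * (3 * (‖z‖ * (‖q‖ * ‖d‖))) :=
    mul_le_mul_of_nonneg_left t1 (by positivity)
  have e1 : 3/4 * (‖z‖ ^ 5)⁻¹ * (3 * (‖z‖ * (‖q‖ * ‖d‖))) = 9/4 * ((‖z‖ ^ 4)⁻¹ * (‖q‖ * ‖d‖)) := by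
    field_simp; ring
  have e2 : 15/4 * (‖z‖ ^ 7)⁻¹ * (‖z‖ ^ 3 * (‖q‖ * ‖d‖)) = 15/4 * ((‖z‖ ^ 4)⁻¹ * (‖q‖ * ‖d‖)) := by
    field_simp
  rw [e1] at h3
  rw [e2]
  have h1 : (‖z‖ ^ 4)⁻¹ ≤ (m ^ 4)⁻¹ := inv_anti₀ (by positivity) (pow_le_pow_left₀ hm.le h 4)
  have h2 : (‖z‖ ^ 4)⁻¹ * (‖q‖ * ‖d‖) ≤ (m ^ 4)⁻¹ * (‖q‖ * ‖d‖) :=
    mul_le_mul_of_nonneg_right h1 (by positivity)
  rw [show 6 / m ^ 4 = 6 * (m ^ 4)⁻¹ from div_eq_mul_inv _ _]
  linarith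

theorem line_deriv (a d : ℂ) (t : ℝ) : HasDerivAt (fun s : ℝ => a + (s:ℂ) * d) d t := by
  have h := (Complex.ofRealCLM.hasDerivAt (x := t)).mul_const d
  simpa using h.const_add a

theorem ne_of_far {w : ℂ} {m : ℝ} (hm : 0 < m) (h : m ≤ ‖w‖) : w ≠ 0 := by
  intro h0; rw [h0, norm_zero] at h; linarith

theorem stmtB1 : StmtB1 := by
  intro a b m hm h
  have h1 := norm_image_sub_le_of_norm_deriv_le_segment_01'
    (f := fun t : ℝ => gc 0 (a + (t:ℂ) * (b - a)))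
    (f' := fun t => dg (a + (t:ℂ) * (b - a)) (b - a)) (C := 2 / m ^ 3 * ‖b - a‖)
    (fun t ht => (gc_deriv (line_deriv a (b - a) t) (ne_of_far hm (h t ht))).hasDerivWithinAt)
    (fun t ht => norm_dg_le hm (h t ⟨ht.1, ht.2.le⟩))
  simpa using h1

/-- Lipschitz bound of the derivative along a segment -/
theorem dg_lip {w z d : ℂ} {m : ℝ} (hm : 0 < m)
    (h : ∀ t ∈ Icc (0:ℝ) 1, m ≤ ‖z + (t:ℂ) * (w - z)‖) :
    ‖dg w d - dg z d‖ ≤ 6 / m ^ 4 * (‖w - z‖ * ‖d‖) := by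
  have h1 := norm_image_sub_le_of_norm_deriv_le_segment_01'
    (f := fun t : ℝ => dg (z + (t:ℂ) * (w - z)) d)
    (f' := fun t => ddg (z + (t:ℂ) * (w - z)) (w - z) d) (C := 6 / m ^ 4 * (‖w - z‖ * ‖d‖))
    (fun t ht => (dg_deriv (line_deriv z (w - z) t) (ne_of_far hm (h t ht))).hasDerivWithinAt)
    (fun t ht => norm_ddg_le hm (h t ⟨ht.1, ht.2.le⟩))
  simpa using h1

theorem ball_far {z w : ℂ} {ρ : ℝ} (h : ‖w - z‖ ≤ ρ) : ‖z‖ - ρ ≤ ‖w‖ := by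
  have := norm_sub_norm_le z w
  rw [norm_sub_rev] at this
  linarith

theorem dg_sub (z d e : ℂ) : dg z (d - e) = dg z d - dg z e := by
  unfold dg; simp only [map_sub, Complex.real_smul]; ring

theorem dg_smul (z d : ℂ) (t : ℝ) : dg z ((t:ℂ) * d) = (t:ℂ) * dg z d := by
  unfold dg; simp only [map_mul, Complex.conj_ofReal, Complex.real_smul]; ring

theorem stmtB2 : StmtB2 := by
  intro z a b ρ h0 h1 ha hb
  have hm : 0 < ‖z‖ - ρ := by linarith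
  have hseg : ∀ t ∈ Icc (0:ℝ) 1, ‖a + (t:ℂ) * (b - a) - z‖ ≤ ρ := by
    intro t ht
    have e : a + (t:ℂ) * (b - a) - z = ((1 - t : ℝ) : ℂ) * (a - z) + (t:ℂ) * (b - z) := by
      push_cast; ring
    rw [e]
    refine (norm_add_le _ _).trans ?_
    rw [norm_mul, norm_mul, Complex.norm_real, Complex.norm_real, Real.norm_eq_abs,
      Real.norm_eq_abs, abs_of_nonneg (by linarith [ht.2]), abs_of_nonneg ht.1]
    nlinarith [ht.1, ht.2]
  have hd : ∀ t : ℝ, HasDerivAt (fun s : ℝ => (s:ℂ) * dg z (b - a)) (dg z (b - a)) t := by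
    intro t
    simpa using (Complex.ofRealCLM.hasDerivAt (x := t)).mul_const (dg z (b - a))
  have h2 := norm_image_sub_le_of_norm_deriv_le_segment_01'
    (f := fun t : ℝ => gc 0 (a + (t:ℂ) * (b - a)) - (t:ℂ) * dg z (b - a))
    (f' := fun t => dg (a + (t:ℂ) * (b - a)) (b - a) - dg z (b - a))
    (C := 6 * ρ / (‖z‖ - ρ) ^ 4 * ‖b - a‖)
    (fun t ht => ((gc_deriv (line_deriv a (b - a) t) (ne_of_far hm (ball_far (hseg t ht)))).sub
      (hd t)).hasDerivWithinAt)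
    (fun t ht => by
      have hw := hseg t ⟨ht.1, ht.2.le⟩
      have h3 := dg_lip (w := a + (t:ℂ) * (b - a)) (z := z) (d := b - a) hm (by
        intro s hs
        apply ball_far
        have e : z + (s:ℂ) * (a + (t:ℂ) * (b - a) - z) - z = (s:ℂ) * (a + (t:ℂ) * (b - a) - z) := by
          ring
        rw [e, norm_mul, Complex.norm_real, Real.norm_eq_abs, abs_of_nonneg hs.1]
        nlinarith [hs.2, norm_nonneg (a + (t:ℂ) * (b - a) - z)])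
      refine h3.trans ?_
      have h4 : ‖a + (t:ℂ) * (b - a) - z‖ * ‖b - a‖ ≤ ρ * ‖b - a‖ :=
        mul_le_mul_of_nonneg_right hw (norm_nonneg _)
      have h5 : 6 / (‖z‖ - ρ) ^ 4 * (‖a + (t:ℂ) * (b - a) - z‖ * ‖b - a‖)
          ≤ 6 / (‖z‖ - ρ) ^ 4 * (ρ * ‖b - a‖) := mul_le_mul_of_nonneg_left h4 (by positivity)
      refine h5.trans (le_of_eq ?_)
      ring)
  have e : gc 0 b - gc 0 a - dg z (b - a)
      = (gc 0 (a + ((1:ℝ):ℂ) * (b - a)) - ((1:ℝ):ℂ) * dg z (b - a))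
        - (gc 0 (a + ((0:ℝ):ℂ) * (b - a)) - ((0:ℝ):ℂ) * dg z (b - a)) := by
    push_cast
    rw [one_mul, zero_mul, zero_mul, one_mul, add_zero, sub_zero, add_sub_cancel]
    ring
  rw [e]
  exact h2

/-- fencing: `f 0 = 0` and `‖f' t‖ ≤ B' t` imply `‖f 1‖ ≤ B 1` -/
theorem fence {f f' : ℝ → ℂ} {B B' : ℝ → ℝ} (h0 : ‖f 0‖ ≤ B 0)
    (hf : ∀ t ∈ Icc (0:ℝ) 1, HasDerivAt f (f' t) t) (hB : ∀ t, HasDerivAt B (B' t) t)
    (hb : ∀ t ∈ Ico (0:ℝ) 1, ‖f' t‖ ≤ B' t) : ∀ t ∈ Icc (0:ℝ) 1, ‖f t‖ ≤ B t :=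
  image_norm_le_of_norm_deriv_right_le_deriv_boundary
    (fun t ht => (hf t ht).continuousAt.continuousWithinAt)
    (fun t ht => (hf t ⟨ht.1, ht.2.le⟩).hasDerivWithinAt) h0
    (fun t => hB t) (fun t ht => hb t ht)

theorem quad_rem {z d : ℂ} (h : ‖d‖ < ‖z‖) {t : ℝ} (ht : t ∈ Icc (0:ℝ) 1) :
    ‖gc 0 (z + (t:ℂ) * d) - gc 0 z - (t:ℂ) * dg z d‖ ≤ 3 / (‖z‖ - ‖d‖) ^ 4 * ‖d‖ ^ 2 * t ^ 2 := by
  have hm : 0 < ‖z‖ - ‖d‖ := by linarith
  have hfar : ∀ s ∈ Icc (0:ℝ) 1, ‖z‖ - ‖d‖ ≤ ‖z + (s:ℂ) * d‖ := by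
    intro s hs
    apply ball_far
    have e : z + (s:ℂ) * d - z = (s:ℂ) * d := by ring
    rw [e, norm_mul, Complex.norm_real, Real.norm_eq_abs, abs_of_nonneg hs.1]
    nlinarith [hs.2, norm_nonneg d]
  have hd : ∀ t : ℝ, HasDerivAt (fun s : ℝ => (s:ℂ) * dg z d) (dg z d) t := by
    intro t
    simpa using (Complex.ofRealCLM.hasDerivAt (x := t)).mul_const (dg z d)
  refine fence (f := fun t : ℝ => gc 0 (z + (t:ℂ) * d) - gc 0 z - (t:ℂ) * dg z d)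
    (f' := fun t => dg (z + (t:ℂ) * d) d - dg z d)
    (B := fun t => 3 / (‖z‖ - ‖d‖) ^ 4 * ‖d‖ ^ 2 * t ^ 2)
    (B' := fun t => 3 / (‖z‖ - ‖d‖) ^ 4 * ‖d‖ ^ 2 * (2 * t)) ?_ ?_ ?_ ?_ t ht
  · simp
  · intro s hs
    exact ((gc_deriv (line_deriv z d s) (ne_of_far hm (hfar s hs))).sub_const _).sub (hd s)
  · intro s
    have : HasDerivAt (fun t : ℝ => t ^ 2) (2 * s) s := by simpa using hasDerivAt_pow 2 s
    exact this.const_mul _
  · intro s hs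
    have h3 := dg_lip (w := z + (s:ℂ) * d) (z := z) (d := d) hm (by
      intro r hr
      have e : z + (r:ℂ) * (z + (s:ℂ) * d - z) = z + ((r * s : ℝ) : ℂ) * d := by push_cast; ring
      rw [e]
      exact hfar _ ⟨mul_nonneg hr.1 hs.1, mul_le_one₀ hr.2 hs.1 hs.2.le⟩)
    refine h3.trans (le_of_eq ?_)
    have e : z + (s:ℂ) * d - z = (s:ℂ) * d := by ring
    rw [e, norm_mul, Complex.norm_real, Real.norm_eq_abs, abs_of_nonneg hs.1]
    ring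

theorem stmtB2' : StmtB2' := by
  intro z d h
  have := quad_rem h (t := 1) ⟨by norm_num, le_refl _⟩
  simpa using this

/-- Taylor formula with Lipschitz derivative, `t` and `q` in `[0,1]` -/
theorem taylor2 {f f' : ℝ → ℂ} {M : ℝ} (hf : ∀ t ∈ Icc (0:ℝ) 1, HasDerivAt f (f' t) t)
    (hM : ∀ s ∈ Icc (0:ℝ) 1, ∀ t ∈ Icc (0:ℝ) 1, ‖f' s - f' t‖ ≤ M * |s - t|)
    {q t : ℝ} (hq : q ∈ Icc (0:ℝ) 1) (ht : t ∈ Icc (0:ℝ) 1) :
    ‖f t - f q - ((t - q : ℝ) : ℂ) * f' q‖ ≤ M / 2 * (t - q) ^ 2 := by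
  have hin : ∀ s ∈ Icc (0:ℝ) 1, q + s * (t - q) ∈ Icc (0:ℝ) 1 := by
    intro s hs
    have e : q + s * (t - q) = (1 - s) * q + s * t := by ring
    rw [e]
    constructor <;> nlinarith [hs.1, hs.2, hq.1, hq.2, ht.1, ht.2]
  have hlin : ∀ s : ℝ, HasDerivAt (fun s : ℝ => q + s * (t - q)) (t - q) s := by
    intro s
    simpa using ((hasDerivAt_id s).mul_const (t - q)).const_add q
  have hd : ∀ s : ℝ, HasDerivAt (fun s : ℝ => (s:ℂ) * (((t - q : ℝ) : ℂ) * f' q))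
      (((t - q : ℝ) : ℂ) * f' q) s := by
    intro s
    simpa using (Complex.ofRealCLM.hasDerivAt (x := s)).mul_const (((t - q : ℝ) : ℂ) * f' q)
  have key := fence (f := fun s : ℝ => f (q + s * (t - q)) - f q - (s:ℂ) * (((t - q : ℝ) : ℂ) * f' q))
    (f' := fun s => (t - q) • f' (q + s * (t - q)) - ((t - q : ℝ) : ℂ) * f' q)
    (B := fun s => M / 2 * (t - q) ^ 2 * s ^ 2) (B' := fun s => M / 2 * (t - q) ^ 2 * (2 * s))
    (by simp)
    (fun s hs => (((hf _ (hin s hs)).scomp s (hlin s)).sub_const _).sub (hd s))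
    (fun s => by
      have : HasDerivAt (fun t : ℝ => t ^ 2) (2 * s) s := by simpa using hasDerivAt_pow 2 s
      exact this.const_mul _)
    (fun s hs => by
      have h1 := hM _ (hin s ⟨hs.1, hs.2.le⟩) q hq
      have e : (t - q) • f' (q + s * (t - q)) - ((t - q : ℝ) : ℂ) * f' q
          = ((t - q : ℝ) : ℂ) * (f' (q + s * (t - q)) - f' q) := by
        rw [Complex.real_smul]; ring
      rw [e, norm_mul, Complex.norm_real, Real.norm_eq_abs]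
      have e2 : q + s * (t - q) - q = s * (t - q) := by ring
      rw [e2, abs_mul, abs_of_nonneg hs.1] at h1
      have h2 := mul_le_mul_of_nonneg_left h1 (abs_nonneg (t - q))
      refine h2.trans (le_of_eq ?_)
      have e3 : |t - q| * |t - q| = (t - q) ^ 2 := by rw [← sq, sq_abs]
      calc |t - q| * (M * (s * |t - q|)) = M * s * (|t - q| * |t - q|) := by ring
        _ = M / 2 * (t - q) ^ 2 * (2 * s) := by rw [e3]; ring) 1 ⟨by norm_num, le_refl _⟩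
  simpa using key

theorem stmtB3 : StmtB3 := by
  intro a b m q hm hq h
  set M := 6 / m ^ 4 * (‖b - a‖ * ‖b - a‖) with hM
  have hf : ∀ t ∈ Icc (0:ℝ) 1, HasDerivAt (fun t : ℝ => gc 0 (a + (t:ℂ) * (b - a)))
      (dg (a + (t:ℂ) * (b - a)) (b - a)) t := fun t ht =>
    gc_deriv (line_deriv a (b - a) t) (ne_of_far hm (h t ht))
  have hL : ∀ s ∈ Icc (0:ℝ) 1, ∀ t ∈ Icc (0:ℝ) 1,
      ‖dg (a + (s:ℂ) * (b - a)) (b - a) - dg (a + (t:ℂ) * (b - a)) (b - a)‖ ≤ M * |s - t| := by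
    intro s hs t ht
    have h1 := dg_lip (w := a + (s:ℂ) * (b - a)) (z := a + (t:ℂ) * (b - a)) (d := b - a) hm (by
      intro r hr
      have e : a + (t:ℂ) * (b - a) + (r:ℂ) * (a + (s:ℂ) * (b - a) - (a + (t:ℂ) * (b - a)))
          = a + (((1 - r) * t + r * s : ℝ) : ℂ) * (b - a) := by push_cast; ring
      rw [e]
      apply h
      constructor <;> nlinarith [hs.1, hs.2, hr.1, hr.2, ht.1, ht.2])
    refine h1.trans (le_of_eq ?_)
    have e : a + (s:ℂ) * (b - a) - (a + (t:ℂ) * (b - a)) = ((s - t : ℝ) : ℂ) * (b - a) := by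
      push_cast; ring
    rw [e, norm_mul, Complex.norm_real, Real.norm_eq_abs, hM]
    ring
  have t0 := taylor2 hf hL hq (t := 0) ⟨le_refl _, by norm_num⟩
  have t1 := taylor2 hf hL hq (t := 1) ⟨by norm_num, le_refl _⟩
  have hM0 : 0 ≤ M := by rw [hM]; positivity
  have e : ((1 - q : ℝ) : ℂ) * gc 0 a + (q : ℂ) * gc 0 b - gc 0 (a + (q:ℂ) * (b - a))
      = ((1 - q : ℝ) : ℂ) * (gc 0 (a + ((0:ℝ):ℂ) * (b - a)) - gc 0 (a + (q:ℂ) * (b - a))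
          - ((0 - q : ℝ) : ℂ) * dg (a + (q:ℂ) * (b - a)) (b - a))
        + (q:ℂ) * (gc 0 (a + ((1:ℝ):ℂ) * (b - a)) - gc 0 (a + (q:ℂ) * (b - a))
          - ((1 - q : ℝ) : ℂ) * dg (a + (q:ℂ) * (b - a)) (b - a)) := by
    push_cast
    rw [zero_mul, one_mul, add_zero, add_sub_cancel]
    ring
  rw [e]
  refine (norm_add_le _ _).trans ?_
  rw [norm_mul, norm_mul, Complex.norm_real, Complex.norm_real, Real.norm_eq_abs,
    Real.norm_eq_abs, abs_of_nonneg (by linarith [hq.2]), abs_of_nonneg hq.1]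
  have k0 := mul_le_mul_of_nonneg_left t0 (show 0 ≤ 1 - q by linarith [hq.2])
  have k1 := mul_le_mul_of_nonneg_left t1 hq.1
  refine (add_le_add k0 k1).trans ?_
  have e2 : (1 - q) * (M / 2 * (0 - q) ^ 2) + q * (M / 2 * (1 - q) ^ 2) = M / 2 * (q * (1 - q)) := by
    ring
  rw [e2]
  have h4 : q * (1 - q) ≤ 1/4 := by nlinarith [sq_nonneg (q - 1/2)]
  have h5 := mul_le_mul_of_nonneg_left h4 (show 0 ≤ M / 2 by positivity)
  refine h5.trans (le_of_eq ?_)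
  rw [hM]; ring

theorem inv_norm_deriv {z : ℝ → ℂ} {z' : ℂ} {t : ℝ} (hz : HasDerivAt z z' t) (h0 : z t ≠ 0) :
    HasDerivAt (fun s => 1 / ‖z s‖) (-(gc 0 (z t) * (starRingEnd ℂ) z').re) t := by
  have hn : ‖z t‖ ≠ 0 := norm_ne_zero_iff.mpr h0
  have h1 := (norm_deriv hz h0).inv hn
  have e : (fun s => 1 / ‖z s‖) = (fun s => ‖z s‖)⁻¹ := by funext s; simp
  rw [e]
  refine h1.congr_deriv ?_
  rw [gc0, Complex.real_smul, mul_assoc, Complex.re_ofReal_mul]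
  field_simp

theorem stmtB4 : StmtB4 := by
  intro z d hz hd
  have hm : 0 < 1 - ‖d‖ := by linarith
  have hfar : ∀ s ∈ Icc (0:ℝ) 1, 1 - ‖d‖ ≤ ‖z + (s:ℂ) * d‖ := by
    intro s hs
    rw [← hz]
    apply ball_far
    have e : z + (s:ℂ) * d - z = (s:ℂ) * d := by ring
    rw [e, norm_mul, Complex.norm_real, Real.norm_eq_abs, abs_of_nonneg hs.1]
    nlinarith [hs.2, norm_nonneg d]
  set p0 : ℝ := -(gc 0 z * (starRingEnd ℂ) d).re with hp0
  set p1 : ℝ := -(dg z d * (starRingEnd ℂ) d).re with hp1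
  have key := fence (f := fun t : ℝ => ((1 / ‖z + (t:ℂ) * d‖ - (1 + t * p0 + t ^ 2 / 2 * p1) : ℝ) : ℂ))
    (f' := fun t => ((-(gc 0 (z + (t:ℂ) * d) * (starRingEnd ℂ) d).re - (p0 + t * p1) : ℝ) : ℂ))
    (B := fun t => ‖d‖ ^ 3 / (1 - ‖d‖) ^ 4 * t ^ 3)
    (B' := fun t => ‖d‖ ^ 3 / (1 - ‖d‖) ^ 4 * (3 * t ^ 2))
    (by simp [hz])
    (fun s hs => by
      have h1 := inv_norm_deriv (line_deriv z d s) (ne_of_far hm (hfar s hs))
      have h2 : HasDerivAt (fun t : ℝ => 1 + t * p0 + t ^ 2 / 2 * p1) (p0 + s * p1) s := by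
        have a1 : HasDerivAt (fun t : ℝ => t * p0) p0 s := by
          simpa using (hasDerivAt_id s).mul_const p0
        have a2 : HasDerivAt (fun t : ℝ => t ^ 2 / 2 * p1) (s * p1) s := by
          have := ((hasDerivAt_pow 2 s).div_const 2).mul_const p1
          refine this.congr_deriv ?_
          simp
        exact (a1.const_add 1).add a2
      exact (h1.sub h2).ofReal_comp)
    (fun s => by
      have : HasDerivAt (fun t : ℝ => t ^ 3) (3 * s ^ 2) s := by simpa using hasDerivAt_pow 3 s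
      exact this.const_mul _)
    (fun s hs => by
      have h1 := quad_rem (z := z) (d := d) (by rw [hz]; exact hd) (t := s) ⟨hs.1, hs.2.le⟩
      rw [hz] at h1
      rw [Complex.norm_real, Real.norm_eq_abs]
      have e : -(gc 0 (z + (s:ℂ) * d) * (starRingEnd ℂ) d).re - (p0 + s * p1)
          = -((gc 0 (z + (s:ℂ) * d) - gc 0 z - (s:ℂ) * dg z d) * (starRingEnd ℂ) d).re := by
        rw [hp0, hp1]
        simp only [sub_mul, sub_re, mul_assoc, Complex.re_ofReal_mul]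
        ring
      rw [e, abs_neg]
      refine (Complex.abs_re_le_norm _).trans ?_
      rw [norm_mul, RCLike.norm_conj]
      have h2 := mul_le_mul_of_nonneg_right h1 (norm_nonneg d)
      refine h2.trans (le_of_eq ?_)
      ring) 1 ⟨by norm_num, le_refl _⟩
  simp only [Complex.norm_real, Real.norm_eq_abs, ofReal_one, one_mul, one_pow, mul_one] at key
  have e0 : p0 = -(z * (starRingEnd ℂ) d).re := by
    rw [hp0, gc0, hz]; simp
  have e1 : p1 = 3 * ((z * (starRingEnd ℂ) d).re) ^ 2 - ‖d‖ ^ 2 := by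
    rw [hp1]
    unfold dg
    rw [hz]
    have hn : ‖z‖ ^ 2 = 1 := by rw [hz]; norm_num
    have hn' : ‖d‖ ^ 2 = d.re * d.re + d.im * d.im := by
      rw [← Complex.normSq_eq_norm_sq, Complex.normSq_apply]
    have hnz : z.re * z.re + z.im * z.im = 1 := by
      rw [← Complex.normSq_apply, Complex.normSq_eq_norm_sq, hn]
    rw [hn']
    simp [pow_two]
    linear_combination (-(3/2) * (d.re * d.re + d.im * d.im)) * hnz
  rw [e0, e1] at key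
  have e2 : 1 + -(z * (starRingEnd ℂ) d).re + 1 / 2 * (3 * (z * (starRingEnd ℂ) d).re ^ 2 - ‖d‖ ^ 2)
      = 1 - (z * (starRingEnd ℂ) d).re + (3 * (z * (starRingEnd ℂ) d).re ^ 2 - ‖d‖ ^ 2) / 2 := by ring
  rw [e2] at key
  exact key

end Run7.h874
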