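import Pool.Agent.Run7.h874.Cst
import Pool.Agent.Run7.h874.PieceB
import Pool.Agent.Run7.h874.Stp

/-!
# Piece C: hub algebra
-/

set_option autoImplicit false
set_option exponentiation.threshold 1000000

namespace Run7.h874

open Complex Set

/-! ### algebraic relations -/

theorem r3 : Real.sqrt 3 * Real.sqrt 3 = 3 := Real.mul_self_sqrt (by norm_num)
theorem r23 : Real.sqrt 23 * Real.sqrt 23 = 23 := Real.mul_self_sqrt (by norm_num)

theorem s3_bounds : 1.732 < Real.sqrt 3 ∧ Real.sqrt 3 < 1.7321 := by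
  constructor
  · rw [Real.lt_sqrt (by norm_num)]; norm_num
  · rw [Real.sqrt_lt' (by norm_num)]; norm_num

theorem al_sq : al * al = (3 * Real.sqrt 3 / 4 - 1/2) / 2 := by
  unfold al
  apply Real.mul_self_sqrt
  linarith [s3_bounds.1]

theorem be_sq : be * be = (3 * Real.sqrt 3 / 4 + 1/2) / 2 := by
  unfold be
  apply Real.mul_self_sqrt
  linarith [s3_bounds.1]

theorem al_be : al * be = Real.sqrt 23 / 8 := by
  have h1 : 0 ≤ al := Real.sqrt_nonneg _
  have h2 : 0 ≤ be := Real.sqrt_nonneg _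
  have h3 : 0 ≤ Real.sqrt 23 := Real.sqrt_nonneg _
  have h4 : (al * be) ^ 2 = (Real.sqrt 23 / 8) ^ 2 := by
    have e : (al * be) ^ 2 = (al * al) * (be * be) := by ring
    rw [e, al_sq, be_sq]
    linear_combination (9/64) * r3 - (1/64) * r23
  exact (sq_eq_sq₀ (by positivity) (by positivity)).mp h4

theorem sq_sum : al * al + be * be = 3 / 4 * Real.sqrt 3 := by rw [al_sq, be_sq]; ring
theorem sq_diff : be * be - al * al = 1/2 := by rw [al_sq, be_sq]; ring

theorem stmtC5 : StmtC5 := by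
  have h1 := abs_le.mp e_al
  have h2 := abs_le.mp e_be
  refine ⟨⟨?_, ?_⟩, ⟨?_, ?_⟩, ?_, ?_⟩
  · have : (0.632 : ℝ) < n_al - tau := by unfold n_al tau; norm_num
    linarith [h1.1]
  · have : n_al + tau < (0.6321 : ℝ) := by unfold n_al tau; norm_num
    linarith [h1.2]
  · have : (0.948 : ℝ) < n_be - tau := by unfold n_be tau; norm_num
    linarith [h2.1]
  · have : n_be + tau < (0.9485 : ℝ) := by unfold n_be tau; norm_num
    linarith [h2.2]
  · linear_combination -sq_diff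
  · linear_combination 2 * al_be

theorem lam_l1 : lam * l1 = 3/4 := by
  rw [lam_eq, l1_eq]
  apply Complex.ext
  · simp
    linear_combination (Real.sqrt 3 / 3) * sq_sum + (1/4) * r3
  · simp; ring

theorem l1_l4 : l1 - 2 * l4 = lam := by
  rw [lam_eq, l1_eq, l4_eq]
  apply Complex.ext <;> simp <;> ring

theorem l2_lam : l2 + 2 = lam * l4 := by
  rw [lam_eq, l2_eq, l4_eq]
  apply Complex.ext
  · simp
    linear_combination (-(Real.sqrt 3) / 6) * sq_sum - (1/8) * r3 - (1/2) * sq_diff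
  · simp
    linear_combination (1:ℝ) * al_be

theorem l4_l2 : (9/4) * l4 = lam * l2 := by
  have h0 : lam ≠ 0 := by
    intro h
    have := lam_l1
    rw [h, zero_mul] at this
    norm_num at this
  have h1 := l2_lam
  have h2 : lam * lam = ⟨-1/2, Real.sqrt 23 / 4⟩ := by
    rw [lam_eq]
    apply Complex.ext
    · simp; linear_combination -sq_diff
    · simp; linear_combination 2 * al_be
  apply mul_left_cancel₀ h0
  have e1 : lam * ((9/4) * l4) = (9/4) * (l2 + 2) := by rw [h1]; ring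
  have e2 : lam * (lam * l2) = (lam * lam) * l2 := by ring
  rw [e1, e2, h2, l2_eq]
  apply Complex.ext
  · simp
    norm_num
    linear_combination (-(1/32) : ℝ) * r23
  · simp
    ring

theorem stmtC1 : StmtC1 := by
  constructor
  · intro ζ v n
    have a1 := lam_l1
    have a2 := l1_l4
    have a3 := l2_lam
    have a4 := l4_l2
    have ere : ((-2 * I * v + (3/2) * ζ - (3/4) * (starRingEnd ℂ) ζ + n).re : ℂ)
        = 2 * (v.im : ℂ) + (3/4) * (ζ.re : ℂ) + (n.re : ℂ) := by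
      have : (-2 * I * v + (3/2) * ζ - (3/4) * (starRingEnd ℂ) ζ + n).re
        = 2 * v.im + (3/4) * ζ.re + n.re := by simp; ring
      rw [this]; push_cast; ring
    have eim : ((-2 * I * v + (3/2) * ζ - (3/4) * (starRingEnd ℂ) ζ + n).im : ℂ)
        = -2 * (v.re : ℂ) + (9/4) * (ζ.im : ℂ) + (n.im : ℂ) := by
      have : (-2 * I * v + (3/2) * ζ - (3/4) * (starRingEnd ℂ) ζ + n).im
        = -2 * v.re + (9/4) * ζ.im + n.im := by simp; ring
      rw [this]; push_cast; ring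
    unfold uc
    rw [ere, eim]
    simp only [zero_re, zero_im, ofReal_zero, mul_zero, zero_add]
    linear_combination (-I * kap * (v.re : ℂ)) * a2 + (-I * kap * (v.im : ℂ)) * a3
      - (-I * kap * (ζ.re : ℂ)) * a1 + (-I * kap * (ζ.im : ℂ)) * a4
  · intro ζ v n
    have a1 := congrArg (starRingEnd ℂ) lam_l1
    have a2 := congrArg (starRingEnd ℂ) l1_l4
    have a3 := congrArg (starRingEnd ℂ) l2_lam
    have a4 := congrArg (starRingEnd ℂ) l4_l2
    simp only [map_mul, map_sub, map_add, map_div₀, map_ofNat] at a1 a2 a3 a4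
    have ere : ((-2 * I * v + (3/2) * ζ - (3/4) * (starRingEnd ℂ) ζ + n).re : ℂ)
        = 2 * (v.im : ℂ) + (3/4) * (ζ.re : ℂ) + (n.re : ℂ) := by
      have : (-2 * I * v + (3/2) * ζ - (3/4) * (starRingEnd ℂ) ζ + n).re
        = 2 * v.im + (3/4) * ζ.re + n.re := by simp; ring
      rw [this]; push_cast; ring
    have eim : ((-2 * I * v + (3/2) * ζ - (3/4) * (starRingEnd ℂ) ζ + n).im : ℂ)
        = -2 * (v.re : ℂ) + (9/4) * (ζ.im : ℂ) + (n.im : ℂ) := by
      have : (-2 * I * v + (3/2) * ζ - (3/4) * (starRingEnd ℂ) ζ + n).im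
        = -2 * v.re + (9/4) * ζ.im + n.im := by simp; ring
      rw [this]; push_cast; ring
    unfold sc
    rw [ere, eim]
    simp only [zero_re, zero_im, ofReal_zero, mul_zero, zero_add]
    linear_combination (-(v.re : ℂ)) * a2 + ((v.im : ℂ)) * a3
      - ((ζ.re : ℂ)) * a1 - ((ζ.im : ℂ)) * a4

/-! ### coordinates -/

theorem nsq_mk (a b : ℝ) : ‖(⟨a, b⟩ : ℂ)‖ ^ 2 = a ^ 2 + b ^ 2 := by
  rw [← Complex.normSq_eq_norm_sq, Complex.normSq_mk]; ring

theorem uc_lin (X Y p q : ℝ) : uc (⟨X, Y⟩ : ℂ) ⟨p, q⟩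
    = ⟨K1 * X + K2 * Y + K3 * p + K4 * q, -(B1 * X + p / 2 + B4 * q)⟩ := by
  have h := uc_num X (Y + Real.sqrt 3 / 2) p q
  have e : (⟨X, Y + Real.sqrt 3 / 2⟩ : ℂ) - hubZ = ⟨X, Y⟩ := by
    apply Complex.ext <;> simp [hubZ]
  rw [e] at h
  rw [h]
  apply Complex.ext
  · simp only
    unfold K2 K0
    ring
  · rfl

theorem sc_lin (X Y p q : ℝ) : sc (⟨X, Y⟩ : ℂ) ⟨p, q⟩
    = ⟨-(C1 * X) - 11/8 * Y + p - C4 * q, -(C2 * X) + C3 * Y - C5 * q⟩ := by
  have h := sc_num X (Y + Real.sqrt 3 / 2) p q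
  have e : (⟨X, Y + Real.sqrt 3 / 2⟩ : ℂ) - hubZ = ⟨X, Y⟩ := by
    apply Complex.ext <;> simp [hubZ]
  rw [e] at h
  rw [h]
  apply Complex.ext
  · simp only
    unfold C0
    ring
  · simp only
    unfold C3 D0
    ring

theorem k_C3 : K3 * C3 = 11/16 := by unfold K3 C3; linear_combination (11/368) * r23
theorem eK1 : K1 = K3 * C1 - C2 / 2 := by unfold K1 K3 C1 C2; ring
theorem eK2 : K2 = -11/8 * K3 - C3 / 2 := by unfold K2 K3 C3; ring
theorem eK4 : K4 = K3 * C4 - C5 / 2 := by unfold K4 K3 C4 C5; ring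
theorem eB1 : B1 = K3 * C2 + C1 / 2 := by unfold B1 K3 C2 C1; ring
theorem eB4 : B4 = K3 * C5 + C4 / 2 := by unfold B4 K3 C5 C4; ring
theorem c12 : K3 * (C1 * C2) = 11/48 := by
  unfold K3 C1 C2
  linear_combination (11/46 * Real.sqrt 23 / 9 * (al * be)) * r3 + (11/138 * Real.sqrt 23) * al_be
    + (11/1104) * r23
theorem c22 : C2 * C2 - C1 * C1 = 1/6 := by
  unfold C1 C2
  linear_combination ((be * be - al * al) / 9) * r3 + (1/3) * sq_diff
theorem c45 : K3 * (C4 * C5) = -11/96 := by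
  unfold K3 C4 C5
  linear_combination (11/46 * Real.sqrt 23 / 36 * (al * be)) * r3 - (11/276 * Real.sqrt 23) * al_be
    - (11/2208) * r23
theorem c55 : C5 * C5 - C4 * C4 = 13/24 := by
  unfold C4 C5
  linear_combination ((be * be - al * al) / 36) * r3 + (1/3) * sq_diff + (Real.sqrt 3 / 6) * sq_sum
    + (1/8) * r3
theorem c15 : K3 * (C1 * C5 + C4 * C2) = 11/48 := by
  unfold K3 C1 C2 C4 C5
  linear_combination (11/46 * Real.sqrt 23 / 9 * (al * be)) * r3 + (11/138 * Real.sqrt 23) * al_be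
    + (11/1104) * r23
theorem c25 : C2 * C5 - C1 * C4 = 11/24 := by
  unfold C1 C2 C4 C5
  linear_combination ((be * be - al * al) / 18) * r3 + (1/6) * sq_diff + (Real.sqrt 3 / 6) * sq_sum
    + (1/8) * r3

theorem c33 : C3 * C3 = 23/64 := by unfold C3; linear_combination (1/64) * r23

theorem stmtC3 : StmtC3 := by
  intro ζ v
  obtain ⟨X, Y⟩ := ζ
  obtain ⟨p, q⟩ := v
  rw [uc_lin, sc_lin, nsq_mk]
  simp only [mul_im, conj_re, conj_im]
  rw [eK1, eK2, eK4, eB1, eB4]
  linear_combination (-2 * X ^ 2) * c12 + (X ^ 2 / 2) * c22 + (-2 * q ^ 2) * c45 + (q ^ 2 / 2) * c55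
    + (-2 * X * q) * c15 + (X * q) * c25 + (C1 * X * Y + Y * p + C4 * q * Y - 11/8 * Y ^ 2) * k_C3
    - (Y ^ 2 / 2) * c33

end Run7.h874
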