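import Pool.Agent.Run7.h874.PieceC

/-!
# Piece C2: norm bounds for the hub coordinates
-/

set_option autoImplicit false
set_option exponentiation.threshold 1000000

namespace Run7.h874

open Complex Set

theorem inv_X (X Y p q : ℝ) : X = 4/3 * (C2 * (K1 * X + K2 * Y + K3 * p + K4 * q)
    - C1 * (-(B1 * X + p / 2 + B4 * q)) - B1 * (-(C1 * X) - 11/8 * Y + p - C4 * q)
    - K1 * (-(C2 * X) + C3 * Y - C5 * q)) := by
  rw [eK1, eK2, eK4, eB1, eB4]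
  linear_combination (-(4/3)) * (4 * X * c12 - X * c22 - C1 * Y * k_C3 + q * (2 * c15 - c25))

theorem inv_Y (X Y p q : ℝ) : Y = 4/9 * (-C3 * (K1 * X + K2 * Y + K3 * p + K4 * q)
    - 11/8 * (-(B1 * X + p / 2 + B4 * q))
    - K2 * (-(C2 * X) + C3 * Y - C5 * q)) := by
  rw [eK1, eK2, eK4, eB1, eB4]
  linear_combination (-(4/9)) * (-C1 * X * k_C3 + 11/4 * Y * k_C3 + Y * c33 - p * k_C3 - C4 * q * k_C3)

theorem inv_p (X Y p q : ℝ) : p = -(-(B1 * X + p / 2 + B4 * q))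
    + 1/2 * (-(C1 * X) - 11/8 * Y + p - C4 * q) + K3 * (-(C2 * X) + C3 * Y - C5 * q) := by
  rw [eB1, eB4]
  linear_combination (-Y) * k_C3

theorem inv_q (X Y p q : ℝ) : q = -C5 * (K1 * X + K2 * Y + K3 * p + K4 * q)
    + C4 * (-(B1 * X + p / 2 + B4 * q)) + B4 * (-(C1 * X) - 11/8 * Y + p - C4 * q)
    + K4 * (-(C2 * X) + C3 * Y - C5 * q) := by
  rw [eK1, eK2, eK4, eB1, eB4]
  linear_combination (-1) * (X * (-2 * c15 + c25) + C4 * Y * k_C3 + q * (-4 * c45 + c55))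

theorem abs_add_le_two_norm (x y : ℝ) : |x| + |y| ≤ 2 * ‖(⟨x, y⟩ : ℂ)‖ := by
  have h1 := Complex.abs_re_le_norm (⟨x, y⟩ : ℂ)
  have h2 := Complex.abs_im_le_norm (⟨x, y⟩ : ℂ)
  simp only at h1 h2
  linarith

theorem nmk_le (a b : ℝ) : ‖(⟨a, b⟩ : ℂ)‖ ≤ |a| + |b| := by
  have := Complex.norm_le_abs_re_add_abs_im (⟨a, b⟩ : ℂ)
  simpa using this

theorem blk {a b c d a' b' c' d' M' M : ℝ} (ha : |a - a'| ≤ 1/10^7) (hb : |b - b'| ≤ 1/10^7)
    (hc : |c - c'| ≤ 1/10^7) (hd : |d - d'| ≤ 1/10^7) (hM' : 0 ≤ M')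
    (hα : 0 < M' ^ 2 - (a' ^ 2 + c' ^ 2))
    (hβ : (a' * b' + c' * d') ^ 2 ≤ (M' ^ 2 - (a' ^ 2 + c' ^ 2)) * (M' ^ 2 - (b' ^ 2 + d' ^ 2)))
    (hM : M' + 4/10^7 ≤ M) (x y : ℝ) :
    ‖(⟨a * x + b * y, c * x + d * y⟩ : ℂ)‖ ≤ M * ‖(⟨x, y⟩ : ℂ)‖ := by
  have e : (⟨a * x + b * y, c * x + d * y⟩ : ℂ) = ⟨a' * x + b' * y, c' * x + d' * y⟩
      + ⟨(a - a') * x + (b - b') * y, (c - c') * x + (d - d') * y⟩ := by
    apply Complex.ext <;> simp <;> ring
  rw [e]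
  refine (norm_add_le _ _).trans ?_
  have n0 := norm_nonneg (⟨x, y⟩ : ℂ)
  have h1 : ‖(⟨a' * x + b' * y, c' * x + d' * y⟩ : ℂ)‖ ≤ M' * ‖(⟨x, y⟩ : ℂ)‖ := by
    rw [← sq_le_sq₀ (norm_nonneg _) (by positivity), mul_pow, nsq_mk, nsq_mk]
    set A := M' ^ 2 - (a' ^ 2 + c' ^ 2) with hA
    set C := M' ^ 2 - (b' ^ 2 + d' ^ 2) with hC
    set β := a' * b' + c' * d' with hβd
    have k : 0 ≤ A * x ^ 2 - 2 * β * (x * y) + C * y ^ 2 := by
      have k1 : A * (A * x ^ 2 - 2 * β * (x * y) + C * y ^ 2)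
          = (A * x - β * y) ^ 2 + (A * C - β ^ 2) * y ^ 2 := by ring
      have k2 : 0 ≤ A * (A * x ^ 2 - 2 * β * (x * y) + C * y ^ 2) := by
        rw [k1]
        have : 0 ≤ (A * C - β ^ 2) * y ^ 2 := mul_nonneg (by linarith) (sq_nonneg _)
        positivity
      exact nonneg_of_mul_nonneg_right k2 hα
    have k3 : M' ^ 2 * (x ^ 2 + y ^ 2) - ((a' * x + b' * y) ^ 2 + (c' * x + d' * y) ^ 2)
        = A * x ^ 2 - 2 * β * (x * y) + C * y ^ 2 := by rw [hA, hC, hβd]; ring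
    linarith
  have h2 : ‖(⟨(a - a') * x + (b - b') * y, (c - c') * x + (d - d') * y⟩ : ℂ)‖
      ≤ 4/10^7 * ‖(⟨x, y⟩ : ℂ)‖ := by
    refine (nmk_le _ _).trans ?_
    have t1 := abs_add_le ((a - a') * x) ((b - b') * y)
    have t2 := abs_add_le ((c - c') * x) ((d - d') * y)
    rw [abs_mul, abs_mul] at t1 t2
    have s1 := mul_le_mul_of_nonneg_right ha (abs_nonneg x)
    have s2 := mul_le_mul_of_nonneg_right hb (abs_nonneg y)
    have s3 := mul_le_mul_of_nonneg_right hc (abs_nonneg x)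
    have s4 := mul_le_mul_of_nonneg_right hd (abs_nonneg y)
    have := abs_add_le_two_norm x y
    linarith
  have h3 : (M' + 4/10^7) * ‖(⟨x, y⟩ : ℂ)‖ ≤ M * ‖(⟨x, y⟩ : ℂ)‖ := mul_le_mul_of_nonneg_right hM n0
  linarith

theorem vK1 : |K1 - (144722919/10^9 : ℝ)| ≤ 1/10^8 := by
  refine (tri e_K1 (show |aK1 - (144722919/10^9 : ℝ)| ≤ 2/10^9 by rw [abs_le]; constructor <;> norm_num [aK1])).trans ?_
  norm_num [tau]

theorem vK2 : |K2 - (-1876629727/10^9 : ℝ)| ≤ 1/10^8 := by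
  refine (tri e_K2 (show |aK2 - (-1876629727/10^9 : ℝ)| ≤ 2/10^9 by rw [abs_le]; constructor <;> norm_num [aK2])).trans ?_
  norm_num [tau]

theorem vK3 : |K3 - (1146829277/10^9 : ℝ)| ≤ 1/10^8 := by
  refine (tri e_K3 (show |aK3 - (1146829277/10^9 : ℝ)| ≤ 2/10^9 by rw [abs_le]; constructor <;> norm_num [aK3])).trans ?_
  norm_num [tau]

theorem vK4 : |K4 - (-527187156/10^9 : ℝ)| ≤ 1/10^8 := by
  refine (tri e_K4 (show |aK4 - (-527187156/10^9 : ℝ)| ≤ 2/10^9 by rw [abs_le]; constructor <;> norm_num [aK4])).trans ?_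
  norm_num [tau]

theorem vB1 : |B1 - (810440799/10^9 : ℝ)| ≤ 1/10^8 := by
  refine (tri e_B1 (show |aB1 - (810440799/10^9 : ℝ)| ≤ 2/10^9 by rw [abs_le]; constructor <;> norm_num [aB1])).trans ?_
  norm_num [tau]

theorem vB4 : |B4 - (791045122/10^9 : ℝ)| ≤ 1/10^8 := by
  refine (tri e_B4 (show |aB4 - (791045122/10^9 : ℝ)| ≤ 2/10^9 by rw [abs_le]; constructor <;> norm_num [aB4])).trans ?_
  norm_num [tau]

theorem vC1 : |C1 - (364928784/10^9 : ℝ)| ≤ 1/10^8 := by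
  refine (tri e_C1 (show |aC1 - (364928784/10^9 : ℝ)| ≤ 2/10^9 by rw [abs_le]; constructor <;> norm_num [aC1])).trans ?_
  norm_num [tau]

theorem vC2 : |C2 - (547576190/10^9 : ℝ)| ≤ 1/10^8 := by
  refine (tri e_C2 (show |aC2 - (547576190/10^9 : ℝ)| ≤ 2/10^9 by rw [abs_le]; constructor <;> norm_num [aC2])).trans ?_
  norm_num [tau]

theorem vC3 : |C3 - (599478940/10^9 : ℝ)| ≤ 1/10^8 := by
  refine (tri e_C3 (show |aC3 - (599478940/10^9 : ℝ)| ≤ 2/10^9 by rw [abs_le]; constructor <;> norm_num [aC3])).trans ?_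
  norm_num [tau]

theorem vC4 : |C4 - (-133573206/10^9 : ℝ)| ≤ 1/10^8 := by
  refine (tri e_C4 (show |aC4 - (-133573206/10^9 : ℝ)| ≤ 2/10^9 by rw [abs_le]; constructor <;> norm_num [aC4])).trans ?_
  norm_num [tau]

theorem vC5 : |C5 - (748002987/10^9 : ℝ)| ≤ 1/10^8 := by
  refine (tri e_C5 (show |aC5 - (748002987/10^9 : ℝ)| ≤ 2/10^9 by rw [abs_le]; constructor <;> norm_num [aC5])).trans ?_
  norm_num [tau]

theorem b1 (x y : ℝ) : ‖(⟨(K3) * x + (K4) * y, (-(1/2)) * x + (-B4) * y⟩ : ℂ)‖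
    ≤ 1276/1000 * ‖(⟨x, y⟩ : ℂ)‖ := by
  have hK3 := abs_le.mp vK3
  have hK4 := abs_le.mp vK4
  have hB4 := abs_le.mp vB4
  apply blk (a' := (1146829277/10^9)) (b' := (-527187156/10^9)) (c' := -(1/2)) (d' := -(791045122/10^9)) (M' := 12755/10000)
  · rw [abs_le]; constructor <;> linarith
  · rw [abs_le]; constructor <;> linarith
  · rw [abs_le]; constructor <;> linarith
  · rw [abs_le]; constructor <;> linarith
  · norm_num
  · norm_num
  · norm_num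
  · norm_num

theorem b2 (x y : ℝ) : ‖(⟨(1) * x + (-C4) * y, (0) * x + (-C5) * y⟩ : ℂ)‖
    ≤ 102/100 * ‖(⟨x, y⟩ : ℂ)‖ := by
  have hC4 := abs_le.mp vC4
  have hC5 := abs_le.mp vC5
  apply blk (a' := 1) (b' := -(-133573206/10^9)) (c' := 0) (d' := -(748002987/10^9)) (M' := 10195/10000)
  · rw [abs_le]; constructor <;> linarith
  · rw [abs_le]; constructor <;> linarith
  · rw [abs_le]; constructor <;> linarith
  · rw [abs_le]; constructor <;> linarith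
  · norm_num
  · norm_num
  · norm_num
  · norm_num

theorem b3 (x y : ℝ) : ‖(⟨(K1 - K4) * x + (K2 + K3) * y, (-(B1 - B4)) * x + (-(1/2)) * y⟩ : ℂ)‖
    ≤ 1061/1000 * ‖(⟨x, y⟩ : ℂ)‖ := by
  have hK1 := abs_le.mp vK1
  have hK2 := abs_le.mp vK2
  have hK3 := abs_le.mp vK3
  have hK4 := abs_le.mp vK4
  have hB1 := abs_le.mp vB1
  have hB4 := abs_le.mp vB4
  apply blk (a' := (144722919/10^9) - (-527187156/10^9)) (b' := (-1876629727/10^9) + (1146829277/10^9)) (c' := -((810440799/10^9) - (791045122/10^9))) (d' := -(1/2)) (M' := 106095/100000)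
  · rw [abs_le]; constructor <;> linarith
  · rw [abs_le]; constructor <;> linarith
  · rw [abs_le]; constructor <;> linarith
  · rw [abs_le]; constructor <;> linarith
  · norm_num
  · norm_num
  · norm_num
  · norm_num

theorem b4 (x y : ℝ) : ‖(⟨(-C1 + C4) * x + (-11/8 + 1) * y, (-C2 + C5) * x + (C3) * y⟩ : ℂ)‖
    ≤ 849/1000 * ‖(⟨x, y⟩ : ℂ)‖ := by
  have hC1 := abs_le.mp vC1
  have hC2 := abs_le.mp vC2
  have hC3 := abs_le.mp vC3
  have hC4 := abs_le.mp vC4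
  have hC5 := abs_le.mp vC5
  apply blk (a' := -(364928784/10^9) + (-133573206/10^9)) (b' := -11/8 + 1) (c' := -(547576190/10^9) + (748002987/10^9)) (d' := (599478940/10^9)) (M' := 8485/10000)
  · rw [abs_le]; constructor <;> linarith
  · rw [abs_le]; constructor <;> linarith
  · rw [abs_le]; constructor <;> linarith
  · rw [abs_le]; constructor <;> linarith
  · norm_num
  · norm_num
  · norm_num
  · norm_num

theorem b5 (x y : ℝ) : ‖(⟨(4/3 * C2) * x + (-(4/3 * C1)) * y, (-(4/9 * C3)) * x + (-(4/9 * (11/8))) * y⟩ : ℂ)‖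
    ≤ 895/1000 * ‖(⟨x, y⟩ : ℂ)‖ := by
  have hC1 := abs_le.mp vC1
  have hC2 := abs_le.mp vC2
  have hC3 := abs_le.mp vC3
  apply blk (a' := 4/3 * (547576190/10^9)) (b' := -(4/3 * (364928784/10^9))) (c' := -(4/9 * (599478940/10^9))) (d' := -(4/9 * (11/8))) (M' := 8945/10000)
  · rw [abs_le]; constructor <;> linarith
  · rw [abs_le]; constructor <;> linarith
  · rw [abs_le]; constructor <;> linarith
  · rw [abs_le]; constructor <;> linarith
  · norm_num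
  · norm_num
  · norm_num
  · norm_num

theorem b6 (x y : ℝ) : ‖(⟨(-(4/3 * B1)) * x + (-(4/3 * K1)) * y, (0) * x + (-(4/9 * K2)) * y⟩ : ℂ)‖
    ≤ 1119/1000 * ‖(⟨x, y⟩ : ℂ)‖ := by
  have hK1 := abs_le.mp vK1
  have hK2 := abs_le.mp vK2
  have hB1 := abs_le.mp vB1
  apply blk (a' := -(4/3 * (810440799/10^9))) (b' := -(4/3 * (144722919/10^9))) (c' := 0) (d' := -(4/9 * (-1876629727/10^9))) (M' := 11188/10000)
  · rw [abs_le]; constructor <;> linarith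
  · rw [abs_le]; constructor <;> linarith
  · rw [abs_le]; constructor <;> linarith
  · rw [abs_le]; constructor <;> linarith
  · norm_num
  · norm_num
  · norm_num
  · norm_num

theorem b7 (x y : ℝ) : ‖(⟨(0) * x + (-1) * y, (-C5) * x + (C4) * y⟩ : ℂ)‖
    ≤ 102/100 * ‖(⟨x, y⟩ : ℂ)‖ := by
  have hC4 := abs_le.mp vC4
  have hC5 := abs_le.mp vC5
  apply blk (a' := 0) (b' := -1) (c' := -(748002987/10^9)) (d' := (-133573206/10^9)) (M' := 10195/10000)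
  · rw [abs_le]; constructor <;> linarith
  · rw [abs_le]; constructor <;> linarith
  · rw [abs_le]; constructor <;> linarith
  · rw [abs_le]; constructor <;> linarith
  · norm_num
  · norm_num
  · norm_num
  · norm_num

theorem b8 (x y : ℝ) : ‖(⟨(1/2) * x + (K3) * y, (B4) * x + (K4) * y⟩ : ℂ)‖
    ≤ 1276/1000 * ‖(⟨x, y⟩ : ℂ)‖ := by
  have hK3 := abs_le.mp vK3
  have hK4 := abs_le.mp vK4
  have hB4 := abs_le.mp vB4
  apply blk (a' := 1/2) (b' := (1146829277/10^9)) (c' := (791045122/10^9)) (d' := (-527187156/10^9)) (M' := 12755/10000)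
  · rw [abs_le]; constructor <;> linarith
  · rw [abs_le]; constructor <;> linarith
  · rw [abs_le]; constructor <;> linarith
  · rw [abs_le]; constructor <;> linarith
  · norm_num
  · norm_num
  · norm_num
  · norm_num

theorem b9 (x y : ℝ) : ‖(⟨(4/9 * C3) * x + (-1 + 4/9 * (11/8)) * y, (-C5 + 4/3 * C2) * x + (C4 - 4/3 * C1) * y⟩ : ℂ)‖
    ≤ 745/1000 * ‖(⟨x, y⟩ : ℂ)‖ := by
  have hC1 := abs_le.mp vC1
  have hC2 := abs_le.mp vC2
  have hC3 := abs_le.mp vC3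
  have hC4 := abs_le.mp vC4
  have hC5 := abs_le.mp vC5
  apply blk (a' := 4/9 * (599478940/10^9)) (b' := -1 + 4/9 * (11/8)) (c' := -(748002987/10^9) + 4/3 * (547576190/10^9)) (d' := (-133573206/10^9) - 4/3 * (364928784/10^9)) (M' := 7445/10000)
  · rw [abs_le]; constructor <;> linarith
  · rw [abs_le]; constructor <;> linarith
  · rw [abs_le]; constructor <;> linarith
  · rw [abs_le]; constructor <;> linarith
  · norm_num
  · norm_num
  · norm_num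
  · norm_num

theorem b10 (x y : ℝ) : ‖(⟨(1/2) * x + (K3 + 4/9 * K2) * y, (B4 - 4/3 * B1) * x + (K4 - 4/3 * K1) * y⟩ : ℂ)‖
    ≤ 931/1000 * ‖(⟨x, y⟩ : ℂ)‖ := by
  have hK1 := abs_le.mp vK1
  have hK2 := abs_le.mp vK2
  have hK3 := abs_le.mp vK3
  have hK4 := abs_le.mp vK4
  have hB1 := abs_le.mp vB1
  have hB4 := abs_le.mp vB4
  apply blk (a' := 1/2) (b' := (1146829277/10^9) + 4/9 * (-1876629727/10^9)) (c' := (791045122/10^9) - 4/3 * (810440799/10^9)) (d' := (-527187156/10^9) - 4/3 * (144722919/10^9)) (M' := 9309/10000)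
  · rw [abs_le]; constructor <;> linarith
  · rw [abs_le]; constructor <;> linarith
  · rw [abs_le]; constructor <;> linarith
  · rw [abs_le]; constructor <;> linarith
  · norm_num
  · norm_num
  · norm_num
  · norm_num

theorem stmtC2 : StmtC2 := by
  intro ζ v
  obtain ⟨X, Y⟩ := ζ
  obtain ⟨p, q⟩ := v
  have hz : (0:ℂ) = ⟨0, 0⟩ := rfl
  have hIz : (⟨p, q⟩ : ℂ) + I * ⟨X, Y⟩ = ⟨p - Y, q + X⟩ := by
    apply Complex.ext <;> simp <;> ring
  have c1 : ‖uc 0 ⟨p, q⟩‖ ≤ 1.276 * ‖(⟨p, q⟩ : ℂ)‖ := by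
    have h := b1 p q
    rw [hz, uc_lin]
    have e : (⟨K1 * 0 + K2 * 0 + K3 * p + K4 * q, -(B1 * 0 + p / 2 + B4 * q)⟩ : ℂ)
      = ⟨K3 * p + K4 * q, -(1/2) * p + -B4 * q⟩ := by apply Complex.ext <;> simp <;> ring
    rw [e]; norm_num at h ⊢; linarith
  have c2 : ‖sc 0 ⟨p, q⟩‖ ≤ 1.02 * ‖(⟨p, q⟩ : ℂ)‖ := by
    have h := b2 p q
    rw [hz, sc_lin]
    have e : (⟨-(C1 * 0) - 11/8 * 0 + p - C4 * q, -(C2 * 0) + C3 * 0 - C5 * q⟩ : ℂ)
      = ⟨1 * p + -C4 * q, 0 * p + -C5 * q⟩ := by apply Complex.ext <;> simp <;> ring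
    rw [e]; norm_num at h ⊢; linarith
  refine ⟨c1, c2, ?_, ?_, ?_, ?_, ?_⟩
  · have e0 : uc ⟨X, Y⟩ ⟨p, q⟩ = uc ⟨X, Y⟩ ⟨Y, -X⟩ + uc 0 (⟨p, q⟩ + I * ⟨X, Y⟩) := by
      rw [hIz, hz, uc_lin, uc_lin, uc_lin]
      apply Complex.ext <;> simp <;> ring
    have h1 := b3 X Y
    have e1 : uc ⟨X, Y⟩ ⟨Y, -X⟩ = ⟨(K1 - K4) * X + (K2 + K3) * Y, -(B1 - B4) * X + -(1/2) * Y⟩ := by
      rw [uc_lin]; apply Complex.ext <;> simp <;> ring
    have h2 : ‖uc 0 (⟨p, q⟩ + I * ⟨X, Y⟩)‖ ≤ 1.276 * ‖(⟨p, q⟩ : ℂ) + I * ⟨X, Y⟩‖ := by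
      rw [hIz]
      have h := b1 (p - Y) (q + X)
      rw [hz, uc_lin]
      have e : (⟨K1 * 0 + K2 * 0 + K3 * (p - Y) + K4 * (q + X), -(B1 * 0 + (p - Y) / 2 + B4 * (q + X))⟩ : ℂ)
        = ⟨K3 * (p - Y) + K4 * (q + X), -(1/2) * (p - Y) + -B4 * (q + X)⟩ := by
        apply Complex.ext <;> simp <;> ring
      rw [e]; norm_num at h ⊢; linarith
    rw [e0]
    refine (norm_add_le _ _).trans ?_
    rw [e1]
    norm_num at h1 h2 ⊢
    linarith
  · have e0 : sc ⟨X, Y⟩ ⟨p, q⟩ = sc ⟨X, Y⟩ ⟨Y, -X⟩ + sc 0 (⟨p, q⟩ + I * ⟨X, Y⟩) := by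
      rw [hIz, hz, sc_lin, sc_lin, sc_lin]
      apply Complex.ext <;> simp <;> ring
    have h1 := b4 X Y
    have e1 : sc ⟨X, Y⟩ ⟨Y, -X⟩ = ⟨(-C1 + C4) * X + (-11/8 + 1) * Y, (-C2 + C5) * X + C3 * Y⟩ := by
      rw [sc_lin]; apply Complex.ext <;> simp <;> ring
    have h2 : ‖sc 0 (⟨p, q⟩ + I * ⟨X, Y⟩)‖ ≤ 1.02 * ‖(⟨p, q⟩ : ℂ) + I * ⟨X, Y⟩‖ := by
      rw [hIz]
      have h := b2 (p - Y) (q + X)
      rw [hz, sc_lin]
      have e : (⟨-(C1 * 0) - 11/8 * 0 + (p - Y) - C4 * (q + X), -(C2 * 0) + C3 * 0 - C5 * (q + X)⟩ : ℂ)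
        = ⟨1 * (p - Y) + -C4 * (q + X), 0 * (p - Y) + -C5 * (q + X)⟩ := by
        apply Complex.ext <;> simp <;> ring
      rw [e]; norm_num at h ⊢; linarith
    rw [e0]
    refine (norm_add_le _ _).trans ?_
    rw [e1]
    norm_num at h1 h2 ⊢
    linarith
  all_goals
    rw [uc_lin, sc_lin]
    have iX := inv_X X Y p q
    have iY := inv_Y X Y p q
    have ip := inv_p X Y p q
    have iq := inv_q X Y p q
    set ur := K1 * X + K2 * Y + K3 * p + K4 * q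
    set ui := -(B1 * X + p / 2 + B4 * q)
    set sr := -(C1 * X) - 11/8 * Y + p - C4 * q
    set si := -(C2 * X) + C3 * Y - C5 * q
  · have h1 := b5 ur ui
    have h2 := b6 sr si
    have e : (⟨X, Y⟩ : ℂ) = ⟨(4/3 * C2) * ur + (-(4/3 * C1)) * ui, (-(4/9 * C3)) * ur + (-(4/9 * (11/8))) * ui⟩
        + ⟨(-(4/3 * B1)) * sr + (-(4/3 * K1)) * si, 0 * sr + (-(4/9 * K2)) * si⟩ := by
      apply Complex.ext
      · simp only [add_re]; linarith
      · simp only [add_im]; linarith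
    rw [e]
    refine (norm_add_le _ _).trans ?_
    norm_num at h1 h2 ⊢
    linarith
  · have h1 := b7 ur ui
    have h2 := b8 sr si
    have e : (⟨p, q⟩ : ℂ) = ⟨0 * ur + (-1) * ui, (-C5) * ur + C4 * ui⟩
        + ⟨(1/2) * sr + K3 * si, B4 * sr + K4 * si⟩ := by
      apply Complex.ext
      · simp only [add_re]; linarith
      · simp only [add_im]; linarith
    rw [e]
    refine (norm_add_le _ _).trans ?_
    norm_num at h1 h2 ⊢
    linarith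
  · have h1 := b9 ur ui
    have h2 := b10 sr si
    have e : (⟨p, q⟩ : ℂ) + I * ⟨X, Y⟩ = ⟨(4/9 * C3) * ur + (-1 + 4/9 * (11/8)) * ui,
          (-C5 + 4/3 * C2) * ur + (C4 - 4/3 * C1) * ui⟩
        + ⟨(1/2) * sr + (K3 + 4/9 * K2) * si, (B4 - 4/3 * B1) * sr + (K4 - 4/3 * K1) * si⟩ := by
      rw [hIz]
      apply Complex.ext
      · simp only [add_re]; linarith
      · simp only [add_im]; linarith
    rw [e]
    refine (norm_add_le _ _).trans ?_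
    norm_num at h1 h2 ⊢
    linarith

end Run7.h874
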