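import Pool.Agent.Run7.h874.Chk

set_option autoImplicit false

namespace Run7.h874

/-- parameters of connection DR -/
def DR.prm : Prm := ⟨156, 170, 664, 28, 312, 0xddb3d742c265539d92ba16b83c5c1dc492ec1a6, 1⟩

/-- parameters of connection DM -/
def DM.prm : Prm := ⟨176, 190, 744, 30, 352, 0xddb3d742c265539d92ba16b83c5c1dc492ec1a6629ed, 2⟩

/-- parameters of connection DL -/
def DL.prm : Prm := ⟨264, 278, 1096, 36, 528, 0xddb3d742c265539d92ba16b83c5c1dc492ec1a6629ed23cc639053243722d37124, 0⟩

/-- parameters of connection DF -/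
def DF.prm : Prm := ⟨168, 182, 712, 30, 336, 0xddb3d742c265539d92ba16b83c5c1dc492ec1a6629, 0⟩

end Run7.h874
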