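import Pool.Agent.Run7.h874.Chk

/-!
# Soundness of the digit test
-/

set_option autoImplicit false

namespace Run7.h874

open Polynomial Finset

/-- polynomial of a coefficient list -/
noncomputable def tp : List ℤ → ℤ[X]
  | [] => 0
  | a :: l => C a + X * tp l

/-- real evaluation of a coefficient list -/
noncomputable def ev : List ℤ → ℝ → ℝ
  | [], _ => 0
  | a :: l, t => a + t * ev l t

theorem tp_eval (B : ℤ) (l : List ℤ) : (tp l).eval B = evI B l := by
  induction l with
  | nil => simp [tp, evI]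
  | cons a l ih => simp [tp, evI, ih]

theorem tp_aeval (t : ℝ) (l : List ℤ) : aeval t (tp l) = ev l t := by
  induction l with
  | nil => simp [tp, ev]
  | cons a l ih => simp [tp, ev, ih]

/-- sum of absolute values of the coefficients -/
noncomputable def nrm (p : ℤ[X]) : ℕ := p.sum (fun _ a => a.natAbs)

theorem nrm_eq (p : ℤ[X]) {n : ℕ} (h : p.natDegree < n) :
    nrm p = ∑ i ∈ range n, (p.coeff i).natAbs := by
  unfold nrm
  exact Polynomial.sum_over_range' p (by simp) n h

theorem coeff_le_nrm (p : ℤ[X]) (i : ℕ) : (p.coeff i).natAbs ≤ nrm p := by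
  rw [nrm_eq p (n := p.natDegree + 1 + i) (by omega)]
  exact Finset.single_le_sum (f := fun i => (p.coeff i).natAbs) (fun _ _ => Nat.zero_le _)
    (by simp)

theorem nrm_add (p q : ℤ[X]) : nrm (p + q) ≤ nrm p + nrm q := by
  have h1 := nrm_eq p (n := p.natDegree + q.natDegree + 1) (by omega)
  have h2 := nrm_eq q (n := p.natDegree + q.natDegree + 1) (by omega)
  have h3 := nrm_eq (p + q) (n := p.natDegree + q.natDegree + 1) (by
    have := natDegree_add_le p q
    omega)
  rw [h1, h2, h3, ← Finset.sum_add_distrib]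
  apply Finset.sum_le_sum
  intro i _
  rw [coeff_add]
  exact Int.natAbs_add_le _ _

theorem nrm_zero : nrm 0 = 0 := by simp [nrm]

theorem nrm_neg (p : ℤ[X]) : nrm (-p) = nrm p := by
  have h1 := nrm_eq p (n := p.natDegree + 1) (by omega)
  have h3 := nrm_eq (-p) (n := p.natDegree + 1) (by simp)
  rw [h1, h3]
  apply Finset.sum_congr rfl
  intro i _
  simp

theorem nrm_sub (p q : ℤ[X]) : nrm (p - q) ≤ nrm p + nrm q := by
  rw [sub_eq_add_neg, ← nrm_neg q]
  exact nrm_add _ _

theorem nrm_C (a : ℤ) : nrm (C a) = a.natAbs := by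
  rw [nrm_eq (C a) (n := 1) (by simp)]
  simp

theorem coeff_mm (i : ℕ) (a : ℤ) (q : ℤ[X]) (x : ℕ) :
    (monomial i a * q).coeff x = if i ≤ x then a * q.coeff (x - i) else 0 := by
  rw [← C_mul_X_pow_eq_monomial, mul_assoc, coeff_C_mul, coeff_X_pow_mul']
  split <;> simp

theorem nrm_monomial_mul (i : ℕ) (a : ℤ) (q : ℤ[X]) :
    nrm (monomial i a * q) ≤ a.natAbs * nrm q := by
  rw [nrm_eq q (n := q.natDegree + 1) (by omega), Finset.mul_sum]
  rw [nrm_eq (monomial i a * q) (n := i + (q.natDegree + 1)) (by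
    have h1 := natDegree_mul_le (p := monomial i a) (q := q)
    have h2 := natDegree_monomial_le a (m := i)
    omega)]
  rw [Finset.sum_range_add]
  have h0 : ∑ x ∈ range i, ((monomial i a * q).coeff x).natAbs = 0 := by
    apply Finset.sum_eq_zero
    intro x hx
    rw [coeff_mm]
    have : ¬ i ≤ x := by
      have := Finset.mem_range.mp hx
      omega
    simp [this]
  rw [h0, zero_add]
  apply Finset.sum_le_sum
  intro x _
  rw [coeff_mm]
  simp [Int.natAbs_mul]

theorem nrm_sum {ι : Type} (s : Finset ι) (f : ι → ℤ[X]) :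
    nrm (∑ i ∈ s, f i) ≤ ∑ i ∈ s, nrm (f i) := by
  classical
  induction s using Finset.induction_on with
  | empty => simp [nrm_zero]
  | insert a s ha ih =>
    rw [Finset.sum_insert ha, Finset.sum_insert ha]
    exact (nrm_add _ _).trans (by omega)

theorem nrm_mul (p q : ℤ[X]) : nrm (p * q) ≤ nrm p * nrm q := by
  have h : p * q = ∑ i ∈ range (p.natDegree + 1), monomial i (p.coeff i) * q := by
    conv_lhs => rw [p.as_sum_range]
    rw [Finset.sum_mul]
  rw [h]
  refine (nrm_sum _ _).trans ?_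
  rw [nrm_eq p (n := p.natDegree + 1) (by omega), Finset.sum_mul]
  exact Finset.sum_le_sum fun i _ => nrm_monomial_mul _ _ _

theorem nrm_X : nrm (X : ℤ[X]) ≤ 1 := by
  rw [nrm_eq (X : ℤ[X]) (n := 2) (by simp)]
  simp [Finset.sum_range_succ, coeff_X]

theorem nrm_tp (l : List ℤ) : nrm (tp l) ≤ nl1 l := by
  induction l with
  | nil => simp [tp, nl1, nrm_zero]
  | cons a l ih =>
    simp only [tp, nl1]
    refine (nrm_add _ _).trans ?_
    rw [nrm_C]
    have := nrm_mul X (tp l)
    have h1 := nrm_X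
    have : nrm (X * tp l) ≤ nrm (tp l) := by nlinarith
    omega

theorem deg_tp (l : List ℤ) : (tp l).natDegree ≤ l.length - 1 := by
  induction l with
  | nil => simp [tp]
  | cons a l ih =>
    simp only [tp, List.length_cons]
    refine (natDegree_add_le _ _).trans ?_
    rw [natDegree_C]
    cases l with
    | nil => simp [tp]
    | cons b l =>
      have := natDegree_mul_le (p := (X : ℤ[X])) (q := tp (b :: l))
      have hX : (X : ℤ[X]).natDegree = 1 := natDegree_X
      simp only [List.length_cons] at ih ⊢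
      have : (X * tp (b :: l)).natDegree ≤ l.length + 1 := by omega
      simpa using this

/-! ## uniqueness of digits -/

theorem eq_zero_of_eval (B : ℤ) (hB : 1 ≤ B) (n : ℕ) : ∀ r : ℤ[X], r.natDegree < n →
    r.eval B = 0 → (∀ i, |r.coeff i| < B) → r = 0 := by
  induction n with
  | zero => intro r h; omega
  | succ n ih =>
    intro r hr h0 hc
    have hd : r = C (r.coeff 0) + X * r.divX := by
      rw [add_comm, X_mul, divX_mul_X_add]
    have h1 : r.coeff 0 + B * r.divX.eval B = 0 := by
      have := h0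
      rw [hd] at this
      simpa using this
    have h2 : B ∣ r.coeff 0 := ⟨-r.divX.eval B, by linarith⟩
    have h3 : r.coeff 0 = 0 := Int.eq_zero_of_abs_lt_dvd h2 (hc 0)
    rw [h3, zero_add] at h1
    have h4 : r.divX.eval B = 0 := by
      rcases mul_eq_zero.mp h1 with h | h
      · omega
      · exact h
    by_cases hn : r.natDegree = 0
    · rw [hd, h3]
      have : r.divX = 0 := divX_eq_zero_iff.mpr (eq_C_of_natDegree_eq_zero hn)
      rw [this]; simp
    · have h5 : r.divX.natDegree < n := by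
        rw [natDegree_divX_eq_natDegree_tsub_one]; omega
      have h6 := ih r.divX h5 h4 (fun i => by rw [coeff_divX]; exact hc _)
      rw [hd, h3, h6]; simp

theorem rep_eq (K D : ℕ) (hK : 1 ≤ K) : rep K D = ∑ i ∈ range D, (2 ^ K) ^ i := by
  have h2 : 2 ≤ 2 ^ K := by
    calc 2 = 2 ^ 1 := by norm_num
      _ ≤ 2 ^ K := Nat.pow_le_pow_right (by norm_num) hK
  rw [rep, Nat.geomSum_eq h2, pow_mul]

theorem rep_succ (K D : ℕ) (hK : 1 ≤ K) : rep K (D + 1) = 1 + 2 ^ K * rep K D := by
  rw [rep_eq K (D+1) hK, rep_eq K D hK, Finset.sum_range_succ', Finset.mul_sum, add_comm, pow_zero]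
  congr 1
  apply Finset.sum_congr rfl
  intro i _
  rw [pow_succ]; ring

theorem digit_small (K b a : ℕ) (hb : b + 1 ≤ K) (ha : a < 2 ^ K)
    (h : Nat.land a (2 ^ (b + 1) * (2 ^ (K - (b + 1)) - 1)) = 0) : a < 2 ^ (b + 1) := by
  have h' : a &&& (2 ^ (b + 1) * (2 ^ (K - (b + 1)) - 1)) = 0 := h
  have h1 : (a &&& (2 ^ (b + 1) * (2 ^ (K - (b + 1)) - 1))) >>> (b + 1) = 0 := by rw [h']; simp
  rw [Nat.shiftRight_and_distrib] at h1
  have h2 : (2 ^ (b + 1) * (2 ^ (K - (b + 1)) - 1)) >>> (b + 1) = 2 ^ (K - (b + 1)) - 1 := by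
    rw [Nat.shiftRight_eq_div_pow, Nat.mul_div_cancel_left _ (Nat.two_pow_pos _)]
  rw [h2, Nat.and_two_pow_sub_one_eq_mod, Nat.shiftRight_eq_div_pow] at h1
  have h3 : a / 2 ^ (b + 1) < 2 ^ (K - (b + 1)) := by
    rw [Nat.div_lt_iff_lt_mul (by positivity), ← pow_add]
    convert ha using 2
    omega
  rw [Nat.mod_eq_of_lt h3] at h1
  exact (Nat.div_eq_zero_iff_lt (by positivity)).mp h1

theorem digits_small (K b : ℕ) (hb : b + 1 ≤ K) : ∀ D n : ℕ,
    Nat.land n (2 ^ (b + 1) * (2 ^ (K - (b + 1)) - 1) * rep K D) = 0 →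
    ∀ j < D, n / (2 ^ K) ^ j % 2 ^ K < 2 ^ (b + 1) := by
  intro D
  induction D with
  | zero => intro n _ j hj; omega
  | succ D ih =>
    intro n hn j hj
    set M := 2 ^ (b + 1) * (2 ^ (K - (b + 1)) - 1) with hM
    have hMlt : M < 2 ^ K := by
      have : 2 ^ (b + 1) * 2 ^ (K - (b + 1)) = 2 ^ K := by rw [← pow_add]; congr 1; omega
      have h1 : 0 < 2 ^ (b + 1) := by positivity
      have h2 : 0 < 2 ^ (K - (b + 1)) := by positivity
      rw [hM, Nat.mul_sub, this, mul_one]
      have : 2 ^ (b+1) ≤ 2 ^ K := Nat.pow_le_pow_right (by norm_num) hb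
      omega
    rw [rep_succ K D (by omega), mul_add, mul_one] at hn
    have hn' : n &&& (M + M * (2 ^ K * rep K D)) = 0 := hn
    have e1 : M + M * (2 ^ K * rep K D) = M + 2 ^ K * (M * rep K D) := by ring
    rw [e1] at hn'
    have hlow : (n % 2 ^ K) &&& M = 0 := by
      have := congrArg (· % 2 ^ K) hn'
      simp only [Nat.and_mod_two_pow] at this
      rw [Nat.add_mul_mod_self_left, Nat.mod_eq_of_lt hMlt] at this
      simpa using this
    have hhigh : (n / 2 ^ K) &&& (M * rep K D) = 0 := by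
      have := congrArg (· >>> K) hn'
      simp only [Nat.shiftRight_and_distrib] at this
      rw [Nat.shiftRight_eq_div_pow, Nat.shiftRight_eq_div_pow,
        Nat.add_mul_div_left _ _ (by positivity), Nat.div_eq_of_lt hMlt] at this
      simpa using this
    rcases j with _ | j
    · simpa using digit_small K b (n % 2 ^ K) hb (Nat.mod_lt _ (by positivity)) hlow
    · have := ih (n / 2 ^ K) hhigh j (by omega)
      rw [Nat.div_div_eq_div_mul] at this
      rwa [pow_succ, mul_comm]

theorem sum_digits (B : ℕ) (hB : 1 ≤ B) : ∀ D n : ℕ, n < B ^ D →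
    ∑ j ∈ range D, (n / B ^ j % B) * B ^ j = n := by
  intro D
  induction D with
  | zero => intro n hn; simp at hn; simp [hn]
  | succ D ih =>
    intro n hn
    rw [Finset.sum_range_succ']
    have h1 : n / B < B ^ D := by
      rw [Nat.div_lt_iff_lt_mul (by omega), ← pow_succ]; exact hn
    have h2 := ih (n / B) h1
    have h3 : ∑ j ∈ range D, (n / B ^ (j + 1) % B) * B ^ (j + 1)
        = B * ∑ j ∈ range D, (n / B / B ^ j % B) * B ^ j := by
      rw [Finset.mul_sum]
      apply Finset.sum_congr rfl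
      intro j _
      rw [Nat.div_div_eq_div_mul, ← pow_succ', pow_succ]; ring
    rw [h3, h2]
    simp only [pow_zero, Nat.div_one, mul_one]
    exact Nat.div_add_mod n B

/-- Soundness of `small`. -/
theorem small_sound {K D b : ℕ} {p : ℤ[X]} (hb : b + 2 ≤ K) (hdeg : p.natDegree < D)
    (hA : nrm p ≤ 2 ^ (K - 2)) (h : small K D b (p.eval (2 ^ K)) = true) :
    ∀ i, |p.coeff i| ≤ 2 ^ b := by
  unfold small at h
  split at h
  case h_2 => exact absurd h (by simp)
  case h_1 n hn =>
    rw [Bool.and_eq_true] at h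
    have h1 : n < 2 ^ (K * D) := by simpa using h.1
    have h2 : Nat.land n (2 ^ (b + 1) * (2 ^ (K - (b + 1)) - 1) * rep K D) = 0 := by
      have := h.2
      exact Nat.eq_of_beq_eq_true this
    have hd := digits_small K b (by omega) D n h2
    set d : ℕ → ℕ := fun j => n / (2 ^ K) ^ j % 2 ^ K with hdd
    have hs : ∑ j ∈ range D, d j * (2 ^ K) ^ j = n :=
      sum_digits (2 ^ K) (Nat.one_le_two_pow) D n (by rw [← pow_mul]; exact h1)
    set q : ℤ[X] := ∑ j ∈ range D, monomial j ((d j : ℤ) - 2 ^ b) with hq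
    have hqc : ∀ i, q.coeff i = if i < D then (d i : ℤ) - 2 ^ b else 0 := by
      intro i
      rw [hq, finsetSum_coeff]
      simp only [coeff_monomial]
      rw [Finset.sum_ite_eq']
      simp
    have hqe : q.eval (2 ^ K) = p.eval (2 ^ K) := by
      rw [hq, eval_finsetSum]
      simp only [eval_monomial, sub_mul]
      rw [Finset.sum_sub_distrib]
      have e1 : ∑ x ∈ range D, (d x : ℤ) * (2 ^ K) ^ x = n := by
        have := congrArg (fun x : ℕ => (x : ℤ)) hs
        push_cast at this
        simpa using this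
      have e2 : ∑ x ∈ range D, (2:ℤ) ^ b * (2 ^ K) ^ x = ((2 ^ b * rep K D : ℕ) : ℤ) := by
        rw [rep_eq K D (by omega)]
        push_cast
        rw [Finset.mul_sum]
      rw [e1, e2]
      have : (Int.ofNat n : ℤ) = n := rfl
      rw [this] at hn
      linarith
    have hKb : (2:ℤ) ^ (b + 2) ≤ 2 ^ K := pow_le_pow_right₀ (by norm_num) hb
    have hKK : (2:ℤ) ^ K = 4 * 2 ^ (K - 2) := by
      have : K = (K - 2) + 2 := by omega
      conv_lhs => rw [this, pow_add]
      ring
    have hpq : p - q = 0 := by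
      apply eq_zero_of_eval (2 ^ K) (one_le_pow₀ (by norm_num)) (p.natDegree + q.natDegree + 1)
      · have := natDegree_sub_le p q
        omega
      · rw [eval_sub, hqe, sub_self]
      · intro i
        rw [coeff_sub, hqc]
        have hp1 : |p.coeff i| ≤ 2 ^ (K - 2) := by
          have := (coeff_le_nrm p i).trans hA
          have h4 : ((p.coeff i).natAbs : ℤ) ≤ ((2 ^ (K - 2) : ℕ) : ℤ) := by exact_mod_cast this
          rw [Int.natCast_natAbs] at h4
          push_cast at h4
          exact h4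
        have hpos : (0:ℤ) < 2 ^ (K - 2) := by positivity
        have hbp : (0:ℤ) < 2 ^ b := by positivity
        split
        · rename_i hi
          have hdi : (d i : ℤ) < 2 ^ (b + 1) := by exact_mod_cast hd i hi
          have hdi0 : (0:ℤ) ≤ d i := by positivity
          rw [abs_le] at hp1
          rw [abs_lt]
          have e3 : (2:ℤ) ^ (b + 1) = 2 * 2 ^ b := by ring
          have e4 : (2:ℤ) ^ (b + 2) = 4 * 2 ^ b := by ring
          constructor <;> nlinarith
        · rw [sub_zero]
          linarith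
    intro i
    have hpq' : p = q := sub_eq_zero.mp hpq
    rw [hpq', hqc]
    have hbp : (0:ℤ) < 2 ^ b := by positivity
    split
    · rename_i hi
      have hdi : (d i : ℤ) < 2 ^ (b + 1) := by exact_mod_cast hd i hi
      have hdi0 : (0:ℤ) ≤ d i := by positivity
      rw [abs_le]
      have e3 : (2:ℤ) ^ (b + 1) = 2 * 2 ^ b := by ring
      constructor <;> linarith
    · simp

theorem aeval_bound {p : ℤ[X]} {D : ℕ} {M : ℤ} (hdeg : p.natDegree < D)
    (hc : ∀ i, |p.coeff i| ≤ M) {t : ℝ} (h0 : 0 ≤ t) (h1 : t ≤ 1) :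
    |aeval t p| ≤ D * M := by
  rw [aeval_eq_sum_range' hdeg]
  refine (Finset.abs_sum_le_sum_abs _ _).trans ?_
  have : ∀ i ∈ range D, |p.coeff i • t ^ i| ≤ (M : ℝ) := by
    intro i _
    rw [zsmul_eq_mul, abs_mul]
    have h2 : |((p.coeff i : ℤ) : ℝ)| ≤ M := by
      have := hc i
      exact_mod_cast this
    have h3 : |t ^ i| ≤ 1 := by
      rw [abs_of_nonneg (by positivity)]
      exact pow_le_one₀ h0 h1
    have h4 : 0 ≤ |((p.coeff i : ℤ) : ℝ)| := abs_nonneg _
    nlinarith [abs_nonneg (t ^ i)]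
  refine (Finset.sum_le_sum this).trans ?_
  simp

theorem ev_bound (l : List ℤ) {t : ℝ} (h0 : 0 ≤ t) (h1 : t ≤ 1) : |ev l t| ≤ nl1 l := by
  induction l with
  | nil => simp [ev, nl1]
  | cons a l ih =>
    simp only [ev, nl1]
    push_cast
    have h2 : |t * ev l t| ≤ nl1 l := by
      rw [abs_mul, abs_of_nonneg h0]
      nlinarith [abs_nonneg (ev l t)]
    have h3 : |((a : ℤ) : ℝ)| = ((a.natAbs : ℕ) : ℝ) := by
      rw [Nat.cast_natAbs]; push_cast; rfl
    calc |(a:ℝ) + t * ev l t| ≤ |(a:ℝ)| + |t * ev l t| := abs_add_le _ _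
      _ ≤ _ := by rw [h3]; linarith

end Run7.h874
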