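import Pool.Agent.Run7.h874.Snd1
import Pool.Agent.Run7.h874.Defs

/-!
# Soundness of the polynomial identities
-/

set_option autoImplicit false

namespace Run7.h874

open Polynomial Finset

theorem mulIdx_coeff (l : List ℤ) : ∀ (k : ℕ) (i : ℕ),
    (tp (mulIdx k l)).coeff i = (k + i : ℕ) * (tp l).coeff i := by
  induction l with
  | nil => intro k i; simp [mulIdx, tp]
  | cons a l ih =>
    intro k i
    simp only [mulIdx, tp]
    rcases i with _ | i
    · simp
    · simp only [coeff_add, coeff_C_succ, coeff_X_mul, zero_add]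
      rw [ih]
      push_cast; ring

theorem tp_derL (l : List ℤ) : tp (derL l) = derivative (tp l) := by
  cases l with
  | nil => simp [derL, tp]
  | cons a l =>
    ext i
    simp only [derL, tp]
    rw [mulIdx_coeff, coeff_derivative]
    simp only [coeff_add, coeff_C_succ, coeff_X_mul, zero_add]
    push_cast; ring

theorem ev_hasDerivAt (l : List ℤ) (t : ℝ) : HasDerivAt (ev l) (ev (derL l) t) t := by
  have h := (tp l).hasDerivAt_aeval (R := ℤ) t
  rw [← tp_derL, tp_aeval] at h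
  have : (fun x => aeval x (tp l)) = ev l := by
    funext x; exact tp_aeval x l
  rwa [this] at h

theorem length_mulIdx (l : List ℤ) : ∀ k, (mulIdx k l).length = l.length := by
  induction l with
  | nil => intro k; rfl
  | cons a l ih => intro k; simp [mulIdx, ih]

theorem length_derL (l : List ℤ) : (derL l).length = l.length - 1 := by
  cases l with
  | nil => rfl
  | cons a l => simp [derL, length_mulIdx]

theorem natAbs_two_pow (n : ℕ) : ((2:ℤ) ^ n).natAbs = 2 ^ n := by
  rw [Int.natAbs_pow]; rfl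

/-- conclusions of the digit tests on `[0,1]` -/
theorem tchk_sound {P K D b m : ℕ} {x y g h : List ℤ} (hc : tchk P K D b m x y g h = true)
    (ha : apri P K D b m x y g h = true) {t : ℝ} (h0 : 0 ≤ t) (h1 : t ≤ 1) :
    |ev g t ^ 2 * ((ev x t + 2 ^ (P - 1)) ^ 2 + ev y t ^ 2) - 2 ^ (4 * P)| ≤ (D : ℝ) * 2 ^ b ∧
    |ev h t ^ 2 * ((ev x t - 2 ^ (P - 1)) ^ 2 + ev y t ^ 2) - 2 ^ (4 * P)| ≤ (D : ℝ) * 2 ^ b ∧
    |2 * 2 ^ (3 * P) * (4 ^ m * ev (derL (derL x)) t - 2 ^ (m + 1) * ev (derL y) t - ev x t)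
      + (ev x t + 2 ^ (P - 1)) * ev g t ^ 3 + (ev x t - 2 ^ (P - 1)) * ev h t ^ 3|
        ≤ (D : ℝ) * 2 ^ b ∧
    |2 * 2 ^ (3 * P) * (4 ^ m * ev (derL (derL y)) t + 2 ^ (m + 1) * ev (derL x) t - ev y t)
      + ev y t * (ev g t ^ 3 + ev h t ^ 3)| ≤ (D : ℝ) * 2 ^ b := by
  unfold tchk at hc
  unfold apri at ha
  simp only [Bool.and_eq_true, Nat.ble_eq] at hc ha
  obtain ⟨⟨⟨c1, c2⟩, c3⟩, c4⟩ := hc
  obtain ⟨⟨⟨⟨⟨⟨⟨⟨⟨⟨⟨⟨⟨a1, a2⟩, a3⟩, a4⟩, a5⟩, a6⟩, a7⟩, a8⟩, a9⟩, a9'⟩, a10⟩, a11⟩, a12⟩, a13⟩ := ha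
  have dx := deg_tp x
  have dy := deg_tp y
  have dg := deg_tp g
  have dh := deg_tp h
  have dx1 := deg_tp (derL x)
  have dy1 := deg_tp (derL y)
  have dx2 := deg_tp (derL (derL x))
  have dy2 := deg_tp (derL (derL y))
  rw [length_derL] at dx1 dy1 dx2 dy2
  rw [length_derL] at dx2 dy2
  have nx := nrm_tp x
  have ny := nrm_tp y
  have ng := nrm_tp g
  have nh := nrm_tp h
  have nx1 := nrm_tp (derL x)
  have ny1 := nrm_tp (derL y)
  have nx2 := nrm_tp (derL (derL x))
  have ny2 := nrm_tp (derL (derL y))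
  -- abstract the polynomials
  set X := tp x with hX
  set Y := tp y with hY
  set G := tp g with hG
  set H := tp h with hH
  set X1 := tp (derL x) with hX1
  set Y1 := tp (derL y) with hY1
  set X2 := tp (derL (derL x)) with hX2
  set Y2 := tp (derL (derL y)) with hY2
  have sqn : ∀ p : ℤ[X], nrm (p ^ 2) ≤ nrm p ^ 2 := by
    intro p; rw [pow_two, pow_two]; exact nrm_mul p p
  have cun : ∀ p : ℤ[X], nrm (p ^ 3) ≤ nrm p ^ 3 := by
    intro p
    have e1 : p ^ 3 = p ^ 2 * p := by ring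
    have e2 : nrm p ^ 3 = nrm p ^ 2 * nrm p := by ring
    rw [e1, e2]
    exact (nrm_mul _ _).trans (Nat.mul_le_mul_right _ (sqn p))
  have sqd : ∀ p : ℤ[X], (p ^ 2).natDegree ≤ 2 * p.natDegree := fun p => natDegree_pow_le
  have cud : ∀ p : ℤ[X], (p ^ 3).natDegree ≤ 3 * p.natDegree := fun p => natDegree_pow_le
  -- generic conclusion
  have fin : ∀ p : ℤ[X], p.natDegree < D → nrm p ≤ 2 ^ (K - 2) →
      small K D b (p.eval (2 ^ K)) = true → |aeval t p| ≤ (D : ℝ) * 2 ^ b := by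
    intro p q1 q2 q3
    have := aeval_bound (M := 2 ^ b) q1 (small_sound a8 q1 q2 q3) h0 h1
    simpa using this
  have np : ∀ p : ℤ[X], nrm (p + C (2 ^ (P - 1))) ≤ nrm p + 2 ^ (P - 1) := by
    intro p
    refine (nrm_add _ _).trans ?_
    rw [nrm_C, natAbs_two_pow]
  have nm : ∀ p : ℤ[X], nrm (p - C (2 ^ (P - 1))) ≤ nrm p + 2 ^ (P - 1) := by
    intro p
    refine (nrm_sub _ _).trans ?_
    rw [nrm_C, natAbs_two_pow]
  have dp : ∀ p : ℤ[X], (p + C (2 ^ (P - 1))).natDegree ≤ p.natDegree := by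
    intro p; rw [natDegree_add_C]
  have dm : ∀ p : ℤ[X], (p - C (2 ^ (P - 1))).natDegree ≤ p.natDegree := by
    intro p; rw [natDegree_sub_C]
  have key12 : ∀ (G A Y : ℤ[X]) (ng' na' ny' dgg daa dyy : ℕ), nrm G ≤ ng' → nrm A ≤ na' →
      nrm Y ≤ ny' → G.natDegree ≤ dgg → A.natDegree ≤ daa → Y.natDegree ≤ dyy →
      2 * dgg + 2 * max daa dyy < D →
      ng' ^ 2 * (na' ^ 2 + ny' ^ 2) + 2 ^ (4 * P) ≤ 2 ^ (K - 2) →
      small K D b ((G ^ 2 * (A ^ 2 + Y ^ 2) - C (2 ^ (4 * P))).eval (2 ^ K)) = true →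
      |aeval t (G ^ 2 * (A ^ 2 + Y ^ 2) - C (2 ^ (4 * P)))| ≤ (D : ℝ) * 2 ^ b := by
    intro G A Y ng' na' ny' dgg daa dyy h1 h2 h3 h4 h5 h6 h7 h8 h9
    apply fin _ _ _ h9
    · have e1 := natDegree_sub_le (G ^ 2 * (A ^ 2 + Y ^ 2)) (C (2 ^ (4 * P)))
      rw [natDegree_C] at e1
      have e2 := natDegree_mul_le (p := G ^ 2) (q := A ^ 2 + Y ^ 2)
      have e3 := natDegree_add_le (A ^ 2) (Y ^ 2)
      have e4 := sqd G
      have e5 := sqd A
      have e6 := sqd Y
      omega
    · refine (nrm_sub _ _).trans ?_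
      rw [nrm_C, natAbs_two_pow]
      refine le_trans ?_ h8
      apply Nat.add_le_add_right
      refine (nrm_mul _ _).trans ?_
      apply Nat.mul_le_mul
      · exact (sqn G).trans (Nat.pow_le_pow_left h1 2)
      · refine (nrm_add _ _).trans ?_
        exact Nat.add_le_add ((sqn A).trans (Nat.pow_le_pow_left h2 2))
          ((sqn Y).trans (Nat.pow_le_pow_left h3 2))
  have keyA : ∀ (c : ℤ) (p : ℤ[X]), nrm (C c * p) ≤ c.natAbs * nrm p := by
    intro c p
    have := nrm_mul (C c) p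
    rwa [nrm_C] at this
  have dC : ∀ (c : ℤ) (p : ℤ[X]), (C c * p).natDegree ≤ p.natDegree := fun c p =>
    natDegree_C_mul_le c p
  have abs4 : ((4:ℤ) ^ m).natAbs = 4 ^ m := by rw [Int.natAbs_pow]; rfl
  have abs2P : ((2:ℤ) * 2 ^ (3 * P)).natAbs = 2 * 2 ^ (3 * P) := by
    rw [Int.natAbs_mul, natAbs_two_pow]; rfl
  refine ⟨?_, ?_, ?_, ?_⟩
  · have := key12 G (X + C (2 ^ (P - 1))) Y (nl1 g) (nl1 x + 2 ^ (P - 1)) (nl1 y) (g.length - 1)
      (x.length - 1) (y.length - 1) ng ((np X).trans (by omega)) ny dg ((dp X).trans dx) dy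
      (by omega) a10 (by
        simp only [eval_sub, eval_mul, eval_pow, eval_add, eval_C, hG, hX, hY, tp_eval]
        exact c1)
    simp only [map_sub, map_mul, map_pow, map_add, aeval_C, hG, hX, hY, tp_aeval, eq_intCast, map_ofNat,
      Int.cast_pow, Int.cast_ofNat] at this
    exact this
  · have := key12 H (X - C (2 ^ (P - 1))) Y (nl1 h) (nl1 x + 2 ^ (P - 1)) (nl1 y) (h.length - 1)
      (x.length - 1) (y.length - 1) nh ((nm X).trans (by omega)) ny dh ((dm X).trans dx) dy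
      (by omega) a11 (by
        simp only [eval_sub, eval_mul, eval_pow, eval_add, eval_C, hH, hX, hY, tp_eval]
        exact c2)
    simp only [map_sub, map_mul, map_pow, map_add, aeval_C, hH, hX, hY, tp_aeval, eq_intCast, map_ofNat,
      Int.cast_pow, Int.cast_ofNat] at this
    exact this
  · have := fin (C (2 * 2 ^ (3 * P)) * (C (4 ^ m) * X2 - C (2 ^ (m + 1)) * Y1 - X)
      + (X + C (2 ^ (P - 1))) * G ^ 3 + (X - C (2 ^ (P - 1))) * H ^ 3) ?_ ?_
      (by
        simp only [eval_sub, eval_mul, eval_pow, eval_add, eval_C, hG, hH, hX, hY, hX2, hY1,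
          tp_eval]
        exact c3)
    · simp only [map_sub, map_mul, map_pow, map_add, aeval_C, hG, hH, hX, hY, hX2, hY1, tp_aeval,
        eq_intCast, map_ofNat, Int.cast_pow, Int.cast_ofNat, Int.cast_mul] at this
      exact this
    · have e1 := natDegree_add_le (C (2 * 2 ^ (3 * P)) * (C (4 ^ m) * X2 - C (2 ^ (m + 1)) * Y1 - X)
        + (X + C (2 ^ (P - 1))) * G ^ 3) ((X - C (2 ^ (P - 1))) * H ^ 3)
      have e2 := natDegree_add_le (C (2 * 2 ^ (3 * P)) * (C (4 ^ m) * X2 - C (2 ^ (m + 1)) * Y1 - X))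
        ((X + C (2 ^ (P - 1))) * G ^ 3)
      have e3 := natDegree_mul_le (p := X + C (2 ^ (P - 1))) (q := G ^ 3)
      have e4 := natDegree_mul_le (p := X - C (2 ^ (P - 1))) (q := H ^ 3)
      have e5 := cud G
      have e6 := cud H
      have e7 := dp X
      have e8 := dm X
      have e9 := dC (2 * 2 ^ (3 * P)) (C (4 ^ m) * X2 - C (2 ^ (m + 1)) * Y1 - X)
      have e10 := natDegree_sub_le (C (4 ^ m) * X2 - C (2 ^ (m + 1)) * Y1) X
      have e11 := natDegree_sub_le (C (4 ^ m) * X2) (C (2 ^ (m + 1)) * Y1)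
      have e12 := dC (4 ^ m) X2
      have e13 := dC (2 ^ (m + 1)) Y1
      omega
    · refine le_trans ?_ a12
      refine (nrm_add _ _).trans ?_
      rw [mul_add (nl1 x + 2 ^ (P - 1)), ← add_assoc]
      apply Nat.add_le_add
      · refine (nrm_add _ _).trans ?_
        apply Nat.add_le_add
        · refine (keyA _ _).trans ?_
          rw [abs2P]
          apply Nat.mul_le_mul_left
          refine (nrm_sub _ _).trans ?_
          apply Nat.add_le_add _ nx
          refine (nrm_sub _ _).trans ?_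
          apply Nat.add_le_add
          · refine (keyA _ _).trans ?_
            rw [abs4]; exact Nat.mul_le_mul_left _ nx2
          · refine (keyA _ _).trans ?_
            rw [natAbs_two_pow]; exact Nat.mul_le_mul_left _ ny1
        · refine (nrm_mul _ _).trans ?_
          exact Nat.mul_le_mul ((np X).trans (by omega)) ((cun G).trans (Nat.pow_le_pow_left ng 3))
      · refine (nrm_mul _ _).trans ?_
        exact Nat.mul_le_mul ((nm X).trans (by omega)) ((cun H).trans (Nat.pow_le_pow_left nh 3))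
  · have := fin (C (2 * 2 ^ (3 * P)) * (C (4 ^ m) * Y2 + C (2 ^ (m + 1)) * X1 - Y)
      + Y * (G ^ 3 + H ^ 3)) ?_ ?_
      (by
        simp only [eval_sub, eval_mul, eval_pow, eval_add, eval_C, hG, hH, hX, hY, hY2, hX1,
          tp_eval]
        exact c4)
    · simp only [map_sub, map_mul, map_pow, map_add, aeval_C, hG, hH, hX, hY, hY2, hX1, tp_aeval,
        eq_intCast, map_ofNat, Int.cast_pow, Int.cast_ofNat, Int.cast_mul] at this
      exact this
    · have e1 := natDegree_add_le (C (2 * 2 ^ (3 * P)) * (C (4 ^ m) * Y2 + C (2 ^ (m + 1)) * X1 - Y))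
        (Y * (G ^ 3 + H ^ 3))
      have e3 := natDegree_mul_le (p := Y) (q := G ^ 3 + H ^ 3)
      have e4 := natDegree_add_le (G ^ 3) (H ^ 3)
      have e5 := cud G
      have e6 := cud H
      have e9 := dC (2 * 2 ^ (3 * P)) (C (4 ^ m) * Y2 + C (2 ^ (m + 1)) * X1 - Y)
      have e10 := natDegree_sub_le (C (4 ^ m) * Y2 + C (2 ^ (m + 1)) * X1) Y
      have e11 := natDegree_add_le (C (4 ^ m) * Y2) (C (2 ^ (m + 1)) * X1)
      have e12 := dC (4 ^ m) Y2
      have e13 := dC (2 ^ (m + 1)) X1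
      omega
    · refine le_trans ?_ a13
      refine (nrm_add _ _).trans ?_
      apply Nat.add_le_add
      · refine (keyA _ _).trans ?_
        rw [abs2P]
        apply Nat.mul_le_mul_left
        refine (nrm_sub _ _).trans ?_
        apply Nat.add_le_add _ ny
        refine (nrm_add _ _).trans ?_
        apply Nat.add_le_add
        · refine (keyA _ _).trans ?_
          rw [abs4]; exact Nat.mul_le_mul_left _ ny2
        · refine (keyA _ _).trans ?_
          rw [natAbs_two_pow]; exact Nat.mul_le_mul_left _ nx1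
      · refine (nrm_mul _ _).trans ?_
        refine Nat.mul_le_mul ny ((nrm_add _ _).trans ?_)
        exact Nat.add_le_add ((cun G).trans (Nat.pow_le_pow_left ng 3))
          ((cun H).trans (Nat.pow_le_pow_left nh 3))

end Run7.h874
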