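import Pool.Agent.Run7.h874.Snd2

/-!
# Analytic facts about a certified polynomial trajectory
-/

set_option autoImplicit false

namespace Run7.h874

open Complex Set

/-- position of a coefficient-list trajectory, local time `s`, step `2^(-m)` -/
noncomputable def zt (P m : ℕ) (x y : List ℤ) (s : ℝ) : ℂ :=
  ⟨ev x (2 ^ m * s) / 2 ^ P, ev y (2 ^ m * s) / 2 ^ P⟩
noncomputable def vt (P m : ℕ) (x y : List ℤ) (s : ℝ) : ℂ :=
  ⟨2 ^ m * ev (derL x) (2 ^ m * s) / 2 ^ P, 2 ^ m * ev (derL y) (2 ^ m * s) / 2 ^ P⟩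
noncomputable def at' (P m : ℕ) (x y : List ℤ) (s : ℝ) : ℂ :=
  ⟨4 ^ m * ev (derL (derL x)) (2 ^ m * s) / 2 ^ P, 4 ^ m * ev (derL (derL y)) (2 ^ m * s) / 2 ^ P⟩

theorem hasDerivAt_mk {f g : ℝ → ℝ} {f' g' t : ℝ} (hf : HasDerivAt f f' t) (hg : HasDerivAt g g' t) :
    HasDerivAt (fun s => (⟨f s, g s⟩ : ℂ)) ⟨f', g'⟩ t := by
  have h1 := hf.ofReal_comp
  have h2 := hg.ofReal_comp
  have h3 := h1.add (h2.mul_const I)
  have e1 : (fun s => (⟨f s, g s⟩ : ℂ)) = fun s => (f s : ℂ) + (g s : ℂ) * I := by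
    funext s; exact (Complex.re_add_im (⟨f s, g s⟩ : ℂ)).symm
  have e2 : (⟨f', g'⟩ : ℂ) = (f' : ℂ) + (g' : ℂ) * I := (Complex.re_add_im (⟨f', g'⟩ : ℂ)).symm
  rw [e1, e2]
  exact h3

theorem ev_scaled (l : List ℤ) (m : ℕ) (s : ℝ) :
    HasDerivAt (fun s => ev l (2 ^ m * s)) (2 ^ m * ev (derL l) (2 ^ m * s)) s := by
  have h1 := ev_hasDerivAt l (2 ^ m * s)
  have h2 : HasDerivAt (fun s : ℝ => 2 ^ m * s) (2 ^ m) s := by
    simpa using (hasDerivAt_id s).const_mul ((2:ℝ) ^ m)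
  have := h1.comp s h2
  rw [mul_comm]
  exact this

theorem zt_deriv (P m : ℕ) (x y : List ℤ) (s : ℝ) : HasDerivAt (zt P m x y) (vt P m x y s) s := by
  unfold zt vt
  exact hasDerivAt_mk ((ev_scaled x m s).div_const _) ((ev_scaled y m s).div_const _)

theorem vt_deriv (P m : ℕ) (x y : List ℤ) (s : ℝ) : HasDerivAt (vt P m x y) (at' P m x y s) s := by
  unfold vt at'
  have e4 : (4:ℝ) ^ m = 2 ^ m * 2 ^ m := by rw [← mul_pow]; norm_num
  have h1 := ((ev_scaled (derL x) m s).const_mul ((2:ℝ) ^ m)).div_const ((2:ℝ) ^ P)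
  have h2 := ((ev_scaled (derL y) m s).const_mul ((2:ℝ) ^ m)).div_const ((2:ℝ) ^ P)
  have := hasDerivAt_mk h1 h2
  convert this using 2 <;> rw [e4] <;> ring

/-- comparison of `g^3 w` with the kernel -/
theorem gc_approx {w : ℂ} {g η gb : ℝ} (hη : 0 ≤ η) (hη1 : η ≤ 1/4096) (hg : 0 < g)
    (hgb : g * (1025 / 1024) ≤ gb) (h : |g ^ 2 * ‖w‖ ^ 2 - 1| ≤ η) :
    ‖gc 0 w - ((g ^ 3 : ℝ) : ℂ) * w‖ ≤ 3.34 * η * gb ^ 2 ∧ (1 + 1/2048) / gb ≤ ‖w‖ := by
  have hgb0 : 0 < gb := by nlinarith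
  set r := ‖w‖ with hr
  have hr0 : 0 ≤ r := norm_nonneg _
  set κ := g * r with hκ
  have hκ0 : 0 ≤ κ := by positivity
  have h1 : |κ ^ 2 - 1| ≤ η := by rw [hκ, mul_pow]; exact h
  have h2 : |κ - 1| ≤ η := by
    have e : κ ^ 2 - 1 = (κ - 1) * (κ + 1) := by ring
    rw [e, abs_mul] at h1
    have : 1 ≤ |κ + 1| := by rw [abs_of_nonneg (by linarith)]; linarith
    nlinarith [abs_nonneg (κ - 1)]
  have h2' := abs_le.mp h2
  have hκ1 : 0 < κ := by linarith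
  have hrpos : 0 < r := by
    rcases hr0.lt_or_eq with h | h
    · exact h
    · rw [hκ, ← h, mul_zero] at hκ1; exact absurd hκ1 (lt_irrefl _)
  have h3 : |1 - κ ^ 3| ≤ 3.3 * η := by
    have e : 1 - κ ^ 3 = -((κ - 1) * (κ ^ 2 + κ + 1)) := by ring
    rw [e, abs_neg, abs_mul]
    have : |κ ^ 2 + κ + 1| ≤ 3.3 := by
      rw [abs_of_nonneg (by positivity)]
      nlinarith
    nlinarith [abs_nonneg (κ - 1), abs_nonneg (κ ^ 2 + κ + 1)]
  constructor
  · have e1 : gc 0 w - ((g ^ 3 : ℝ) : ℂ) * w = (((1 - κ ^ 3) / r ^ 3 : ℝ) : ℂ) * w := by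
      unfold gc
      rw [max_eq_left (norm_nonneg _), ← hr, Complex.real_smul, ← sub_mul, ← Complex.ofReal_sub]
      congr 2
      rw [hκ]
      field_simp
    rw [e1, norm_mul, Complex.norm_real, Real.norm_eq_abs, ← hr, abs_div, abs_of_pos (a := r ^ 3)
      (by positivity)]
    have e2 : |1 - κ ^ 3| / r ^ 3 * r = |1 - κ ^ 3| / r ^ 2 := by field_simp
    rw [e2, div_le_iff₀ (by positivity)]
    have e3 : gb ^ 2 * r ^ 2 ≥ 1 := by
      have : gb * r ≥ 1 := by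
        have : g * (1025/1024) * r ≤ gb * r := by nlinarith
        have e4 : g * (1025/1024) * r = κ * (1025/1024) := by rw [hκ]; ring
        rw [e4] at this
        nlinarith
      calc gb ^ 2 * r ^ 2 = (gb * r) ^ 2 := by ring
        _ ≥ 1 := by nlinarith
    nlinarith [h3, mul_nonneg hη (sq_nonneg (gb * r))]
  · rw [div_le_iff₀ hgb0]
    have : g * (1025/1024) * r ≤ gb * r := by nlinarith
    have e4 : g * (1025/1024) * r = κ * (1025/1024) := by rw [hκ]; ring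
    rw [e4] at this
    nlinarith

end Run7.h874
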