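import Pool.Agent.Run7.h874.Snd3

/-!
# Facts about one trajectory on one step
-/

set_option autoImplicit false

namespace Run7.h874

open Complex Set

theorem ev_hd_tl (l : List ℤ) (t : ℝ) : ev l t = hd0 l + t * ev (tl0 l) t := by
  cases l <;> simp [ev, hd0, tl0]

theorem ev_near_hd (l : List ℤ) {t : ℝ} (h0 : 0 ≤ t) (h1 : t ≤ 1) :
    |ev l t - hd0 l| ≤ nl1 (tl0 l) := by
  rw [ev_hd_tl l t, add_sub_cancel_left, abs_mul, abs_of_nonneg h0]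
  have := ev_bound (tl0 l) h0 h1
  nlinarith [abs_nonneg (ev (tl0 l) t)]

theorem norm_mk_le (a b : ℝ) : ‖(⟨a, b⟩ : ℂ)‖ ≤ |a| + |b| := by
  have := Complex.norm_le_abs_re_add_abs_im (⟨a, b⟩ : ℂ)
  simpa using this

/-- the size of the acceleration defect -/
noncomputable def dfc (P D b g1 g2 : ℕ) : ℝ :=
  (D : ℝ) * 2 ^ b / 2 ^ (4 * P) * (1 + 3 * (((g1 : ℝ) / 2 ^ 20) ^ 2 + ((g2 : ℝ) / 2 ^ 20) ^ 2))

theorem defect {P K D b m g1 g2 : ℕ} {x y g h : List ℤ}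
    (hc : tchk P K D b m x y g h = true) (ha : apri P K D b m x y g h = true)
    (hg1 : 2 ^ 20 * 1025 * nl1 g ≤ 2 ^ P * 1024 * g1)
    (hg2 : 2 ^ 20 * 1025 * nl1 h ≤ 2 ^ P * 1024 * g2)
    (hg3 : nl1 (tl0 g) < (hd0 g).toNat) (hg4 : nl1 (tl0 h) < (hd0 h).toNat)
    {s : ℝ} (h0 : 0 ≤ s) (h1 : 2 ^ m * s ≤ 1) :
    ‖at' P m x y s - (-2 * I * vt P m x y s + zt P m x y s
      - (1/2 : ℂ) * (gc 0 (zt P m x y s + 1/2) + gc 0 (zt P m x y s - 1/2)))‖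
        ≤ dfc P D b g1 g2 ∧
    (1 + 1/2048) / ((g1 : ℝ) / 2 ^ 20) ≤ ‖zt P m x y s + 1/2‖ ∧
    (1 + 1/2048) / ((g2 : ℝ) / 2 ^ 20) ≤ ‖zt P m x y s - 1/2‖ := by
  have ht0 : 0 ≤ 2 ^ m * s := by positivity
  obtain ⟨c1, c2, c3, c4⟩ := tchk_sound hc ha ht0 h1
  have hP : 1 ≤ P := by
    unfold apri at ha
    simp only [Bool.and_eq_true, Nat.ble_eq] at ha
    exact ha.1.1.1.1.1.2
  have hDb : D * 2 ^ (b + 12) ≤ 2 ^ (4 * P) := by
    unfold apri at ha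
    simp only [Bool.and_eq_true, Nat.ble_eq] at ha
    exact ha.1.1.1.1.2
  set τ := 2 ^ m * s with hτ
  set S : ℝ := 2 ^ P with hS
  have hSpos : 0 < S := by positivity
  have hS4 : (2:ℝ) ^ (4 * P) = S ^ 4 := by rw [hS, ← pow_mul, mul_comm]
  have hS3 : (2:ℝ) ^ (3 * P) = S ^ 3 := by rw [hS, ← pow_mul, mul_comm]
  have hSh : (2:ℝ) ^ (P - 1) = S / 2 := by
    rw [hS]
    obtain ⟨q, rfl⟩ : ∃ q, P = q + 1 := ⟨P - 1, by omega⟩
    simp [pow_succ]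
  set η : ℝ := (D : ℝ) * 2 ^ b / S ^ 4 with hη
  have hη0 : 0 ≤ η := by positivity
  have hη1 : η ≤ 1/4096 := by
    rw [hη, div_le_iff₀ (by positivity), ← hS4]
    have : ((D * 2 ^ (b + 12) : ℕ) : ℝ) ≤ ((2 ^ (4 * P) : ℕ) : ℝ) := by exact_mod_cast hDb
    push_cast at this
    rw [pow_add] at this
    norm_num at this
    linarith
  rw [hS4, hSh] at c1 c2
  rw [hS3, hSh] at c3
  rw [hS3] at c4
  -- G and H
  have gpos : ∀ l : List ℤ, nl1 (tl0 l) < (hd0 l).toNat → 0 < ev l τ := by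
    intro l hl
    have h2 := (abs_le.mp (ev_near_hd l ht0 h1)).1
    have h3 : ((nl1 (tl0 l) : ℕ) : ℤ) < hd0 l := by omega
    have h4 : ((nl1 (tl0 l) : ℕ) : ℝ) < ((hd0 l : ℤ) : ℝ) := by exact_mod_cast h3
    linarith
  have hgb : ∀ (l : List ℤ) (g1 : ℕ), 2 ^ 20 * 1025 * nl1 l ≤ 2 ^ P * 1024 * g1 →
      ev l τ / S * (1025/1024) ≤ (g1 : ℝ) / 2 ^ 20 := by
    intro l g1 hl
    have h2 : ev l τ ≤ nl1 l := (le_abs_self _).trans (ev_bound l ht0 h1)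
    have h3 : ((2 ^ 20 * 1025 * nl1 l : ℕ) : ℝ) ≤ ((2 ^ P * 1024 * g1 : ℕ) : ℝ) := by
      exact_mod_cast hl
    push_cast at h3
    rw [← hS] at h3
    rw [div_mul_eq_mul_div, div_le_div_iff₀ hSpos (by positivity)]
    norm_num at h3 ⊢
    nlinarith
  have hz1 : zt P m x y s + 1/2 = ⟨(ev x τ + S / 2) / S, ev y τ / S⟩ := by
    apply Complex.ext <;> simp [zt, ← hτ, ← hS]
    field_simp
  have hz2 : zt P m x y s - 1/2 = ⟨(ev x τ - S / 2) / S, ev y τ / S⟩ := by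
    apply Complex.ext <;> simp [zt, ← hτ, ← hS]
    field_simp
  have hn : ∀ a b : ℝ, ‖(⟨a / S, b / S⟩ : ℂ)‖ ^ 2 = (a ^ 2 + b ^ 2) / S ^ 2 := by
    intro a b
    rw [← Complex.normSq_eq_norm_sq, Complex.normSq_mk]
    field_simp
  have hk : ∀ (l : List ℤ) (A B : ℝ), |ev l τ ^ 2 * (A ^ 2 + B ^ 2) - S ^ 4| ≤ D * 2 ^ b →
      |(ev l τ / S) ^ 2 * ‖(⟨A / S, B / S⟩ : ℂ)‖ ^ 2 - 1| ≤ η := by
    intro l A B h2
    rw [hn]
    have e : (ev l τ / S) ^ 2 * ((A ^ 2 + B ^ 2) / S ^ 2) - 1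
        = (ev l τ ^ 2 * (A ^ 2 + B ^ 2) - S ^ 4) / S ^ 4 := by field_simp
    rw [e, abs_div, abs_of_pos (a := S ^ 4) (by positivity), hη]
    exact div_le_div_of_nonneg_right h2 (by positivity)
  have A1 := gc_approx (w := zt P m x y s + 1/2) hη0 hη1 (div_pos (gpos g hg3) hSpos)
    (hgb g g1 hg1) (by rw [hz1]; exact hk g _ _ c1)
  have A2 := gc_approx (w := zt P m x y s - 1/2) hη0 hη1 (div_pos (gpos h hg4) hSpos)
    (hgb h g2 hg2) (by rw [hz2]; exact hk h _ _ c2)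
  refine ⟨?_, A1.2, A2.2⟩
  set G := ev g τ / S with hG
  set H := ev h τ / S with hH
  have hdec : at' P m x y s - (-2 * I * vt P m x y s + zt P m x y s
      - (1/2 : ℂ) * (gc 0 (zt P m x y s + 1/2) + gc 0 (zt P m x y s - 1/2)))
      = ⟨(2 * S ^ 3 * (4 ^ m * ev (derL (derL x)) τ - 2 ^ (m + 1) * ev (derL y) τ - ev x τ)
          + (ev x τ + S / 2) * ev g τ ^ 3 + (ev x τ - S / 2) * ev h τ ^ 3) / (2 * S ^ 4),
         (2 * S ^ 3 * (4 ^ m * ev (derL (derL y)) τ + 2 ^ (m + 1) * ev (derL x) τ - ev y τ)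
          + ev y τ * (ev g τ ^ 3 + ev h τ ^ 3)) / (2 * S ^ 4)⟩
        + (1/2 : ℂ) * ((gc 0 (zt P m x y s + 1/2) - ((G ^ 3 : ℝ) : ℂ) * (zt P m x y s + 1/2))
          + (gc 0 (zt P m x y s - 1/2) - ((H ^ 3 : ℝ) : ℂ) * (zt P m x y s - 1/2))) := by
    have hmain : at' P m x y s - (-2 * I * vt P m x y s + zt P m x y s)
        + (1/2 : ℂ) * (((G ^ 3 : ℝ) : ℂ) * (zt P m x y s + 1/2)
          + ((H ^ 3 : ℝ) : ℂ) * (zt P m x y s - 1/2))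
        = ⟨(2 * S ^ 3 * (4 ^ m * ev (derL (derL x)) τ - 2 ^ (m + 1) * ev (derL y) τ - ev x τ)
          + (ev x τ + S / 2) * ev g τ ^ 3 + (ev x τ - S / 2) * ev h τ ^ 3) / (2 * S ^ 4),
         (2 * S ^ 3 * (4 ^ m * ev (derL (derL y)) τ + 2 ^ (m + 1) * ev (derL x) τ - ev y τ)
          + ev y τ * (ev g τ ^ 3 + ev h τ ^ 3)) / (2 * S ^ 4)⟩ := by
      rw [hz1, hz2]
      apply Complex.ext
      · simp [at', vt, zt, ← hτ, ← hS, hG, hH, ← Complex.ofReal_pow, -Complex.ofReal_pow]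
        field_simp
        ring
      · simp [at', vt, zt, ← hτ, ← hS, hG, hH, ← Complex.ofReal_pow, -Complex.ofReal_pow]
        field_simp
        ring
    rw [← hmain]; ring
  rw [hdec]
  have hb1 : |(2 * S ^ 3 * (4 ^ m * ev (derL (derL x)) τ - 2 ^ (m + 1) * ev (derL y) τ - ev x τ)
          + (ev x τ + S / 2) * ev g τ ^ 3 + (ev x τ - S / 2) * ev h τ ^ 3) / (2 * S ^ 4)|
        ≤ η / 2 := by
    rw [abs_div, abs_of_pos (a := 2 * S ^ 4) (by positivity), hη, div_div, mul_comm (S ^ 4)]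
    exact div_le_div_of_nonneg_right c3 (by positivity)
  have hb2 : |(2 * S ^ 3 * (4 ^ m * ev (derL (derL y)) τ + 2 ^ (m + 1) * ev (derL x) τ - ev y τ)
          + ev y τ * (ev g τ ^ 3 + ev h τ ^ 3)) / (2 * S ^ 4)| ≤ η / 2 := by
    rw [abs_div, abs_of_pos (a := 2 * S ^ 4) (by positivity), hη, div_div, mul_comm (S ^ 4)]
    exact div_le_div_of_nonneg_right c4 (by positivity)
  refine (norm_add_le _ _).trans ?_
  have e1 := (norm_mk_le _ _).trans (add_le_add hb1 hb2)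
  have e2 : ‖(1/2 : ℂ) * ((gc 0 (zt P m x y s + 1/2) - ((G ^ 3 : ℝ) : ℂ) * (zt P m x y s + 1/2))
          + (gc 0 (zt P m x y s - 1/2) - ((H ^ 3 : ℝ) : ℂ) * (zt P m x y s - 1/2)))‖
        ≤ 1/2 * (3.34 * η * ((g1:ℝ) / 2 ^ 20) ^ 2 + 3.34 * η * ((g2:ℝ) / 2 ^ 20) ^ 2) := by
    rw [norm_mul]
    have : ‖(1/2 : ℂ)‖ = 1/2 := by norm_num
    rw [this]
    exact mul_le_mul_of_nonneg_left ((norm_add_le _ _).trans (add_le_add A1.1 A2.1)) (by norm_num)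
  have e3 : dfc P D b g1 g2 = η * (1 + 3 * (((g1 : ℝ) / 2 ^ 20) ^ 2 + ((g2 : ℝ) / 2 ^ 20) ^ 2)) := by
    rw [dfc, hη, hS4]
  rw [e3]
  have e4 : 0 ≤ η * ((g1:ℝ) / 2 ^ 20) ^ 2 := by positivity
  have e5 : 0 ≤ η * ((g2:ℝ) / 2 ^ 20) ^ 2 := by positivity
  linarith

end Run7.h874
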