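import Pool.Agent.Run7.h874.One

/-!
# Soundness of the checks on one trajectory
-/

set_option autoImplicit false

namespace Run7.h874

open Complex Set

theorem SD.h_pos (d : SD) : 0 < d.h := by unfold SD.h; positivity

theorem scaled_le {m : ℕ} {s : ℝ} {d : SD} (hm : d.m = m) (hs : s ∈ Icc 0 d.h) :
    2 ^ m * s ≤ 1 := by
  have := hs.2
  unfold SD.h at this
  rw [hm] at this
  have h2 : (0:ℝ) < 2 ^ m := by positivity
  calc 2 ^ m * s ≤ 2 ^ m * (2 ^ m)⁻¹ := mul_le_mul_of_nonneg_left this h2.le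
    _ = 1 := mul_inv_cancel₀ h2.ne'

theorem floor_bound (P k : ℕ) (hP : 20 ≤ P) (hk : 0 < k) :
    (1:ℝ) / k - 1 / 10 ^ 6 ≤ ((2 ^ P / k : ℕ) : ℝ) / 2 ^ P := by
  have h1 := Nat.lt_div_mul_add (a := 2 ^ P) (b := k) hk
  have h2 : ((2 ^ P : ℕ) : ℝ) < ((2 ^ P / k * k + k : ℕ) : ℝ) := by exact_mod_cast h1
  push_cast at h2
  have hk' : (0:ℝ) < k := by exact_mod_cast hk
  have h3 : (10:ℝ) ^ 6 ≤ 2 ^ P := by
    calc (10:ℝ) ^ 6 ≤ 2 ^ 20 := by norm_num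
      _ ≤ 2 ^ P := pow_le_pow_right₀ (by norm_num) hP
  have hP0 : (0:ℝ) < 2 ^ P := by positivity
  rw [le_div_iff₀ hP0, sub_mul]
  have h4 : (1:ℝ) ≤ 1 / 10 ^ 6 * 2 ^ P := by
    rw [one_div, inv_mul_eq_div, le_div_iff₀ (by positivity)]; linarith
  have h5 : (1:ℝ) / k * 2 ^ P ≤ ((2 ^ P / k : ℕ) : ℝ) + 1 := by
    rw [one_div, inv_mul_eq_div, div_le_iff₀ hk']
    linarith
  linarith

/-- facts about one trajectory on one step -/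
structure TF (p : Prm) (d : SD) (x y : List ℤ) : Prop where
  ref : Ref d.h (dfc p.P (4 * p.N + 1) d.b d.g1 d.g2) ((d.g1 : ℝ) / 2 ^ 20) ((d.g2 : ℝ) / 2 ^ 20)
    (zt p.P d.m x y) (vt p.P d.m x y)
  nz : ∀ s ∈ Icc 0 d.h, ‖zt p.P d.m x y s‖ ≤ 9
  nv : ∀ s ∈ Icc 0 d.h, ‖vt p.P d.m x y s‖ ≤ 900
  k0 : d.kind = 0 → ∀ s ∈ Icc 0 d.h, ‖zt p.P d.m x y s - hubZ‖ ≤ (d.D : ℝ) / 2 ^ 20
  k2 : 2 ≤ d.kind → ∀ s ∈ Icc 0 d.h, ‖-zt p.P d.m x y s - hubZ‖ ≤ (d.D : ℝ) / 2 ^ 20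
  f0 : d.fl = 0 → ∀ s ∈ Icc 0 d.h, 11/10^6 ≤ (zt p.P d.m x y s).im
  f2 : 2 ≤ d.fl → ∀ s ∈ Icc 0 d.h, (zt p.P d.m x y s).im ≤ -(19/10^6)
  f1 : d.fl = 1 → ∀ s ∈ Icc 0 d.h, (vt p.P d.m x y s).im ≤ -(19/10^3) ∧
    (p.c = 0 → (zt p.P d.m x y s).re ≤ -1/2 - 19/10^6) ∧
    (p.c = 1 → 1/2 + 19/10^6 ≤ (zt p.P d.m x y s).re) ∧
    (2 ≤ p.c → -1/2 + 19/10^6 ≤ (zt p.P d.m x y s).re ∧
      (zt p.P d.m x y s).re ≤ 1/2 - 19/10^6)

/-- `s32` is the integer part of `2^P √3/2` -/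
def Prm.sok (p : Prm) : Prop := |(p.s32 : ℝ) - 2 ^ p.P * (Real.sqrt 3 / 2)| ≤ 1

theorem norm_sq_mk (a b : ℝ) : ‖(⟨a, b⟩ : ℂ)‖ ^ 2 = a ^ 2 + b ^ 2 := by
  rw [← Complex.normSq_eq_norm_sq, Complex.normSq_mk]; ring

theorem dist_aux {P : ℕ} {x y : List ℤ} {c : ℤ} {D : ℕ} {r : ℝ} (hP : 20 ≤ P)
    (hr : |(c:ℝ) - 2 ^ P * r| ≤ 1)
    (h : nl1 x ^ 2 + (nl1 (tl0 y) + (hd0 y - c).natAbs + 1) ^ 2 ≤ (2 ^ (P - 20) * D) ^ 2)
    {t : ℝ} (h0 : 0 ≤ t) (h1 : t ≤ 1) :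
    ‖(⟨ev x t / 2 ^ P, ev y t / 2 ^ P⟩ : ℂ) - ⟨0, r⟩‖ ≤ (D:ℝ) / 2 ^ 20 := by
  have hP0 : (0:ℝ) < 2 ^ P := by positivity
  have hx := ev_bound x h0 h1
  have hy : |ev y t - 2 ^ P * r| ≤ ((nl1 (tl0 y) + (hd0 y - c).natAbs + 1 : ℕ) : ℝ) := by
    have e1 := ev_near_hd y h0 h1
    have e2 : |((hd0 y : ℤ) : ℝ) - c| = (((hd0 y - c).natAbs : ℕ) : ℝ) := by
      rw [Nat.cast_natAbs]; push_cast; rfl
    have e3 : ev y t - 2 ^ P * r = (ev y t - hd0 y) + ((hd0 y : ℝ) - c) + (c - 2 ^ P * r) := by ring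
    rw [e3]
    push_cast
    calc _ ≤ |ev y t - hd0 y| + |(hd0 y : ℝ) - c| + |(c:ℝ) - 2 ^ P * r| := abs_add_three _ _ _
      _ ≤ _ := by rw [e2]; push_cast; linarith
  have e4 : (⟨ev x t / 2 ^ P, ev y t / 2 ^ P⟩ : ℂ) - ⟨0, r⟩
      = ⟨ev x t / 2 ^ P, (ev y t - 2 ^ P * r) / 2 ^ P⟩ := by
    apply Complex.ext
    · simp
    · simp; field_simp
  rw [e4]
  have h2 : ‖(⟨ev x t / 2 ^ P, (ev y t - 2 ^ P * r) / 2 ^ P⟩ : ℂ)‖ ^ 2 ≤ ((D:ℝ) / 2 ^ 20) ^ 2 := by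
    rw [norm_sq_mk, div_pow, div_pow, ← add_div, div_le_iff₀ (by positivity)]
    have h3 : ((nl1 x ^ 2 + (nl1 (tl0 y) + (hd0 y - c).natAbs + 1) ^ 2 : ℕ) : ℝ)
        ≤ (((2 ^ (P - 20) * D) ^ 2 : ℕ) : ℝ) := by exact_mod_cast h
    have h4 : ev x t ^ 2 ≤ (nl1 x : ℝ) ^ 2 := by
      rw [← sq_abs (ev x t)]; exact pow_le_pow_left₀ (abs_nonneg _) hx 2
    have h5 : (ev y t - 2 ^ P * r) ^ 2 ≤ ((nl1 (tl0 y) + (hd0 y - c).natAbs + 1 : ℕ) : ℝ) ^ 2 := by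
      rw [← sq_abs (ev y t - 2 ^ P * r)]; exact pow_le_pow_left₀ (abs_nonneg _) hy 2
    have h6 : (((2 ^ (P - 20) * D) ^ 2 : ℕ) : ℝ) = ((D:ℝ) / 2 ^ 20) ^ 2 * (2 ^ P) ^ 2 := by
      have : (2:ℝ) ^ P = 2 ^ (P - 20) * 2 ^ 20 := by rw [← pow_add]; congr 1; omega
      push_cast
      rw [this]; field_simp
    rw [h6] at h3
    push_cast at h3 h5
    linarith
  exact (sq_le_sq₀ (norm_nonneg _) (by positivity)).mp h2

theorem hubZ_eq : hubZ = ⟨0, Real.sqrt 3 / 2⟩ := by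
  apply Complex.ext <;> simp [hubZ]

theorem tone_sound {p : Prm} {d : SD} {x y g h : List ℤ} (ht : tone p d x y g h = true)
    (hP : 20 ≤ p.P) (hs : p.sok) : TF p d x y := by
  unfold tone at ht
  simp only [Bool.and_eq_true, Nat.ble_eq] at ht
  obtain ⟨⟨⟨⟨⟨⟨⟨⟨⟨hc, ha⟩, q1⟩, q2⟩, q3⟩, q4⟩, q5⟩, q6⟩, q7⟩, q8⟩ := ht
  have q3' : nl1 (tl0 g) < (hd0 g).toNat := by simpa using q3
  have q4' : nl1 (tl0 h) < (hd0 h).toNat := by simpa using q4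
  have hP0 : (0:ℝ) < 2 ^ p.P := by positivity
  have hτ : ∀ s ∈ Icc 0 d.h, 0 ≤ 2 ^ d.m * s ∧ 2 ^ d.m * s ≤ 1 := fun s hs =>
    ⟨mul_nonneg (by positivity) hs.1, scaled_le rfl hs⟩
  have hdef : ∀ s ∈ Icc 0 d.h, _ := fun s hs =>
    defect hc ha q1 q2 q3' q4' hs.1 (hτ s hs).2
  refine ⟨⟨?_, ?_, ?_, ?_⟩, ?_, ?_, ?_, ?_, ?_, ?_, ?_⟩
  · intro s _; exact zt_deriv _ _ _ _ _
  · intro s hs; exact ⟨_, vt_deriv _ _ _ _ _, (hdef s hs).1⟩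
  · intro s hs; exact (hdef s hs).2.1
  · intro s hs; exact (hdef s hs).2.2
  · intro s hs
    obtain ⟨t0, t1⟩ := hτ s hs
    unfold zt
    refine (norm_mk_le _ _).trans ?_
    rw [abs_div, abs_div, abs_of_pos hP0, ← add_div, div_le_iff₀ hP0]
    have h1 := ev_bound x t0 t1
    have h2 := ev_bound y t0 t1
    have h3 : ((nl1 x + nl1 y : ℕ) : ℝ) ≤ ((9 * 2 ^ p.P : ℕ) : ℝ) := by exact_mod_cast q5
    push_cast at h3
    linarith
  · intro s hs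
    obtain ⟨t0, t1⟩ := hτ s hs
    unfold vt
    refine (norm_mk_le _ _).trans ?_
    have hm : (0:ℝ) < 2 ^ d.m := by positivity
    rw [abs_div, abs_div, abs_of_pos hP0, ← add_div, div_le_iff₀ hP0, abs_mul, abs_mul,
      abs_of_pos hm, ← mul_add]
    have h1 := ev_bound (derL x) t0 t1
    have h2 := ev_bound (derL y) t0 t1
    have h3 : ((2 ^ d.m * (nl1 (derL x) + nl1 (derL y)) : ℕ) : ℝ) ≤ ((900 * 2 ^ p.P : ℕ) : ℝ) := by
      exact_mod_cast q6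
    push_cast at h3
    nlinarith
  · intro hk s hs
    obtain ⟨t0, t1⟩ := hτ s hs
    rw [hk] at q7
    simp only [Nat.ble_eq] at q7
    unfold Prm.sok at *
    have := dist_aux (x := x) (y := y) (c := p.s32) (r := Real.sqrt 3 / 2) hP
      (by assumption) q7 t0 t1
    rw [hubZ_eq]
    exact this
  · intro hk s hs
    obtain ⟨t0, t1⟩ := hτ s hs
    have q7' : nl1 x ^ 2 + (nl1 (tl0 y) + (hd0 y - (-p.s32)).natAbs + 1) ^ 2
        ≤ (2 ^ (p.P - 20) * d.D) ^ 2 := by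
      split at q7
      · rename_i h; omega
      · rename_i h; omega
      · rw [sub_neg_eq_add]; simpa using q7
    have hr : |((-p.s32 : ℤ) : ℝ) - 2 ^ p.P * (-(Real.sqrt 3 / 2))| ≤ 1 := by
      have h5 : |(p.s32 : ℝ) - 2 ^ p.P * (Real.sqrt 3 / 2)| ≤ 1 := by assumption
      have e : ((-p.s32 : ℤ) : ℝ) - 2 ^ p.P * (-(Real.sqrt 3 / 2))
          = -((p.s32 : ℝ) - 2 ^ p.P * (Real.sqrt 3 / 2)) := by push_cast; ring
      rw [e, abs_neg]; exact h5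
    have := dist_aux (x := x) (y := y) (c := -p.s32) (r := -(Real.sqrt 3 / 2)) hP hr q7' t0 t1
    have e : -zt p.P d.m x y s - hubZ = -(zt p.P d.m x y s - ⟨0, -(Real.sqrt 3 / 2)⟩) := by
      rw [hubZ_eq]
      apply Complex.ext <;> simp
      ring
    rw [e, norm_neg]
    exact this
  · intro hf s hs
    obtain ⟨t0, t1⟩ := hτ s hs
    rw [hf] at q8
    simp only [decide_eq_true_eq] at q8
    have h1 := (abs_le.mp (ev_near_hd y t0 t1)).1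
    have h3 := floor_bound p.P 83000 hP (by norm_num)
    have h4 : (11:ℝ)/10^6 ≤ ((2 ^ p.P / 83000 : ℕ) : ℝ) / 2 ^ p.P := by
      refine le_trans ?_ h3; norm_num
    generalize 2 ^ p.P / 83000 = k at q8 h4
    have h2 : (k:ℝ) + nl1 (tl0 y) ≤ hd0 y := by exact_mod_cast q8
    change 11/10^6 ≤ ev y (2 ^ d.m * s) / 2 ^ p.P
    refine h4.trans ?_
    apply div_le_div_of_nonneg_right _ hP0.le
    linarith
  · intro hf s hs
    obtain ⟨t0, t1⟩ := hτ s hs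
    have q8' : hd0 y + nl1 (tl0 y) ≤ -((2 ^ p.P / 50000 : ℕ) : ℤ) := by
      split at q8
      · rename_i h; omega
      · rename_i h; omega
      · simpa using q8
    have h1 := (abs_le.mp (ev_near_hd y t0 t1)).2
    have h3 := floor_bound p.P 50000 hP (by norm_num)
    have h4 : (19:ℝ)/10^6 ≤ ((2 ^ p.P / 50000 : ℕ) : ℝ) / 2 ^ p.P := by
      refine le_trans ?_ h3; norm_num
    generalize 2 ^ p.P / 50000 = k at q8' h4
    have h2 : (hd0 y : ℝ) + nl1 (tl0 y) ≤ -(k:ℝ) := by exact_mod_cast q8'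
    change ev y (2 ^ d.m * s) / 2 ^ p.P ≤ -(19/10^6)
    rw [div_le_iff₀ hP0]
    rw [le_div_iff₀ hP0] at h4
    linarith
  · intro hf s hs
    obtain ⟨t0, t1⟩ := hτ s hs
    rw [hf] at q8
    simp only [Bool.and_eq_true, decide_eq_true_eq] at q8
    obtain ⟨r1, r2⟩ := q8
    refine ⟨?_, ?_, ?_, ?_⟩
    · have h1 := (abs_le.mp (ev_near_hd (derL y) t0 t1)).2
      have h3 := floor_bound p.P 50 hP (by norm_num)
      have h4 : (19:ℝ)/10^3 ≤ ((2 ^ p.P / 50 : ℕ) : ℝ) / 2 ^ p.P := by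
        refine le_trans ?_ h3; norm_num
      generalize 2 ^ p.P / 50 = k at r1 h4
      have h2 : 2 ^ d.m * ((hd0 (derL y) : ℝ) + nl1 (tl0 (derL y))) ≤ -(k:ℝ) := by
        exact_mod_cast r1
      change 2 ^ d.m * ev (derL y) (2 ^ d.m * s) / 2 ^ p.P ≤ -(19/10^3)
      rw [div_le_iff₀ hP0]
      rw [le_div_iff₀ hP0] at h4
      have hm : (0:ℝ) < 2 ^ d.m := by positivity
      nlinarith
    · intro hcc
      rw [hcc] at r2
      simp only [decide_eq_true_eq] at r2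
      have h1 := (abs_le.mp (ev_near_hd x t0 t1)).2
      have h3 := floor_bound p.P 50000 hP (by norm_num)
      have h4 : (19:ℝ)/10^6 ≤ ((2 ^ p.P / 50000 : ℕ) : ℝ) / 2 ^ p.P := by
        refine le_trans ?_ h3; norm_num
      generalize 2 ^ p.P / 50000 = k at r2 h4
      have h2 : (hd0 x : ℝ) + nl1 (tl0 x) ≤ -((2:ℝ) ^ (p.P - 1) + k) := by exact_mod_cast r2
      have hh : (2:ℝ) ^ p.P = 2 ^ (p.P - 1) * 2 := by rw [← pow_succ]; congr 1; omega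
      change ev x (2 ^ d.m * s) / 2 ^ p.P ≤ -1/2 - 19/10^6
      rw [div_le_iff₀ hP0]
      rw [le_div_iff₀ hP0] at h4
      linarith
    · intro hcc
      rw [hcc] at r2
      simp only [decide_eq_true_eq] at r2
      have h1 := (abs_le.mp (ev_near_hd x t0 t1)).1
      have h3 := floor_bound p.P 50000 hP (by norm_num)
      have h4 : (19:ℝ)/10^6 ≤ ((2 ^ p.P / 50000 : ℕ) : ℝ) / 2 ^ p.P := by
        refine le_trans ?_ h3; norm_num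
      generalize 2 ^ p.P / 50000 = k at r2 h4
      have h2 : (2:ℝ) ^ (p.P - 1) + k ≤ (hd0 x : ℝ) - nl1 (tl0 x) := by exact_mod_cast r2
      have hh : (2:ℝ) ^ p.P = 2 ^ (p.P - 1) * 2 := by rw [← pow_succ]; congr 1; omega
      change 1/2 + 19/10^6 ≤ ev x (2 ^ d.m * s) / 2 ^ p.P
      rw [le_div_iff₀ hP0]
      rw [le_div_iff₀ hP0] at h4
      linarith
    · intro hcc
      have r2' : hd0 x + nl1 (tl0 x) ≤ ((2 ^ (p.P - 1) - 2 ^ p.P / 50000 : ℕ) : ℤ) ∧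
          -((2 ^ (p.P - 1) - 2 ^ p.P / 50000 : ℕ) : ℤ) ≤ hd0 x - nl1 (tl0 x) := by
        split at r2
        · rename_i h; omega
        · rename_i h; omega
        · simpa using r2
      obtain ⟨r3, r4⟩ := r2'
      have hsub : 2 ^ p.P / 50000 ≤ 2 ^ (p.P - 1) := by
        have : 2 ^ p.P = 2 ^ (p.P - 1) * 2 := by rw [← pow_succ]; congr 1; omega
        rw [this]
        refine Nat.div_le_of_le_mul ?_
        nlinarith [Nat.two_pow_pos (p.P - 1)]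
      have h3 := floor_bound p.P 50000 hP (by norm_num)
      have h4 : (19:ℝ)/10^6 ≤ ((2 ^ p.P / 50000 : ℕ) : ℝ) / 2 ^ p.P := by
        refine le_trans ?_ h3; norm_num
      have hh : (2:ℝ) ^ p.P = 2 ^ (p.P - 1) * 2 := by rw [← pow_succ]; congr 1; omega
      rw [le_div_iff₀ hP0] at h4
      have hcast : (((2 ^ (p.P - 1) - 2 ^ p.P / 50000 : ℕ) : ℤ) : ℝ)
          = 2 ^ (p.P - 1) - ((2 ^ p.P / 50000 : ℕ) : ℝ) := by
        rw [Int.cast_natCast, Nat.cast_sub hsub]; push_cast; ring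
      have h5 : ((hd0 x + nl1 (tl0 x) : ℤ) : ℝ) ≤ (((2 ^ (p.P - 1) - 2 ^ p.P / 50000 : ℕ) : ℤ) : ℝ) := by
        exact_mod_cast r3
      have h6 : ((-((2 ^ (p.P - 1) - 2 ^ p.P / 50000 : ℕ) : ℤ) : ℤ) : ℝ)
          ≤ ((hd0 x - nl1 (tl0 x) : ℤ) : ℝ) := by exact_mod_cast r4
      rw [hcast] at h5
      rw [Int.cast_neg, hcast] at h6
      rw [Int.cast_add, Int.cast_natCast] at h5
      rw [Int.cast_sub, Int.cast_natCast] at h6
      have h7 := abs_le.mp (ev_near_hd x t0 t1)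
      change -1/2 + 19/10^6 ≤ ev x (2 ^ d.m * s) / 2 ^ p.P ∧
        ev x (2 ^ d.m * s) / 2 ^ p.P ≤ 1/2 - 19/10^6
      generalize 2 ^ p.P / 50000 = k at h4 h5 h6
      rw [le_div_iff₀ hP0, div_le_iff₀ hP0]
      constructor <;> linarith [h7.1, h7.2]

end Run7.h874
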